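import Mathlib

set_option autoImplicit false

open MvPolynomial Module Matrix

namespace Pool.Agent.Lib.MP_86e60f_al.HW

/-- The polynomial ring in three variables. -/
abbrev Q (k : Type*) [Field k] := MvPolynomial (Fin 3) k

/-- The weighted count of a graded dimension function. -/
noncomputable def psi (σ : ℤ) (n : ℤ → ℕ) : ℤ := ∑ᶠ j, (2 * j + σ) * (n j : ℤ)

/-- Finite support. -/
def Fs (n : ℤ → ℕ) : Prop := (Function.support n).Finite

/-- Sum of the weights. -/
def sg (w : Fin 3 → ℤ) : ℤ := w 0 + w 1 + w 2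

section Graded

variable {k S : Type*} [Field k] [AddCommGroup S] [Module k S]

/-- Endomorphisms of degree `j` of a graded space. -/
def Wd (G : ℤ → Submodule k S) (j : ℤ) : Submodule k (Module.End k S) where
  carrier := {A | ∀ i, ∀ x ∈ G i, A x ∈ G (i + j)}
  add_mem' := fun ha hb i x hx => Submodule.add_mem _ (ha i x hx) (hb i x hx)
  zero_mem' := fun _ _ _ => Submodule.zero_mem _
  smul_mem' := fun c _ ha i x hx => Submodule.smul_mem _ c (ha i x hx)

/-- Koszul cocycles of degree `j` for a triple of operators. -/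
def Zd (G : ℤ → Submodule k S) (T : Fin 3 → Module.End k S) (w : Fin 3 → ℤ) (j : ℤ) :
    Submodule k (Fin 3 → Module.End k S) where
  carrier := {A | (∀ l, A l ∈ Wd G (j + w l)) ∧
    ∀ l m, T l * A m + A l * T m = T m * A l + A m * T l}
  add_mem' := by
    rintro A B ⟨ha, ha'⟩ ⟨hb, hb'⟩
    refine ⟨fun l => Submodule.add_mem _ (ha l) (hb l), fun l m => ?_⟩
    simp only [Pi.add_apply, mul_add, add_mul]
    rw [add_add_add_comm, ha' l m, hb' l m, add_add_add_comm]
  zero_mem' := ⟨fun _ => Submodule.zero_mem _, fun l m => by simp⟩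
  smul_mem' := by
    rintro c A ⟨ha, ha'⟩
    refine ⟨fun l => Submodule.smul_mem _ c (ha l), fun l m => ?_⟩
    simp only [Pi.smul_apply, mul_smul_comm, smul_mul_assoc, ← smul_add, ha' l m]

end Graded

section Free

variable {k ι : Type*} [Field k]

/-- Homogeneous polynomials of degree `j`. -/
noncomputable def Qd (w : Fin 3 → ℤ) (j : ℤ) : Submodule k (Q k) :=
  weightedHomogeneousSubmodule k w j

/-- Degree `i` part of the graded free module with generators in degrees `b p`. -/
noncomputable def FQ (w : Fin 3 → ℤ) (b : ι → ℤ) (i : ℤ) : Submodule k (ι → Q k) :=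
  Submodule.pi Set.univ fun p => Qd w (i - b p)

/-- The component of degree `i` of a vector of polynomials. -/
noncomputable def cmp (w : Fin 3 → ℤ) (b : ι → ℤ) (i : ℤ) : (ι → Q k) →ₗ[k] (ι → Q k) :=
  LinearMap.pi fun p => weightedHomogeneousComponent w (i - b p) ∘ₗ LinearMap.proj p

/-- A homogeneous submodule containing everything of large degree. -/
structure HomJ (w : Fin 3 → ℤ) (b : ι → ℤ) (J : Submodule (Q k) (ι → Q k)) : Prop where
  hom : ∀ v ∈ J, ∀ i, cmp w b i v ∈ J
  big : ∃ N : ℤ, ∀ i, N ≤ i → ∀ v ∈ FQ (k := k) w b i, v ∈ J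

/-- The quotient of the free module by `J`. -/
abbrev SQ (J : Submodule (Q k) (ι → Q k)) := (ι → Q k) ⧸ J

variable (w : Fin 3 → ℤ) (b : ι → ℤ) (J : Submodule (Q k) (ι → Q k))

/-- Graded pieces of the quotient. -/
noncomputable def Sd (i : ℤ) : Submodule k (SQ J) :=
  (FQ w b i).map (J.mkQ.restrictScalars k)

/-- Multiplication by the variables on the quotient. -/
noncomputable def Xs (l : Fin 3) : Module.End k (SQ J) :=
  (LinearMap.lsmul (Q k) (SQ J) (X l)).restrictScalars k

/-- Tangent vectors of degree `j`. -/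
noncomputable def Td (j : ℤ) : Submodule k (J →ₗ[Q k] SQ J) where
  carrier := {φ | ∀ i, ∀ v : J, v.1 ∈ FQ w b i → φ v ∈ Sd w b J (i + j)}
  add_mem' := fun ha hb i v hv => Submodule.add_mem _ (ha i v hv) (hb i v hv)
  zero_mem' := fun _ _ _ => Submodule.zero_mem _
  smul_mem' := fun c _ ha i v hv => Submodule.smul_mem _ c (ha i v hv)

/-- Maps of degree `j` from the free module to the quotient, as tuples of values. -/
noncomputable def Gd (j : ℤ) : Submodule k (ι → SQ J) :=
  Submodule.pi Set.univ fun p => Sd w b J (j + b p)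

/-- Linear maps of degree `j` from the free module to the quotient that respect the
polynomial action on `J`. -/
noncomputable def Dd (j : ℤ) : Submodule k ((ι → Q k) →ₗ[k] SQ J) where
  carrier := {Λ | (∀ i, ∀ v ∈ FQ (k := k) w b i, Λ v ∈ Sd w b J (i + j)) ∧
    ∀ q : Q k, ∀ v ∈ J, Λ (q • v) = q • Λ v}
  add_mem' := by
    rintro A B ⟨ha, ha'⟩ ⟨hb, hb'⟩
    refine ⟨fun i v hv => Submodule.add_mem _ (ha i v hv) (hb i v hv), fun q v hv => ?_⟩
    simp only [LinearMap.add_apply, ha' q v hv, hb' q v hv, smul_add]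
  zero_mem' := ⟨fun _ _ _ => Submodule.zero_mem _, fun q v _ => by simp⟩
  smul_mem' := by
    rintro c A ⟨ha, ha'⟩
    refine ⟨fun i v hv => Submodule.smul_mem _ c (ha i v hv), fun q v hv => ?_⟩
    simp only [LinearMap.smul_apply, ha' q v hv]
    exact smul_comm c q (A v)

end Free

/-- A model of a graded complete intersection curve `Q / (f, g)`: the algebra `L` plays the role
of `Q / (f, g, y - 1)`. -/
structure Md (k L : Type*) [Field k] [CommRing L] [Algebra k L] where
  w : Fin 3 → ℤ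
  c : Fin 3 → L
  f : Q k
  g : Q k
  y : Q k
  d : ℤ
  e : ℤ
  n : ℤ
  hw : ∀ l, 0 < w l
  hf : f ∈ Qd w d
  hg : g ∈ Qd w e
  hy : y ∈ Qd w n
  hd : 0 < d
  he : 0 < e
  hn : 0 < n
  ev_y : aeval c y = 1
  hker : ∀ j, ∀ q ∈ Qd (k := k) w j, aeval c q = 0 ↔ q ∈ Ideal.span {f, g}
  hsyz : ∀ p q : Q k, p * f = q * g → ∃ r, p = r * g ∧ q = r * f

namespace Md

variable {k L ι : Type*} [Field k] [CommRing L] [Algebra k L] (D : Md k L)

/-- Evaluation. -/
noncomputable def ev : Q k →ₐ[k] L := aeval D.c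

/-- The ideal of the curve. -/
noncomputable def P : Ideal (Q k) := Ideal.span {D.f, D.g}

/-- The socle degree. -/
def a : ℤ := D.d + D.e - sg D.w

/-- Degree `j` part of the coordinate ring. -/
noncomputable def V (j : ℤ) : Submodule k L := (Qd D.w j).map D.ev.toLinearMap

/-- Degree `j` part of the localisation at `y`. -/
noncomputable def H (j : ℤ) : Submodule k L := ⨆ r : ℕ, D.V (j + r * D.n)

/-- The residue functional. -/
def IsLam (lam : L →ₗ[k] k) : Prop :=
  ∀ j, ∀ u ∈ D.H j, (u ∈ D.V j ↔ ∀ v ∈ D.V (D.a - j), lam (u * v) = 0)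

/-- Nonzero homogeneous elements of the localisation are invertible. -/
def Dom : Prop := Nontrivial L ∧ ∀ j, ∀ u ∈ D.H j, u ≠ 0 → ∃ v ∈ D.H (-j), u * v = 1

theorem sec_exists (j : ℤ) :
    ∃ s : L →ₗ[k] Q k, (∀ u, s u ∈ Qd D.w j) ∧ ∀ u ∈ D.V j, D.ev (s u) = u := by
  let φ : Qd (k := k) D.w j →ₗ[k] D.V j := D.ev.toLinearMap.submoduleMap (Qd D.w j)
  have hφ : Function.Surjective φ := LinearMap.submoduleMap_surjective _ _
  obtain ⟨s, hs⟩ := φ.exists_rightInverse_of_surjective (LinearMap.range_eq_top.mpr hφ)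
  obtain ⟨π, hπ⟩ := (D.V j).subtype.exists_leftInverse_of_injective (Submodule.ker_subtype _)
  refine ⟨(Qd D.w j).subtype ∘ₗ s ∘ₗ π, fun u => (s (π u)).2, fun u hu => ?_⟩
  have h1 : π u = ⟨u, hu⟩ := LinearMap.congr_fun hπ ⟨u, hu⟩
  have h2 : φ (s ⟨u, hu⟩) = ⟨u, hu⟩ := LinearMap.congr_fun hs ⟨u, hu⟩
  simp only [LinearMap.comp_apply, Submodule.subtype_apply, h1]
  exact congrArg Subtype.val h2

/-- A linear section of evaluation in degree `j`. -/
noncomputable def sec (j : ℤ) : L →ₗ[k] Q k := (D.sec_exists j).choose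

theorem sec_mem (j : ℤ) (u : L) : D.sec j u ∈ Qd D.w j := (D.sec_exists j).choose_spec.1 u

theorem ev_sec (j : ℤ) {u : L} (hu : u ∈ D.V j) : D.ev (D.sec j u) = u :=
  (D.sec_exists j).choose_spec.2 u hu

/-- Evaluation of vectors. -/
noncomputable def evv : (ι → Q k) →ₗ[k] (ι → L) := D.ev.toLinearMap.compLeft ι

/-- The ideal times the free module. -/
noncomputable def PF : Submodule (Q k) (ι → Q k) := Submodule.pi Set.univ fun _ => D.P

variable (b : ι → ℤ)

/-- Section of evaluation of vectors in degree `i`. -/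
noncomputable def secv (i : ℤ) : (ι → L) →ₗ[k] (ι → Q k) :=
  LinearMap.pi fun q => D.sec (i - b q) ∘ₗ LinearMap.proj q

/-- Degree `i` part of the free module over the coordinate ring. -/
noncomputable def FV (i : ℤ) : Submodule k (ι → L) :=
  Submodule.pi Set.univ fun p => D.V (i - b p)

/-- Degree `i` part of the free module over the localisation. -/
noncomputable def FH (i : ℤ) : Submodule k (ι → L) :=
  Submodule.pi Set.univ fun p => D.H (i - b p)

/-- A graded submodule of finite colength of the free module. -/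
structure Lat (E : ℤ → Submodule k (ι → L)) : Prop where
  le : ∀ i, E i ≤ D.FV b i
  smul : ∀ s i, ∀ v ∈ D.V s, ∀ x ∈ E i, v • x ∈ E (i + s)
  big : ∃ N : ℤ, ∀ i, N ≤ i → E i = D.FV b i

/-- Matrices of degree `j` over the localisation. -/
noncomputable def Mat (j : ℤ) : Submodule k (Matrix ι ι L) where
  carrier := {U | ∀ p q, U p q ∈ D.H (j + b q - b p)}
  add_mem' := fun ha hb p q => Submodule.add_mem _ (ha p q) (hb p q)
  zero_mem' := fun _ _ => Submodule.zero_mem _
  smul_mem' := fun c _ ha p q => Submodule.smul_mem _ c (ha p q)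

variable [Fintype ι]

/-- Matrices of degree `j` mapping the family `X` into the family `Y`. -/
noncomputable def Hm (X Y : ℤ → Submodule k (ι → L)) (j : ℤ) : Submodule k (Matrix ι ι L) where
  carrier := {U | U ∈ D.Mat b j ∧ ∀ i, ∀ x ∈ X i, U *ᵥ x ∈ Y (i + j)}
  add_mem' := by
    rintro A B ⟨ha, ha'⟩ ⟨hb, hb'⟩
    refine ⟨Submodule.add_mem _ ha hb, fun i x hx => ?_⟩
    rw [Matrix.add_mulVec]
    exact Submodule.add_mem _ (ha' i x hx) (hb' i x hx)
  zero_mem' := ⟨Submodule.zero_mem _, fun i x _ => by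
    rw [Matrix.zero_mulVec]; exact Submodule.zero_mem _⟩
  smul_mem' := by
    rintro c A ⟨ha, ha'⟩
    refine ⟨Submodule.smul_mem _ c ha, fun i x hx => ?_⟩
    rw [Matrix.smul_mulVec]
    exact Submodule.smul_mem _ c (ha' i x hx)

variable (E : ℤ → Submodule k (ι → L))

/-- Degree `s` part of the dual module, as row vectors. -/
noncomputable def Ed (s : ℤ) : Submodule k (ι → L) where
  carrier := {u | (∀ q, u q ∈ D.H (s + b q)) ∧ ∀ i, ∀ x ∈ E i, u ⬝ᵥ x ∈ D.V (i + s)}
  add_mem' := by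
    rintro A B ⟨ha, ha'⟩ ⟨hb, hb'⟩
    refine ⟨fun q => Submodule.add_mem _ (ha q) (hb q), fun i x hx => ?_⟩
    rw [add_dotProduct]
    exact Submodule.add_mem _ (ha' i x hx) (hb' i x hx)
  zero_mem' := ⟨fun _ => Submodule.zero_mem _, fun i x _ => by
    rw [zero_dotProduct]; exact Submodule.zero_mem _⟩
  smul_mem' := by
    rintro c A ⟨ha, ha'⟩
    refine ⟨fun q => Submodule.smul_mem _ c (ha q), fun i x hx => ?_⟩
    rw [smul_dotProduct]
    exact Submodule.smul_mem _ c (ha' i x hx)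

/-- Endomorphisms of degree `j` factoring through the free module. -/
noncomputable def PE (j : ℤ) : Submodule k (Matrix ι ι L) :=
  Submodule.span k {U | ∃ s, ∃ A ∈ D.Hm b (D.FV b) E s, ∃ B ∈ D.Hm b E (D.FV b) (j - s),
    U = A * B}

/-- The submodule of the polynomial free module attached to `E`. -/
noncomputable def JE : Submodule (Q k) (ι → Q k) :=
  Submodule.span (Q k) {v | ∃ i, v ∈ FQ D.w b i ∧ D.evv v ∈ E i}

/-- Class in the quotient of a vector of degree `i`. -/
noncomputable def cl (i : ℤ) : (ι → L) →ₗ[k] SQ (D.JE b E) :=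
  (D.JE b E).mkQ.restrictScalars k ∘ₗ D.secv b i

/-- Classes of the columns of a matrix of degree `j`. -/
noncomputable def th (j : ℤ) : Matrix ι ι L →ₗ[k] (ι → SQ (D.JE b E)) where
  toFun U := fun p => D.cl b E (j + b p) (fun q => U q p)
  map_add' U U' := by
    funext p
    exact (D.cl b E (j + b p)).map_add (fun q => U q p) (fun q => U' q p)
  map_smul' c U := by
    funext p
    exact (D.cl b E (j + b p)).map_smul c (fun q => U q p)

variable [DecidableEq ι]

omit [Fintype ι] in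
theorem single_mem {q : Q k} {s : ℤ} (hq : q ∈ Qd D.w s) (hP : q ∈ D.P) (p : ι) :
    Pi.single p q ∈ D.JE b E := by
  refine Submodule.subset_span ⟨s + b p, fun p' _ => ?_, ?_⟩
  · by_cases h : p' = p
    · subst h
      simpa using hq
    · rw [Pi.single_eq_of_ne h]
      exact Submodule.zero_mem _
  · have h0 : D.evv (Pi.single p q : ι → Q k) = 0 := by
      funext p'
      by_cases h : p' = p
      · subst h
        simpa [evv, ev] using (D.hker s q hq).2 hP
      · simp [evv, Pi.single_eq_of_ne h]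
    rw [h0]
    exact Submodule.zero_mem _

/-- The vector `f e_p`. -/
noncomputable def fe (p : ι) : D.JE b E :=
  ⟨Pi.single p D.f, D.single_mem b E D.hf (Ideal.subset_span (by simp)) p⟩

/-- The vector `g e_p`. -/
noncomputable def ge (p : ι) : D.JE b E :=
  ⟨Pi.single p D.g, D.single_mem b E D.hg (Ideal.subset_span (by simp)) p⟩

/-- Restriction of a tangent vector to the equations. -/
noncomputable def rr : (D.JE b E →ₗ[Q k] SQ (D.JE b E)) →ₗ[k]
    (ι → SQ (D.JE b E)) × (ι → SQ (D.JE b E)) where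
  toFun φ := (fun p => φ (D.fe b E p), fun p => φ (D.ge b E p))
  map_add' _ _ := rfl
  map_smul' _ _ := rfl

/-- Rigidity: maps from the module to the quotient come from maps to the free module. -/
def gRig : Prop :=
  ∀ j, ∀ φ ∈ Td D.w b (D.JE b E) j, D.rr b E φ = 0 →
    ∃ U ∈ D.Hm b E (D.FV b) j, ∀ i, ∀ v : D.JE b E, v.1 ∈ FQ D.w b i →
      φ v = D.cl b E (i + j) (U *ᵥ D.evv v.1)

/-- The consequence of torsion freeness of the tensor product with the dual. -/
def gTF : Prop :=
  ∀ j, ∀ φ ∈ Td D.w b (D.JE b E) j, D.rr b E φ = 0 →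
    ∀ (t : ℤ) (r : ℕ) (i : Fin r → ℤ) (v : Fin r → D.JE b E) (u : Fin r → ι → L)
      (z : Fin r → ι → Q k), (∀ s, (v s).1 ∈ FQ D.w b (i s)) → (∀ s, u s ∈ D.Ed b E (t - i s)) →
      (∀ s, z s ∈ FQ D.w b (i s + j)) → (∀ s, φ (v s) = (D.JE b E).mkQ (z s)) →
      ∑ s, vecMulVec (D.evv (v s).1) (u s) = 0 → ∑ s, u s ⬝ᵥ D.evv (z s) ∈ D.V (t + j)

omit [DecidableEq ι] in
/-- Rigidity in terms of families of linear maps. -/
def vRig : Prop :=
  ∀ (j : ℤ) (ψ : ℤ → (ι → L) →ₗ[k] (ι → L)), (∀ i, ∀ x ∈ E i, ψ i x ∈ D.FV b (i + j)) →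
    (∀ s i, ∀ v ∈ D.V s, ∀ x ∈ E i, ψ (i + s) (v • x) - v • ψ i x ∈ E (i + s + j)) →
    ∃ U ∈ D.Mat b j, ∀ i, ∀ x ∈ E i, ψ i x - U *ᵥ x ∈ E (i + j)

end Md

end Pool.Agent.Lib.MP_86e60f_al.HW
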