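import Mathlib
import Pool.Agent.Lib.MP_86e60f_al.HW.Defs

set_option autoImplicit false

open MvPolynomial Module Matrix

namespace Pool.Agent.Lib.MP_86e60f_al.HW

/-- Vectors over a quotient ring that are images of homogeneous vectors of degree `i`, the
generator `e_p` having degree `b p`. -/
def pc {k ι : Type*} [Field k] (w : Fin 3 → ℤ) (b : ι → ℤ) (P : Ideal (MvPolynomial (Fin 3) k))
    (i : ℤ) : Set (ι → MvPolynomial (Fin 3) k ⧸ P) :=
  {x | ∃ v : ι → MvPolynomial (Fin 3) k,
    (∀ p, (v p).IsWeightedHomogeneous w (i - b p)) ∧ ∀ p, x p = Ideal.Quotient.mk P (v p)}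

/-- Reduction of vectors modulo an ideal. -/
noncomputable def mkA {k ι : Type*} [Field k] (P : Ideal (Q k)) :
    (ι → Q k) →ₗ[Q k] (ι → Q k ⧸ P) :=
  (Algebra.linearMap (Q k) (Q k ⧸ P)).compLeft ι

/-- The Hasse type operator `t ^ l ↦ (l - j0 choose c) t ^ l` on Laurent series. -/
noncomputable def Dh (k : Type*) {L : Type*} [Field k] [CommRing L] [Algebra k L] (j0 : ℤ) (c : ℕ) :
    HahnSeries ℤ L →ₗ[k] HahnSeries ℤ L where
  toFun F :=
    { coeff := fun l => (Ring.choose (l - j0) c : ℤ) • F.coeff l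
      isPWO_support' := F.isPWO_support.mono (fun l hl h0 => hl (by
        change (Ring.choose (l - j0) c : ℤ) • F.coeff l = 0
        rw [h0, smul_zero])) }
  map_add' F G := by
    ext l
    simp [smul_add]
  map_smul' r F := by
    ext l
    simp only [HahnSeries.coeff_smul, RingHom.id_apply]
    exact smul_comm _ _ _

theorem coeff_Dh (k : Type*) {L : Type*} [Field k] [CommRing L] [Algebra k L] (j0 : ℤ) (c : ℕ)
    (F : HahnSeries ℤ L) (l : ℤ) :
    (Dh k j0 c F).coeff l = (Ring.choose (l - j0) c : ℤ) • F.coeff l := rfl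

namespace Md

variable {k L : Type*} [Field k] [CommRing L] [Algebra k L] (D : Md k L)

/-- Laurent series with homogeneous coefficients. -/
noncomputable def HH : Submodule k (HahnSeries ℤ L) where
  carrier := {F | ∀ j, F.coeff j ∈ D.H j}
  add_mem' := fun ha hb j => by
    rw [HahnSeries.coeff_add]; exact Submodule.add_mem _ (ha j) (hb j)
  zero_mem' := fun _ => Submodule.zero_mem _
  smul_mem' := fun c _ ha j => by
    rw [HahnSeries.coeff_smul]; exact Submodule.smul_mem _ c (ha j)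

/-- Those of order at least `b`. -/
noncomputable def HT (b : ℤ) : Submodule k (HahnSeries ℤ L) where
  carrier := {F | F ∈ D.HH ∧ ∀ j, j < b → F.coeff j = 0}
  add_mem' := by
    rintro F G ⟨ha, ha'⟩ ⟨hb, hb'⟩
    refine ⟨Submodule.add_mem _ ha hb, fun j hj => ?_⟩
    rw [HahnSeries.coeff_add, ha' j hj, hb' j hj, add_zero]
  zero_mem' := ⟨Submodule.zero_mem _, fun _ _ => rfl⟩
  smul_mem' := by
    rintro c F ⟨ha, ha'⟩
    refine ⟨Submodule.smul_mem _ c ha, fun j hj => ?_⟩
    rw [HahnSeries.coeff_smul, ha' j hj, smul_zero]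

/-- The completed coordinate ring. -/
noncomputable def RR : Submodule k (HahnSeries ℤ L) where
  carrier := {F | ∀ j, F.coeff j ∈ D.V j}
  add_mem' := fun ha hb j => by
    rw [HahnSeries.coeff_add]; exact Submodule.add_mem _ (ha j) (hb j)
  zero_mem' := fun _ => Submodule.zero_mem _
  smul_mem' := fun c _ ha j => by
    rw [HahnSeries.coeff_smul]; exact Submodule.smul_mem _ c (ha j)

variable (I : Submodule k (HahnSeries ℤ L))

/-- A fractional ideal of the completed ring. -/
structure SLat : Prop where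
  low : ∃ b, I ≤ D.HT b
  mul : ∀ a ∈ D.RR, ∀ g ∈ I, a * g ∈ I
  big : ∃ N, D.HT N ≤ I

/-- A lift of a module map from `I` to the quotient by `I`. -/
structure Adm (Φ : HahnSeries ℤ L →ₗ[k] HahnSeries ℤ L) : Prop where
  low : ∃ b, ∀ g ∈ I, Φ g ∈ D.HT b
  lin : ∀ a ∈ D.RR, ∀ g ∈ I, Φ (a * g) - a * Φ g ∈ I

/-- Rigidity of a fractional ideal. -/
def Rig : Prop := ∀ Φ, D.Adm I Φ → ∃ U ∈ D.HH, ∀ g ∈ I, Φ g - U * g ∈ I

/-- The consequence of torsion freeness of the tensor product with the dual. -/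
def Bal : Prop :=
  ∀ Φ, D.Adm I Φ → ∀ (r : ℕ) (g u : Fin r → HahnSeries ℤ L), (∀ s, g s ∈ I) → (∀ s, u s ∈ D.HH) →
    (∀ s, ∀ h ∈ I, u s * h ∈ D.RR) → ∑ s, g s * u s = 0 → ∑ s, u s * Φ (g s) ∈ D.RR

/-- Leading coefficients in degree `j`. -/
noncomputable def Ld (j : ℤ) : Submodule k L :=
  (I ⊓ D.HT j).map (HahnSeries.coeff.linearMap j)

/-- Leading coefficients lift to series with a gap of length `m`. -/
def Pm (m : ℕ) : Prop :=
  ∀ j, ∀ c ∈ D.Ld I j, ∃ F ∈ I, F.coeff j = c ∧ ∀ i, i < j + m → i ≠ j → F.coeff i = 0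

/-- The rank one graded module of leading coefficients. -/
noncomputable def EU (i : ℤ) : Submodule k (Unit → L) :=
  Submodule.pi Set.univ fun _ => D.Ld I i

end Md

/-- A graded subspace of Laurent series. -/
def Grd {k L : Type*} [Field k] [CommRing L] [Algebra k L] (I : Submodule k (HahnSeries ℤ L)) :
    Prop :=
  ∀ F ∈ I, ∀ j, HahnSeries.single j (F.coeff j) ∈ I

end Pool.Agent.Lib.MP_86e60f_al.HW
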