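import Mathlib
import Pool.Agent.Lib.MP_86e60f_al.HW.SDefs

set_option autoImplicit false

open MvPolynomial Module Matrix

namespace Pool.Agent.Lib.MP_86e60f_al.HW

section Poly

variable {k ι : Type*} [Field k] {w : Fin 3 → ℤ}

theorem mem_Qd {j : ℤ} {q : Q k} : q ∈ Qd w j ↔ q.IsWeightedHomogeneous w j := Iff.rfl

theorem Qd_mul {i j : ℤ} {p q : Q k} (hp : p ∈ Qd w i) (hq : q ∈ Qd w j) :
    p * q ∈ Qd w (i + j) := IsWeightedHomogeneous.mul hp hq

theorem Qd_one : (1 : Q k) ∈ Qd w 0 := isWeightedHomogeneous_one k w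

theorem Qd_C (c : k) : (C c : Q k) ∈ Qd w 0 := isWeightedHomogeneous_C w c

theorem Qd_X (l : Fin 3) : (X l : Q k) ∈ Qd w (w l) := isWeightedHomogeneous_X k w l

theorem Qd_pow {i : ℤ} {p : Q k} (hp : p ∈ Qd w i) (r : ℕ) : p ^ r ∈ Qd w (r * i) := by
  have := IsWeightedHomogeneous.pow hp r
  rwa [nsmul_eq_mul] at this

theorem Qd_monomial (α : Fin 3 →₀ ℕ) (c : k) :
    (monomial α c : Q k) ∈ Qd w (Finsupp.weight w α) :=
  isWeightedHomogeneous_monomial w α c rfl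

theorem weight_eq (α : Fin 3 →₀ ℕ) :
    Finsupp.weight w α = α 0 * w 0 + α 1 * w 1 + α 2 * w 2 := by
  rw [Finsupp.weight_apply, Finsupp.sum_fintype _ _ (by simp), Fin.sum_univ_three]
  simp

theorem le_weight' (hw : ∀ l, 0 < w l) (α : Fin 3 →₀ ℕ) (l : Fin 3) :
    (α l : ℤ) ≤ Finsupp.weight w α := by
  rw [weight_eq]
  have h0 := hw 0
  have h1 := hw 1
  have h2 := hw 2
  have a0 : (0 : ℤ) ≤ α 0 := Int.natCast_nonneg _
  have a1 : (0 : ℤ) ≤ α 1 := Int.natCast_nonneg _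
  have a2 : (0 : ℤ) ≤ α 2 := Int.natCast_nonneg _
  fin_cases l <;> simp only [Fin.zero_eta, Fin.mk_one, Fin.reduceFinMk] <;> nlinarith

theorem weight_nonneg' (hw : ∀ l, 0 < w l) (α : Fin 3 →₀ ℕ) : 0 ≤ Finsupp.weight w α :=
  (Int.natCast_nonneg _).trans (le_weight' hw α 0)

theorem Qd_neg (hw : ∀ l, 0 < w l) {j : ℤ} (hj : j < 0) {q : Q k} (hq : q ∈ Qd w j) : q = 0 := by
  ext α
  refine IsWeightedHomogeneous.coeff_eq_zero hq α ?_
  have := weight_nonneg' hw α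
  omega

theorem Qd_zero (hw : ∀ l, 0 < w l) {q : Q k} (hq : q ∈ Qd w 0) : ∃ c, q = C c := by
  refine ⟨coeff 0 q, ?_⟩
  ext α
  rw [coeff_C]
  split_ifs with h
  · rw [h]
  · refine IsWeightedHomogeneous.coeff_eq_zero hq α fun h0 => h ?_
    ext l
    have := le_weight' hw α l
    simp only [Finsupp.coe_zero, Pi.zero_apply]
    omega

theorem Qd_finite (hw : ∀ l, 0 < w l) (j : ℤ) : FiniteDimensional k (Qd (k := k) w j) := by
  have hfin : {α : Fin 3 →₀ ℕ | Finsupp.weight w α = j}.Finite := by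
    refine Set.Finite.subset (Set.finite_Iic (Finsupp.equivFunOnFinite.symm fun _ => j.toNat)) ?_
    intro α hα l
    have := le_weight' hw α l
    simp only [Set.mem_ofPred_eq] at hα
    simp only [Finsupp.equivFunOnFinite_symm_apply_apply]
    omega
  have hle : Qd (k := k) w j ≤ Submodule.span k
      ((fun α => (monomial α (1 : k) : Q k)) '' {α | Finsupp.weight w α = j}) := by
    intro q hq
    rw [q.as_sum]
    refine Submodule.sum_mem _ fun α hα => ?_
    have : (monomial α (coeff α q) : Q k) = coeff α q • monomial α 1 := by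
      rw [smul_monomial, smul_eq_mul, mul_one]
    rw [this]
    exact Submodule.smul_mem _ _ (Submodule.subset_span ⟨α, hq (mem_support_iff.mp hα), rfl⟩)
  have := FiniteDimensional.span_of_finite k (hfin.image fun α => (monomial α (1 : k) : Q k))
  exact Submodule.finiteDimensional_of_le hle

theorem hc_mem (i : ℤ) (p : Q k) : weightedHomogeneousComponent w i p ∈ Qd w i :=
  weightedHomogeneousComponent_mem w p i

theorem hc_same {i : ℤ} {p : Q k} (hp : p ∈ Qd w i) : weightedHomogeneousComponent w i p = p :=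
  IsWeightedHomogeneous.weightedHomogeneousComponent_same hp

theorem hc_ne {i j : ℤ} {p : Q k} (hp : p ∈ Qd w i) (h : j ≠ i) :
    weightedHomogeneousComponent w j p = 0 :=
  IsWeightedHomogeneous.weightedHomogeneousComponent_ne j hp h

/-- Induction over homogeneous polynomials. -/
theorem Q_induction (w : Fin 3 → ℤ) {C : Q k → Prop} (h0 : C 0)
    (hadd : ∀ p q, C p → C q → C (p + q)) (hh : ∀ s, ∀ q ∈ Qd (k := k) w s, C q) (q : Q k) :
    C q := by
  rw [q.as_sum]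
  exact Finset.sum_induction _ C hadd h0 fun α _ => hh _ _ (Qd_monomial α _)

theorem hc_mul {s : ℤ} {q : Q k} (hq : q ∈ Qd w s) (i : ℤ) (p : Q k) :
    weightedHomogeneousComponent w (i + s) (q * p) = q * weightedHomogeneousComponent w i p := by
  induction p using Q_induction w with
  | h0 => simp
  | hadd p p' h h' => rw [mul_add, map_add, map_add, h, h', mul_add]
  | hh t p hp =>
    by_cases h : i = t
    · subst h
      rw [hc_same hp, hc_same (by rw [add_comm]; exact Qd_mul hq hp)]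
    · rw [hc_ne hp h, hc_ne (Qd_mul hq hp) (by omega), mul_zero]

theorem hc_span {d e : ℤ} {f g : Q k} (hf : f ∈ Qd w d) (hg : g ∈ Qd w e) {p : Q k}
    (hp : p ∈ Ideal.span {f, g}) (i : ℤ) :
    weightedHomogeneousComponent w i p ∈ Ideal.span {f, g} := by
  obtain ⟨a, b, rfl⟩ := Ideal.mem_span_pair.mp hp
  have h1 := hc_mul hf (i - d) a
  have h2 := hc_mul hg (i - e) b
  rw [sub_add_cancel] at h1 h2
  rw [map_add, mul_comm a, mul_comm b, h1, h2]
  exact Ideal.add_mem _ (Ideal.mul_mem_right _ _ (Ideal.subset_span (by simp)))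
    (Ideal.mul_mem_right _ _ (Ideal.subset_span (by simp)))

variable {b : ι → ℤ}

theorem mem_FQ {i : ℤ} {v : ι → Q k} : v ∈ FQ w b i ↔ ∀ p, v p ∈ Qd w (i - b p) := by
  simp [FQ, Submodule.mem_pi]

theorem cmp_apply (i : ℤ) (v : ι → Q k) (p : ι) :
    cmp w b i v p = weightedHomogeneousComponent w (i - b p) (v p) := rfl

theorem cmp_mem (i : ℤ) (v : ι → Q k) : cmp w b i v ∈ FQ w b i :=
  mem_FQ.mpr fun _ => hc_mem _ _

theorem cmp_same {i : ℤ} {v : ι → Q k} (hv : v ∈ FQ w b i) : cmp w b i v = v :=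
  funext fun p => hc_same (mem_FQ.mp hv p)

theorem cmp_ne {i j : ℤ} {v : ι → Q k} (hv : v ∈ FQ w b i) (h : j ≠ i) : cmp w b j v = 0 :=
  funext fun p => hc_ne (mem_FQ.mp hv p) (by omega)

theorem FQ_smul {s i : ℤ} {q : Q k} (hq : q ∈ Qd w s) {v : ι → Q k} (hv : v ∈ FQ w b i) :
    q • v ∈ FQ w b (i + s) :=
  mem_FQ.mpr fun p => by
    have := Qd_mul hq (mem_FQ.mp hv p)
    rwa [show s + (i - b p) = i + s - b p by ring] at this

theorem cmp_smul {s : ℤ} {q : Q k} (hq : q ∈ Qd w s) (i : ℤ) (v : ι → Q k) :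
    cmp w b (i + s) (q • v) = q • cmp w b i v := by
  funext p
  rw [cmp_apply, show i + s - b p = i - b p + s by ring]
  exact hc_mul hq _ _

theorem FQ_single [DecidableEq ι] {s : ℤ} {q : Q k} (hq : q ∈ Qd w s) (p : ι) :
    (Pi.single p q : ι → Q k) ∈ FQ w b (s + b p) :=
  mem_FQ.mpr fun p' => by
    by_cases h : p' = p
    · subst h
      simpa using hq
    · rw [Pi.single_eq_of_ne h]
      exact Submodule.zero_mem _

variable [Fintype ι]

/-- Induction over homogeneous vectors. -/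
theorem FQ_induction (w : Fin 3 → ℤ) (b : ι → ℤ) {C : (ι → Q k) → Prop} (h0 : C 0)
    (hadd : ∀ u v, C u → C v → C (u + v)) (hh : ∀ i, ∀ v ∈ FQ (k := k) w b i, C v)
    (v : ι → Q k) : C v := by
  classical
  rw [← Finset.univ_sum_single v]
  refine Finset.sum_induction _ C hadd h0 fun p _ => ?_
  induction v p using Q_induction w with
  | h0 => simpa using h0
  | hadd q q' h h' => rw [Pi.single_add]; exact hadd _ _ h h'
  | hh s q hq => exact hh _ _ (FQ_single hq p)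

theorem exists_sum_cmp (w : Fin 3 → ℤ) (b : ι → ℤ) (v : ι → Q k) :
    ∃ s : Finset ℤ, (∀ i ∉ s, cmp w b i v = 0) ∧ ∑ i ∈ s, cmp w b i v = v := by
  induction v using FQ_induction w b with
  | h0 => exact ⟨∅, fun _ _ => map_zero _, rfl⟩
  | hadd u v hu hv =>
    obtain ⟨s, hs, hs'⟩ := hu
    obtain ⟨t, ht, ht'⟩ := hv
    refine ⟨s ∪ t, fun i hi => ?_, ?_⟩
    · rw [Finset.mem_union, not_or] at hi
      rw [map_add, hs i hi.1, ht i hi.2, add_zero]
    · simp only [map_add, Finset.sum_add_distrib]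
      rw [← Finset.sum_subset Finset.subset_union_left (fun i _ hi => hs i hi),
        ← Finset.sum_subset Finset.subset_union_right (fun i _ hi => ht i hi), hs', ht']
  | hh i v hv =>
    exact ⟨{i}, fun j hj => cmp_ne hv (by simpa using hj), by simp [cmp_same hv]⟩

/-- Induction over homogeneous vectors of a homogeneous submodule. -/
theorem hom_induction {J : Submodule (Q k) (ι → Q k)} (hJ : ∀ v ∈ J, ∀ i, cmp w b i v ∈ J)
    {C : (ι → Q k) → Prop} (h0 : C 0) (hadd : ∀ u v, C u → C v → C (u + v))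
    (hh : ∀ i, ∀ v ∈ J, v ∈ FQ w b i → C v) : ∀ v ∈ J, C v := by
  intro v hv
  obtain ⟨s, -, hs⟩ := exists_sum_cmp w b v
  rw [← hs]
  exact Finset.sum_induction _ C hadd h0 fun i _ => hh i _ (hJ v hv i) (cmp_mem i v)

/-- The same for elements of the submodule as a type. -/
theorem hom_induction' {J : Submodule (Q k) (ι → Q k)} (hJ : ∀ v ∈ J, ∀ i, cmp w b i v ∈ J)
    {C : J → Prop} (h0 : C 0) (hadd : ∀ u v, C u → C v → C (u + v))
    (hh : ∀ i, ∀ v : J, v.1 ∈ FQ w b i → C v) (v : J) : C v := by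
  obtain ⟨s, -, hs⟩ := exists_sum_cmp w b v.1
  have : v = ∑ i ∈ s, (⟨cmp w b i v.1, hJ v.1 v.2 i⟩ : J) := by
    apply Subtype.ext
    rw [AddSubmonoidClass.coe_finsetSum]
    exact hs.symm
  rw [this]
  exact Finset.sum_induction _ C hadd h0 fun i _ => hh i _ (cmp_mem i v.1)

/-- Gluing linear maps given degree by degree. -/
theorem glue (w : Fin 3 → ℤ) (b : ι → ℤ) {N : Type*} [AddCommGroup N] [Module k N]
    (T : ℤ → (ι → Q k) →ₗ[k] N) :
    ∃ Ψ : (ι → Q k) →ₗ[k] N, ∀ i, ∀ v ∈ FQ (k := k) w b i, Ψ v = T i v := by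
  have hfin : ∀ v : ι → Q k, (Function.support fun i => T i (cmp w b i v)).Finite := by
    intro v
    obtain ⟨s, hs, -⟩ := exists_sum_cmp w b v
    refine s.finite_toSet.subset fun i hi => ?_
    by_contra h
    exact hi (by simp only [hs i h, map_zero])
  refine ⟨{ toFun := fun v => ∑ᶠ i, T i (cmp w b i v)
            map_add' := fun u v => ?_
            map_smul' := fun c v => ?_ }, fun i v hv => ?_⟩
  · simp only [map_add]
    exact finsum_add_distrib (hfin u) (hfin v)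
  · simp only [map_smul, RingHom.id_apply]
    exact (smul_finsum' c (hfin v)).symm
  · change ∑ᶠ j, T j (cmp w b j v) = T i v
    rw [finsum_eq_single _ i (fun j hj => by rw [cmp_ne hv hj, map_zero]), cmp_same hv]

/-- A linear map respecting the action on homogeneous elements respects the action. -/
theorem smul_of_hom {J : Submodule (Q k) (ι → Q k)} (hJ : ∀ v ∈ J, ∀ i, cmp w b i v ∈ J)
    {N : Type*} [AddCommGroup N] [Module k N] [Module (Q k) N] (Ψ : (ι → Q k) →ₗ[k] N)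
    (h : ∀ s i, ∀ q ∈ Qd (k := k) w s, ∀ v ∈ J, v ∈ FQ w b i → Ψ (q • v) = q • Ψ v)
    (q : Q k) : ∀ v ∈ J, Ψ (q • v) = q • Ψ v := by
  refine hom_induction hJ (by simp) (fun u v hu hv => by
    rw [smul_add, map_add, map_add, hu, hv, smul_add]) fun i v hv hvi => ?_
  induction q using Q_induction w with
  | h0 => simp
  | hadd p q hp hq => rw [add_smul, map_add, hp, hq, add_smul]
  | hh s q hq => exact h s i q hq v hv hvi

omit [Fintype ι] in
/-- Restriction to `J` of a linear map respecting the action on `J`. -/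
noncomputable def mkLin (J : Submodule (Q k) (ι → Q k)) {N : Type*} [AddCommGroup N] [Module k N]
    [Module (Q k) N] (Ψ : (ι → Q k) →ₗ[k] N) (h : ∀ q : Q k, ∀ v ∈ J, Ψ (q • v) = q • Ψ v) :
    J →ₗ[Q k] N where
  toFun v := Ψ v.1
  map_add' u v := Ψ.map_add u.1 v.1
  map_smul' q v := h q v.1 v.2

end Poly

namespace Md

variable {k L ι : Type*} [Field k] [CommRing L] [Algebra k L] (D : Md k L)

theorem mem_V {j : ℤ} {u : L} : u ∈ D.V j ↔ ∃ q ∈ Qd D.w j, D.ev q = u := Iff.rfl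

theorem ev_mem_V {j : ℤ} {q : Q k} (hq : q ∈ Qd D.w j) : D.ev q ∈ D.V j := ⟨q, hq, rfl⟩

theorem ev_X (l : Fin 3) : D.ev (X l) = D.c l := aeval_X _ _

theorem ev_y' : D.ev D.y = 1 := D.ev_y

theorem c_mem_V (l : Fin 3) : D.c l ∈ D.V (D.w l) := ⟨X l, Qd_X l, D.ev_X l⟩

theorem f_mem_P : D.f ∈ D.P := Ideal.subset_span (by simp)

theorem g_mem_P : D.g ∈ D.P := Ideal.subset_span (by simp)

theorem mem_P_iff {j : ℤ} {q : Q k} (hq : q ∈ Qd D.w j) : q ∈ D.P ↔ D.ev q = 0 :=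
  (D.hker j q hq).symm

theorem hc_P {q : Q k} (hq : q ∈ D.P) (i : ℤ) : weightedHomogeneousComponent D.w i q ∈ D.P :=
  hc_span D.hf D.hg hq i

theorem ev_P {q : Q k} (hq : q ∈ D.P) : D.ev q = 0 := by
  obtain ⟨a, b, rfl⟩ := Ideal.mem_span_pair.mp hq
  rw [map_add, map_mul, map_mul, (D.mem_P_iff D.hf).1 D.f_mem_P, (D.mem_P_iff D.hg).1 D.g_mem_P]
  simp

/-- A polynomial lies in the ideal if all its components do. -/
theorem mem_P_of_hc {q : Q k} (h : ∀ i, weightedHomogeneousComponent D.w i q ∈ D.P) :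
    q ∈ D.P := by
  obtain ⟨s, -, hs⟩ := exists_sum_cmp D.w (fun _ : Unit => (0 : ℤ)) (fun _ => q)
  have := congrFun hs ()
  rw [← this, Finset.sum_apply]
  exact Ideal.sum_mem _ fun i _ => h _

/-- Powers of `y` are regular modulo the ideal. -/
theorem mem_P_of_y_pow (r : ℕ) {q : Q k} (h : D.y ^ r * q ∈ D.P) : q ∈ D.P := by
  refine D.mem_P_of_hc fun i => (D.mem_P_iff (hc_mem i q)).2 ?_
  have h1 := D.ev_P (D.hc_P h (i + r * D.n))
  rwa [hc_mul (Qd_pow D.hy r), map_mul, map_pow, D.ev_y', one_pow, one_mul] at h1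

theorem V_mul {i j : ℤ} {u v : L} (hu : u ∈ D.V i) (hv : v ∈ D.V j) : u * v ∈ D.V (i + j) := by
  obtain ⟨p, hp, rfl⟩ := hu
  obtain ⟨q, hq, rfl⟩ := hv
  exact ⟨p * q, Qd_mul hp hq, map_mul D.ev p q⟩

theorem V_neg {j : ℤ} (hj : j < 0) {u : L} (hu : u ∈ D.V j) : u = 0 := by
  obtain ⟨p, hp, rfl⟩ := hu
  rw [Qd_neg D.hw hj hp, map_zero]

theorem V_zero {u : L} (hu : u ∈ D.V 0) : ∃ c : k, u = algebraMap k L c := by
  obtain ⟨p, hp, rfl⟩ := hu
  obtain ⟨c, rfl⟩ := Qd_zero D.hw hp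
  exact ⟨c, aeval_C _ _⟩

theorem algebraMap_mem_V (c : k) : algebraMap k L c ∈ D.V 0 := ⟨C c, Qd_C c, aeval_C _ _⟩

theorem one_mem_V (r : ℕ) : (1 : L) ∈ D.V (r * D.n) :=
  ⟨D.y ^ r, Qd_pow D.hy r, by
    change D.ev (D.y ^ r) = 1
    rw [map_pow, D.ev_y', one_pow]⟩

theorem one_mem_V_zero : (1 : L) ∈ D.V 0 := by simpa using D.one_mem_V 0

theorem V_le_V (j : ℤ) (r : ℕ) : D.V j ≤ D.V (j + r * D.n) := fun u hu => by
  simpa using D.V_mul hu (D.one_mem_V r)

theorem V_mono (j : ℤ) : Monotone fun r : ℕ => D.V (j + r * D.n) := by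
  intro r s h
  obtain ⟨t, rfl⟩ := Nat.exists_eq_add_of_le h
  have := D.V_le_V (j + r * D.n) t
  rwa [show j + r * D.n + t * D.n = j + ((r + t : ℕ) : ℤ) * D.n by push_cast; ring] at this

theorem mem_H {j : ℤ} {u : L} : u ∈ D.H j ↔ ∃ r : ℕ, u ∈ D.V (j + r * D.n) :=
  Submodule.mem_iSup_of_directed _ (D.V_mono j).directed_le

theorem V_le_H (j : ℤ) : D.V j ≤ D.H j := fun u hu => D.mem_H.2 ⟨0, by simpa using hu⟩

theorem H_mul {i j : ℤ} {u v : L} (hu : u ∈ D.H i) (hv : v ∈ D.H j) : u * v ∈ D.H (i + j) := by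
  obtain ⟨r, hr⟩ := D.mem_H.1 hu
  obtain ⟨s, hs⟩ := D.mem_H.1 hv
  refine D.mem_H.2 ⟨r + s, ?_⟩
  have := D.V_mul hr hs
  rwa [show i + r * D.n + (j + s * D.n) = i + j + ((r + s : ℕ) : ℤ) * D.n by push_cast; ring]
    at this

theorem H_add_nat (j : ℤ) (r : ℕ) : D.H (j + r * D.n) = D.H j := by
  ext u
  rw [D.mem_H, D.mem_H]
  constructor
  · rintro ⟨s, hs⟩
    refine ⟨r + s, ?_⟩
    rwa [show j + ((r + s : ℕ) : ℤ) * D.n = j + r * D.n + s * D.n by push_cast; ring]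
  · rintro ⟨s, hs⟩
    refine ⟨s, ?_⟩
    have := D.V_le_V _ r hs
    rwa [show j + s * D.n + r * D.n = j + r * D.n + s * D.n by ring] at this

theorem H_add_int (j r : ℤ) : D.H (j + r * D.n) = D.H j := by
  obtain ⟨s, rfl | rfl⟩ := r.eq_nat_or_neg
  · exact D.H_add_nat j s
  · rw [← D.H_add_nat _ s]
    congr 1
    ring

theorem one_mem_H (r : ℤ) : (1 : L) ∈ D.H (r * D.n) := by
  have := D.H_add_int 0 r
  rw [zero_add] at this
  rw [this]
  exact D.V_le_H 0 D.one_mem_V_zero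

/-- In large degrees the ring and its localisation agree. -/
theorem V_eq_H [FiniteDimensional k L] : ∃ N : ℤ, ∀ j, N ≤ j → D.V j = D.H j := by
  have key : ∀ j : ℤ, ∃ r : ℕ, ∀ s : ℕ, r ≤ s → D.V (j + s * D.n) = D.H j := by
    intro j
    obtain ⟨r, hr⟩ := monotone_stabilizes_iff_noetherian.mpr
      (inferInstance : IsNoetherian k L) ⟨fun r : ℕ => D.V (j + r * D.n), D.V_mono j⟩
    refine ⟨r, fun s hs => le_antisymm (le_iSup (fun r : ℕ => D.V (j + r * D.n)) s) ?_⟩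
    refine iSup_le fun t => ?_
    have h1 : D.V (j + t * D.n) ≤ D.V (j + (max s t : ℕ) * D.n) := D.V_mono j (le_max_right s t)
    have h2 : D.V (j + r * D.n) = D.V (j + (max s t : ℕ) * D.n) :=
      hr _ (hs.trans (le_max_left s t))
    have h3 : D.V (j + r * D.n) = D.V (j + s * D.n) := hr _ hs
    rw [← h3, h2]
    exact h1
  choose r hr using key
  obtain ⟨R, hR⟩ := ((Finset.Ico (0 : ℤ) D.n).image r).exists_le
  have hn := D.hn
  refine ⟨R * D.n, fun j hj => ?_⟩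
  have h0 : 0 ≤ j % D.n := Int.emod_nonneg _ hn.ne'
  have h1 : j % D.n < D.n := Int.emod_lt_of_pos _ hn
  have h2 : (R : ℤ) ≤ j / D.n := (Int.le_ediv_iff_mul_le hn).2 hj
  have h3 : r (j % D.n) ≤ R := hR _ (Finset.mem_image_of_mem r (Finset.mem_Ico.2 ⟨h0, h1⟩))
  have h4 : j = j % D.n + ((j / D.n).toNat : ℤ) * D.n := by
    rw [Int.toNat_of_nonneg (by omega), mul_comm]
    exact (Int.emod_add_mul_ediv j D.n).symm
  have h5 := hr (j % D.n) (j / D.n).toNat (by omega)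
  rw [← D.H_add_nat _ (j / D.n).toNat, ← h4] at h5
  exact h5

theorem evv_apply (v : ι → Q k) (p : ι) : D.evv v p = D.ev (v p) := rfl

theorem evv_smul (q : Q k) (v : ι → Q k) : D.evv (q • v) = D.ev q • D.evv v :=
  funext fun p => map_mul D.ev q (v p)

theorem mem_PF {v : ι → Q k} : v ∈ D.PF ↔ ∀ p, v p ∈ D.P := by simp [PF, Submodule.mem_pi]

theorem evv_PF {v : ι → Q k} (hv : v ∈ D.PF) : D.evv v = 0 :=
  funext fun p => D.ev_P (D.mem_PF.1 hv p)

variable {b : ι → ℤ}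

theorem mem_FV {i : ℤ} {x : ι → L} : x ∈ D.FV b i ↔ ∀ p, x p ∈ D.V (i - b p) := by
  simp [FV, Submodule.mem_pi]

theorem mem_FH {i : ℤ} {x : ι → L} : x ∈ D.FH b i ↔ ∀ p, x p ∈ D.H (i - b p) := by
  simp [FH, Submodule.mem_pi]

theorem mem_PF_iff {i : ℤ} {v : ι → Q k} (hv : v ∈ FQ D.w b i) : v ∈ D.PF ↔ D.evv v = 0 :=
  ⟨D.evv_PF, fun h => D.mem_PF.2 fun p => (D.mem_P_iff (mem_FQ.1 hv p)).2 (congrFun h p)⟩

theorem evv_mem_FV {i : ℤ} {v : ι → Q k} (hv : v ∈ FQ D.w b i) : D.evv v ∈ D.FV b i :=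
  D.mem_FV.2 fun p => D.ev_mem_V (mem_FQ.1 hv p)

theorem secv_mem (i : ℤ) (x : ι → L) : D.secv b i x ∈ FQ D.w b i :=
  mem_FQ.2 fun p => D.sec_mem _ (x p)

theorem evv_secv {i : ℤ} {x : ι → L} (hx : x ∈ D.FV b i) : D.evv (D.secv b i x) = x :=
  funext fun p => D.ev_sec _ (D.mem_FV.1 hx p)

theorem FV_smul {s i : ℤ} {v : L} (hv : v ∈ D.V s) {x : ι → L} (hx : x ∈ D.FV b i) :
    v • x ∈ D.FV b (i + s) :=
  D.mem_FV.2 fun p => by
    have := D.V_mul hv (D.mem_FV.1 hx p)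
    rwa [show s + (i - b p) = i + s - b p by ring] at this

theorem FV_single [DecidableEq ι] {s : ℤ} {u : L} (hu : u ∈ D.V s) (p : ι) :
    (Pi.single p u : ι → L) ∈ D.FV b (s + b p) :=
  D.mem_FV.2 fun p' => by
    by_cases h : p' = p
    · subst h
      simpa using hu
    · rw [Pi.single_eq_of_ne h]
      exact Submodule.zero_mem _

theorem mem_Mat {j : ℤ} {U : Matrix ι ι L} :
    U ∈ D.Mat b j ↔ ∀ p q, U p q ∈ D.H (j + b q - b p) := Iff.rfl

variable [Fintype ι]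

theorem mem_Hm {X Y : ℤ → Submodule k (ι → L)} {j : ℤ} {U : Matrix ι ι L} :
    U ∈ D.Hm b X Y j ↔ U ∈ D.Mat b j ∧ ∀ i, ∀ x ∈ X i, U *ᵥ x ∈ Y (i + j) := Iff.rfl

theorem mem_Ed {E : ℤ → Submodule k (ι → L)} {s : ℤ} {u : ι → L} :
    u ∈ D.Ed b E s ↔ (∀ q, u q ∈ D.H (s + b q)) ∧ ∀ i, ∀ x ∈ E i, u ⬝ᵥ x ∈ D.V (i + s) :=
  Iff.rfl

theorem Mat_mul {i j : ℤ} {A B : Matrix ι ι L} (hA : A ∈ D.Mat b i) (hB : B ∈ D.Mat b j) :
    A * B ∈ D.Mat b (i + j) := fun p q => by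
  rw [Matrix.mul_apply]
  refine Submodule.sum_mem _ fun r _ => ?_
  have := D.H_mul (hA p r) (hB r q)
  rwa [show i + b r - b p + (j + b q - b r) = i + j + b q - b p by ring] at this

theorem Hm_mul {X Y Z : ℤ → Submodule k (ι → L)} {i j : ℤ} {A B : Matrix ι ι L}
    (hA : A ∈ D.Hm b Y Z i) (hB : B ∈ D.Hm b X Y j) : A * B ∈ D.Hm b X Z (i + j) :=
  ⟨D.Mat_mul hA.1 hB.1, fun t x hx => by
    have := hA.2 _ _ (hB.2 t x hx)
    rwa [Matrix.mulVec_mulVec, show t + j + i = t + (i + j) by ring] at this⟩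

theorem Mat_mulVec {i j : ℤ} {A : Matrix ι ι L} (hA : A ∈ D.Mat b j) {x : ι → L}
    (hx : x ∈ D.FH b i) : A *ᵥ x ∈ D.FH b (i + j) :=
  D.mem_FH.2 fun p => by
    refine Submodule.sum_mem _ fun r _ => ?_
    have := D.H_mul (hA p r) (D.mem_FH.1 hx r)
    rwa [show j + b r - b p + (i - b r) = i + j - b p by ring] at this

omit [Fintype ι] in
theorem FV_le_FH (i : ℤ) : D.FV b i ≤ D.FH b i := fun _ hx =>
  D.mem_FH.2 fun p => D.V_le_H _ (D.mem_FV.1 hx p)

theorem one_mem_Hm [DecidableEq ι] {X Y : ℤ → Submodule k (ι → L)} (h : ∀ i, X i ≤ Y i) :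
    (1 : Matrix ι ι L) ∈ D.Hm b X Y 0 := by
  refine ⟨fun p q => ?_, fun i x hx => by simpa using h i hx⟩
  by_cases hpq : p = q
  · subst hpq
    simpa using D.V_le_H 0 D.one_mem_V_zero
  · rw [Matrix.one_apply_ne hpq]
    exact Submodule.zero_mem _

omit [Fintype ι] in
theorem lat_FV : D.Lat b (D.FV b) :=
  ⟨fun _ => le_rfl, fun _ _ _ hv _ hx => D.FV_smul hv hx, 0, fun _ _ => rfl⟩

/-- Maps from the free module are given by their columns. -/
theorem mem_Hm_FV [DecidableEq ι] {E : ℤ → Submodule k (ι → L)} (hE : D.Lat b E) {j : ℤ}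
    {U : Matrix ι ι L} :
    U ∈ D.Hm b (D.FV b) E j ↔ ∀ q, (fun p => U p q) ∈ E (j + b q) := by
  constructor
  · intro h q
    have := h.2 _ _ (D.FV_single D.one_mem_V_zero q)
    rw [show 0 + b q + j = j + b q by ring] at this
    convert this using 1
    funext p
    simp
  · intro h
    refine ⟨fun p q => D.V_le_H _ (D.mem_FV.1 (hE.le _ (h q)) p), fun i x hx => ?_⟩
    have : U *ᵥ x = ∑ q, x q • fun p => U p q := by
      funext p
      simp [Matrix.mulVec, dotProduct, mul_comm]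
    rw [this]
    refine Submodule.sum_mem _ fun q _ => ?_
    have := hE.smul _ _ _ (D.mem_FV.1 hx q) _ (h q)
    rwa [show j + b q + (i - b q) = i + j by ring] at this

theorem mem_Hm_FV_FV [DecidableEq ι] {j : ℤ} {U : Matrix ι ι L} :
    U ∈ D.Hm b (D.FV b) (D.FV b) j ↔ ∀ p q, U p q ∈ D.V (j + b q - b p) := by
  rw [D.mem_Hm_FV D.lat_FV]
  exact ⟨fun h p q => D.mem_FV.1 (h q) p, fun h q => D.mem_FV.2 fun p => h p q⟩

end Md

end Pool.Agent.Lib.MP_86e60f_al.HW
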