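import Mathlib
import Pool.Agent.Lib.MP_86e60f_al.HW.Basic

set_option autoImplicit false

open MvPolynomial Module Matrix
open scoped TensorProduct

namespace Pool.Agent.Lib.MP_86e60f_al.HW

section A

variable {k S : Type*} [Field k] [AddCommGroup S] [Module k S]

/-- Trace duality on graded endomorphisms. -/
structure STr (G : ℤ → Submodule k S) : Prop where
  nd : ∀ i, ∀ A ∈ Wd G i, (∀ B ∈ Wd G (-i), LinearMap.trace k S (A * B) = 0) → A = 0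
  fs : Fs fun i => finrank k (Wd G i)
  sym : ∀ i, finrank k (Wd G i) = finrank k (Wd G (-i))

/-- Symmetry of the rank of the Hessian. -/
structure SHes (G : ℤ → Submodule k S) (T : Fin 3 → Module.End k S) (w : Fin 3 → ℤ) : Prop where
  le : ∀ j, finrank k (Zd G T w j) ≤ ∑ l, finrank k (Wd G (j + w l))
  eq : ∀ j, finrank k (Zd G T w j) + ∑ l, finrank k (Wd G (-sg w - j + w l)) =
    finrank k (Zd G T w (-sg w - j)) + ∑ l, finrank k (Wd G (j + w l))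

/-- First numerical lemma. -/
structure SNum1 : Prop where
  hes : ∀ (w : Fin 3 → ℤ) (ww z : ℤ → ℕ), Fs ww → (∀ i, ww i = ww (-i)) →
    (∀ j, z j ≤ ∑ l, ww (j + w l)) →
    (∀ j, z j + ∑ l, ww (-sg w - j + w l) = z (-sg w - j) + ∑ l, ww (j + w l)) →
    Fs z ∧ psi (sg w) z = psi (sg w) ww
  add : ∀ (σ : ℤ) (z g ww t : ℤ → ℕ), Fs z → Fs g → Fs ww → (∀ j, z j + g j = ww j + t j) →
    psi σ z = psi σ ww → psi σ t = psi σ g

/-- Second numerical lemma. -/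
def SNum2 : Prop :=
  ∀ (σ d e : ℤ) (t g EE CC al be : ℤ → ℕ), 0 < d → 0 < e → Fs g → (∀ i, EE i ≤ g i) →
    (∀ j, t j + EE j = g j + CC (d + e - σ - j) + al (j + d) + be (j + e)) →
    (∀ i, CC i ≤ al i ∧ al i ≤ EE i) → (∀ i, CC i ≤ be i ∧ be i ≤ EE i) →
    (∀ i, CC i < EE i → 0 < 2 * i + σ ∧ 2 * i + σ < 2 * (d + e)) →
    psi σ t = psi σ g → ∀ i, EE i = CC i

end A

section B

variable {k ι : Type*} [Field k] (w : Fin 3 → ℤ) (b : ι → ℤ) (J : Submodule (Q k) (ι → Q k))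

/-- The quotient is a finite dimensional graded space. -/
structure SGr : Prop where
  fin : FiniteDimensional k (SQ J)
  int : DirectSum.IsInternal (Sd w b J)
  deg : ∀ l, Xs J l ∈ Wd (Sd w b J) (w l)
  fs : Fs fun j => finrank k (Gd w b J j)
  bnd : ∃ lo hi : ℤ, ∀ i, i < lo ∨ hi ≤ i → ∀ x ∈ Sd w b J i, x = 0

/-- First exact sequence. -/
def SDZ : Prop :=
  ∀ j, FiniteDimensional k (Dd w b J j) ∧ finrank k (Dd w b J j) =
    finrank k (Zd (Sd w b J) (Xs J) w j) + finrank k (Gd w b J j)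

/-- Second exact sequence. -/
def SDT : Prop :=
  ∀ j, FiniteDimensional k (Dd w b J j) → FiniteDimensional k (Td w b J j) ∧
    finrank k (Dd w b J j) = finrank k (Wd (Sd w b J) j) + finrank k (Td w b J j)

/-- The tangent space count. -/
structure SPsi : Prop where
  fin : ∀ j, FiniteDimensional k (Td w b J j)
  fs : Fs fun j => finrank k (Gd w b J j)
  eq : psi (sg w) (fun j => finrank k (Td w b J j)) =
    psi (sg w) (fun j => finrank k (Gd w b J j))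

end B

/-- The vector of variables. -/
noncomputable def XV (k : Type*) [Field k] : Fin 3 → Q k := fun l => X l

/-- Exactness of the Koszul complex of the variables. -/
structure SKos (k : Type*) [Field k] (w : Fin 3 → ℤ) : Prop where
  k1 : ∀ α : Fin 3 → Q k, XV k ⬝ᵥ α = 0 → ∃ γ, α = crossProduct (XV k) γ
  k2 : ∀ P : Fin 3 → Q k, crossProduct (XV k) P = 0 → ∃ t : Q k, P = t • XV k
  k3 : ∀ d : ℤ, 0 < d → ∀ f ∈ Qd (k := k) w d,
    ∃ F : Fin 3 → Q k, (∀ l, F l ∈ Qd w (d - w l)) ∧ f = XV k ⬝ᵥ F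

namespace Md

variable {k L ι : Type*} [Field k] [CommRing L] [Algebra k L] (D : Md k L)

/-- The socle of the local cohomology module. -/
def SSoc : Prop :=
  ∃ s : L, ∀ j, ∀ u ∈ D.H j, (∀ l, D.c l * u ∈ D.V (j + D.w l)) →
    u ∈ D.V j ∨ (j = D.a ∧ ∃ t : k, u - t • s ∈ D.V D.a)

variable [Fintype ι] (b : ι → ℤ) (E : ℤ → Submodule k (ι → L)) (lam : L →ₗ[k] k)

/-- The residue pairing is perfect. -/
structure SPair : Prop where
  nd : ∀ j, ∀ u ∈ D.H j, (∀ v ∈ D.H (D.a - j), lam (u * v) = 0) → u = 0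
  rep : ∀ (j : ℤ) (μ : L →ₗ[k] k), ∃ u ∈ D.H (D.a - j), ∀ c ∈ D.H j, μ c = lam (u * c)
  repV : ∀ (i : ℤ) (μ : (ι → L) →ₗ[k] k), ∃ u : ι → L, (∀ q, u q ∈ D.H (D.a - i + b q)) ∧
    ∀ x ∈ D.FH b i, μ x = lam (u ⬝ᵥ x)
  repM : ∀ (j : ℤ) (μ : Matrix ι ι L →ₗ[k] k), ∃ U ∈ D.Mat b j,
    ∀ U' ∈ D.Mat b (D.a - j), μ U' = lam (U * U').trace
  ndM : ∀ j, ∀ U ∈ D.Mat b j, (∀ U' ∈ D.Mat b (D.a - j), lam (U * U').trace = 0) → U = 0

/-- The module is the orthogonal of its dual. -/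
def SVd : Prop :=
  ∀ i, ∀ x ∈ D.FH b i, (∀ u ∈ D.Ed b E (D.a - i), lam (u ⬝ᵥ x) = 0) → x ∈ E i

/-- Orthogonal complement for the trace pairing, inside matrices of degree `j`. -/
noncomputable def perp (j : ℤ) (Y : Submodule k (Matrix ι ι L)) : Submodule k (Matrix ι ι L) where
  carrier := {U | U ∈ D.Mat b j ∧ ∀ U' ∈ Y, lam (U * U').trace = 0}
  add_mem' := by
    rintro A B ⟨ha, ha'⟩ ⟨hb, hb'⟩
    refine ⟨Submodule.add_mem _ ha hb, fun U hU => ?_⟩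
    rw [add_mul, trace_add, map_add, ha' U hU, hb' U hU, add_zero]
  zero_mem' := ⟨Submodule.zero_mem _, fun U _ => by simp⟩
  smul_mem' := by
    rintro c A ⟨ha, ha'⟩
    refine ⟨Submodule.smul_mem _ c ha, fun U hU => ?_⟩
    rw [smul_mul_assoc, trace_smul, map_smul, ha' U hU, smul_zero]

/-- The four orthogonality relations. -/
structure SPerp : Prop where
  p1 : ∀ j, D.perp b lam j (D.Hm b (D.FV b) (D.FV b) (D.a - j)) = D.Hm b (D.FV b) (D.FV b) j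
  p2 : ∀ j, D.perp b lam j (D.Hm b (D.FV b) E (D.a - j)) = D.Hm b E (D.FV b) j
  p3 : ∀ j, D.perp b lam j (D.Hm b E (D.FV b) (D.a - j)) = D.Hm b (D.FV b) E j
  p4 : ∀ j, D.perp b lam j (D.PE b E (D.a - j)) = D.Hm b E E j

/-- Dimension counts from duality. -/
structure SDual : Prop where
  dim : ∀ j, finrank k (D.Hm b E (D.FV b) j) +
      finrank k ↥(D.Hm b E E j ⊓ D.Hm b (D.FV b) (D.FV b) j) +
      finrank k (D.Hm b (D.FV b) E (D.a - j)) =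
    finrank k (D.Hm b E E j) + finrank k (D.Hm b (D.FV b) (D.FV b) j) +
      finrank k ↥(D.PE b E (D.a - j) ⊓ D.Hm b (D.FV b) (D.FV b) (D.a - j))
  van : ∀ j, D.Hm b E E (D.a - j) = ⊥ → D.Hm b E E j ≤ D.PE b E j
  le1 : ∀ j, D.Hm b (D.FV b) E j ≤ D.PE b E j
  le2 : ∀ j, D.PE b E j ≤ D.Hm b E E j
  le3 : ∀ j, D.Hm b (D.FV b) E j ≤ D.Hm b (D.FV b) (D.FV b) j

/-- Dictionary between the lattice and the polynomial submodule. -/
structure SCl : Prop where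
  memJ : ∀ i, ∀ v ∈ FQ (k := k) D.w b i, v ∈ D.JE b E ↔ D.evv v ∈ E i
  homJ : HomJ D.w b (D.JE b E)
  pf : D.PF ≤ D.JE b E
  cl_evv : ∀ i, ∀ v ∈ FQ (k := k) D.w b i, D.cl b E i (D.evv v) = (D.JE b E).mkQ v
  cl_mem : ∀ i x, D.cl b E i x ∈ Sd D.w b (D.JE b E) i
  cl_zero : ∀ i, ∀ x ∈ D.FV b i, D.cl b E i x = 0 ↔ x ∈ E i
  cl_smul : ∀ s i, ∀ q ∈ Qd (k := k) D.w s, ∀ x ∈ D.FV b i,
    D.cl b E (i + s) (D.ev q • x) = q • D.cl b E i x
  th_map : ∀ j, (D.Hm b (D.FV b) (D.FV b) j).map (D.th b E j) = Gd D.w b (D.JE b E) j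
  th_zero : ∀ j, ∀ U ∈ D.Hm b (D.FV b) (D.FV b) j, D.th b E j U = 0 ↔ U ∈ D.Hm b (D.FV b) E j
  th_sum : ∀ j, ∀ U ∈ D.Hm b (D.FV b) (D.FV b) j, ∀ i, ∀ v ∈ FQ (k := k) D.w b i,
    ∑ p, v p • D.th b E j U p = D.cl b E (i + j) (U *ᵥ D.evv v)

/-- Lifting maps to the polynomial level. -/
structure SHat : Prop where
  row : ∀ s, ∀ u ∈ D.Ed b E s, ∃ Ψ : (ι → Q k) →ₗ[k] Q k,
    (∀ i, ∀ v ∈ D.JE b E, v ∈ FQ D.w b i → Ψ v ∈ Qd D.w (i + s) ∧ D.ev (Ψ v) = u ⬝ᵥ D.evv v) ∧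
    ∀ q : Q k, ∀ v ∈ D.JE b E, Ψ (q • v) - q * Ψ v ∈ D.P
  mat : ∀ j, ∀ B ∈ D.Hm b E (D.FV b) j, ∃ Ψ : (ι → Q k) →ₗ[k] (ι → Q k),
    (∀ i, ∀ v ∈ D.JE b E, v ∈ FQ D.w b i →
      Ψ v ∈ FQ D.w b (i + j) ∧ D.evv (Ψ v) = B *ᵥ D.evv v) ∧
    ∀ q : Q k, ∀ v ∈ D.JE b E, Ψ (q • v) - q • Ψ v ∈ D.PF

variable [DecidableEq ι]

/-- Kernel of the restriction map. -/
def SKer : Prop :=
  D.gRig b E → ∀ j, finrank k ↥(Td D.w b (D.JE b E) j ⊓ LinearMap.ker (D.rr b E)) +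
    finrank k (D.Hm b E E j) = finrank k (D.Hm b E (D.FV b) j)

/-- Upper bound for the image of the restriction map. -/
def SUp : Prop :=
  ∀ j, ∀ φ ∈ Td D.w b (D.JE b E) j,
    (D.rr b E φ).1 ∈ (D.Hm b E E (j + D.d) ⊓ D.Hm b (D.FV b) (D.FV b) (j + D.d)).map
      (D.th b E (j + D.d)) ∧
    (D.rr b E φ).2 ∈ (D.Hm b E E (j + D.e) ⊓ D.Hm b (D.FV b) (D.FV b) (j + D.e)).map
      (D.th b E (j + D.e))

/-- Lower bound for the image of the restriction map. -/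
def SLow : Prop :=
  ∀ j, (∀ U ∈ D.PE b E (j + D.d) ⊓ D.Hm b (D.FV b) (D.FV b) (j + D.d),
      ∃ φ ∈ Td D.w b (D.JE b E) j, D.rr b E φ = (D.th b E (j + D.d) U, 0)) ∧
    (∀ U ∈ D.PE b E (j + D.e) ⊓ D.Hm b (D.FV b) (D.FV b) (j + D.e),
      ∃ φ ∈ Td D.w b (D.JE b E) j, D.rr b E φ = (0, D.th b E (j + D.e) U))

/-- The core statement. -/
def SCore : Prop :=
  D.gRig b E → (∀ j, 2 * j + sg D.w ≤ 0 → D.Hm b E E j = ⊥) → (1 : Matrix ι ι L) ∈ D.PE b E 0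

variable (M : Submodule (Q k ⧸ D.P) (ι → Q k ⧸ D.P))

/-- The lattice `E` describes the module `M`. -/
def Desc : Prop := ∀ v, v ∈ D.JE b E ↔ mkA D.P v ∈ M

/-- Torsion freeness gives the balanced property. -/
def STF : Prop :=
  D.Desc b E M → Module.IsTorsionFree (Q k ⧸ D.P) (M ⊗[Q k ⧸ D.P] Module.Dual (Q k ⧸ D.P) M) →
    D.gTF b E

/-- Vanishing of endomorphisms. -/
def SEnd : Prop :=
  D.Desc b E M → ∀ j, (∀ φ : M →ₗ[Q k ⧸ D.P] M,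
    (∀ i, ∀ x : M, x.1 ∈ pc D.w b D.P i → (φ x).1 ∈ pc D.w b D.P (i + j)) → φ = 0) →
    D.Hm b E E j = ⊥

/-- Projectivity. -/
def SProj : Prop :=
  D.Desc b E M → (1 : Matrix ι ι L) ∈ D.PE b E 0 → Module.Projective (Q k ⧸ D.P) M

omit [DecidableEq ι] in
/-- A graded submodule of finite colength has a lattice. -/
def SLatM : Prop :=
  M ≤ Submodule.span (Q k ⧸ D.P) {x | x ∈ M ∧ ∃ i, x ∈ pc D.w b D.P i} →
    FiniteDimensional k ((ι → Q k ⧸ D.P) ⧸ M) → ∃ E, D.Lat b E ∧ D.Desc b E M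

/-- In rank one the core conclusion gives a generator. -/
def SPrin (b : Unit → ℤ) (E : ℤ → Submodule k (Unit → L)) : Prop :=
  (1 : Matrix Unit Unit L) ∈ D.PE b E 0 →
    ∃ s, ∃ x0 ∈ E s, ∀ i, ∀ x ∈ E i, ∃ v ∈ D.V (i - s), x = v • x0

end Md

/-- Existence of the model. -/
def SMod.{u} (k : Type u) [Field k] : Prop :=
  ∀ (w : Fin 3 → ℤ) (f g y : Q k) (d e n : ℤ), (∀ l, 0 < w l) → f ∈ Qd w d → g ∈ Qd w e →
    y ∈ Qd w n → 0 < d → 0 < e → 0 < n → RingTheory.Sequence.IsRegular (Q k) [f, g, y] →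
    FiniteDimensional k (Q k ⧸ Ideal.span {f, g, y}) →
    ∃ (L : Type u) (_ : CommRing L) (_ : Algebra k L) (_ : FiniteDimensional k L) (D : Md k L),
      D.w = w ∧ D.f = f ∧ D.g = g

end Pool.Agent.Lib.MP_86e60f_al.HW
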