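import Mathlib
import Pool.Agent.Lib.MP_86e60f_al.HW.Stmt

set_option autoImplicit false

open MvPolynomial Module Matrix

namespace Pool.Agent.Lib.MP_86e60f_al.HW

section

variable {L : Type*} [CommRing L]

theorem exists_low (F : HahnSeries ℤ L) : ∃ b, ∀ s, s < b → F.coeff s = 0 :=
  ⟨F.order, fun _ h => HahnSeries.coeff_eq_zero_of_lt_order h⟩

/-- Coefficients of a product as a sum over an interval. -/
theorem coeff_mul_Icc {F G : HahnSeries ℤ L} {i j : ℤ} (hF : ∀ s, s < i → F.coeff s = 0)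
    (hG : ∀ s, s < j → G.coeff s = 0) (l : ℤ) :
    (F * G).coeff l = ∑ s ∈ Finset.Icc i (l - j), F.coeff s * G.coeff (l - s) := by
  rw [HahnSeries.coeff_mul]
  refine Finset.sum_bij_ne_zero (fun p _ _ => p.1) ?_ ?_ ?_ ?_
  · intro p hp _
    obtain ⟨h1, h2, h3⟩ := Finset.mem_antidiagonal.1 hp
    have a1 : ¬ p.1 < i := fun h => h1 (hF _ h)
    have a2 : ¬ p.2 < j := fun h => h2 (hG _ h)
    exact Finset.mem_Icc.2 ⟨by omega, by omega⟩
  · intro p hp _ q hq _ h
    have h3 := (Finset.mem_antidiagonal.1 hp).2.2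
    have h4 := (Finset.mem_antidiagonal.1 hq).2.2
    exact Prod.ext h (by omega)
  · intro s _ hs
    exact ⟨(s, l - s), Finset.mem_antidiagonal.2
      ⟨left_ne_zero_of_mul hs, right_ne_zero_of_mul hs, by simp⟩, hs, rfl⟩
  · intro p hp _
    have h3 := (Finset.mem_antidiagonal.1 hp).2.2
    rw [show l - p.1 = p.2 by omega]

theorem coeff_mul_low {F G : HahnSeries ℤ L} {i j : ℤ} (hF : ∀ s, s < i → F.coeff s = 0)
    (hG : ∀ s, s < j → G.coeff s = 0) {l : ℤ} (hl : l < i + j) : (F * G).coeff l = 0 := by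
  rw [coeff_mul_Icc hF hG, Finset.Icc_eq_empty (by omega), Finset.sum_empty]

theorem coeff_mul_lead {F G : HahnSeries ℤ L} {i j : ℤ} (hF : ∀ s, s < i → F.coeff s = 0)
    (hG : ∀ s, s < j → G.coeff s = 0) : (F * G).coeff (i + j) = F.coeff i * G.coeff j := by
  rw [coeff_mul_Icc hF hG, add_sub_cancel_right, Finset.Icc_self, Finset.sum_singleton,
    add_sub_cancel_left]

theorem coeff_single_mul' (s : ℤ) (c : L) (G : HahnSeries ℤ L) (l : ℤ) :
    (HahnSeries.single s c * G).coeff l = c * G.coeff (l - s) := by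
  have := HahnSeries.coeff_single_mul_add (r := c) (x := G) (a := l - s) (b := s)
  rwa [sub_add_cancel] at this

instance hsTower {k : Type*} [Field k] [Algebra k L] :
    IsScalarTower k (HahnSeries ℤ L) (HahnSeries ℤ L) where
  smul_assoc c F G := by
    ext l
    obtain ⟨i, hi⟩ := exists_low F
    obtain ⟨j, hj⟩ := exists_low G
    rw [smul_eq_mul, smul_eq_mul, HahnSeries.coeff_smul, coeff_mul_Icc hi hj,
      coeff_mul_Icc (i := i) (fun s hs => by rw [HahnSeries.coeff_smul, hi s hs, smul_zero]) hj,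
      Finset.smul_sum]
    exact Finset.sum_congr rfl fun s _ => by rw [HahnSeries.coeff_smul, smul_mul_assoc]

instance hsComm {k : Type*} [Field k] [Algebra k L] :
    SMulCommClass k (HahnSeries ℤ L) (HahnSeries ℤ L) where
  smul_comm c F G := by
    rw [smul_eq_mul, smul_eq_mul, mul_comm F (c • G), mul_comm F G]
    exact (smul_mul_assoc c G F).symm

theorem smul_eq_single_mul {k : Type*} [Field k] [Algebra k L] (c : k) (F : HahnSeries ℤ L) :
    c • F = HahnSeries.single 0 (algebraMap k L c) * F := by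
  ext l
  rw [coeff_single_mul', sub_zero, HahnSeries.coeff_smul, Algebra.smul_def]

end

namespace Md

variable {k L : Type*} [Field k] [CommRing L] [Algebra k L] (D : Md k L)

theorem mem_HH {F : HahnSeries ℤ L} : F ∈ D.HH ↔ ∀ j, F.coeff j ∈ D.H j := Iff.rfl

theorem mem_HT {b : ℤ} {F : HahnSeries ℤ L} :
    F ∈ D.HT b ↔ F ∈ D.HH ∧ ∀ j, j < b → F.coeff j = 0 := Iff.rfl

theorem mem_RR {F : HahnSeries ℤ L} : F ∈ D.RR ↔ ∀ j, F.coeff j ∈ D.V j := Iff.rfl

theorem mem_Ld {I : Submodule k (HahnSeries ℤ L)} {j : ℤ} {c : L} :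
    c ∈ D.Ld I j ↔ ∃ F ∈ I, F ∈ D.HT j ∧ F.coeff j = c :=
  ⟨fun ⟨F, hF, h⟩ => ⟨F, hF.1, hF.2, h⟩, fun ⟨F, h1, h2, h⟩ => ⟨F, ⟨h1, h2⟩, h⟩⟩

theorem mem_EU {I : Submodule k (HahnSeries ℤ L)} {i : ℤ} {x : Unit → L} :
    x ∈ D.EU I i ↔ x () ∈ D.Ld I i := by
  simp only [EU, Submodule.mem_pi, Set.mem_univ, true_imp_iff]
  exact ⟨fun h => h (), fun h _ => h⟩

theorem HH_mul {F G : HahnSeries ℤ L} (hF : F ∈ D.HH) (hG : G ∈ D.HH) : F * G ∈ D.HH := by
  intro l
  rw [HahnSeries.coeff_mul]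
  refine Submodule.sum_mem _ fun p hp => ?_
  rw [← (Finset.mem_antidiagonal.1 hp).2.2]
  exact D.H_mul (hF _) (hG _)

theorem RR_mul {F G : HahnSeries ℤ L} (hF : F ∈ D.RR) (hG : G ∈ D.RR) : F * G ∈ D.RR := by
  intro l
  rw [HahnSeries.coeff_mul]
  refine Submodule.sum_mem _ fun p hp => ?_
  rw [← (Finset.mem_antidiagonal.1 hp).2.2]
  exact D.V_mul (hF _) (hG _)

theorem HT_mul {i j : ℤ} {F G : HahnSeries ℤ L} (hF : F ∈ D.HT i) (hG : G ∈ D.HT j) :
    F * G ∈ D.HT (i + j) :=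
  ⟨D.HH_mul hF.1 hG.1, fun _ hl => coeff_mul_low hF.2 hG.2 hl⟩

theorem HT_anti {i j : ℤ} (h : i ≤ j) : D.HT j ≤ D.HT i := fun _ hF =>
  ⟨hF.1, fun s hs => hF.2 s (by omega)⟩

theorem exists_HT {F : HahnSeries ℤ L} (hF : F ∈ D.HH) : ∃ b, F ∈ D.HT b :=
  (exists_low F).imp fun _ h => ⟨hF, h⟩

theorem RR_le_HT : D.RR ≤ D.HT 0 := fun _ hF =>
  ⟨fun j => D.V_le_H j (hF j), fun j hj => D.V_neg hj (hF j)⟩

theorem HT_le_RR [FiniteDimensional k L] : ∃ N, D.HT N ≤ D.RR := by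
  obtain ⟨N, hN⟩ := D.V_eq_H
  refine ⟨N, fun F hF j => ?_⟩
  by_cases h : j < N
  · rw [hF.2 j h]
    exact Submodule.zero_mem _
  · rw [hN j (by omega)]
    exact hF.1 j

theorem single_HT {j : ℤ} {c : L} (hc : c ∈ D.H j) : HahnSeries.single j c ∈ D.HT j := by
  refine ⟨fun l => ?_, fun l hl => HahnSeries.coeff_single_of_ne hl.ne⟩
  by_cases h : l = j
  · rw [h, HahnSeries.coeff_single_same]
    exact hc
  · rw [HahnSeries.coeff_single_of_ne h]
    exact Submodule.zero_mem _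

theorem single_RR {j : ℤ} {c : L} (hc : c ∈ D.V j) : HahnSeries.single j c ∈ D.RR := by
  intro l
  by_cases h : l = j
  · rw [h, HahnSeries.coeff_single_same]
    exact hc
  · rw [HahnSeries.coeff_single_of_ne h]
    exact Submodule.zero_mem _

theorem one_mem_RR : (1 : HahnSeries ℤ L) ∈ D.RR := D.single_RR D.one_mem_V_zero

/-- A series with nonzero leading coefficient has an inverse with homogeneous coefficients. -/
theorem exists_inv (hD : D.Dom) {j : ℤ} {F : HahnSeries ℤ L} (hF : F ∈ D.HT j)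
    (h0 : F.coeff j ≠ 0) : ∃ G ∈ D.HT (-j), F * G = 1 := by
  have := hD.1
  obtain ⟨v, hv, hv1⟩ := hD.2 j _ (hF.1 j) h0
  have hF0 : F ≠ 0 := fun h => h0 (by rw [h]; rfl)
  have ho : F.order = j := le_antisymm (HahnSeries.order_le_of_coeff_ne_zero h0)
    ((HahnSeries.le_order_iff_forall hF0).2 hF.2)
  have hu : IsUnit F := by
    refine HahnSeries.isUnit_of_isUnit_leadingCoeff_AddUnitOrder ?_ (AddGroup.isAddUnit _)
    rw [HahnSeries.leadingCoeff_eq, ho]
    exact IsUnit.of_mul_eq_one v hv1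
  obtain ⟨G, hG⟩ := hu.exists_right_inv
  have hG0 : G ≠ 0 := fun h => by simp [h] at hG
  have hlow : ∀ s, s < G.order → G.coeff s = 0 := fun _ h => HahnSeries.coeff_eq_zero_of_lt_order h
  have hoG : G.order = -j := by
    by_contra hne
    have h1 := coeff_mul_lead hF.2 hlow
    rw [hG, HahnSeries.coeff_one, if_neg (by omega)] at h1
    have h2 : G.coeff G.order = 0 := by
      rw [← one_mul (G.coeff G.order), ← hv1, mul_comm (F.coeff j), mul_assoc, ← h1, mul_zero]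
    exact hG0 (HahnSeries.coeff_order_eq_zero.1 h2)
  rw [hoG] at hlow
  refine ⟨G, ⟨?_, hlow⟩, hG⟩
  have key : ∀ r : ℕ, ∀ l, l < -j + r → G.coeff l ∈ D.H l := by
    intro r
    induction r with
    | zero =>
      intro l hl
      rw [hlow l (by simpa using hl)]
      exact Submodule.zero_mem _
    | succ r ih =>
      intro l hl
      by_cases hl' : l < -j
      · rw [hlow l hl']
        exact Submodule.zero_mem _
      have h1 := coeff_mul_Icc hF.2 hlow (l + j)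
      rw [hG, ← Finset.add_sum_erase _ _ (a := j) (Finset.mem_Icc.2 ⟨le_rfl, by omega⟩),
        add_sub_cancel_right] at h1
      have h2 : F.coeff j * G.coeff l ∈ D.H (l + j) := by
        rw [← sub_eq_iff_eq_add.2 h1]
        refine Submodule.sub_mem _ ((D.RR_le_HT D.one_mem_RR).1 _)
          (Submodule.sum_mem _ fun s hs => ?_)
        have hs1 := Finset.mem_erase.1 hs
        have hs2 := Finset.mem_Icc.1 hs1.2
        have hs3 := hs1.1
        have := D.H_mul (hF.1 s) (ih (l + j - s) (by push_cast at hl; omega))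
        rwa [add_sub_cancel] at this
      have h3 := D.H_mul hv h2
      rwa [← mul_assoc, mul_comm v, hv1, one_mul, show -j + (l + j) = l by ring] at h3
  intro l
  exact key (l + j + 1).toNat l (by omega)

variable {ι : Type*} [Fintype ι] {b : ι → ℤ} {E : ℤ → Submodule k (ι → L)}
  {M : Submodule (Q k ⧸ D.P) (ι → Q k ⧸ D.P)}

omit [Fintype ι] in
theorem mkA_apply (v : ι → Q k) (p : ι) : mkA D.P v p = Ideal.Quotient.mk D.P (v p) := rfl

omit [Fintype ι] in
theorem mkA_eq_zero {v : ι → Q k} : mkA D.P v = 0 ↔ v ∈ D.PF := by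
  rw [D.mem_PF, funext_iff]
  exact forall_congr' fun p => Ideal.Quotient.eq_zero_iff_mem

omit [Fintype ι] in
theorem mkA_surjective (x : ι → Q k ⧸ D.P) : ∃ v, mkA D.P v = x := by
  choose v hv using fun p => Ideal.Quotient.mk_surjective (x p)
  exact ⟨v, funext hv⟩

omit [Fintype ι] in
theorem mem_pc {i : ℤ} {x : ι → Q k ⧸ D.P} :
    x ∈ pc D.w b D.P i ↔ ∃ v ∈ FQ D.w b i, mkA D.P v = x :=
  ⟨fun ⟨v, h1, h2⟩ => ⟨v, mem_FQ.2 h1, (funext h2).symm⟩,
    fun ⟨v, h1, h2⟩ => ⟨v, mem_FQ.1 h1, fun p => (congrFun h2 p).symm⟩⟩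

omit [Fintype ι] in
/-- Maps on `JE` killing `PF` descend to the module. -/
theorem descend (hM : D.Desc b E M) {N : Type*} [AddCommGroup N] [Module (Q k ⧸ D.P) N]
    [Module (Q k) N] [IsScalarTower (Q k) (Q k ⧸ D.P) N] (Φ : D.JE b E →ₗ[Q k] N)
    (h0 : ∀ v : D.JE b E, v.1 ∈ D.PF → Φ v = 0) :
    ∃ φ : M →ₗ[Q k ⧸ D.P] N, ∀ v : D.JE b E, φ ⟨mkA D.P v.1, (hM v.1).1 v.2⟩ = Φ v := by
  have hs : ∀ x : M, ∃ v : D.JE b E, mkA D.P v.1 = x.1 := fun x => by
    obtain ⟨v, hv⟩ := D.mkA_surjective x.1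
    exact ⟨⟨v, (hM v).2 (hv ▸ x.2)⟩, hv⟩
  choose σ hσ using hs
  have hw : ∀ u v : D.JE b E, mkA D.P u.1 = mkA D.P v.1 → Φ u = Φ v := fun u v h => by
    rw [← sub_eq_zero, ← map_sub]
    refine h0 _ (D.mkA_eq_zero.1 ?_)
    rw [Submodule.coe_sub, map_sub, h, sub_self]
  refine ⟨{ toFun := fun x => Φ (σ x)
            map_add' := fun x y => ?_
            map_smul' := fun a x => ?_ }, fun v => hw _ _ (hσ _)⟩
  · rw [← map_add]
    refine hw _ _ ?_
    rw [Submodule.coe_add, map_add, hσ, hσ, hσ, Submodule.coe_add]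
  · obtain ⟨q, rfl⟩ := Ideal.Quotient.mk_surjective a
    have h1 : ∀ z : N, (Ideal.Quotient.mk D.P q) • z = q • z := fun z =>
      algebraMap_smul (Q k ⧸ D.P) q z
    rw [RingHom.id_apply, h1, ← map_smul]
    refine hw _ _ ?_
    rw [Submodule.coe_smul, map_smul, hσ, hσ, Submodule.coe_smul]
    exact algebraMap_smul (Q k ⧸ D.P) q x.1

end Md

end Pool.Agent.Lib.MP_86e60f_al.HW
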