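import Mathlib
import Pool.Agent.Lib.MP_86e60f_al.Defs
import Pool.Agent.Lib.MP_86e60f_al.HW.Ser

set_option autoImplicit false

open MvPolynomial Module Matrix
open scoped TensorProduct

namespace Pool.Agent.Lib.MP_86e60f_al.HW

/-- Leibniz rule and change of offset for the Hasse type operators. -/
structure SLeib (k L : Type*) [Field k] [CommRing L] [Algebra k L] : Prop where
  zero : ∀ (j0 : ℤ) (F : HahnSeries ℤ L), Dh k j0 0 F = F
  mul : ∀ (j0 j1 : ℤ) (c : ℕ) (F G : HahnSeries ℤ L), Dh k (j0 + j1) c (F * G) =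
    ∑ p ∈ Finset.HasAntidiagonal.antidiagonal c, Dh k j0 p.1 F * Dh k j1 p.2 G
  off : ∀ (j0 : ℤ) (c : ℕ) (F : HahnSeries ℤ L), Dh k j0 c F =
    ∑ p ∈ Finset.HasAntidiagonal.antidiagonal c, (Ring.choose (-j0) p.1 : ℤ) • Dh k 0 p.2 F

/-- The twisted commutation relation forces triviality. -/
def SAbs (k L : Type*) [Field k] [CommRing L] [Algebra k L] : Prop :=
  ∀ (K : Subalgebra k L), Nontrivial L → (∀ x ∈ K, ∀ y ∈ K, x * y = 0 → x = 0 ∨ y = 0) →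
    ∀ (N : Submodule k (ℤ → Module.End k L)),
    (∀ x ∈ K, ∀ θ ∈ N, (fun j => LinearMap.mulLeft k x * θ j) ∈ N) →
    (∀ x ∈ K, ∀ θ ∈ N, (fun j => θ j * LinearMap.mulLeft k x) ∈ N) →
    ∀ (a : ℕ → L) (m : ℕ) (θ : ℤ → Module.End k L), (∀ r, a r ∈ K) → a 0 = 1 → 0 < m →
    (∀ r, (fun j => θ j * LinearMap.mulLeft k (a r) -
      ∑ p ∈ Finset.HasAntidiagonal.antidiagonal r,
      (m.choose p.2 : k) • (LinearMap.mulLeft k (a p.1) * θ j)) ∈ N) → θ ∈ N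

/-- From the one dimensional statement to the condition over the hypersurface. -/
def SC2 : Prop :=
  ∀ (R : Type) [CommRing R] [IsLocalRing R] [IsDomain R] (g : R), g ≠ 0 →
    ∀ [IsDomain (R ⧸ Ideal.span {g})], ¬ IsField (R ⧸ Ideal.span {g}) →
    (∀ r : R ⧸ Ideal.span {g}, r ≠ 0 → ∀ x, ¬ IsUnit x → ∃ s : ℕ, r ∣ x ^ s) →
    ∀ I : Ideal (R ⧸ Ideal.span {g}),
    (Module.IsTorsionFree (R ⧸ Ideal.span {g})
      (I ⊗[R ⧸ Ideal.span {g}] Module.Dual (R ⧸ Ideal.span {g}) I) → I.IsPrincipal) →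
    IsCMOfCodim R (I ⊗[R] CategoryTheory.Abelian.Ext.{0} (ModuleCat.of R I) (ModuleCat.of R R) 1)
      1 →
    CategoryTheory.projectiveDimension (ModuleCat.of R I) ≠ ⊤

namespace Md

variable {k L : Type*} [Field k] [CommRing L] [Algebra k L] (D : Md k L)

/-- Functionals killing a tail are given by the residue pairing. -/
def SRep (lam : L →ₗ[k] k) : Prop :=
  ∀ μ : HahnSeries ℤ L →ₗ[k] k, (∃ N, ∀ F ∈ D.HT N, μ F = 0) →
    ∃ U ∈ D.HH, ∀ F ∈ D.HH, μ F = lam ((U * F).coeff D.a)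

/-- The formal one parameter family of multipliers. -/
def SU (I : Submodule k (HahnSeries ℤ L)) : Prop :=
  ∃ u : ℕ → HahnSeries ℤ L, u 0 = 1 ∧ (∀ i, u i ∈ D.HT 0) ∧
    ∀ (j0 : ℤ) (r : ℕ), ∀ g ∈ I,
      ∑ p ∈ Finset.HasAntidiagonal.antidiagonal r, u p.1 * Dh k j0 p.2 g ∈ I

/-- The next coefficient is given by a multiplication. -/
def SStep (I : Submodule k (HahnSeries ℤ L)) (m : ℕ) : Prop :=
  ∃ w ∈ D.H m, ∀ j, ∀ F ∈ I, (∀ i, i < j + m → i ≠ j → F.coeff i = 0) →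
    F.coeff (j + m) - w * F.coeff j ∈ D.Ld I (j + m)

/-- A rigid fractional ideal becomes graded after multiplication by a unit. -/
def SGrad (I : Submodule k (HahnSeries ℤ L)) : Prop :=
  ∃ v ∈ D.HT 0, ∃ v' ∈ D.HT 0, v * v' = 1 ∧ Grd (I.map (LinearMap.mulLeft k v)) ∧
    D.SLat (I.map (LinearMap.mulLeft k v)) ∧ D.Rig (I.map (LinearMap.mulLeft k v))

/-- Torsion freeness gives the balanced property for ideals. -/
def STFI (R : Type*) [CommRing R] : Prop :=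
  ∀ ρ : R →+* HahnSeries ℤ L, Function.Injective ρ → (∀ F, F ∈ D.RR ↔ ∃ x, ρ x = F) →
    ∀ (I : Ideal R) (J : Submodule k (HahnSeries ℤ L)), (∀ F, F ∈ J ↔ ∃ g ∈ I, ρ g = F) →
    D.SLat J → Module.IsTorsionFree R (I ⊗[R] Module.Dual R I) → D.Bal J

/-- The coefficients of the parametrisation. -/
def SRho1 (ρ : MvPowerSeries (Fin 3) k →+* HahnSeries ℤ L) : Prop :=
  ∀ (x : MvPowerSeries (Fin 3) k) (j : ℤ), ∀ q ∈ Qd (k := k) D.w j,
    (∀ α, Finsupp.weight D.w α = j → MvPolynomial.coeff α q = MvPowerSeries.coeff α x) →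
    (ρ x).coeff j = D.ev q

/-- Kernel and range of the parametrisation. -/
structure SRho (ρ : MvPowerSeries (Fin 3) k →+* HahnSeries ℤ L) : Prop where
  ker : RingHom.ker ρ =
    Ideal.span {(D.f : MvPowerSeries (Fin 3) k), (D.g : MvPowerSeries (Fin 3) k)}
  range : ∀ F, F ∈ D.RR ↔ ∃ x, ρ x = F
  const : ∀ x, (ρ x).coeff 0 = algebraMap k L (MvPowerSeries.constantCoeff x)

/-- Consequences of the completed ring being a domain. -/
def SFin (R : Type*) [CommRing R] : Prop :=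
  ∀ ρ : R →+* HahnSeries ℤ L, IsDomain R → Function.Injective ρ →
    (∀ F, F ∈ D.RR ↔ ∃ x, ρ x = F) → (∀ x, ¬ IsUnit x → (ρ x).coeff 0 = 0) →
    D.Dom ∧ ¬ IsField R ∧ (∀ r : R, r ≠ 0 → ∀ x, ¬ IsUnit x → ∃ s : ℕ, r ∣ x ^ s) ∧
    ∀ I : Ideal R, I ≠ ⊥ → ∃ J : Submodule k (HahnSeries ℤ L),
      (∀ F, F ∈ J ↔ ∃ g ∈ I, ρ g = F) ∧ J ≤ D.RR ∧ D.SLat J

/-- The rank one statement for submodules of the free module of rank one. -/
def SUnit : Prop :=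
  ∀ M : Submodule (Q k ⧸ D.P) (Unit → Q k ⧸ D.P),
    M ≤ Submodule.span (Q k ⧸ D.P) {x | x ∈ M ∧ ∃ i, x ∈ pc D.w (fun _ => 0) D.P i} →
    FiniteDimensional k ((Unit → Q k ⧸ D.P) ⧸ M) →
    Module.IsTorsionFree (Q k ⧸ D.P) (M ⊗[Q k ⧸ D.P] Module.Dual (Q k ⧸ D.P) M) →
    (∀ i, ∀ u ∈ D.H i, IsNilpotent u → u = 0) →
    ∃ E, D.Desc (fun _ => 0) E M ∧ D.SCl (fun _ => 0) E ∧
      ∃ s, ∃ x0 ∈ E s, x0 ∈ D.FV (fun _ => 0) s ∧
        ∀ i, ∀ x ∈ E i, ∃ v ∈ D.V (i - s), x = v • x0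

/-- The statement for homogeneous ideals of a reduced ring. -/
def SIdl : Prop :=
  IsReduced (Q k ⧸ D.P) → ∀ I : Ideal (Q k ⧸ D.P),
    I ≤ Ideal.span {x | x ∈ I ∧ ∃ (i : ℤ) (q : Q k), q.IsWeightedHomogeneous D.w i ∧
      x = Ideal.Quotient.mk D.P q} →
    FiniteDimensional k ((Q k ⧸ D.P) ⧸ I) →
    Module.IsTorsionFree (Q k ⧸ D.P) (I ⊗[Q k ⧸ D.P] Module.Dual (Q k ⧸ D.P) I) → I.IsPrincipal

end Md

end Pool.Agent.Lib.MP_86e60f_al.HW
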