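import Mathlib
import Pool.Agent.Lib.MP_86e60f_al.HW.Stmt2

set_option autoImplicit false

open Module
open scoped TensorProduct

namespace Pool.Agent.Lib.MP_86e60f_al.HW

namespace Abs

/-- Two embeddings of a finite extension cannot differ by the factor `(1 + X) ^ m` on a unit
power series. -/
theorem core {k K W : Type*} [Field k] [Field K] [Algebra k K] [FiniteDimensional k K] [Field W]
    [Algebra k W] [IsAlgClosed W] [Algebra.IsAlgebraic k W] (s1 s2 : K →ₐ[k] W) (a : ℕ → K)
    (m : ℕ) (h0 : a 0 = 1) (hm : 0 < m)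
    (h : ∀ r, s1 (a r) = ∑ p ∈ Finset.HasAntidiagonal.antidiagonal r,
      (m.choose p.2 : k) • s2 (a p.1)) : False := by
  obtain ⟨σ, hσ⟩ : ∃ σ : W →ₐ[k] W, ∀ x, σ (s2 x) = s1 x := by
    letI : Algebra K W := s2.toRingHom.toAlgebra
    haveI : IsScalarTower k K W :=
      IsScalarTower.of_algebraMap_eq fun c => (s2.commutes c).symm
    haveI : Algebra.IsAlgebraic K W := Algebra.IsAlgebraic.tower_top (K := k) K
    obtain ⟨σ, hσ⟩ := IsAlgClosed.surjective_domRestrict_of_isAlgebraic
      (K := k) (L := K) (M := W) (E := W) s1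
    exact ⟨σ, fun x => DFunLike.congr_fun hσ x⟩
  let s : ℕ → (K →ₐ[k] W) := fun n => (σ ^ n).comp s2
  let V : ℕ → PowerSeries W := fun n => PowerSeries.mk fun r => s n (a r)
  let Z : Polynomial W := (Polynomial.X + 1) ^ m
  have hstep : ∀ n, V (n + 1) = V n * (Z : PowerSeries W) := by
    intro n
    ext r
    rw [PowerSeries.coeff_mul, PowerSeries.coeff_mk]
    have h1 : s (n + 1) (a r) = (σ ^ n) (s1 (a r)) := by
      change (σ ^ (n + 1)) (s2 (a r)) = _
      rw [pow_succ, AlgHom.mul_apply, hσ]
    rw [h1, h r, map_sum]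
    refine Finset.sum_congr rfl fun p _ => ?_
    rw [PowerSeries.coeff_mk, Polynomial.coeff_coe, Polynomial.coeff_X_add_one_pow, map_smul,
      Algebra.smul_def, map_natCast, mul_comm]
    rfl
  have hV : ∀ n, V n = V 0 * ((Z ^ n : Polynomial W) : PowerSeries W) := by
    intro n
    induction n with
    | zero => simp
    | succ n ih => rw [hstep, ih, pow_succ, Polynomial.coe_mul, mul_assoc]
  have hV0 : V 0 ≠ 0 := fun h => by
    have := congrArg (PowerSeries.coeff 0) h
    rw [PowerSeries.coeff_mk, h0, map_one, map_zero] at this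
    exact one_ne_zero this
  obtain ⟨n, n', hne, hs⟩ := Finite.exists_ne_map_eq_of_infinite s
  have h1 : V n = V n' := by
    simp only [V, hs]
  rw [hV n, hV n'] at h1
  have h2 : Z ^ n = Z ^ n' := Polynomial.coe_injective W (mul_left_cancel₀ hV0 h1)
  have h3 : (Polynomial.X + 1 : Polynomial W).natDegree = 1 := by
    simpa using Polynomial.natDegree_X_add_C (1 : W)
  have h4 := congrArg Polynomial.natDegree h2
  simp only [Z, Polynomial.natDegree_pow, h3, mul_one] at h4
  exact hne (Nat.eq_of_mul_eq_mul_right hm h4)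

/-- The same for a proper ideal of the tensor square. -/
theorem ideal_top {k K : Type*} [Field k] [CommRing K] [IsDomain K] [Algebra k K]
    [FiniteDimensional k K] (I : Ideal (K ⊗[k] K)) (a : ℕ → K) (m : ℕ) (h0 : a 0 = 1) (hm : 0 < m)
    (h : ∀ r, (1 : K) ⊗ₜ[k] a r - ∑ p ∈ Finset.HasAntidiagonal.antidiagonal r,
      (m.choose p.2 : k) • (a p.1 ⊗ₜ[k] (1 : K)) ∈ I) : I = ⊤ := by
  by_contra hI
  obtain ⟨M, hM, hIM⟩ := Ideal.exists_le_maximal I hI
  haveI : IsDomain ((K ⊗[k] K) ⧸ M) := Ideal.Quotient.isDomain M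
  haveI : FiniteDimensional k ((K ⊗[k] K) ⧸ M) :=
    Module.Finite.of_surjective (Ideal.Quotient.mkₐ k M).toLinearMap
      (Ideal.Quotient.mkₐ_surjective k M)
  let φ : ((K ⊗[k] K) ⧸ M) →ₐ[k] AlgebraicClosure k := IsAlgClosed.lift
  let ψ : (K ⊗[k] K) →ₐ[k] AlgebraicClosure k := φ.comp (Ideal.Quotient.mkₐ k M)
  let s1 : K →ₐ[k] AlgebraicClosure k := ψ.comp Algebra.TensorProduct.includeRight
  let s2 : K →ₐ[k] AlgebraicClosure k := ψ.comp Algebra.TensorProduct.includeLeft
  have hr : ∀ r, s1 (a r) = ∑ p ∈ Finset.HasAntidiagonal.antidiagonal r,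
      (m.choose p.2 : k) • s2 (a p.1) := by
    intro r
    have h1 : ψ ((1 : K) ⊗ₜ[k] a r - ∑ p ∈ Finset.HasAntidiagonal.antidiagonal r,
      (m.choose p.2 : k) • (a p.1 ⊗ₜ[k] (1 : K))) = 0 := by
      change φ (Ideal.Quotient.mk M _) = 0
      rw [Ideal.Quotient.eq_zero_iff_mem.2 (hIM (h r)), map_zero]
    rw [map_sub, sub_eq_zero, map_sum] at h1
    simp only [map_smul] at h1
    exact h1
  letI : Field K := fieldOfFiniteDimensional k K
  exact core s1 s2 a m h0 hm hr

variable {k L : Type*} [Field k] [CommRing L] [Algebra k L] (K : Subalgebra k L)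

/-- Left multiplication on families of endomorphisms. -/
noncomputable def lft : K →ₐ[k] Module.End k (ℤ → Module.End k L) :=
  AlgHom.ofLinearMap
    { toFun := fun x => (LinearMap.mulLeft k (LinearMap.mulLeft k (x : L))).compLeft ℤ
      map_add' := fun x y => by
        ext θ j u
        simp [add_mul]
      map_smul' := fun c x => by
        ext θ j u
        simp }
    (by
      ext θ j u
      simp)
    (fun x y => by
      ext θ j u
      simp [mul_assoc])

/-- Right multiplication on families of endomorphisms. -/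
noncomputable def rgt : K →ₐ[k] Module.End k (ℤ → Module.End k L) :=
  AlgHom.ofLinearMap
    { toFun := fun x => (LinearMap.mulRight k (LinearMap.mulLeft k (x : L))).compLeft ℤ
      map_add' := fun x y => by
        ext θ j u
        simp [add_mul]
      map_smul' := fun c x => by
        ext θ j u
        simp }
    (by
      ext θ j u
      simp)
    (fun x y => by
      ext θ j u
      simp [mul_left_comm, mul_assoc])

theorem lft_apply (x : K) (θ : ℤ → Module.End k L) :
    lft K x θ = fun j => LinearMap.mulLeft k (x : L) * θ j := rfl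

theorem rgt_apply (x : K) (θ : ℤ → Module.End k L) :
    rgt K x θ = fun j => θ j * LinearMap.mulLeft k (x : L) := rfl

theorem comm (x y : K) : Commute (lft K x) (rgt K y) := by
  refine LinearMap.ext fun θ => funext fun j => ?_
  simp only [Module.End.mul_apply, lft_apply, rgt_apply, mul_assoc]

end Abs

theorem sAbs (k L : Type*) [Field k] [CommRing L] [Algebra k L] [FiniteDimensional k L] :
    SAbs k L := by
  intro K hL hK N hl hr a m θ ha h0 hm h
  haveI : NoZeroDivisors K := ⟨fun {x y} hxy =>
    (hK x x.2 y y.2 (congrArg Subtype.val hxy)).imp Subtype.ext Subtype.ext⟩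
  haveI : IsDomain K := NoZeroDivisors.to_isDomain K
  let ρ : K ⊗[k] K →ₐ[k] Module.End k (ℤ → Module.End k L) :=
    Algebra.TensorProduct.lift (Abs.lft K) (Abs.rgt K) (Abs.comm K)
  have hρ : ∀ β, ∀ η ∈ N, ρ β η ∈ N := by
    intro β
    induction β using TensorProduct.induction_on with
    | zero => intro η _; simp
    | tmul x y =>
      intro η hη
      rw [Algebra.TensorProduct.lift_tmul, Module.End.mul_apply]
      exact hl x x.2 _ (hr y y.2 _ hη)
    | add β γ hβ hγ =>
      intro η hη
      rw [map_add, LinearMap.add_apply]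
      exact N.add_mem (hβ η hη) (hγ η hη)
  let I : Ideal (K ⊗[k] K) :=
    { carrier := {β | ρ β θ ∈ N}
      add_mem' := fun {β γ} hβ hγ => by
        change ρ (β + γ) θ ∈ N
        rw [map_add, LinearMap.add_apply]
        exact N.add_mem hβ hγ
      zero_mem' := by
        change ρ 0 θ ∈ N
        simp
      smul_mem' := fun c β hβ => by
        change ρ (c * β) θ ∈ N
        rw [map_mul, Module.End.mul_apply]
        exact hρ c _ hβ }
  have hI : I = ⊤ := by
    refine Abs.ideal_top I (fun r => ⟨a r, ha r⟩) m (Subtype.ext h0) hm fun r => ?_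
    change ρ _ θ ∈ N
    have h1 : ρ ((1 : K) ⊗ₜ[k] (⟨a r, ha r⟩ : K) -
        ∑ p ∈ Finset.HasAntidiagonal.antidiagonal r,
          (m.choose p.2 : k) • ((⟨a p.1, ha p.1⟩ : K) ⊗ₜ[k] (1 : K))) θ =
        fun j => θ j * LinearMap.mulLeft k (a r) -
          ∑ p ∈ Finset.HasAntidiagonal.antidiagonal r,
            (m.choose p.2 : k) • (LinearMap.mulLeft k (a p.1) * θ j) := by
      funext j
      simp only [ρ, map_sub, map_sum, map_smul, Algebra.TensorProduct.lift_tmul, map_one,
        one_mul, mul_one, LinearMap.sub_apply, LinearMap.sum_apply, LinearMap.smul_apply,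
        Pi.sub_apply, Finset.sum_apply, Pi.smul_apply, Abs.lft_apply, Abs.rgt_apply]
    rw [h1]
    exact h r
  have h1 : (1 : K ⊗[k] K) ∈ I := hI ▸ Submodule.mem_top
  change ρ 1 θ ∈ N at h1
  rwa [map_one] at h1

end Pool.Agent.Lib.MP_86e60f_al.HW
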