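import Mathlib
import Pool.Agent.Lib.MP_86e60f_al.HW.Stmt2

set_option autoImplicit false

open MvPolynomial Module Matrix

namespace Pool.Agent.Lib.MP_86e60f_al.HW

namespace Md

variable {k L : Type*} [Field k] [CommRing L] [Algebra k L]

theorem Step_ld (D : Md k L) {I : Submodule k (HahnSeries ℤ L)} (hI : D.SLat I) {j : ℤ}
    {G : HahnSeries ℤ L} (hG : G ∈ I) (h0 : ∀ i, i < j → G.coeff i = 0) :
    G ∈ I ⊓ D.HT j := by
  obtain ⟨b, hb⟩ := hI.low
  exact ⟨hG, (hb hG).1, h0⟩

theorem Step_gap (D : Md k L) {I : Submodule k (HahnSeries ℤ L)} {m : ℕ} (hI : D.SLat I)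
    (hP : D.Pm I m) (l : ℤ) (t : ℕ) (ht : t < m) :
    ∀ G ∈ I, (∀ i, i < l - t → G.coeff i = 0) → G.coeff l ∈ D.Ld I l := by
  induction t with
  | zero =>
    intro G hG h0
    exact ⟨G, D.Step_ld hI hG (by simpa using h0), rfl⟩
  | succ t ih =>
    intro G hG h0
    have h1 : G.coeff (l - (t + 1 : ℕ)) ∈ D.Ld I (l - (t + 1 : ℕ)) :=
      ⟨G, D.Step_ld hI hG h0, rfl⟩
    obtain ⟨F, hF, hFc, hF0⟩ := hP _ _ h1
    have h2 := ih (by omega) (G - F) (I.sub_mem hG hF) (by
      intro i hi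
      rw [HahnSeries.coeff_sub]
      by_cases h : i = l - (t + 1 : ℕ)
      · rw [h, hFc, sub_self]
      · rw [h0 i (by push_cast at h ⊢; omega), hF0 i (by push_cast; omega) h, sub_self])
    rwa [HahnSeries.coeff_sub, hF0 l (by push_cast; omega) (by push_cast; omega), sub_zero] at h2

theorem Step_theta (D : Md k L) {I : Submodule k (HahnSeries ℤ L)} {m : ℕ} (hI : D.SLat I)
    (hm : 0 < m) (hP : D.Pm I m) (j : ℤ) :
    ∃ θ : Module.End k L, ∀ G ∈ I, (∀ i, i < j → G.coeff i = 0) →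
      G.coeff (j + m) - θ (G.coeff j) ∈ D.Ld I (j + m) := by
  let φ : ↥(I ⊓ D.HT j) →ₗ[k] D.Ld I j :=
    (HahnSeries.coeff.linearMap (R := k) j).submoduleMap (I ⊓ D.HT j)
  have hφ : Function.Surjective φ := LinearMap.submoduleMap_surjective _ _
  obtain ⟨s, hs⟩ := φ.exists_rightInverse_of_surjective (LinearMap.range_eq_top.mpr hφ)
  obtain ⟨π, hπ⟩ := (D.Ld I j).subtype.exists_leftInverse_of_injective (Submodule.ker_subtype _)
  refine ⟨HahnSeries.coeff.linearMap (R := k) (j + m) ∘ₗ (I ⊓ D.HT j).subtype ∘ₗ s ∘ₗ π, ?_⟩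
  intro G hG h0
  have hc : G.coeff j ∈ D.Ld I j := ⟨G, D.Step_ld hI hG h0, rfl⟩
  have h1 : π (G.coeff j) = ⟨_, hc⟩ := LinearMap.congr_fun hπ ⟨_, hc⟩
  have h2 : φ (s ⟨_, hc⟩) = ⟨_, hc⟩ := LinearMap.congr_fun hs ⟨_, hc⟩
  have h3 : (s ⟨_, hc⟩).1.coeff j = G.coeff j := congrArg Subtype.val h2
  have h4 := D.Step_gap hI hP (j + m) (m - 1) (by omega) (G - (s ⟨_, hc⟩).1)
    (I.sub_mem hG (s ⟨_, hc⟩).2.1) (by
      intro i hi
      rw [HahnSeries.coeff_sub]
      by_cases h : i = j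
      · rw [h, h3, sub_self]
      · rw [h0 i (by omega), (s ⟨_, hc⟩).2.2.2 i (by omega), sub_self])
  rw [HahnSeries.coeff_sub] at h4
  simp only [LinearMap.comp_apply, Submodule.subtype_apply, h1]
  exact h4

theorem Step_sum (f : ℕ → L) (c : L) (r : ℕ) :
    ∑ p ∈ Finset.HasAntidiagonal.antidiagonal r, f p.1 * ((Ring.choose (0 : ℤ) p.2 : ℤ) • c) =
      f r * c := by
  rw [Finset.sum_eq_single (r, 0)]
  · simp
  · rintro ⟨p, q⟩ hp hne
    rw [Finset.HasAntidiagonal.mem_antidiagonal] at hp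
    have hq : 0 < q := by
      rcases Nat.eq_zero_or_pos q with h | h
      · subst h
        simp only [add_zero] at hp
        exact absurd (by rw [hp]) hne
      · exact h
    rw [Ring.choose_zero_pos ℤ hq, zero_smul, mul_zero]
  · intro h
    exact absurd (Finset.HasAntidiagonal.mem_antidiagonal.2 (add_zero r)) h

theorem Step_low {u F : HahnSeries ℤ L} {j : ℤ} (hu : ∀ s, s < 0 → u.coeff s = 0)
    (hF : ∀ i, i < j → F.coeff i = 0) (j0 : ℤ) (c : ℕ) :
    (∀ i, i < j → (u * Dh k j0 c F).coeff i = 0) ∧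
      (u * Dh k j0 c F).coeff j = u.coeff 0 * ((Ring.choose (j - j0) c : ℤ) • F.coeff j) := by
  have hD : ∀ i, i < j → (Dh k j0 c F).coeff i = 0 := fun i hi => by
    rw [coeff_Dh, hF i hi, smul_zero]
  refine ⟨fun i hi => coeff_mul_low hu hD (by omega), ?_⟩
  have := coeff_mul_lead hu hD
  rwa [zero_add, coeff_Dh] at this

theorem Step_top {u F : HahnSeries ℤ L} {j : ℤ} {m : ℕ} (hm : 0 < m)
    (hu : ∀ s, s < 0 → u.coeff s = 0) (hF : ∀ i, i < j + m → i ≠ j → F.coeff i = 0) (c : ℕ) :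
    (u * Dh k j c F).coeff (j + m) = u.coeff m * ((Ring.choose (0 : ℤ) c : ℤ) • F.coeff j) +
      (m.choose c : k) • (u.coeff 0 * F.coeff (j + m)) := by
  have hne : j + m ≠ j := by omega
  have h1 : ∀ i, i < j + m → (F - HahnSeries.single j (F.coeff j)).coeff i = 0 := by
    intro i hi
    rw [HahnSeries.coeff_sub]
    by_cases h : i = j
    · rw [h, HahnSeries.coeff_single_same, sub_self]
    · rw [hF i hi h, HahnSeries.coeff_single_of_ne h, sub_self]
  have h2 := (Step_low (k := k) hu h1 j c).2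
  have h3 : Dh k j c (HahnSeries.single j (F.coeff j)) =
      HahnSeries.single j ((Ring.choose (0 : ℤ) c : ℤ) • F.coeff j) := by
    ext i
    rw [coeff_Dh]
    by_cases h : i = j
    · rw [h, HahnSeries.coeff_single_same, HahnSeries.coeff_single_same, sub_self]
    · rw [HahnSeries.coeff_single_of_ne h, HahnSeries.coeff_single_of_ne h, smul_zero]
  have h4 : u * Dh k j c F = Dh k j c (HahnSeries.single j (F.coeff j)) * u +
      u * Dh k j c (F - HahnSeries.single j (F.coeff j)) := by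
    rw [map_sub]; ring
  rw [h4, HahnSeries.coeff_add, h2, h3, coeff_single_mul', HahnSeries.coeff_sub,
    HahnSeries.coeff_single_of_ne hne, sub_zero, add_sub_cancel_left, Ring.choose_natCast,
    mul_comm _ (u.coeff m), natCast_zsmul, Nat.cast_smul_eq_nsmul, mul_smul_comm (m.choose c)]

/-- The next coefficient is given by a multiplication, in all integer degrees. -/
def SStepZ (D : Md k L) (I : Submodule k (HahnSeries ℤ L)) (m : ℕ) : Prop :=
  ∃ w ∈ D.H m, ∀ j : ℤ, ∀ F ∈ I, (∀ i : ℤ, i < j + m → i ≠ j → F.coeff i = 0) →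
    F.coeff (j + m) - w * F.coeff j ∈ D.Ld I (j + m)

/-- The next coefficient after a gap is given by a multiplication. -/
theorem sStepZ (D : Md k L) (I : Submodule k (HahnSeries ℤ L)) (m : ℕ) (hD : D.Dom)
    (hA : SAbs k L) (hI : D.SLat I) (hm : 0 < m) (hP : D.Pm I m) (hU : D.SU I) :
    D.SStepZ I m := by
  choose θ hθ using D.Step_theta hI hm hP
  obtain ⟨u, hu0, huT, hu⟩ := hU
  let K : Subalgebra k L :=
    { carrier := {x | x ∈ D.H 0 ∧ ∀ j, ∀ c ∈ D.Ld I j, x * c ∈ D.Ld I j}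
      mul_mem' := fun {x y} hx hy => ⟨by simpa using D.H_mul hx.1 hy.1, fun j c hc => by
        rw [mul_assoc]; exact hx.2 j _ (hy.2 j c hc)⟩
      add_mem' := fun {x y} hx hy => ⟨Submodule.add_mem _ hx.1 hy.1, fun j c hc => by
        rw [add_mul]; exact Submodule.add_mem _ (hx.2 j c hc) (hy.2 j c hc)⟩
      algebraMap_mem' := fun r => ⟨D.V_le_H 0 (D.algebraMap_mem_V r), fun j c hc => by
        rw [← Algebra.smul_def]; exact Submodule.smul_mem _ r hc⟩ }
  let N : Submodule k (ℤ → Module.End k L) :=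
    { carrier := {η | ∃ w ∈ D.H m, ∀ j, ∀ c ∈ D.Ld I j, η j c - w * c ∈ D.Ld I (j + m)}
      add_mem' := by
        rintro η η' ⟨w, hw, h⟩ ⟨w', hw', h'⟩
        refine ⟨w + w', Submodule.add_mem _ hw hw', fun j c hc => ?_⟩
        have := Submodule.add_mem _ (h j c hc) (h' j c hc)
        convert this using 1
        simp only [Pi.add_apply, LinearMap.add_apply]
        ring
      zero_mem' := ⟨0, Submodule.zero_mem _, fun j c _ => by simp⟩
      smul_mem' := by
        rintro r η ⟨w, hw, h⟩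
        refine ⟨r • w, Submodule.smul_mem _ r hw, fun j c hc => ?_⟩
        have := Submodule.smul_mem _ r (h j c hc)
        convert this using 1
        simp only [Pi.smul_apply, LinearMap.smul_apply, smul_sub, smul_mul_assoc] }
  have hG : ∀ (j : ℤ) (r : ℕ) (F : HahnSeries ℤ L), (∀ i, i < j → F.coeff i = 0) →
      (∀ i, i < j → (∑ p ∈ Finset.HasAntidiagonal.antidiagonal r,
        u p.1 * Dh k j p.2 F).coeff i = 0) ∧
      (∑ p ∈ Finset.HasAntidiagonal.antidiagonal r, u p.1 * Dh k j p.2 F).coeff j =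
        (u r).coeff 0 * F.coeff j := by
    intro j r F hF
    refine ⟨fun i hi => ?_, ?_⟩
    · rw [HahnSeries.coeff_sum]
      exact Finset.sum_eq_zero fun p _ => (Step_low (huT p.1).2 hF j p.2).1 i hi
    · rw [HahnSeries.coeff_sum, ← Step_sum (fun i => (u i).coeff 0) (F.coeff j) r]
      refine Finset.sum_congr rfl fun p _ => ?_
      rw [(Step_low (huT p.1).2 hF j p.2).2, sub_self]
  have haK : ∀ r, (u r).coeff 0 ∈ K := by
    intro r
    refine ⟨(huT r).1 0, ?_⟩
    rintro j c ⟨F, hF, rfl⟩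
    obtain ⟨h1, h2⟩ := hG j r F hF.2.2
    exact ⟨_, D.Step_ld hI (hu j r F hF.1) h1, h2⟩
  have key : θ ∈ N := by
    refine hA K hD.1 ?_ N ?_ ?_ (fun r => (u r).coeff 0) m θ haK (by simp [hu0]) hm ?_
    · intro x hx y _ hxy
      by_cases h : x = 0
      · exact Or.inl h
      · obtain ⟨v, _, hv⟩ := hD.2 0 x hx.1 h
        refine Or.inr ?_
        calc y = (x * v) * y := by rw [hv, one_mul]
          _ = v * (x * y) := by ring
          _ = 0 := by rw [hxy, mul_zero]
    · rintro x hx η ⟨w, hw, h⟩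
      refine ⟨x * w, by simpa using D.H_mul hx.1 hw, fun j c hc => ?_⟩
      have := hx.2 _ _ (h j c hc)
      convert this using 1
      simp only [Module.End.mul_apply, LinearMap.mulLeft_apply]
      ring
    · rintro x hx η ⟨w, hw, h⟩
      refine ⟨w * x, by simpa using D.H_mul hw hx.1, fun j c hc => ?_⟩
      have := h j _ (hx.2 j c hc)
      convert this using 1
      simp only [Module.End.mul_apply, LinearMap.mulLeft_apply]
      ring
    · intro r
      refine ⟨(u r).coeff m, (huT r).1 m, fun j c hc => ?_⟩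
      obtain ⟨F, hF, hFc, hF0⟩ := hP j c hc
      have hF1 : ∀ i, i < j → F.coeff i = 0 := fun i hi => hF0 i (by omega) hi.ne
      obtain ⟨h1, h2⟩ := hG j r F hF1
      have h3 := hθ j _ (hu j r F hF) h1
      have h4 := hθ j F hF hF1
      rw [h2, HahnSeries.coeff_sum,
        Finset.sum_congr rfl fun p _ => Step_top (k := k) hm (huT p.1).2 hF0 p.2,
        Finset.sum_add_distrib, Step_sum (fun i => (u i).coeff m), hFc] at h3
      rw [hFc] at h4
      have h5 : ∑ p ∈ Finset.HasAntidiagonal.antidiagonal r,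
          (m.choose p.2 : k) • ((u p.1).coeff 0 * (F.coeff (j + m) - θ j c)) ∈ D.Ld I (j + m) :=
        Submodule.sum_mem _ fun p _ => Submodule.smul_mem _ _ ((haK p.1).2 _ _ h4)
      have h6 := Submodule.sub_mem _ h5 h3
      convert h6 using 1
      simp only [LinearMap.sub_apply, Module.End.mul_apply, LinearMap.mulLeft_apply,
        LinearMap.sum_apply, LinearMap.smul_apply, mul_sub, smul_sub, Finset.sum_sub_distrib]
      ring
  obtain ⟨w, hw, h⟩ := key
  refine ⟨w, hw, fun j F hF hF0 => ?_⟩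
  have hF1 : ∀ i, i < j → F.coeff i = 0 := fun i hi => hF0 i (by omega) hi.ne
  have h1 := Submodule.add_mem _ (hθ j F hF hF1)
    (h j (F.coeff j) ⟨F, D.Step_ld hI hF hF1, rfl⟩)
  convert h1 using 1
  ring

end Md

end Pool.Agent.Lib.MP_86e60f_al.HW
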