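import Mathlib
import Pool.Agent.Lib.MP_86e60f_al.HW.Step

set_option autoImplicit false

open MvPolynomial Module Matrix
open scoped TensorProduct

namespace Pool.Agent.Lib.MP_86e60f_al.HW

/-- No twisted relation between two geometric points. -/
def NR (k : Type*) {L : Type*} [Field k] [CommRing L] [Algebra k L] (a : ℕ → L) : Prop :=
  ∀ (σ1 σ2 : L →ₐ[k] AlgebraicClosure k) (m : ℕ), 0 < m →
    ¬ ∀ r : ℕ, σ1 (a r) = ∑ p ∈ Finset.HasAntidiagonal.antidiagonal r,
      (m.choose p.2 : AlgebraicClosure k) * σ2 (a p.1)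

/-- The twisted commutation relation forces triviality when there is no twisted relation. -/
def SAbs2 (k L : Type*) [Field k] [CommRing L] [Algebra k L] : Prop :=
  ∀ (K : Subalgebra k L) (N : Submodule k (ℤ → Module.End k L)),
    (∀ x ∈ K, ∀ θ ∈ N, (fun j => LinearMap.mulLeft k x * θ j) ∈ N) →
    (∀ x ∈ K, ∀ θ ∈ N, (fun j => θ j * LinearMap.mulLeft k x) ∈ N) →
    ∀ (a : ℕ → L) (m : ℕ) (θ : ℤ → Module.End k L), (∀ r, a r ∈ K) → NR k a → 0 < m →
    (∀ r : ℕ, (fun j => θ j * LinearMap.mulLeft k (a r) -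
      ∑ p ∈ Finset.HasAntidiagonal.antidiagonal r,
      (m.choose p.2 : k) • (LinearMap.mulLeft k (a p.1) * θ j)) ∈ N) → θ ∈ N

/-- Shifting the branches removes all twisted relations. -/
def SNorm (k L : Type*) [Field k] [CommRing L] [Algebra k L] : Prop :=
  ∀ (B : Subalgebra k L), (∀ x ∈ B, IsNilpotent x → x = 0) →
    ∀ a : ℕ → L, (∀ r, a r ∈ B) → a 0 = 1 →
    ∃ (S : Finset ℤ) (e : ℤ → L), (∀ s, e s ∈ B) ∧ (∀ s, e s * e s = e s) ∧
      (∀ s t, s ≠ t → e s * e t = 0) ∧ ∑ s ∈ S, e s = 1 ∧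
      NR k fun r : ℕ => ∑ p ∈ Finset.HasAntidiagonal.antidiagonal r,
        a p.1 * ∑ s ∈ S, (Ring.choose (-s) p.2 : ℤ) • e s

/-- From the one dimensional statement to the condition over the hypersurface. -/
def SC22 : Prop :=
  ∀ (R : Type) [CommRing R] [IsLocalRing R] [IsDomain R] (g : R), g ≠ 0 →
    (∃ y : R ⧸ Ideal.span {g}, IsRegular y ∧ ¬ IsUnit y) →
    (∀ r : R ⧸ Ideal.span {g}, IsRegular r → ∀ x, ¬ IsUnit x → ∃ s : ℕ, r ∣ x ^ s) →
    ∀ I : Ideal (R ⧸ Ideal.span {g}), (∃ r ∈ I, IsRegular r) →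
    (Module.IsTorsionFree (R ⧸ Ideal.span {g})
      (I ⊗[R ⧸ Ideal.span {g}] Module.Dual (R ⧸ Ideal.span {g}) I) → I.IsPrincipal) →
    IsCMOfCodim R (I ⊗[R] CategoryTheory.Abelian.Ext.{0} (ModuleCat.of R I) (ModuleCat.of R R) 1)
      1 →
    I.IsPrincipal ∧ CategoryTheory.projectiveDimension (ModuleCat.of R I) ≠ ⊤

namespace Md

variable {k L : Type*} [Field k] [CommRing L] [Algebra k L] (D : Md k L)

/-- No nonzero homogeneous nilpotent elements. -/
def Red : Prop := ∀ i : ℤ, ∀ u ∈ D.H i, IsNilpotent u → u = 0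

/-- A homogeneous unit of degree one. -/
def Uni : Prop := ∃ τ ∈ D.H 1, ∃ τ' ∈ D.H (-1), τ * τ' = 1

/-- The formal one parameter family of multipliers, with given constant terms. -/
def SU2 (I : Submodule k (HahnSeries ℤ L)) (a : ℕ → L) : Prop :=
  ∃ u : ℕ → HahnSeries ℤ L, u 0 = 1 ∧ (∀ i, u i ∈ D.HT 0) ∧ (∀ i, (u i).coeff 0 = a i) ∧
    ∀ (j0 : ℤ) (r : ℕ), ∀ g ∈ I,
      ∑ p ∈ Finset.HasAntidiagonal.antidiagonal r, u p.1 * Dh k j0 p.2 g ∈ I

/-- Transport along multiplication by a unit. -/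
def STrans : Prop :=
  ∀ (I : Submodule k (HahnSeries ℤ L)), ∀ v ∈ D.HH, ∀ v' ∈ D.HH, v * v' = 1 →
    (D.SLat I → D.SLat (I.map (LinearMap.mulLeft k v))) ∧
    (D.Rig I → D.Rig (I.map (LinearMap.mulLeft k v))) ∧
    ∀ a : ℕ → L, (∀ c : ℕ, v * Dh k 0 c v' ∈ D.HT 0) → D.SU2 I a →
      D.SU2 (I.map (LinearMap.mulLeft k v)) fun r : ℕ =>
        ∑ p ∈ Finset.HasAntidiagonal.antidiagonal r, a p.1 * (v * Dh k 0 p.2 v').coeff 0

/-- After a shift of the branches there is no twisted relation. -/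
def SShift : Prop :=
  ∀ (I : Submodule k (HahnSeries ℤ L)) (a : ℕ → L), D.SU2 I a →
    ∃ v ∈ D.HH, ∃ v' ∈ D.HH, v * v' = 1 ∧
      ∃ a' : ℕ → L, NR k a' ∧ D.SU2 (I.map (LinearMap.mulLeft k v)) a'

/-- Series that are regular are invertible. -/
def SInv : Prop :=
  ∀ F ∈ D.HH, (∀ G ∈ D.HH, F * G = 0 → G = 0) → ∃ G ∈ D.HH, F * G = 1

/-- Consequences of the completed ring being reduced. -/
def SFin2 (R : Type*) [CommRing R] : Prop :=
  ∀ ρ : R →+* HahnSeries ℤ L, IsReduced R → Nontrivial R → Function.Injective ρ →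
    (∀ F, F ∈ D.RR ↔ ∃ x, ρ x = F) → (∀ x, ¬ IsUnit x → (ρ x).coeff 0 = 0) →
    D.Red ∧ (∃ y : R, IsRegular y ∧ ¬ IsUnit y) ∧
    (∀ r : R, IsRegular r → ∀ x, ¬ IsUnit x → ∃ s : ℕ, r ∣ x ^ s) ∧
    ∀ I : Ideal R, (∃ r ∈ I, IsRegular r) → ∃ J : Submodule k (HahnSeries ℤ L),
      (∀ F, F ∈ J ↔ ∃ g ∈ I, ρ g = F) ∧ J ≤ D.RR ∧ D.SLat J

/-- A series with constant term one has an inverse. -/
theorem exists_inv_one {F : HahnSeries ℤ L} (hF : F ∈ D.HT 0) (h0 : F.coeff 0 = 1) :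
    ∃ G ∈ D.HT 0, F * G = 1 ∧ G.coeff 0 = 1 := by
  rcases subsingleton_or_nontrivial L with hL | hL
  · have h : ∀ A B : HahnSeries ℤ L, A = B := fun A B => by
      ext l
      exact Subsingleton.elim _ _
    exact ⟨0, Submodule.zero_mem _, h _ _, Subsingleton.elim _ _⟩
  have hF0 : F ≠ 0 := fun h => one_ne_zero (by rw [← h0, h]; rfl)
  have ho : F.order = 0 := le_antisymm (HahnSeries.order_le_of_coeff_ne_zero
    (by rw [h0]; exact one_ne_zero)) ((HahnSeries.le_order_iff_forall hF0).2 hF.2)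
  have hu : IsUnit F := by
    refine HahnSeries.isUnit_of_isUnit_leadingCoeff_AddUnitOrder ?_ (AddGroup.isAddUnit _)
    rw [HahnSeries.leadingCoeff_eq, ho, h0]
    exact isUnit_one
  obtain ⟨G, hG⟩ := hu.exists_right_inv
  have hG0 : G ≠ 0 := fun h => by simp [h] at hG
  have hlow : ∀ s, s < G.order → G.coeff s = 0 := fun _ h => HahnSeries.coeff_eq_zero_of_lt_order h
  have hoG : G.order = 0 := by
    by_contra hne
    have h1 := coeff_mul_lead hF.2 hlow
    rw [hG, HahnSeries.coeff_one, if_neg (by omega), h0, one_mul] at h1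
    exact hG0 (HahnSeries.coeff_order_eq_zero.1 h1.symm)
  rw [hoG] at hlow
  have h00 : G.coeff 0 = 1 := by
    have h1 := coeff_mul_lead hF.2 hlow
    rw [hG, HahnSeries.coeff_one, if_pos (by omega), h0, one_mul] at h1
    exact h1.symm
  refine ⟨G, ⟨?_, hlow⟩, hG, h00⟩
  have key : ∀ r : ℕ, ∀ l : ℤ, l < r → G.coeff l ∈ D.H l := by
    intro r
    induction r with
    | zero =>
      intro l hl
      rw [hlow l (by simpa using hl)]
      exact Submodule.zero_mem _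
    | succ r ih =>
      intro l hl
      by_cases hl' : l < 0
      · rw [hlow l hl']
        exact Submodule.zero_mem _
      have h1 := coeff_mul_Icc hF.2 hlow l
      rw [hG, ← Finset.add_sum_erase _ _ (a := 0) (Finset.mem_Icc.2 ⟨le_rfl, by omega⟩),
        h0, one_mul, sub_zero] at h1
      rw [← sub_eq_iff_eq_add.2 h1]
      refine Submodule.sub_mem _ ((D.RR_le_HT D.one_mem_RR).1 _)
        (Submodule.sum_mem _ fun s hs => ?_)
      have hs1 := Finset.mem_erase.1 hs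
      have hs2 := Finset.mem_Icc.1 hs1.2
      have hs3 := hs1.1
      have := D.H_mul (hF.1 s) (ih (l - s) (by push_cast at hl; omega))
      rwa [add_sub_cancel] at this
  intro l
  exact key (l + 1).toNat l (by omega)

end Md

end Pool.Agent.Lib.MP_86e60f_al.HW
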