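import Mathlib
import Pool.Agent.Lib.MP_86e60f_al.HW.Stmt3
import Pool.Agent.Lib.MP_86e60f_al.HW.Abs

set_option autoImplicit false

open Module
open scoped TensorProduct

namespace Pool.Agent.Lib.MP_86e60f_al.HW

namespace Abs2

/-- Geometric points of a subalgebra extend to the finite dimensional algebra. -/
theorem extend {k L W : Type*} [Field k] [CommRing L] [Algebra k L] [FiniteDimensional k L]
    [Field W] [Algebra k W] [IsAlgClosed W] (K : Subalgebra k L) (s : K →ₐ[k] W) :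
    ∃ σ : L →ₐ[k] W, ∀ x : K, σ x = s x := by
  have : Algebra.IsIntegral K L := Algebra.IsIntegral.tower_top (R := k)
  let P : Ideal K := RingHom.ker s.toRingHom
  have : P.IsPrime := RingHom.ker_isPrime _
  obtain ⟨Q, -, hQ, hc⟩ := Ideal.exists_ideal_over_prime_of_isIntegral (S := L) P ⊥ (by
    intro x hx
    have : x = 0 := Subtype.ext hx
    rw [this]
    exact P.zero_mem)
  have : Q.LiesOver P := ⟨hc.symm⟩
  let _ : Algebra (K ⧸ P) W := (RingHom.kerLift s.toRingHom).toAlgebra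
  have : FaithfulSMul (K ⧸ P) W :=
    (faithfulSMul_iff_algebraMap_injective _ _).2 (RingHom.kerLift_injective s.toRingHom)
  let ψ : (L ⧸ Q) →ₐ[K ⧸ P] W := IsAlgClosed.lift
  have h : ∀ x : K, ψ (Ideal.Quotient.mk Q (x : L)) = s x := fun x =>
    ψ.commutes (Ideal.Quotient.mk P x)
  exact ⟨{ ψ.toRingHom.comp (Ideal.Quotient.mk Q) with
    commutes' := fun c => (h (algebraMap k K c)).trans (s.commutes c) }, h⟩

/-- A proper ideal of the tensor square gives two geometric points. -/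
theorem points {k K : Type*} [Field k] [CommRing K] [Algebra k K] [FiniteDimensional k K]
    (I : Ideal (K ⊗[k] K)) (hI : I ≠ ⊤) :
    ∃ ψ : (K ⊗[k] K) →ₐ[k] AlgebraicClosure k, ∀ β ∈ I, ψ β = 0 := by
  obtain ⟨M, hM, hIM⟩ := Ideal.exists_le_maximal I hI
  have : IsDomain ((K ⊗[k] K) ⧸ M) := Ideal.Quotient.isDomain M
  have : FiniteDimensional k ((K ⊗[k] K) ⧸ M) :=
    Module.Finite.of_surjective (Ideal.Quotient.mkₐ k M).toLinearMap
      (Ideal.Quotient.mkₐ_surjective k M)
  let φ : ((K ⊗[k] K) ⧸ M) →ₐ[k] AlgebraicClosure k := IsAlgClosed.lift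
  refine ⟨φ.comp (Ideal.Quotient.mkₐ k M), fun β hβ => ?_⟩
  change φ (Ideal.Quotient.mk M β) = 0
  rw [Ideal.Quotient.eq_zero_iff_mem.2 (hIM hβ), map_zero]

end Abs2

theorem sAbs2 (k L : Type*) [Field k] [CommRing L] [Algebra k L] [FiniteDimensional k L] :
    SAbs2 k L := by
  intro K N hl hr a m θ ha hN hm h
  let ρ : K ⊗[k] K →ₐ[k] Module.End k (ℤ → Module.End k L) :=
    Algebra.TensorProduct.lift (Abs.lft K) (Abs.rgt K) (Abs.comm K)
  have hρ : ∀ β, ∀ η ∈ N, ρ β η ∈ N := by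
    intro β
    induction β using TensorProduct.induction_on with
    | zero => intro η _; simp
    | tmul x y =>
      intro η hη
      rw [Algebra.TensorProduct.lift_tmul, Module.End.mul_apply]
      exact hl x x.2 _ (hr y y.2 _ hη)
    | add β γ hβ hγ =>
      intro η hη
      rw [map_add, LinearMap.add_apply]
      exact N.add_mem (hβ η hη) (hγ η hη)
  let I : Ideal (K ⊗[k] K) :=
    { carrier := {β | ρ β θ ∈ N}
      add_mem' := fun {β γ} hβ hγ => by
        change ρ (β + γ) θ ∈ N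
        rw [map_add, LinearMap.add_apply]
        exact N.add_mem hβ hγ
      zero_mem' := by
        change ρ 0 θ ∈ N
        simp
      smul_mem' := fun c β hβ => by
        change ρ (c * β) θ ∈ N
        rw [map_mul, Module.End.mul_apply]
        exact hρ c _ hβ }
  have hmem : ∀ r, (1 : K) ⊗ₜ[k] (⟨a r, ha r⟩ : K) -
      ∑ p ∈ Finset.HasAntidiagonal.antidiagonal r,
        (m.choose p.2 : k) • ((⟨a p.1, ha p.1⟩ : K) ⊗ₜ[k] (1 : K)) ∈ I := by
    intro r
    change ρ _ θ ∈ N
    have h1 : ρ ((1 : K) ⊗ₜ[k] (⟨a r, ha r⟩ : K) -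
        ∑ p ∈ Finset.HasAntidiagonal.antidiagonal r,
          (m.choose p.2 : k) • ((⟨a p.1, ha p.1⟩ : K) ⊗ₜ[k] (1 : K))) θ =
        fun j => θ j * LinearMap.mulLeft k (a r) -
          ∑ p ∈ Finset.HasAntidiagonal.antidiagonal r,
            (m.choose p.2 : k) • (LinearMap.mulLeft k (a p.1) * θ j) := by
      funext j
      simp only [ρ, map_sub, map_sum, map_smul, Algebra.TensorProduct.lift_tmul, map_one,
        one_mul, mul_one, LinearMap.sub_apply, LinearMap.sum_apply, LinearMap.smul_apply,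
        Pi.sub_apply, Finset.sum_apply, Pi.smul_apply, Abs.lft_apply, Abs.rgt_apply]
    rw [h1]
    exact h r
  have hI : I = ⊤ := by
    by_contra hI
    obtain ⟨ψ, hψ⟩ := Abs2.points I hI
    obtain ⟨σ1, h1⟩ := Abs2.extend K (ψ.comp Algebra.TensorProduct.includeRight)
    obtain ⟨σ2, h2⟩ := Abs2.extend K (ψ.comp Algebra.TensorProduct.includeLeft)
    refine hN σ1 σ2 m hm fun r => ?_
    have h3 := hψ _ (hmem r)
    rw [map_sub, sub_eq_zero, map_sum] at h3
    refine (h1 ⟨a r, ha r⟩).trans (h3.trans (Finset.sum_congr rfl fun p _ => ?_))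
    rw [map_smul, Algebra.smul_def, map_natCast]
    exact congrArg _ (h2 ⟨a p.1, ha p.1⟩).symm
  have h1 : (1 : K ⊗[k] K) ∈ I := hI ▸ Submodule.mem_top
  change ρ 1 θ ∈ N at h1
  rwa [map_one] at h1

end Pool.Agent.Lib.MP_86e60f_al.HW
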