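import Pool.Agent.Lib.MP_86e60f_al.HW.Stmt2

/-! Balanced fractional ideals are rigid. -/

set_option autoImplicit false

open MvPolynomial Module Matrix

namespace Pool.Agent.Lib.MP_86e60f_al.HW

namespace Md

variable {k L : Type*} [Field k] [CommRing L] [Algebra k L] (D : Md k L) (lam : L →ₗ[k] k)
  (I : Submodule k (HahnSeries ℤ L))

theorem balRig_sep {M : Type*} [AddCommGroup M] [Module k M] {p : Submodule k M} {x : M}
    (hx : x ∉ p) : ∃ f : M →ₗ[k] k, f x = 1 ∧ ∀ y ∈ p, f y = 0 := by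
  obtain ⟨f, h1, h2⟩ := p.exists_dual_map_eq_bot_of_notMem hx inferInstance
  refine ⟨(f x)⁻¹ • f, inv_mul_cancel₀ h1, fun y hy => ?_⟩
  have : f y = 0 := (Submodule.mem_bot k).1 (h2 ▸ Submodule.mem_map_of_mem hy)
  rw [LinearMap.smul_apply, this, smul_zero]

theorem balRig_res (hl : D.IsLam lam) {F : HahnSeries ℤ L} (hF : F ∈ D.RR) :
    lam (F.coeff D.a) = 0 := by
  have := (hl D.a _ (D.V_le_H _ (hF _))).1 (hF _) 1 (by rw [sub_self]; exact D.one_mem_V_zero)
  rwa [mul_one] at this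

theorem balRig_mem (hl : D.IsLam lam) (hr : D.SRep lam) (hI : D.SLat I) (hR : I ≤ D.RR)
    {F : HahnSeries ℤ L} (hF : F ∈ D.HH)
    (h : ∀ u ∈ D.HH, (∀ g ∈ I, u * g ∈ D.RR) → lam ((u * F).coeff D.a) = 0) : F ∈ I := by
  by_contra hn
  obtain ⟨μ, h1, h2⟩ := balRig_sep hn
  obtain ⟨U, hU, e⟩ := hr μ (hI.big.imp fun N hN G hG => h2 G (hN hG))
  have hH : ∀ g ∈ I, g ∈ D.HH := fun g hg => (D.RR_le_HT (hR hg)).1
  refine one_ne_zero (h1.symm.trans ((e F hF).trans (h U hU fun g hg j => ?_)))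
  refine (hl j _ (D.HH_mul hU (hH g hg) j)).2 fun v hv => ?_
  have h3 := hI.mul _ (D.single_RR hv) g hg
  have h4 := (e _ (hH _ h3)).symm.trans (h2 _ h3)
  rwa [mul_left_comm, coeff_single_mul', sub_sub_cancel, mul_comm v] at h4

theorem rig_of_bal (hl : D.IsLam lam) (hr : D.SRep lam) (hI : D.SLat I) (hR : I ≤ D.RR)
    (h : D.Bal I) : D.Rig I := by
  intro Φ hΦ
  have hH : ∀ g ∈ I, g ∈ D.HH := fun g hg => (D.RR_le_HT (hR hg)).1
  obtain ⟨b, hb⟩ := hΦ.low
  obtain ⟨N, hN⟩ := hI.big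
  have hn : ((0, 1) : HahnSeries ℤ L × k) ∉ Submodule.span k {p | ∃ g ∈ I, ∃ u ∈ D.HH,
      (∀ g' ∈ I, u * g' ∈ D.RR) ∧ p = (g * u, lam ((u * Φ g).coeff D.a))} := by
    intro hm
    obtain ⟨r, c, p, e⟩ := Submodule.mem_span_set'.1 hm
    choose g hg u hu hu' hp using fun s => (p s).2
    simp only [hp] at e
    have e1 := congrArg Prod.fst e
    have e2 := congrArg Prod.snd e
    simp only [Prod.fst_sum, Prod.snd_sum, Prod.smul_mk] at e1 e2
    have h1 := D.balRig_res lam hl (h Φ hΦ r g (fun s => c s • u s) hg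
      (fun s => Submodule.smul_mem _ _ (hu s))
      (fun s g' hg' => by rw [smul_mul_assoc]; exact Submodule.smul_mem _ _ (hu' s g' hg'))
      (by simpa only [mul_smul_comm] using e1))
    simp only [HahnSeries.coeff_sum, map_sum, smul_mul_assoc, HahnSeries.coeff_smul,
      map_smul] at h1
    exact one_ne_zero (e2.symm.trans h1)
  obtain ⟨ν, h1, h2⟩ := balRig_sep hn
  have h3 : ∀ g ∈ I, ∀ u ∈ D.HH, (∀ g' ∈ I, u * g' ∈ D.RR) →
      (-ν ∘ₗ LinearMap.inl k _ k) (g * u) = lam ((u * Φ g).coeff D.a) := by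
    intro g hg u hu hu'
    have h4 := h2 _ (Submodule.subset_span ⟨g, hg, u, hu, hu', rfl⟩)
    have h5 : ∀ (x : HahnSeries ℤ L) (t : k), (x, t) = (x, 0) + t • (0, 1) := by simp
    rw [h5, map_add, map_smul, h1, smul_eq_mul, mul_one] at h4
    exact neg_eq_of_add_eq_zero_right h4
  obtain ⟨r, hr'⟩ : ∃ r : ℕ, D.a - b < r * D.n := by
    refine ⟨(D.a - b + 1).toNat, ?_⟩
    nlinarith [D.hn, Int.self_le_toNat (D.a - b + 1), Int.natCast_nonneg (D.a - b + 1).toNat]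
  obtain ⟨U, hU, e⟩ := hr (-ν ∘ₗ LinearMap.inl k _ k) ⟨N + r * D.n, fun F hF => by
    have h4 : HahnSeries.single (-r * D.n) (1 : L) * F ∈ I :=
      hN (D.HT_anti (le_of_eq (by ring)) (D.HT_mul (D.single_HT (D.one_mem_H (-r))) hF))
    have h5 := D.single_RR (D.one_mem_V r)
    have h6 : HahnSeries.single (r * D.n) (1 : L) * (HahnSeries.single (-r * D.n) (1 : L) * F) =
        F := by
      rw [← mul_assoc, HahnSeries.single_mul_single, neg_mul, add_neg_cancel, mul_one,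
        HahnSeries.single_zero_one, one_mul]
    have h7 := D.balRig_res lam hl (hR (hΦ.lin _ h5 _ h4))
    have h8 := h3 _ (hI.mul _ h5 _ h4) 1 (D.RR_le_HT D.one_mem_RR).1 fun g hg => by
      rw [one_mul]; exact hR hg
    rw [h6] at h7 h8
    rw [HahnSeries.coeff_sub, coeff_single_mul', (hb _ h4).2 _ (by omega), mul_zero,
      sub_zero] at h7
    rwa [mul_one, one_mul, h7] at h8⟩
  refine ⟨U, hU, fun g hg => D.balRig_mem lam I hl hr hI hR
    (Submodule.sub_mem _ (hb g hg).1 (D.HH_mul hU (hH g hg))) fun u hu hu' => ?_⟩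
  rw [mul_sub, HahnSeries.coeff_sub, map_sub, ← h3 g hg u hu hu', e _ (D.HH_mul (hH g hg) hu),
    mul_comm u, mul_assoc, sub_self]

end Md

end Pool.Agent.Lib.MP_86e60f_al.HW
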