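import Mathlib
import Pool.Agent.Lib.MP_86e60f_al.Homological
import Pool.Agent.Lib.MP_86e60f_al.HW.Stmt2

set_option autoImplicit false

open CategoryTheory IsLocalRing
open scoped TensorProduct

namespace Pool.Agent.Lib.MP_86e60f_al.HW

namespace C2

variable {R : Type} [CommRing R] [IsDomain R]

/-- A Cohen-Macaulay module of codimension one has a regular element when the maximal ideal has
height at least two. -/
theorem reg [IsLocalRing R] {N : Type} [AddCommGroup N] [Module R N] (P : Ideal R) [P.IsPrime]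
    (h0 : ⊥ < P) (h1 : P < maximalIdeal R) (h : IsCMOfCodim R N 1) :
    ∃ x ∈ maximalIdeal R, IsSMulRegular N x := by
  obtain ⟨hN, hd, hc⟩ := h
  have e1 := Ideal.height_add_one_le_of_lt_of_isPrime h0
  have e2 := Ideal.height_add_one_le_of_lt_of_isPrime h1
  have e3 : (2 : ℕ∞) ≤ (maximalIdeal R).height :=
    le_trans (add_le_add_left (le_add_self.trans e1) 1) e2
  obtain ⟨p, hp, hne⟩ : ∃ p ∈ Module.support R N, p ≠ closedPoint R := by
    by_contra! hall
    have : (2 : ℕ∞) ≤ cod R N := le_iInf₂ fun p hp => by rw [hall p hp]; exact e3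
    rw [hc] at this
    exact absurd this (by decide)
  have e4 : 0 < Module.supportDim R N := Order.krullDim_pos_iff.2
    ⟨⟨p, hp⟩, ⟨closedPoint R, closedPoint_mem_support R N⟩,
      lt_of_le_of_ne (le_maximalIdeal p.2.ne_top) fun e => hne (congrArg Subtype.val e)⟩
  rw [← hd] at e4
  have e5 : 0 < depth R N := by exact_mod_cast e4
  obtain ⟨rs, e6⟩ := lt_iSup_iff.1 e5
  obtain ⟨⟨m1, m2⟩, e7⟩ := lt_iSup_iff.1 e6
  cases rs with
  | nil => simp at e7
  | cons x rs =>
    exact ⟨x, m1 x List.mem_cons_self,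
      ((RingTheory.Sequence.isWeaklyRegular_cons_iff N x rs).1 m2.1).1⟩

/-- The first Ext module is the dual over the quotient ring. -/
theorem ext {g : R} (hg : g ≠ 0) (I : Ideal (R ⧸ Ideal.span {g})) :
    Nonempty (Abelian.Ext.{0} (ModuleCat.of R I) (ModuleCat.of R R) 1 ≃ₗ[R]
      Module.Dual (R ⧸ Ideal.span {g}) I) := by
  obtain ⟨-, ⟨e⟩⟩ := rees (ModuleCat.of R I) [g] (fun r hr => by
    obtain rfl := List.mem_singleton.1 hr
    refine Module.mem_annihilator.2 fun m => ?_
    rw [← algebraMap_smul (R ⧸ Ideal.span {r}), Ideal.Quotient.algebraMap_eq,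
      Ideal.Quotient.eq_zero_iff_mem.2 (Ideal.mem_span_singleton_self r), zero_smul])
    (ModuleCat.of R R) ((RingTheory.Sequence.isWeaklyRegular_singleton_iff _ _).2
      (IsRegular.of_ne_zero hg).isSMulRegular)
  have h : (Ideal.ofList [g] • ⊤ : Submodule R R) = Ideal.span {g} := by
    rw [smul_eq_mul, Ideal.mul_top, Ideal.ofList_singleton]
  exact ⟨e.trans ((LinearEquiv.congrRight (Submodule.quotEquivOfEq _ _ h)).trans
    (LinearMap.extendScalarsOfSurjectiveEquiv Ideal.Quotient.mk_surjective))⟩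

theorem pd {g : R} (hg : g ≠ 0) :
    HasProjectiveDimensionLT (ModuleCat.of R (R ⧸ Ideal.span {g})) 2 := by
  have hS := LinearMap.shortExact_shortComplexKer (Submodule.mkQ_surjective (Ideal.span {g}))
  have hR : Projective (ModuleCat.of R R) := (IsProjective.iff_projective R).mp inferInstance
  refine (hS.hasProjectiveDimensionLT_X₃_iff 0 hR).2 ?_
  have e := (Ideal.isoBaseOfIsPrincipal (Ideal.span_singleton_eq_bot.not.2 hg)).trans
    (LinearEquiv.ofEq _ _ (Submodule.ker_mkQ (Ideal.span {g})).symm)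
  have := projective_iff_hasProjectiveDimensionLT_one.1 hR
  exact hasProjectiveDimensionLT_of_iso e.toModuleIso 1

end C2

theorem sC2 : SC2 := by
  intro R _ _ _ g hg _ hF hdiv I hI hCM
  have hP : (Ideal.span {g}).IsPrime := (Ideal.Quotient.isDomain_iff_prime _).1 inferInstance
  have hle : Ideal.span {g} ≤ maximalIdeal R := le_maximalIdeal hP.ne_top
  obtain ⟨x, hx, hreg⟩ := C2.reg (Ideal.span {g})
    (bot_lt_iff_ne_bot.2 (Ideal.span_singleton_eq_bot.not.2 hg))
    (lt_of_le_of_ne hle fun e => hF ((Ideal.Quotient.maximal_ideal_iff_isField_quotient _).1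
      (e ▸ inferInstance))) hCM
  obtain ⟨e⟩ := C2.ext hg I
  have hc : TensorProduct.CompatibleSMul R (R ⧸ Ideal.span {g}) I
      (Module.Dual (R ⧸ Ideal.span {g}) I) :=
    .of_algebraMap_surjective _ _ Ideal.Quotient.mk_surjective
  have e' := (TensorProduct.congr (LinearEquiv.refl R I) e).trans
    (TensorProduct.equivOfCompatibleSMul R (R ⧸ Ideal.span {g}) R I
      (Module.Dual (R ⧸ Ideal.span {g}) I)).symm
  have h1 := (isSMulRegular_algebraMap_iff (R ⧸ Ideal.span {g})).2
    ((e'.isSMulRegular_congr x).1 hreg)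
  have h2 : ¬ IsUnit (algebraMap R (R ⧸ Ideal.span {g}) x) := fun hu => by
    obtain ⟨y, hy⟩ := hu.exists_right_inv
    obtain ⟨y, rfl⟩ := Ideal.Quotient.mk_surjective y
    have h3 : x * y - 1 ∈ Ideal.span {g} := Ideal.Quotient.eq.1 hy
    exact (maximalIdeal.isMaximal R).ne_top ((Ideal.eq_top_iff_one _).2
      ((Submodule.sub_mem_iff_right _ (Ideal.mul_mem_right y _ hx)).1 (hle h3)))
  have h4 := hI ⟨fun r hr => by
    obtain ⟨s, c, hs⟩ := hdiv r hr.ne_zero _ h2
    have := h1.pow s
    rw [hs, mul_comm] at this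
    exact this.of_mul⟩
  rw [projectiveDimension_ne_top_iff]
  by_cases h0 : I = ⊥
  · subst h0
    exact ⟨0, projective_iff_hasProjectiveDimensionLT_one.1
      ((IsProjective.iff_projective _).mp inferInstance)⟩
  · have := C2.pd hg
    exact ⟨1, hasProjectiveDimensionLT_of_iso
      ((Ideal.isoBaseOfIsPrincipal h0).restrictScalars R).toModuleIso 2⟩

end Pool.Agent.Lib.MP_86e60f_al.HW
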