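import Mathlib
import Pool.Agent.Lib.MP_86e60f_al.HW.C2
import Pool.Agent.Lib.MP_86e60f_al.HW.Stmt3

set_option autoImplicit false

open CategoryTheory IsLocalRing
open scoped TensorProduct

namespace Pool.Agent.Lib.MP_86e60f_al.HW

theorem sC22 : SC22 := by
  rintro R _ _ _ g hg ⟨y, hy, hyu⟩ hdiv I ⟨r0, hr0, hr1⟩ hI hCM
  have hN : Nontrivial (R ⧸ Ideal.span {g}) :=
    not_subsingleton_iff_nontrivial.1 fun _ => hyu (isUnit_of_subsingleton y)
  obtain ⟨p, hp, hyp⟩ : ∃ p : Ideal (R ⧸ Ideal.span {g}), p.IsPrime ∧ y ∉ p := by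
    by_contra! hall
    obtain ⟨n, hn⟩ := nilpotent_iff_mem_prime.2 hall
    exact (hy.pow n).ne_zero hn
  obtain ⟨y, rfl⟩ := Ideal.Quotient.mk_surjective y
  have hP : (p.comap (Ideal.Quotient.mk (Ideal.span {g}))).IsPrime := inferInstance
  have hgP : g ∈ p.comap (Ideal.Quotient.mk (Ideal.span {g})) := by
    rw [Ideal.mem_comap, Ideal.Quotient.eq_zero_iff_mem.2 (Ideal.mem_span_singleton_self g)]
    exact p.zero_mem
  have hle : Ideal.span {g} ≤ maximalIdeal R :=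
    ((Ideal.span_singleton_le_iff_mem _).2 hgP).trans (le_maximalIdeal hP.ne_top)
  obtain ⟨x, hx, hreg⟩ := C2.reg (p.comap (Ideal.Quotient.mk (Ideal.span {g})))
    (bot_lt_iff_ne_bot.2 fun e => hg (by rwa [e] at hgP))
    (lt_of_le_of_ne (le_maximalIdeal hP.ne_top) fun e => hyp (Ideal.mem_comap.1
      (e ▸ (mem_maximalIdeal y).2 fun hu => hyu (hu.map _)))) hCM
  obtain ⟨e⟩ := C2.ext hg I
  have hc : TensorProduct.CompatibleSMul R (R ⧸ Ideal.span {g}) I
      (Module.Dual (R ⧸ Ideal.span {g}) I) :=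
    .of_algebraMap_surjective _ _ Ideal.Quotient.mk_surjective
  have e' := (TensorProduct.congr (LinearEquiv.refl R I) e).trans
    (TensorProduct.equivOfCompatibleSMul R (R ⧸ Ideal.span {g}) R I
      (Module.Dual (R ⧸ Ideal.span {g}) I)).symm
  have h1 := (isSMulRegular_algebraMap_iff (R ⧸ Ideal.span {g})).2
    ((e'.isSMulRegular_congr x).1 hreg)
  have h2 : ¬ IsUnit (algebraMap R (R ⧸ Ideal.span {g}) x) := fun hu => by
    obtain ⟨z, hz⟩ := hu.exists_right_inv
    obtain ⟨z, rfl⟩ := Ideal.Quotient.mk_surjective z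
    have h3 : x * z - 1 ∈ Ideal.span {g} := Ideal.Quotient.eq.1 hz
    exact (maximalIdeal.isMaximal R).ne_top ((Ideal.eq_top_iff_one _).2
      ((Submodule.sub_mem_iff_right _ (Ideal.mul_mem_right z _ hx)).1 (hle h3)))
  have h4 := hI ⟨fun r hr => by
    obtain ⟨s, c, hs⟩ := hdiv r hr _ h2
    have := h1.pow s
    rw [hs, mul_comm] at this
    exact this.of_mul⟩
  refine ⟨h4, (projectiveDimension_ne_top_iff _).2 ⟨1, ?_⟩⟩
  obtain ⟨a, rfl⟩ := h4
  obtain ⟨c, rfl⟩ := Ideal.mem_span_singleton'.1 hr0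
  have e2 := (LinearEquiv.ofInjective (LinearMap.toSpanSingleton (R ⧸ Ideal.span {g}) _ a)
    (isRegular_mul_iff.1 hr1).2.right).trans
    (LinearEquiv.ofEq _ _ (LinearMap.span_singleton_eq_range _ _ a).symm)
  have := C2.pd hg
  exact hasProjectiveDimensionLT_of_iso (e2.restrictScalars R).toModuleIso 2

end Pool.Agent.Lib.MP_86e60f_al.HW
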