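import Mathlib
import Pool.Agent.Lib.MP_86e60f_al.HW.Stmt

set_option autoImplicit false
set_option linter.unusedSectionVars false

open MvPolynomial Module Matrix

namespace Pool.Agent.Lib.MP_86e60f_al.HW

namespace Md

variable {k L ι : Type*} [Field k] [CommRing L] [Algebra k L] [FiniteDimensional k L] [Fintype ι]
  [DecidableEq ι] (D : Md k L) (b : ι → ℤ) (E : ℤ → Submodule k (ι → L))

theorem Cl_cmp (hE : D.Lat b E) {v : ι → Q k} (hv : v ∈ D.JE b E) :
    ∀ i, D.evv (cmp D.w b i v) ∈ E i := by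
  induction hv using Submodule.span_induction with
  | mem v hv =>
    obtain ⟨j, h1, h2⟩ := hv
    intro i
    by_cases h : i = j
    · rw [h, cmp_same h1]; exact h2
    · rw [cmp_ne h1 h, map_zero]; exact Submodule.zero_mem _
  | zero => intro i; rw [map_zero, map_zero]; exact Submodule.zero_mem _
  | add u v _ _ hu hv => intro i; rw [map_add, map_add]; exact Submodule.add_mem _ (hu i) (hv i)
  | smul q v _ hv =>
    intro i
    induction q using Q_induction D.w with
    | h0 => rw [zero_smul, map_zero, map_zero]; exact Submodule.zero_mem _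
    | hadd p q hp hq => rw [add_smul, map_add, map_add]; exact Submodule.add_mem _ hp hq
    | hh s q hq =>
      have h1 := hE.smul s (i - s) _ (D.ev_mem_V hq) _ (hv (i - s))
      rwa [← D.evv_smul, ← cmp_smul hq, sub_add_cancel] at h1

theorem Cl_memJ (hE : D.Lat b E) (i : ℤ) (v : ι → Q k) (hv : v ∈ FQ (k := k) D.w b i) :
    v ∈ D.JE b E ↔ D.evv v ∈ E i :=
  ⟨fun h => by simpa only [cmp_same hv] using D.Cl_cmp b E hE h i,
    fun h => Submodule.subset_span ⟨i, hv, h⟩⟩

theorem Cl_evv (i : ℤ) (v : ι → Q k) (hv : v ∈ FQ (k := k) D.w b i) :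
    D.cl b E i (D.evv v) = (D.JE b E).mkQ v := by
  change (D.JE b E).mkQ (D.secv b i (D.evv v)) = _
  rw [← sub_eq_zero, ← map_sub, Submodule.mkQ_apply, Submodule.Quotient.mk_eq_zero]
  refine Submodule.subset_span ⟨i, Submodule.sub_mem _ (D.secv_mem i _) hv, ?_⟩
  rw [map_sub, D.evv_secv (D.evv_mem_FV hv), sub_self]
  exact Submodule.zero_mem _

theorem Cl_zero (hE : D.Lat b E) (i : ℤ) (x : ι → L) (hx : x ∈ D.FV b i) :
    D.cl b E i x = 0 ↔ x ∈ E i := by
  change (D.JE b E).mkQ (D.secv b i x) = 0 ↔ _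
  rw [Submodule.mkQ_apply, Submodule.Quotient.mk_eq_zero, D.Cl_memJ b E hE i _ (D.secv_mem i x),
    D.evv_secv hx]

theorem Cl_smul (s i : ℤ) (q : Q k) (hq : q ∈ Qd (k := k) D.w s) (x : ι → L)
    (hx : x ∈ D.FV b i) : D.cl b E (i + s) (D.ev q • x) = q • D.cl b E i x := by
  have h1 := D.Cl_evv b E (i + s) _ (FQ_smul hq (D.secv_mem (b := b) i x))
  rw [D.evv_smul, D.evv_secv hx, (D.JE b E).mkQ.map_smul] at h1
  exact h1

theorem sCl (hE : D.Lat b E) : D.SCl b E where
  memJ := D.Cl_memJ b E hE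
  homJ := ⟨fun v hv i => Submodule.subset_span ⟨i, cmp_mem i v, D.Cl_cmp b E hE hv i⟩, by
    obtain ⟨N, hN⟩ := hE.big
    exact ⟨N, fun i hi v hv => Submodule.subset_span ⟨i, hv, by
      rw [hN i hi]; exact D.evv_mem_FV hv⟩⟩⟩
  pf := fun v hv => by
    obtain ⟨s, -, hs⟩ := exists_sum_cmp D.w b v
    rw [← hs]
    refine Submodule.sum_mem _ fun i _ => Submodule.subset_span ⟨i, cmp_mem i v, ?_⟩
    rw [D.evv_PF (v := cmp D.w b i v) (D.mem_PF.2 fun p => D.hc_P (D.mem_PF.1 hv p) _)]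
    exact Submodule.zero_mem _
  cl_evv := D.Cl_evv b E
  cl_mem := fun i x => ⟨D.secv b i x, D.secv_mem i x, rfl⟩
  cl_zero := D.Cl_zero b E hE
  cl_smul := D.Cl_smul b E
  th_map := fun j => by
    apply le_antisymm
    · rintro _ ⟨U, -, rfl⟩ p -
      exact ⟨D.secv b _ _, D.secv_mem _ _, rfl⟩
    · intro x hx
      choose v hv hv' using fun p => hx p (Set.mem_univ p)
      refine ⟨Matrix.of fun q p => D.ev (v p q),
        D.mem_Hm_FV_FV.2 fun q p => D.ev_mem_V (mem_FQ.1 (hv p) q), funext fun p => ?_⟩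
      exact (D.Cl_evv b E _ _ (hv p)).trans (hv' p)
  th_zero := fun j U hU => by
    rw [D.mem_Hm_FV hE, _root_.funext_iff]
    exact forall_congr' fun p => D.Cl_zero b E hE _ _ ((D.mem_Hm_FV D.lat_FV).1 hU p)
  th_sum := fun j U hU i v hv => by
    have h1 : U *ᵥ D.evv v = ∑ p, D.ev (v p) • fun q => U q p := by
      funext q
      simp [Matrix.mulVec, dotProduct, mul_comm, D.evv_apply]
    rw [h1, map_sum]
    refine Finset.sum_congr rfl fun p _ => ?_
    have h2 := D.Cl_smul b E _ _ _ (mem_FQ.1 hv p) _ ((D.mem_Hm_FV D.lat_FV).1 hU p)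
    rw [show j + b p + (i - b p) = i + j by ring] at h2
    exact h2.symm

end Md

end Pool.Agent.Lib.MP_86e60f_al.HW
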