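import Mathlib
import Pool.Agent.Lib.MP_86e60f_al.HW.Stmt

set_option autoImplicit false

open MvPolynomial Module Matrix

namespace Pool.Agent.Lib.MP_86e60f_al.HW

namespace DT

variable {k ι : Type*} [Field k] (w : Fin 3 → ℤ) (b : ι → ℤ) (J : Submodule (Q k) (ι → Q k))

/-- Restriction to the submodule. -/
noncomputable def res (j : ℤ) : Dd w b J j →ₗ[k] (J →ₗ[Q k] SQ J) where
  toFun Λ := mkLin J Λ.1 Λ.2.2
  map_add' _ _ := rfl
  map_smul' _ _ := rfl

theorem mk_zero {v : ι → Q k} (hv : v ∈ J) : J.mkQ.restrictScalars k v = 0 :=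
  (Submodule.Quotient.mk_eq_zero J).2 hv

/-- Composition with the quotient map. -/
noncomputable def up (j : ℤ) : Wd (Sd w b J) j →ₗ[k] Dd w b J j where
  toFun A := ⟨A.1 ∘ₗ J.mkQ.restrictScalars k, fun i v hv => A.2 i _ ⟨v, hv, rfl⟩, fun q v hv => by
    rw [LinearMap.comp_apply, LinearMap.comp_apply, mk_zero J hv, mk_zero J (J.smul_mem q hv),
      map_zero, smul_zero]⟩
  map_add' _ _ := rfl
  map_smul' _ _ := rfl

theorem sec : ∃ σ : SQ J →ₗ[k] (ι → Q k), ∀ v, σ (J.mkQ.restrictScalars k v) - v ∈ J := by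
  obtain ⟨σ, h⟩ := LinearMap.exists_rightInverse_of_surjective (J.mkQ.restrictScalars k)
    (LinearMap.range_eq_top.2 J.mkQ_surjective)
  exact ⟨σ, fun v => (Submodule.Quotient.eq J).1 (LinearMap.congr_fun h _)⟩

theorem up_inj (j : ℤ) : Function.Injective (up w b J j) := fun A B h =>
  Subtype.ext (LinearMap.ext fun x => by
    obtain ⟨v, rfl⟩ := J.mkQ_surjective x
    exact LinearMap.congr_fun (congrArg Subtype.val h) v)

theorem range_up (j : ℤ) : LinearMap.range (up w b J j) = LinearMap.ker (res w b J j) := by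
  refine le_antisymm ?_ fun Λ h => ?_
  · rintro _ ⟨A, rfl⟩
    refine LinearMap.ext fun v => ?_
    change A.1 (J.mkQ.restrictScalars k v.1) = 0
    rw [mk_zero J v.2, map_zero]
  · obtain ⟨σ, hσ⟩ := sec J
    have e : ∀ v, Λ.1 (σ (J.mkQ.restrictScalars k v)) = Λ.1 v := fun v => by
      rw [← sub_eq_zero, ← map_sub]
      exact LinearMap.congr_fun (LinearMap.mem_ker.1 h) ⟨_, hσ v⟩
    refine ⟨⟨Λ.1 ∘ₗ σ, ?_⟩, Subtype.ext (LinearMap.ext e)⟩
    rintro i _ ⟨v, hv, rfl⟩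
    rw [LinearMap.comp_apply, e]
    exact Λ.2.1 i v hv

theorem range_res [Fintype ι] (hJ : HomJ w b J) (j : ℤ) :
    LinearMap.range (res w b J j) = Td w b J j := by
  refine le_antisymm ?_ fun φ h => ?_
  · rintro _ ⟨Λ, rfl⟩ i v hv
    exact Λ.2.1 i v hv
  obtain ⟨σ, hσ⟩ := sec J
  obtain ⟨ρ, hρ⟩ := LinearMap.exists_leftInverse_of_injective (J.subtype.restrictScalars k)
    (LinearMap.ker_eq_bot.2 J.subtype_injective)
  obtain ⟨Ψ, hΨ⟩ := glue w b fun i =>
    J.mkQ.restrictScalars k ∘ₗ cmp w b (i + j) ∘ₗ σ ∘ₗ φ.restrictScalars k ∘ₗ ρ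
  have e : ∀ v : J, Ψ v.1 = φ v := fun v => by
    induction v using hom_induction' hJ.hom with
    | h0 => simp
    | hadd u v hu hv => rw [Submodule.coe_add, map_add, map_add, hu, hv]
    | hh i v hv =>
      obtain ⟨u, hu, e1⟩ := h i v hv
      have e2 : ρ v.1 = v := LinearMap.congr_fun hρ v
      have e3 := mk_zero J (hJ.hom _ (hσ u) (i + j))
      rw [map_sub, map_sub, cmp_same hu, e1, sub_eq_zero] at e3
      rw [hΨ i v hv]
      simpa only [LinearMap.comp_apply, e2, LinearMap.restrictScalars_apply] using e3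
  refine ⟨⟨Ψ, fun i v hv => ?_, fun q v hv => ?_⟩, LinearMap.ext e⟩
  · rw [hΨ i v hv]
    exact ⟨_, cmp_mem _ _, rfl⟩
  · exact (e (q • ⟨v, hv⟩)).trans ((φ.map_smul q _).trans (congrArg (q • ·) (e ⟨v, hv⟩).symm))

end DT

theorem sDT {k ι : Type*} [Field k] [Fintype ι] (w : Fin 3 → ℤ) (b : ι → ℤ)
    (J : Submodule (Q k) (ι → Q k)) (hJ : HomJ w b J) (_hG : SGr w b J) : SDT w b J := by
  intro j hj
  have h := LinearMap.finrank_range_add_finrank_ker (K := k) (V := Dd w b J j)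
    (V₂ := J →ₗ[Q k] SQ J) (DT.res w b J j)
  rw [← DT.range_up, LinearMap.finrank_range_of_inj (DT.up_inj w b J j), DT.range_res w b J hJ] at h
  refine ⟨?_, by omega⟩
  rw [← DT.range_res w b J hJ]
  infer_instance

end Pool.Agent.Lib.MP_86e60f_al.HW
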