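import Mathlib
import Pool.Agent.Lib.MP_86e60f_al.HW.Stmt

set_option autoImplicit false

open MvPolynomial Module Matrix

namespace Pool.Agent.Lib.MP_86e60f_al.HW

namespace DZ

open scoped IsMulCommutative in
/-- Commuting elements define an action of the polynomial ring. -/
theorem ex_rho {k A : Type*} [Field k] [Ring A] [Algebra k A] (T : Fin 3 → A)
    (h : ∀ l m, T l * T m = T m * T l) : ∃ ρ : Q k →ₐ[k] A, ∀ l, ρ (X l) = T l := by
  have := Algebra.isMulCommutative_adjoin k (s := Set.range T) (by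
    rintro _ ⟨l, rfl⟩ _ ⟨m, rfl⟩
    exact h l m)
  refine ⟨(Algebra.adjoin k (Set.range T)).val.comp
    (aeval fun l => (⟨T l, Algebra.subset_adjoin ⟨l, rfl⟩⟩ : Algebra.adjoin k (Set.range T))),
    fun l => ?_⟩
  rw [AlgHom.comp_apply, aeval_X]
  rfl

theorem count {k V W U : Type*} [Field k] [AddCommGroup V] [Module k V] [AddCommGroup W]
    [Module k W] [AddCommGroup U] [Module k U] [FiniteDimensional k W] [FiniteDimensional k U]
    (D : Submodule k V) (Z : Submodule k W) (G : Submodule k U) (f : V →ₗ[k] W) (g : V →ₗ[k] U)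
    (hf : ∀ x ∈ D, f x ∈ Z) (hg : ∀ x ∈ D, g x ∈ G) (hi : ∀ x ∈ D, f x = 0 → g x = 0 → x = 0)
    (hs : ∀ z ∈ Z, ∀ y ∈ G, ∃ x ∈ D, f x = z ∧ g x = y) :
    FiniteDimensional k D ∧ finrank k D = finrank k Z + finrank k G := by
  let Ψ : D →ₗ[k] Z × G := (f.restrict hf).prod (g.restrict hg)
  have hinj : Function.Injective Ψ := (injective_iff_map_eq_zero Ψ).2 fun x h =>
    Subtype.ext (hi x.1 x.2 (congrArg (fun y => y.1.1) h) (congrArg (fun y => y.2.1) h))
  have hsur : Function.Surjective Ψ := fun y =>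
    let ⟨x, h1, h2, h3⟩ := hs y.1.1 y.1.2 y.2.1 y.2.2
    ⟨⟨x, h1⟩, Prod.ext (Subtype.ext h2) (Subtype.ext h3)⟩
  exact ⟨FiniteDimensional.of_injective Ψ hinj,
    by rw [(LinearEquiv.ofBijective Ψ ⟨hinj, hsur⟩).finrank_eq, Module.finrank_prod]⟩

variable {k ι : Type*} [Field k] {w : Fin 3 → ℤ} {b : ι → ℤ} {J : Submodule (Q k) (ι → Q k)}

theorem Xs_apply (l : Fin 3) (s : SQ J) : Xs J l s = (X l : Q k) • s := rfl

theorem C_sm {N : Type*} [AddCommGroup N] [Module k N] [Module (Q k) N] [IsScalarTower k (Q k) N]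
    (a : k) (s : N) : (C a : Q k) • s = a • s := algebraMap_smul (Q k) a s

theorem mk_mem {i : ℤ} {v : ι → Q k} (hv : v ∈ FQ w b i) : J.mkQ v ∈ Sd w b J i := ⟨v, hv, rfl⟩

/-- The defect of linearity, read through a section. -/
noncomputable def df (σ : SQ J →ₗ[k] (ι → Q k)) :
    ((ι → Q k) →ₗ[k] SQ J) →ₗ[k] (Fin 3 → Module.End k (SQ J)) where
  toFun Λ l := (Λ ∘ₗ (LinearMap.lsmul (Q k) (ι → Q k) (X l)).restrictScalars k - Xs J l ∘ₗ Λ) ∘ₗ σ
  map_add' A B := by
    funext l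
    simp only [Pi.add_apply, LinearMap.add_comp, LinearMap.comp_add, LinearMap.sub_comp]
    abel
  map_smul' c A := by
    funext l
    simp only [Pi.smul_apply, LinearMap.smul_comp, LinearMap.comp_smul, LinearMap.sub_comp,
      RingHom.id_apply, smul_sub]

theorem df_mk {σ : SQ J →ₗ[k] (ι → Q k)} (hσ : ∀ s, J.mkQ (σ s) = s) {Λ : (ι → Q k) →ₗ[k] SQ J}
    (hΛ : ∀ q : Q k, ∀ v ∈ J, Λ (q • v) = q • Λ v) (l : Fin 3) (v : ι → Q k) :
    df σ Λ l (J.mkQ v) = Λ ((X l : Q k) • v) - (X l : Q k) • Λ v := by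
  have h1 : σ (J.mkQ v) - v ∈ J := (Submodule.Quotient.eq J).1 (hσ _)
  have h2 := hΛ (X l) _ h1
  rw [smul_sub, map_sub, map_sub, smul_sub] at h2
  change Λ ((X l : Q k) • σ (J.mkQ v)) - (X l : Q k) • Λ (σ (J.mkQ v)) = _
  rw [sub_eq_sub_iff_sub_eq_sub, h2]

theorem df_mem (hG : SGr w b J) {σ : SQ J →ₗ[k] (ι → Q k)} (hσ : ∀ s, J.mkQ (σ s) = s) {j : ℤ}
    {Λ : (ι → Q k) →ₗ[k] SQ J} (hΛ : Λ ∈ Dd w b J j) : df σ Λ ∈ Zd (Sd w b J) (Xs J) w j := by
  refine ⟨fun l i x hx => ?_, fun l m => LinearMap.ext fun x => ?_⟩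
  · obtain ⟨v, hv, rfl⟩ := hx
    change df σ Λ l (J.mkQ v) ∈ _
    rw [df_mk hσ hΛ.2]
    refine Submodule.sub_mem _ ?_ ?_
    · have := hΛ.1 _ _ (FQ_smul (Qd_X l) hv)
      rwa [show i + w l + j = i + (j + w l) by ring] at this
    · have := hG.deg l _ _ (hΛ.1 i v hv)
      rwa [add_assoc] at this
  · obtain ⟨v, rfl⟩ := J.mkQ_surjective x
    simp only [LinearMap.add_apply, Module.End.mul_apply, Xs_apply, ← map_smul J.mkQ,
      df_mk hσ hΛ.2, smul_sub]
    rw [smul_comm (X l : Q k) (X m : Q k) v, smul_comm (X l : Q k) (X m : Q k) (Λ v)]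
    abel

variable [Fintype ι] [DecidableEq ι]

theorem sum_single (v : ι → Q k) : ∑ p, v p • (Pi.single p 1 : ι → Q k) = v := by
  conv_rhs => rw [← Finset.univ_sum_single v]
  exact Finset.sum_congr rfl fun p _ => by rw [← Pi.single_smul, smul_eq_mul, mul_one]

omit [Fintype ι] in
theorem e_mem (p : ι) : (Pi.single p 1 : ι → Q k) ∈ FQ w b (b p) := by
  simpa using FQ_single (b := b) (Qd_one (k := k) (w := w)) p

theorem inj {Λ : (ι → Q k) →ₗ[k] SQ J}
    (h : ∀ (l : Fin 3) (v : ι → Q k), Λ ((X l : Q k) • v) = (X l : Q k) • Λ v)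
    (h0 : ∀ p, Λ (Pi.single p 1) = 0) : Λ = 0 := by
  have h1 : ∀ (q : Q k) (v : ι → Q k), Λ (q • v) = q • Λ v := by
    intro q
    induction q using MvPolynomial.induction_on with
    | C a => intro v; rw [C_sm, C_sm, map_smul]
    | add p q hp hq => intro v; rw [add_smul, map_add, hp, hq, add_smul]
    | mul_X p n hp => intro v; rw [mul_smul, hp, h, mul_smul]
  refine LinearMap.ext fun v => ?_
  rw [← sum_single v, map_sum]
  exact Finset.sum_eq_zero fun p _ => by rw [h1, h0, smul_zero]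

/-- A map with given defects and given values on the generators. -/
theorem ex_lam (A : Fin 3 → Module.End k (SQ J))
    (hA : ∀ l m, Xs J l * A m + A l * Xs J m = Xs J m * A l + A m * Xs J l) (x : ι → SQ J) :
    ∃ Λ : (ι → Q k) →ₗ[k] SQ J, (∀ q : Q k, ∀ v ∈ J, Λ (q • v) = q • Λ v) ∧
      (∀ (l : Fin 3) (v : ι → Q k), Λ ((X l : Q k) • v) = (X l : Q k) • Λ v + A l (J.mkQ v)) ∧
      ∀ p, Λ (Pi.single p 1) = x p := by
  let T : Fin 3 → Module.End k (SQ J × SQ J) := fun l =>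
    ((Xs J l).coprod (A l)).prod (Xs J l ∘ₗ LinearMap.snd k _ _)
  have hT : ∀ l y, T l y = ((X l : Q k) • y.1 + A l y.2, (X l : Q k) • y.2) := fun l y => rfl
  obtain ⟨ρ, hρ⟩ := ex_rho (k := k) T fun l m => LinearMap.ext fun y => by
    have h := LinearMap.congr_fun (hA l m) y.2
    simp only [LinearMap.add_apply, Module.End.mul_apply, Xs_apply] at h
    simp only [Module.End.mul_apply, hT, smul_add]
    rw [add_assoc, add_assoc, h, smul_comm (X l : Q k) (X m : Q k) y.1,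
      smul_comm (X l : Q k) (X m : Q k) y.2]
  have hC : ∀ (a : k) y, ρ (C a) y = a • y := fun a y => by
    rw [show (C a : Q k) = algebraMap k (Q k) a from rfl, AlgHom.commutes,
      Module.algebraMap_end_apply]
  have h2 : ∀ (q : Q k) y, (ρ q y).2 = q • y.2 := by
    intro q
    induction q using MvPolynomial.induction_on with
    | C a => intro y; rw [hC, C_sm, Prod.smul_snd]
    | add p q hp hq => intro y; rw [map_add, LinearMap.add_apply, Prod.snd_add, hp, hq, add_smul]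
    | mul_X p n hp => intro y; rw [map_mul, Module.End.mul_apply, hp, hρ, hT, mul_smul]
  have h1 : ∀ (q : Q k) (s : SQ J), (ρ q (s, 0)).1 = q • s := by
    intro q
    induction q using MvPolynomial.induction_on with
    | C a => intro s; rw [hC, C_sm, Prod.smul_fst]
    | add p q hp hq => intro s; rw [map_add, LinearMap.add_apply, Prod.fst_add, hp, hq, add_smul]
    | mul_X p n hp =>
      intro s
      rw [map_mul, Module.End.mul_apply, hρ, hT, map_zero, smul_zero, add_zero, hp, mul_smul]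
  let Θ : (ι → Q k) →ₗ[k] SQ J × SQ J := ∑ p, LinearMap.applyₗ (x p, J.mkQ (Pi.single p 1)) ∘ₗ
    ρ.toLinearMap ∘ₗ LinearMap.proj p
  have hΘ : ∀ v, Θ v = ∑ p, ρ (v p) (x p, J.mkQ (Pi.single p 1)) := fun v =>
    LinearMap.sum_apply _ _ _
  have ha : ∀ (q : Q k) v, Θ (q • v) = ρ q (Θ v) := fun q v => by
    rw [hΘ, hΘ, map_sum]
    exact Finset.sum_congr rfl fun p _ => by
      rw [Pi.smul_apply, smul_eq_mul, map_mul, Module.End.mul_apply]
  have hc : ∀ v, (Θ v).2 = J.mkQ v := fun v => by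
    rw [hΘ, Prod.snd_sum]
    conv_rhs => rw [← sum_single v, map_sum]
    exact Finset.sum_congr rfl fun p _ => by rw [h2, map_smul]
  refine ⟨LinearMap.fst k _ _ ∘ₗ Θ, fun q v hv => ?_, fun l v => ?_, fun p => ?_⟩
  · have e : Θ v = ((Θ v).1, 0) :=
      Prod.ext rfl ((hc v).trans ((Submodule.Quotient.mk_eq_zero J).2 hv))
    change (Θ (q • v)).1 = q • (Θ v).1
    rw [ha, e, h1]
  · change (Θ ((X l : Q k) • v)).1 = (X l : Q k) • (Θ v).1 + _
    rw [ha, hρ, hT, hc]
  · change (Θ (Pi.single p 1)).1 = _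
    rw [hΘ, Finset.sum_eq_single p, Pi.single_eq_same, map_one, Module.End.one_apply]
    · intro p' _ h
      rw [Pi.single_eq_of_ne h, map_zero, LinearMap.zero_apply]
    · exact fun h => absurd (Finset.mem_univ p) h

theorem deg (hG : SGr w b J) {j : ℤ} {A : Fin 3 → Module.End k (SQ J)}
    (hA : ∀ l, A l ∈ Wd (Sd w b J) (j + w l)) {Λ : (ι → Q k) →ₗ[k] SQ J}
    (h : ∀ (l : Fin 3) (v : ι → Q k), Λ ((X l : Q k) • v) = (X l : Q k) • Λ v + A l (J.mkQ v))
    (h0 : ∀ p, Λ (Pi.single p 1) ∈ Sd w b J (j + b p)) (i : ℤ) (v : ι → Q k) (hv : v ∈ FQ w b i) :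
    Λ v ∈ Sd w b J (i + j) := by
  have h1 : ∀ (q : Q k) (s i : ℤ), ∀ v ∈ FQ (k := k) w b i, Λ v ∈ Sd w b J (i + j) →
      Λ (weightedHomogeneousComponent w s q • v) ∈ Sd w b J (i + s + j) := by
    intro q
    induction q using MvPolynomial.induction_on with
    | C a =>
      intro s i v _ h2
      by_cases e : s = 0
      · rw [e, hc_same (Qd_C a), C_sm, map_smul, add_zero]
        exact Submodule.smul_mem _ a h2
      · rw [hc_ne (Qd_C a) e, zero_smul, map_zero]
        exact Submodule.zero_mem _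
    | add p q hp hq =>
      intro s i v hv h2
      rw [map_add, add_smul, map_add]
      exact Submodule.add_mem _ (hp s i v hv h2) (hq s i v hv h2)
    | mul_X p n hp =>
      intro s i v hv h2
      obtain ⟨t, rfl⟩ : ∃ t, s = t + w n := ⟨s - w n, by ring⟩
      rw [mul_comm, hc_mul (Qd_X n), mul_smul, h]
      refine Submodule.add_mem _ ?_ ?_
      · have := hG.deg n _ _ (hp t i v hv h2)
        rwa [show i + t + j + w n = i + (t + w n) + j by ring] at this
      · have := hA n _ _ (mk_mem (J := J) (FQ_smul (hc_mem t p) hv))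
        rwa [show i + t + (j + w n) = i + (t + w n) + j by ring] at this
  rw [← sum_single v, map_sum]
  refine Submodule.sum_mem _ fun p _ => ?_
  have := h1 (v p) (i - b p) (b p) _ (e_mem p) (by rw [add_comm]; exact h0 p)
  rwa [hc_same (mem_FQ.1 hv p), add_sub_cancel] at this

end DZ

open DZ in
theorem sDZ {k ι : Type*} [Field k] [Fintype ι] (w : Fin 3 → ℤ) (b : ι → ℤ)
    (J : Submodule (Q k) (ι → Q k)) (_hJ : HomJ w b J) (hG : SGr w b J) : SDZ w b J := by
  classical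
  intro j
  have := hG.fin
  obtain ⟨σ, hσ⟩ := (J.mkQ.restrictScalars k).exists_rightInverse_of_surjective
    (LinearMap.range_eq_top.2 J.mkQ_surjective)
  have hs : ∀ s, J.mkQ (σ s) = s := fun s => LinearMap.congr_fun hσ s
  refine count (W := Fin 3 → Module.End k (SQ J)) (Dd w b J j) (Zd (Sd w b J) (Xs J) w j)
    (Gd w b J j) (df σ) (LinearMap.pi fun p => LinearMap.applyₗ (Pi.single p 1))
    (fun Λ hΛ => df_mem hG hs hΛ) (fun Λ hΛ p _ => ?_)
    (fun Λ hΛ h1 h0 => inj (fun l v => ?_) fun p => congrFun h0 p) fun A hA x hx => ?_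
  · have := hΛ.1 _ _ (e_mem p)
    rwa [add_comm] at this
  · have h2 := df_mk hs hΛ.2 l v
    rw [h1] at h2
    exact sub_eq_zero.1 h2.symm
  · obtain ⟨Λ, h1, h2, h3⟩ := ex_lam A hA.2 x
    refine ⟨Λ, ⟨deg hG hA.1 h2 fun p => h3 p ▸ hx p (Set.mem_univ p), h1⟩, ?_, funext h3⟩
    funext l
    refine LinearMap.ext fun s => ?_
    obtain ⟨v, rfl⟩ := J.mkQ_surjective s
    rw [df_mk hs h1, h2, add_sub_cancel_left]

end Pool.Agent.Lib.MP_86e60f_al.HW
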