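import Mathlib
import Pool.Agent.Lib.MP_86e60f_al.HW.Stmt

set_option autoImplicit false

open MvPolynomial Module Matrix

namespace Pool.Agent.Lib.MP_86e60f_al.HW

namespace Md

variable {k L ι : Type*} [Field k] [CommRing L] [Algebra k L] [FiniteDimensional k L] [Fintype ι]
  [DecidableEq ι] (D : Md k L) (b : ι → ℤ) (E : ℤ → Submodule k (ι → L)) (lam : L →ₗ[k] k)

omit [DecidableEq ι] in
theorem dual_key (hp : D.SPair b lam) (j : ℤ) {Y : Submodule k (Matrix ι ι L)}
    (hY : Y ≤ D.Mat b (D.a - j)) :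
    finrank k (D.perp b lam j Y) + finrank k Y = finrank k (D.Mat b j) := by
  let φ : D.Mat b j →ₗ[k] Module.Dual k Y :=
    LinearMap.mk₂ k (fun (U : D.Mat b j) (U' : Y) => lam (U.1 * U'.1).trace)
      (fun A B C => by simp [add_mul]) (fun c A B => by simp)
      (fun A B C => by simp [mul_add]) (fun c A B => by simp)
  have h1 : LinearMap.range φ = ⊤ := by
    refine LinearMap.range_eq_top.2 fun μ => ?_
    obtain ⟨μ', hμ⟩ := LinearMap.exists_extend μ
    obtain ⟨U, hU, h⟩ := hp.repM j μ'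
    refine ⟨⟨U, hU⟩, LinearMap.ext fun U' => ?_⟩
    rw [← hμ]
    exact (h U' (hY U'.2)).symm
  have h2 : LinearMap.ker φ = (D.perp b lam j Y).comap (D.Mat b j).subtype := by
    ext U
    exact ⟨fun h => ⟨U.2, fun U' hU' => LinearMap.congr_fun h ⟨U', hU'⟩⟩,
      fun h => LinearMap.ext fun U' => h.2 U' U'.2⟩
  have h3 := φ.finrank_range_add_finrank_ker
  have h4 : D.perp b lam j Y ≤ D.Mat b j := fun U hU => hU.1
  rw [h1, h2, finrank_top, Subspace.dual_finrank_eq,
    (Submodule.comapSubtypeEquivOfLe h4).finrank_eq] at h3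
  omega

omit [DecidableEq ι] in
theorem dual_mat (hp : D.SPair b lam) (j : ℤ) :
    finrank k (D.Mat b (D.a - j)) = finrank k (D.Mat b j) := by
  have h1 := D.dual_key b lam hp j le_rfl
  have h2 : D.perp b lam j (D.Mat b (D.a - j)) = ⊥ :=
    eq_bot_iff.2 fun U hU => hp.ndM j U hU.1 hU.2
  rw [h2, finrank_bot] at h1
  omega

omit [DecidableEq ι] in
theorem dual_dual (hp : D.SPair b lam) (j : ℤ) {Y : Submodule k (Matrix ι ι L)}
    (hY : Y ≤ D.Mat b (D.a - j)) : D.perp b lam (D.a - j) (D.perp b lam j Y) = Y := by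
  have h0 : Y ≤ D.perp b lam (D.a - j) (D.perp b lam j Y) := fun U hU =>
    ⟨hY hU, fun U' hU' => by rw [trace_mul_comm]; exact hU'.2 U hU⟩
  have h1 := D.dual_key b lam hp j hY
  have h2 := D.dual_key b lam hp (D.a - j) (Y := D.perp b lam j Y)
    (by rw [sub_sub_cancel]; exact fun U hU => hU.1)
  have h3 := D.dual_mat b lam hp j
  exact (Submodule.eq_of_le_of_finrank_eq h0 (by omega)).symm

omit [FiniteDimensional k L] in
theorem dual_sup (j : ℤ) (Y Y' : Submodule k (Matrix ι ι L)) :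
    D.perp b lam j (Y ⊔ Y') = D.perp b lam j Y ⊓ D.perp b lam j Y' := by
  ext U
  refine ⟨fun h => ⟨⟨h.1, fun U' hU' => h.2 U' (Submodule.mem_sup_left hU')⟩,
    ⟨h.1, fun U' hU' => h.2 U' (Submodule.mem_sup_right hU')⟩⟩, fun h => ⟨h.1.1, fun U' hU' => ?_⟩⟩
  obtain ⟨A, hA, B, hB, rfl⟩ := Submodule.mem_sup.1 hU'
  rw [mul_add, trace_add, map_add, h.1.2 A hA, h.2.2 B hB, add_zero]

omit [FiniteDimensional k L] [DecidableEq ι] in
theorem dual_le2 (j : ℤ) : D.PE b E j ≤ D.Hm b E E j := by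
  refine Submodule.span_le.2 ?_
  rintro _ ⟨s, A, hA, B, hB, rfl⟩
  have := D.Hm_mul hA hB
  rwa [add_sub_cancel] at this

theorem sDual (hE : D.Lat b E) (hp : D.SPair b lam) (h : D.SPerp b E lam) : D.SDual b E := by
  have hPE : ∀ j, D.PE b E j ≤ D.Mat b j := fun j U hU => (D.dual_le2 b E j hU).1
  refine ⟨fun j => ?_, fun j hj U hU => ?_, fun j U hU => ?_, D.dual_le2 b E,
    fun j U hU => ⟨hU.1, fun i x hx => hE.le _ (hU.2 i x hx)⟩⟩
  · have h1 := D.dual_key b lam hp j (Y := D.Hm b (D.FV b) E (D.a - j)) fun U hU => hU.1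
    have h2 := D.dual_key b lam hp (D.a - j)
      (Y := D.Hm b E E j ⊔ D.Hm b (D.FV b) (D.FV b) j)
      (by rw [sub_sub_cancel]; exact sup_le (fun U hU => hU.1) fun U hU => hU.1)
    have h3 := D.dual_dual b lam hp j (hPE (D.a - j))
    have h4 := h.p1 (D.a - j)
    rw [sub_sub_cancel] at h4
    rw [h.p4] at h3
    rw [h.p2] at h1
    rw [dual_sup, h3, h4, D.dual_mat b lam hp] at h2
    have h5 := Submodule.finrank_sup_add_finrank_inf_eq (D.Hm b E E j)
      (D.Hm b (D.FV b) (D.FV b) j)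
    omega
  · have h3 := D.dual_dual b lam hp (D.a - j) (hPE (D.a - (D.a - j)))
    rw [h.p4, hj, sub_sub_cancel] at h3
    rw [← h3]
    exact ⟨hU.1, fun U' hU' => by rw [(Submodule.mem_bot k).1 hU']; simp⟩
  · exact Submodule.subset_span ⟨j, U, hU, 1, by rw [sub_self]; exact D.one_mem_Hm hE.le,
      (mul_one U).symm⟩

end Md

end Pool.Agent.Lib.MP_86e60f_al.HW
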