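import Mathlib
import Pool.Agent.Lib.MP_86e60f_al.HW.Stmt

set_option autoImplicit false

open MvPolynomial Module Matrix

namespace Pool.Agent.Lib.MP_86e60f_al.HW

variable {k ι : Type*} [Field k]

theorem Gr_mem {w : Fin 3 → ℤ} {b : ι → ℤ} {J : Submodule (Q k) (ι → Q k)} {i : ℤ} {x : SQ J} :
    x ∈ Sd w b J i ↔ ∃ v ∈ FQ (k := k) w b i, J.mkQ v = x := Iff.rfl

/-- The components descend to the quotient by a homogeneous submodule. -/
theorem Gr_proj {w : Fin 3 → ℤ} {b : ι → ℤ} {J : Submodule (Q k) (ι → Q k)}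
    (hJ : ∀ v ∈ J, ∀ i, cmp w b i v ∈ J) (i : ℤ) :
    ∃ π : SQ J →ₗ[k] SQ J, ∀ v, π (J.mkQ v) = J.mkQ (cmp w b i v) := by
  obtain ⟨σ, hσ⟩ := (J.mkQ.restrictScalars k).exists_rightInverse_of_surjective
    (LinearMap.range_eq_top.mpr J.mkQ_surjective)
  refine ⟨J.mkQ.restrictScalars k ∘ₗ cmp w b i ∘ₗ σ, fun v => ?_⟩
  have h1 : J.mkQ (σ (J.mkQ v)) = J.mkQ v := LinearMap.congr_fun hσ (J.mkQ v)
  have h2 := hJ _ ((Submodule.Quotient.eq J).1 h1) i
  rw [map_sub] at h2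
  exact (Submodule.Quotient.eq J).2 h2

theorem sGr [Fintype ι] (w : Fin 3 → ℤ) (b : ι → ℤ) (J : Submodule (Q k) (ι → Q k))
    (hw : ∀ l, 0 < w l) (hJ : HomJ w b J) : SGr w b J := by
  obtain ⟨hi, hN⟩ := hJ.big
  obtain ⟨lo, hlo⟩ := (Set.finite_range b).bddBelow
  obtain ⟨up, hup⟩ := (Set.finite_range b).bddAbove
  have hlo' : ∀ p, lo ≤ b p := fun p => hlo ⟨p, rfl⟩
  have hup' : ∀ p, b p ≤ up := fun p => hup ⟨p, rfl⟩
  have bnd : ∀ i, i < lo ∨ hi ≤ i → ∀ x ∈ Sd w b J i, x = 0 := by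
    rintro i h _ ⟨v, hv, rfl⟩
    rcases h with h | h
    · have : v = 0 := funext fun p => Qd_neg hw (by have := hlo' p; omega) (mem_FQ.1 hv p)
      rw [this, map_zero]
    · exact (Submodule.Quotient.mk_eq_zero J).2 (hN i h v hv)
  have top : ∀ T : Submodule k (SQ J), (∀ i, Sd w b J i ≤ T) → ⊤ ≤ T := by
    intro T hT x _
    obtain ⟨v, rfl⟩ := J.mkQ_surjective x
    induction v using FQ_induction w b with
    | h0 => rw [map_zero]; exact T.zero_mem
    | hadd u v hu hv => rw [map_add]; exact T.add_mem (hu trivial) (hv trivial)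
    | hh i v hv => exact hT i ⟨v, hv, rfl⟩
  refine ⟨?_, ?_, ?_, ?_, lo, hi, bnd⟩
  · have h1 : ∀ i, (Sd w b J i).FG := fun i =>
      (Submodule.fg_pi fun p => Module.Finite.iff_fg.1 (Qd_finite hw (i - b p))).map _
    have h2 : ((Finset.Ico lo hi).sup (Sd w b J)).FG :=
      Submodule.fg_finset_sup _ _ fun i _ => h1 i
    have h3 := top ((Finset.Ico lo hi).sup (Sd w b J)) fun i => by
      by_cases h : i ∈ Finset.Ico lo hi
      · exact Finset.le_sup h
      · intro x hx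
        rw [bnd i (by rw [Finset.mem_Ico] at h; omega) x hx]
        exact Submodule.zero_mem _
    exact Module.finite_def.2 (top_le_iff.1 h3 ▸ h2)
  · refine DirectSum.isInternal_submodule_of_iSupIndep_of_iSup_eq_top (fun i => ?_)
      (top_le_iff.1 (top _ fun i => le_iSup (Sd w b J) i))
    obtain ⟨π, hπ⟩ := Gr_proj hJ.hom i
    have h1 : (⨆ j, ⨆ (_ : j ≠ i), Sd w b J j) ≤ LinearMap.ker π :=
      iSup_le fun j => iSup_le fun hj => by
        rintro _ ⟨v, hv, rfl⟩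
        exact (hπ v).trans (by rw [cmp_ne hv hj.symm, map_zero])
    refine Submodule.disjoint_def.2 ?_
    rintro _ ⟨v, hv, rfl⟩ hx
    have h2 := hπ v
    rw [cmp_same hv] at h2
    exact h2.symm.trans (h1 hx)
  · rintro l i _ ⟨v, hv, rfl⟩
    exact ⟨(X l : Q k) • v, FQ_smul (Qd_X l) hv, J.mkQ.map_smul _ _⟩
  · refine (Set.finite_Icc (lo - up) (hi - lo)).subset fun j hj => ?_
    by_contra h
    have h1 : Gd w b J j = ⊥ := (Submodule.eq_bot_iff _).2 fun x hx => funext fun p =>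
      bnd _ (by
        have := hlo' p
        have := hup' p
        rw [Set.mem_Icc] at h
        omega) _ (hx p trivial)
    exact hj (show finrank k (Gd w b J j) = 0 by rw [h1, finrank_bot])

end Pool.Agent.Lib.MP_86e60f_al.HW
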