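import Mathlib
import Pool.Agent.Lib.MP_86e60f_al.HW.Stmt

set_option autoImplicit false
set_option linter.unusedSectionVars false

open MvPolynomial Module Matrix

namespace Pool.Agent.Lib.MP_86e60f_al.HW

namespace Md

variable {k L ι : Type*} [Field k] [CommRing L] [Algebra k L] [FiniteDimensional k L] [Fintype ι]
  [DecidableEq ι] (D : Md k L) (b : ι → ℤ) (E : ℤ → Submodule k (ι → L))

theorem sHat (hc : D.SCl b E) : D.SHat b E where
  row s u hu := by
    let dt : (ι → L) →ₗ[k] L :=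
      { toFun := fun x => u ⬝ᵥ x
        map_add' := fun x y => dotProduct_add u x y
        map_smul' := fun c x => dotProduct_smul c u x }
    obtain ⟨Ψ, hΨ⟩ := glue D.w b fun i => D.sec (i + s) ∘ₗ dt ∘ₗ D.evv
    have key : ∀ i, ∀ v ∈ D.JE b E, v ∈ FQ D.w b i →
        Ψ v ∈ Qd D.w (i + s) ∧ D.ev (Ψ v) = u ⬝ᵥ D.evv v := fun i v hv hi => by
      rw [hΨ i v hi]
      exact ⟨D.sec_mem _ _, D.ev_sec _ (hu.2 i _ ((hc.memJ i v hi).1 hv))⟩
    refine ⟨Ψ, key, fun q v hv => ?_⟩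
    have := smul_of_hom hc.homJ.hom ((Submodule.mkQ D.P).restrictScalars k ∘ₗ Ψ)
      (fun t i q hq v hv hi => by
        obtain ⟨a, c⟩ := key i v hv hi
        obtain ⟨a', c'⟩ := key (i + t) (q • v) (Submodule.smul_mem _ q hv) (FQ_smul hq hi)
        change Submodule.mkQ D.P (Ψ (q • v)) = q • Submodule.mkQ D.P (Ψ v)
        rw [← map_smul]
        refine (Submodule.Quotient.eq _).2 ?_
        have m : q • Ψ v ∈ Qd D.w (i + t + s) := by
          have := Qd_mul hq a
          rwa [show t + (i + s) = i + t + s by ring] at this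
        rw [D.mem_P_iff (Submodule.sub_mem _ a' m), map_sub, c', smul_eq_mul, map_mul, c,
          D.evv_smul, dotProduct_smul, smul_eq_mul, sub_self]) q v hv
    change Submodule.mkQ D.P (Ψ (q • v)) = q • Submodule.mkQ D.P (Ψ v) at this
    rw [← map_smul] at this
    exact (Submodule.Quotient.eq _).1 this
  mat j B hB := by
    obtain ⟨Ψ, hΨ⟩ := glue D.w b fun i =>
      D.secv b (i + j) ∘ₗ B.mulVecLin.restrictScalars k ∘ₗ D.evv
    have key : ∀ i, ∀ v ∈ D.JE b E, v ∈ FQ D.w b i →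
        Ψ v ∈ FQ D.w b (i + j) ∧ D.evv (Ψ v) = B *ᵥ D.evv v := fun i v hv hi => by
      rw [hΨ i v hi]
      exact ⟨D.secv_mem _ _, D.evv_secv (hB.2 i _ ((hc.memJ i v hi).1 hv))⟩
    refine ⟨Ψ, key, fun q v hv => ?_⟩
    have := smul_of_hom hc.homJ.hom ((Submodule.mkQ D.PF).restrictScalars k ∘ₗ Ψ)
      (fun t i q hq v hv hi => by
        obtain ⟨a, c⟩ := key i v hv hi
        obtain ⟨a', c'⟩ := key (i + t) (q • v) (Submodule.smul_mem _ q hv) (FQ_smul hq hi)
        change Submodule.mkQ D.PF (Ψ (q • v)) = q • Submodule.mkQ D.PF (Ψ v)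
        rw [← map_smul]
        refine (Submodule.Quotient.eq _).2 ?_
        have m : q • Ψ v ∈ FQ D.w b (i + t + j) := by
          have := FQ_smul hq a
          rwa [show i + j + t = i + t + j by ring] at this
        rw [D.mem_PF_iff (Submodule.sub_mem _ a' m), map_sub, c', D.evv_smul, D.evv_smul, c,
          Matrix.mulVec_smul, sub_self]) q v hv
    change Submodule.mkQ D.PF (Ψ (q • v)) = q • Submodule.mkQ D.PF (Ψ v) at this
    rw [← map_smul] at this
    exact (Submodule.Quotient.eq _).1 this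

theorem hat_up (hE : D.Lat b E) (hc : D.SCl b E) {m : ℤ} {r : Q k} (hr : r ∈ Qd D.w m)
    (hP : r ∈ D.P) (j : ℤ) (φ : D.JE b E →ₗ[Q k] SQ (D.JE b E))
    (hφ : φ ∈ Td D.w b (D.JE b E) j) :
    (fun p => φ ⟨Pi.single p r, D.single_mem b E hr hP p⟩) ∈
      (D.Hm b E E (j + m) ⊓ D.Hm b (D.FV b) (D.FV b) (j + m)).map (D.th b E (j + m)) := by
  have g : (fun p => φ ⟨Pi.single p r, D.single_mem b E hr hP p⟩) ∈
      Gd D.w b (D.JE b E) (j + m) := fun p _ => by
    have := hφ (m + b p) ⟨Pi.single p r, D.single_mem b E hr hP p⟩ (FQ_single hr p)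
    rwa [show m + b p + j = j + m + b p by ring] at this
  rw [← hc.th_map] at g
  obtain ⟨U, hU, e⟩ := g
  refine ⟨U, ⟨⟨hU.1, fun i x hx => ?_⟩, hU⟩, e⟩
  have hx' := hE.le i hx
  have hv : D.secv b i x ∈ D.JE b E :=
    (hc.memJ i _ (D.secv_mem i x)).2 (by rwa [D.evv_secv hx'])
  have s := hc.th_sum _ U hU i _ (D.secv_mem i x)
  rw [D.evv_secv hx', e] at s
  rw [← hc.cl_zero _ _ (hU.2 i x hx'), ← s]
  have t : ∑ p, D.secv b i x p • (⟨Pi.single p r, D.single_mem b E hr hP p⟩ : D.JE b E) =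
      r • ⟨D.secv b i x, hv⟩ := by
    apply Subtype.ext
    rw [AddSubmonoidClass.coe_finsetSum]
    funext p
    simp [Finset.sum_apply, Pi.single_apply, mul_comm]
  simp only [← map_smul]
  rw [← map_sum, t, map_smul]
  obtain ⟨z, hz⟩ := Submodule.mkQ_surjective _ (φ ⟨D.secv b i x, hv⟩)
  rw [← hz, ← map_smul]
  exact (Submodule.Quotient.mk_eq_zero _).2
    (hc.pf (D.mem_PF.2 fun p => Ideal.mul_mem_right _ _ hP))

theorem sUp (hE : D.Lat b E) (hc : D.SCl b E) : D.SUp b E := fun j φ hφ =>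
  ⟨D.hat_up b E hE hc D.hf D.f_mem_P j φ hφ, D.hat_up b E hE hc D.hg D.g_mem_P j φ hφ⟩

end Md

end Pool.Agent.Lib.MP_86e60f_al.HW
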