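import Mathlib
import Pool.Agent.Lib.MP_86e60f_al.HW.Stmt

set_option autoImplicit false

open MvPolynomial Module Matrix

namespace Pool.Agent.Lib.MP_86e60f_al.HW

namespace Hes

/-- A bilinear map and its flip have the same rank. -/
theorem rank_flip {k V W : Type*} [Field k] [AddCommGroup V] [Module k V] [AddCommGroup W]
    [Module k W] [FiniteDimensional k V] [FiniteDimensional k W] (f : V →ₗ[k] W →ₗ[k] k) :
    finrank k (LinearMap.ker f) + finrank k W =
      finrank k (LinearMap.ker f.flip) + finrank k V := by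
  have h1 := LinearMap.finrank_range_add_finrank_ker f
  have h2 := Subspace.finrank_add_finrank_dualCoannihilator_eq
    (LinearMap.range f : Subspace k (Module.Dual k W))
  have h3 : (LinearMap.range f : Subspace k (Module.Dual k W)).dualCoannihilator =
      LinearMap.ker f.flip := by
    ext x
    rw [Submodule.mem_dualCoannihilator, LinearMap.mem_ker]
    constructor
    · intro h
      ext v
      exact h _ ⟨v, rfl⟩
    · rintro h _ ⟨v, rfl⟩
      exact LinearMap.congr_fun h v
  rw [h3] at h2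
  have h4 : finrank k (LinearMap.range f) + finrank k (LinearMap.ker f.flip) = finrank k W := h2
  omega

variable {k S : Type*} [Field k] [AddCommGroup S] [Module k S]

theorem mul_mem {G : ℤ → Submodule k S} {i j : ℤ} {A B : Module.End k S} (hA : A ∈ Wd G i)
    (hB : B ∈ Wd G j) {m : ℤ} (hm : m = i + j) : A * B ∈ Wd G m := fun t x hx => by
  have := hA _ _ (hB t x hx)
  rwa [show t + j + i = t + m by omega] at this

/-- Triples of degree `j`. -/
def K (G : ℤ → Submodule k S) (w : Fin 3 → ℤ) (j : ℤ) : Submodule k (Fin 3 → Module.End k S) :=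
  Submodule.pi Set.univ fun l => Wd G (j + w l)

theorem mem_K {G : ℤ → Submodule k S} {w : Fin 3 → ℤ} {j : ℤ} {A : Fin 3 → Module.End k S} :
    A ∈ K G w j ↔ ∀ l, A l ∈ Wd G (j + w l) := by simp [K, Submodule.mem_pi]

/-- Triples as a product. -/
def eK (G : ℤ → Submodule k S) (w : Fin 3 → ℤ) (j : ℤ) :
    K G w j ≃ₗ[k] ((l : Fin 3) → Wd G (j + w l)) where
  toFun A l := ⟨A.1 l, mem_K.1 A.2 l⟩
  map_add' _ _ := rfl
  map_smul' _ _ := rfl
  invFun B := ⟨fun l => (B l).1, mem_K.2 fun l => (B l).2⟩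
  left_inv _ := rfl
  right_inv _ := rfl

theorem finrank_K [FiniteDimensional k S] (G : ℤ → Submodule k S) (w : Fin 3 → ℤ) (j : ℤ) :
    finrank k (K G w j) = ∑ l, finrank k (Wd G (j + w l)) := by
  rw [(eK G w j).finrank_eq, Module.finrank_pi_fintype]

/-- The Koszul differential. -/
def c (T : Fin 3 → Module.End k S) (l m : Fin 3) (A : Fin 3 → Module.End k S) : Module.End k S :=
  T l * A m + A l * T m - (T m * A l + A m * T l)

theorem c_mem {G : ℤ → Submodule k S} {T : Fin 3 → Module.End k S} {w : Fin 3 → ℤ}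
    (hT : ∀ l, T l ∈ Wd G (w l)) {j : ℤ} {A : Fin 3 → Module.End k S} (hA : A ∈ K G w j)
    (l m : Fin 3) : c T l m A ∈ Wd G (j + w l + w m) := by
  have h := mem_K.1 hA
  exact Submodule.sub_mem _
    (Submodule.add_mem _ (mul_mem (hT l) (h m) (by ring)) (mul_mem (h l) (hT m) (by ring)))
    (Submodule.add_mem _ (mul_mem (hT m) (h l) (by ring)) (mul_mem (h m) (hT l) (by ring)))

/-- The Hessian. -/
noncomputable def be (T : Fin 3 → Module.End k S) :
    (Fin 3 → Module.End k S) →ₗ[k] (Fin 3 → Module.End k S) →ₗ[k] k :=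
  LinearMap.mk₂ k (fun A B => LinearMap.trace k S (c T 0 1 A * B 2) +
      LinearMap.trace k S (c T 1 2 A * B 0) + LinearMap.trace k S (c T 2 0 A * B 1))
    (fun A A' B => by
      simp only [c, Pi.add_apply, mul_add, add_mul, sub_mul, map_add, map_sub]
      ring)
    (fun t A B => by
      simp only [c, Pi.smul_apply, mul_smul_comm, smul_mul_assoc, add_mul, sub_mul, map_add,
        map_sub, map_smul, smul_eq_mul]
      ring)
    (fun A B B' => by
      simp only [Pi.add_apply, mul_add, map_add]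
      ring)
    (fun t A B => by
      simp only [Pi.smul_apply, mul_smul_comm, map_smul, smul_eq_mul]
      ring)

theorem be_apply (T A B : Fin 3 → Module.End k S) :
    be T A B = LinearMap.trace k S (c T 0 1 A * B 2) +
      LinearMap.trace k S (c T 1 2 A * B 0) + LinearMap.trace k S (c T 2 0 A * B 1) := rfl

theorem be_symm (T A B : Fin 3 → Module.End k S) : be T A B = be T B A := by
  have h : ∀ X Y Z : Module.End k S,
      LinearMap.trace k S (X * Y * Z) = LinearMap.trace k S (Y * Z * X) := fun X Y Z => by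
    rw [mul_assoc, LinearMap.trace_mul_comm]
  simp only [be_apply, c, add_mul, sub_mul, map_add, map_sub]
  rw [h (A 0) (T 1), h (A 1) (T 0), h (A 1) (T 2), h (A 2) (T 1), h (A 2) (T 0), h (A 0) (T 2),
    h (B 0) (T 1), h (B 1) (T 0), h (B 1) (T 2), h (B 2) (T 1), h (B 2) (T 0), h (B 0) (T 2)]
  ring

theorem rad {G : ℤ → Submodule k S} {T : Fin 3 → Module.End k S} {w : Fin 3 → ℤ} (h : STr G)
    (hT : ∀ l, T l ∈ Wd G (w l)) {j j' : ℤ} (hj : j + j' = -sg w) {A : Fin 3 → Module.End k S}
    (hA : A ∈ K G w j) : (∀ B ∈ K G w j', be T A B = 0) ↔ A ∈ Zd G T w j := by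
  have hs : j + j' = -(w 0 + w 1 + w 2) := hj
  constructor
  · intro h0
    have key : ∀ (p : Fin 3) (B : Module.End k S), B ∈ Wd G (j' + w p) →
        be T A (Pi.single p B) = 0 := fun p B hB => h0 _ (mem_K.2 fun l => by
      by_cases hl : l = p
      · subst hl
        simpa using hB
      · rw [Pi.single_eq_of_ne hl]
        exact Submodule.zero_mem _)
    have h01 : c T 0 1 A = 0 := h.nd _ _ (c_mem hT hA 0 1) fun B hB => by
      have := key 2 B (by rwa [show j' + w 2 = -(j + w 0 + w 1) by omega])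
      simpa [be_apply] using this
    have h12 : c T 1 2 A = 0 := h.nd _ _ (c_mem hT hA 1 2) fun B hB => by
      have := key 0 B (by rwa [show j' + w 0 = -(j + w 1 + w 2) by omega])
      simpa [be_apply] using this
    have h20 : c T 2 0 A = 0 := h.nd _ _ (c_mem hT hA 2 0) fun B hB => by
      have := key 1 B (by rwa [show j' + w 1 = -(j + w 2 + w 0) by omega])
      simpa [be_apply] using this
    have e01 := sub_eq_zero.1 h01
    have e12 := sub_eq_zero.1 h12
    have e20 := sub_eq_zero.1 h20
    refine ⟨mem_K.1 hA, fun l m => ?_⟩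
    fin_cases l <;> fin_cases m
    exacts [rfl, e01, e20.symm, e01.symm, rfl, e12, e20, e12.symm, rfl]
  · rintro ⟨-, h0⟩ B -
    have hc : ∀ l m, c T l m A = 0 := fun l m => sub_eq_zero.2 (h0 l m)
    simp [be_apply, hc]

theorem finrank_ker {G : ℤ → Submodule k S} {T : Fin 3 → Module.End k S} {w : Fin 3 → ℤ} {j : ℤ}
    {X : Type*} [AddCommGroup X] [Module k X] (f : K G w j →ₗ[k] X)
    (hf : ∀ A : K G w j, f A = 0 ↔ A.1 ∈ Zd G T w j) :
    finrank k (LinearMap.ker f) = finrank k (Zd G T w j) := by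
  have h1 : LinearMap.ker f = (Zd G T w j).comap (K G w j).subtype := by
    ext A
    exact hf A
  have h2 : Zd G T w j ≤ K G w j := fun A hA => mem_K.2 hA.1
  rw [h1, (Submodule.comapSubtypeEquivOfLe h2).finrank_eq]

end Hes

theorem sHes {k S : Type*} [Field k] [AddCommGroup S] [Module k S] [FiniteDimensional k S]
    (G : ℤ → Submodule k S) (T : Fin 3 → Module.End k S) (w : Fin 3 → ℤ) (h : STr G)
    (hT : ∀ l, T l ∈ Wd G (w l)) : SHes G T w := by
  refine ⟨fun j => ?_, fun j => ?_⟩
  · rw [← Hes.finrank_K]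
    exact Submodule.finrank_mono fun A hA => Hes.mem_K.2 hA.1
  · rw [← Hes.finrank_K, ← Hes.finrank_K]
    let f := (Hes.be T).domRestrict₁₂ (Hes.K G w j) (Hes.K G w (-sg w - j))
    have h1 := Hes.finrank_ker (T := T) f fun A => by
      rw [← Hes.rad h hT (j' := -sg w - j) (by ring) A.2]
      exact ⟨fun h0 B hB => LinearMap.congr_fun h0 ⟨B, hB⟩,
        fun h0 => LinearMap.ext fun B => h0 B.1 B.2⟩
    have h2 := Hes.finrank_ker (T := T) f.flip fun A => by
      rw [← Hes.rad h hT (j' := j) (by ring) A.2]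
      exact ⟨fun h0 B hB => (Hes.be_symm T _ _).trans (LinearMap.congr_fun h0 ⟨B, hB⟩),
        fun h0 => LinearMap.ext fun B => (Hes.be_symm T _ _).trans (h0 B.1 B.2)⟩
    rw [← h1, ← h2]
    exact Hes.rank_flip f

end Pool.Agent.Lib.MP_86e60f_al.HW
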