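import Mathlib
import Pool.Agent.Lib.MP_86e60f_al.HW.Stmt

set_option autoImplicit false

open MvPolynomial Module Matrix

namespace Pool.Agent.Lib.MP_86e60f_al.HW

namespace Md

variable {k L ι : Type*} [Field k] [CommRing L] [Algebra k L] [FiniteDimensional k L] [Fintype ι]
  [DecidableEq ι] (D : Md k L) (b : ι → ℤ) (E : ℤ → Submodule k (ι → L))

omit [FiniteDimensional k L] [DecidableEq ι] in
theorem Ker_ex (hc : D.SCl b E) (hh : D.SHat b E) (j : ℤ) (B : D.Hm b E (D.FV b) j) :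
    ∃ φ : D.JE b E →ₗ[Q k] SQ (D.JE b E), ∀ i, ∀ v : D.JE b E, v.1 ∈ FQ D.w b i →
      φ v = D.cl b E (i + j) (B.1 *ᵥ D.evv v.1) := by
  obtain ⟨Ψ, h1, h2⟩ := hh.mat j B.1 B.2
  refine ⟨mkLin (D.JE b E) ((D.JE b E).mkQ.restrictScalars k ∘ₗ Ψ) fun q v hv => ?_,
    fun i v hv => ?_⟩
  · change (D.JE b E).mkQ (Ψ (q • v)) = q • (D.JE b E).mkQ (Ψ v)
    rw [← map_smul]
    exact (Submodule.Quotient.eq _).2 (hc.pf (h2 q v hv))
  · change (D.JE b E).mkQ (Ψ v.1) = _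
    rw [← (h1 i v.1 v.2 hv).2, hc.cl_evv _ _ (h1 i v.1 v.2 hv).1]

omit [FiniteDimensional k L] [DecidableEq ι] in
theorem Ker_uniq (hc : D.SCl b E) {φ φ' : D.JE b E →ₗ[Q k] SQ (D.JE b E)}
    (h : ∀ i, ∀ v : D.JE b E, v.1 ∈ FQ D.w b i → φ v = φ' v) : φ = φ' :=
  LinearMap.ext fun v => hom_induction' hc.homJ.hom (C := fun v => φ v = φ' v) (by simp)
    (fun u v hu hv => by simp only [map_add, hu, hv]) h v

omit [FiniteDimensional k L] [DecidableEq ι] in
theorem Ker_lin (hc : D.SCl b E) (hh : D.SHat b E) (j : ℤ) :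
    ∃ Θ : D.Hm b E (D.FV b) j →ₗ[k] (D.JE b E →ₗ[Q k] SQ (D.JE b E)),
      ∀ B i, ∀ v : D.JE b E, v.1 ∈ FQ D.w b i →
        Θ B v = D.cl b E (i + j) (B.1 *ᵥ D.evv v.1) := by
  choose φ hφ using D.Ker_ex b E hc hh j
  refine ⟨{ toFun := φ
            map_add' := fun B B' => D.Ker_uniq b E hc fun i v hv => ?_
            map_smul' := fun c B => D.Ker_uniq b E hc fun i v hv => ?_ }, hφ⟩
  · rw [LinearMap.add_apply, hφ _ i v hv, hφ _ i v hv, hφ _ i v hv, Submodule.coe_add,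
      Matrix.add_mulVec, map_add]
  · rw [RingHom.id_apply, LinearMap.smul_apply, hφ _ i v hv, hφ _ i v hv, Submodule.coe_smul,
      Matrix.smul_mulVec, map_smul]

theorem sKer (hE : D.Lat b E) (hc : D.SCl b E) (hh : D.SHat b E) : D.SKer b E := by
  intro hR j
  obtain ⟨Θ, hΘ⟩ := D.Ker_lin b E hc hh j
  have hle : D.Hm b E E j ≤ D.Hm b E (D.FV b) j := fun U hU =>
    ⟨hU.1, fun i x hx => hE.le _ (hU.2 i x hx)⟩
  have h0 : ∀ B (q : Q k) (s : ℤ) (p : ι) (v : D.JE b E), q ∈ Qd D.w s → q ∈ D.P →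
      v.1 = Pi.single p q → Θ B v = 0 := by
    intro B q s p v hq hP hv
    have k1 : v.1 ∈ FQ D.w b (s + b p) := hv ▸ FQ_single hq p
    have k2 : D.evv v.1 = 0 := D.evv_PF (D.mem_PF.2 fun p' => by
      rw [hv]
      by_cases h : p' = p
      · subst h
        simpa using hP
      · rw [Pi.single_eq_of_ne h]
        exact Submodule.zero_mem _)
    rw [hΘ B _ v k1, k2, Matrix.mulVec_zero, map_zero]
  have hr : LinearMap.range Θ = Td D.w b (D.JE b E) j ⊓ LinearMap.ker (D.rr b E) := by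
    refine le_antisymm ?_ ?_
    · rintro _ ⟨B, rfl⟩
      refine ⟨fun i v hv => ?_, Prod.ext (funext fun p => ?_) (funext fun p => ?_)⟩
      · rw [hΘ B i v hv]
        exact hc.cl_mem _ _
      · exact h0 B D.f D.d p _ D.hf D.f_mem_P rfl
      · exact h0 B D.g D.e p _ D.hg D.g_mem_P rfl
    · rintro φ ⟨h1, h2⟩
      obtain ⟨U, hU, h3⟩ := hR j φ h1 h2
      exact ⟨⟨U, hU⟩, D.Ker_uniq b E hc fun i v hv => by rw [hΘ _ i v hv, h3 i v hv]⟩
  have hk : LinearMap.ker Θ = (D.Hm b E E j).comap (D.Hm b E (D.FV b) j).subtype := by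
    ext B
    rw [LinearMap.mem_ker, Submodule.mem_comap]
    constructor
    · intro h
      refine ⟨B.2.1, fun i x hx => ?_⟩
      have k1 := D.secv_mem (b := b) i x
      have k2 := D.evv_secv (hE.le i hx)
      have k3 := hΘ B i ⟨_, (hc.memJ i _ k1).2 (by rwa [k2])⟩ k1
      rw [h, LinearMap.zero_apply, k2] at k3
      exact (hc.cl_zero _ _ (B.2.2 i x hx)).1 k3.symm
    · intro h
      refine D.Ker_uniq b E hc fun i v hv => ?_
      have k1 := (hc.memJ i _ hv).1 v.2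
      rw [hΘ B i v hv, LinearMap.zero_apply]
      exact (hc.cl_zero _ _ (B.2.2 i _ k1)).2 (h.2 i _ k1)
  rw [← hr, ← (Submodule.comapSubtypeEquivOfLe hle).finrank_eq, ← hk]
  exact Θ.finrank_range_add_finrank_ker

end Md

end Pool.Agent.Lib.MP_86e60f_al.HW
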