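import Pool.Agent.Lib.MP_86e60f_al.HW.Stmt

/-! Exactness of the Koszul complex of three variables. -/

set_option autoImplicit false

open MvPolynomial Module Matrix

namespace Pool.Agent.Lib.MP_86e60f_al.HW

namespace Kos

variable {k : Type*} [Field k]

theorem two {i j : Fin 3} (h : i ≠ j) {a b : Q k} (e : X i * a = X j * b) :
    ∃ t, a = X j * t ∧ b = X i * t := by
  obtain ⟨t, rfl⟩ := ((X_prime (i := j)).dvd_or_dvd ⟨b, e⟩).resolve_left
    fun h' => h (X_dvd_X.1 h').symm
  exact ⟨t, rfl, mul_left_cancel₀ (X_ne_zero j) (by rw [← e]; ring)⟩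

theorem split (q : Q k) : ∃ u v : Q k,
    q = aeval (![X 0, 0, 0] : Fin 3 → Q k) q + X 1 * u + X 2 * v := by
  induction q using MvPolynomial.induction_on with
  | C c => exact ⟨0, 0, by simp⟩
  | add p q hp hq =>
    obtain ⟨u, v, e⟩ := hp
    obtain ⟨u', v', e'⟩ := hq
    exact ⟨u + u', v + v', by rw [map_add]; linear_combination e + e'⟩
  | mul_X p i hp =>
    obtain ⟨u, v, e⟩ := hp
    rw [map_mul, aeval_X]
    fin_cases i
    · refine ⟨u * X 0, v * X 0, ?_⟩
      show p * X 0 = _ * X 0 + _ + _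
      linear_combination X 0 * e
    · exact ⟨p, 0, by simp [mul_comm]⟩
    · exact ⟨0, p, by simp [mul_comm]⟩

theorem cst (q : Q k) : ∃ (c : k) (G : Fin 3 → Q k), q = C c + ∑ l, X l * G l := by
  induction q using MvPolynomial.induction_on with
  | C c => exact ⟨c, 0, by simp⟩
  | add p q hp hq =>
    obtain ⟨c, G, rfl⟩ := hp
    obtain ⟨c', G', rfl⟩ := hq
    refine ⟨c + c', G + G', ?_⟩
    simp only [map_add, Pi.add_apply, mul_add, Finset.sum_add_distrib]
    ring
  | mul_X p i _ => exact ⟨0, Pi.single i p, by simp [Pi.single_apply, mul_comm]⟩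

end Kos

open Kos in
theorem sKos (k : Type*) [Field k] (w : Fin 3 → ℤ) : SKos k w where
  k1 α h := by
    have e : X 0 * α 0 + X 1 * α 1 + X 2 * α 2 = 0 := by
      simpa [XV, dotProduct, Fin.sum_univ_three] using h
    have e0 : aeval (![X 0, 0, 0] : Fin 3 → Q k) (α 0) = 0 := by
      simpa using congrArg (aeval (![X 0, 0, 0] : Fin 3 → Q k)) e
    obtain ⟨u, v, e1⟩ := split (α 0)
    rw [e0, zero_add] at e1
    obtain ⟨t, e2, e3⟩ := two (i := 1) (j := 2) (by decide) (a := α 1 + X 0 * u)
      (b := -(α 2 + X 0 * v)) (by linear_combination e - X 0 * e1)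
    refine ⟨![t, -v, u], funext fun l => ?_⟩
    fin_cases l <;> simp [XV, cross_apply]
    · linear_combination e1
    · linear_combination e2
    · linear_combination -e3
  k2 P h := by
    have e1 : X 2 * P 0 - X 0 * P 2 = 0 := by simpa [XV, cross_apply] using congrFun h 1
    have e2 : X 0 * P 1 - X 1 * P 0 = 0 := by simpa [XV, cross_apply] using congrFun h 2
    obtain ⟨t, e3, e4⟩ := two (i := 1) (j := 0) (by decide) (sub_eq_zero.1 e2).symm
    have e5 : P 2 = X 2 * t :=
      mul_left_cancel₀ (X_ne_zero (0 : Fin 3)) (by linear_combination X 2 * e3 - e1)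
    refine ⟨t, funext fun l => ?_⟩
    fin_cases l <;> simp [XV, e3, e4, e5, mul_comm]
  k3 d hd f hf := by
    obtain ⟨c, G, e⟩ := cst f
    refine ⟨fun l => weightedHomogeneousComponent w (d - w l) (G l), fun l => hc_mem _ _, ?_⟩
    rw [← hc_same hf, e, map_add, hc_ne (Qd_C c) hd.ne', zero_add, map_sum]
    refine Finset.sum_congr rfl fun l _ => ?_
    have := hc_mul (Qd_X (w := w) l) (d - w l) (G l)
    rwa [sub_add_cancel] at this

end Pool.Agent.Lib.MP_86e60f_al.HW
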