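import Mathlib
import Pool.Agent.Lib.MP_86e60f_al.HW.Stmt

set_option autoImplicit false

open MvPolynomial Module Matrix

namespace Pool.Agent.Lib.MP_86e60f_al.HW

namespace Md

variable {k L : Type*} [Field k] [CommRing L] [Algebra k L] [FiniteDimensional k L]

omit [FiniteDimensional k L] in
theorem lam_exists (W : Submodule k L) (s : L) :
    ∃ lam : L →ₗ[k] k, (∀ x ∈ W, lam x = 0) ∧ ∀ t : k, lam (t • s) = 0 → t • s ∈ W := by
  by_cases hs : s ∈ W
  · exact ⟨0, fun _ _ => rfl, fun t _ => W.smul_mem t hs⟩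
  · obtain ⟨f, hf, hW⟩ := W.exists_dual_map_eq_bot_of_notMem hs inferInstance
    refine ⟨f, fun x hx => ?_, fun t ht => ?_⟩
    · have : f x ∈ W.map f := Submodule.mem_map_of_mem hx
      rwa [hW, Submodule.mem_bot] at this
    · rw [map_smul, smul_eq_mul, mul_eq_zero] at ht
      rw [ht.resolve_right hf, zero_smul]
      exact W.zero_mem

theorem sLam (D : Md k L) (h : D.SSoc) : ∃ lam : L →ₗ[k] k, D.IsLam lam := by
  obtain ⟨s, hs⟩ := h
  obtain ⟨lam, h1, h2⟩ := lam_exists (D.V D.a) s
  obtain ⟨N, hN⟩ := D.V_eq_H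
  have key : ∀ m : ℕ, ∀ j, N - j ≤ m → ∀ u ∈ D.H j,
      (∀ v ∈ D.V (D.a - j), lam (u * v) = 0) → u ∈ D.V j := by
    intro m
    induction m with
    | zero => intro j hj u hu _; rwa [hN j (by omega)]
    | succ m ih =>
      intro j hj u hu h0
      have hc : ∀ l, D.c l * u ∈ D.V (j + D.w l) := by
        intro l
        have hw := D.hw l
        refine ih _ (by omega) _ ?_ fun v hv => ?_
        · rw [add_comm]
          exact D.H_mul (D.V_le_H _ (D.c_mem_V l)) hu
        · have h3 := D.V_mul (D.c_mem_V l) hv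
          rw [show D.w l + (D.a - (j + D.w l)) = D.a - j by ring] at h3
          rw [show D.c l * u * v = u * (D.c l * v) by ring]
          exact h0 _ h3
      rcases hs j u hu hc with h3 | ⟨rfl, t, h3⟩
      · exact h3
      · have h4 := h0 1 (by rw [sub_self]; exact D.one_mem_V_zero)
        have h5 := h1 _ h3
        rw [mul_one] at h4
        rw [map_sub, h4, zero_sub, neg_eq_zero] at h5
        simpa using (D.V D.a).add_mem h3 (h2 t h5)
  refine ⟨lam, fun j u hu => ⟨fun h0 v hv => h1 _ ?_, key (N - j).toNat j (by omega) u hu⟩⟩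
  have := D.V_mul h0 hv
  rwa [show j + (D.a - j) = D.a by ring] at this

end Md

end Pool.Agent.Lib.MP_86e60f_al.HW
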