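import Mathlib
import Pool.Agent.Lib.MP_86e60f_al.HW.Stmt

set_option autoImplicit false

open MvPolynomial Module Matrix

namespace Pool.Agent.Lib.MP_86e60f_al.HW

namespace Md

variable {k L ι : Type*} [Field k] [CommRing L] [Algebra k L] [FiniteDimensional k L] [Fintype ι]
  [DecidableEq ι]

namespace Low

/-- Lift of a matrix of degree `j` to polynomial entries. -/
noncomputable def lift (D : Md k L) (b : ι → ℤ) (j : ℤ) (U : Matrix ι ι L) : Matrix ι ι (Q k) :=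
  fun p q => D.sec (j + b q - b p) (U p q)

omit [FiniteDimensional k L] [DecidableEq ι] in
theorem lift_mem (D : Md k L) (b : ι → ℤ) (j : ℤ) (U : Matrix ι ι L) {i : ℤ} {v : ι → Q k}
    (hv : v ∈ FQ D.w b i) : lift D b j U *ᵥ v ∈ FQ D.w b (i + j) := by
  refine mem_FQ.2 fun p => ?_
  refine Submodule.sum_mem _ fun q _ => ?_
  have := Qd_mul (D.sec_mem (j + b q - b p) (U p q)) (mem_FQ.1 hv q)
  rwa [show j + b q - b p + (i - b q) = i + j - b p by ring] at this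

omit [FiniteDimensional k L] in
theorem evv_lift (D : Md k L) (b : ι → ℤ) (j : ℤ) {U : Matrix ι ι L}
    (hU : U ∈ D.Hm b (D.FV b) (D.FV b) j) (v : ι → Q k) :
    D.evv (lift D b j U *ᵥ v) = U *ᵥ D.evv v := by
  funext p
  rw [D.evv_apply]
  simp only [Matrix.mulVec, dotProduct, map_sum, map_mul, lift]
  refine Finset.sum_congr rfl fun q _ => ?_
  rw [D.ev_sec _ (D.mem_Hm_FV_FV.1 hU p q), D.evv_apply]

omit [FiniteDimensional k L] [DecidableEq ι] in
theorem mulVec_eq_sum (A : Matrix ι ι (Q k)) (z : ι → Q k) :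
    A *ᵥ z = ∑ q, z q • fun p => A p q := by
  funext p
  simp [Matrix.mulVec, dotProduct, mul_comm]

/-- The lifting property of an endomorphism factoring through the free module. -/
def Pr (D : Md k L) (b : ι → ℤ) (E : ℤ → Submodule k (ι → L)) (j : ℤ) (U : Matrix ι ι L) : Prop :=
  ∃ Ψ : (ι → Q k) →ₗ[k] (ι → Q k),
    (∀ i, ∀ v ∈ D.JE b E, v ∈ FQ D.w b i →
      Ψ v ∈ FQ D.w b (i + j) ∧ D.evv (Ψ v) = U *ᵥ D.evv v) ∧
    (∀ q : Q k, ∀ v ∈ D.JE b E, Ψ (q • v) - q • Ψ v ∈ D.P • D.JE b E) ∧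
    ∀ i, ∀ v ∈ D.PF, v ∈ FQ D.w b i → Ψ v ∈ D.P • D.JE b E

omit [FiniteDimensional k L] in
theorem pr_of_PE (D : Md k L) (b : ι → ℤ) (E : ℤ → Submodule k (ι → L)) (hE : D.Lat b E)
    (hc : D.SCl b E) (hh : D.SHat b E) (j : ℤ) {U : Matrix ι ι L} (hU : U ∈ D.PE b E j) :
    Pr D b E j U := by
  induction hU using Submodule.span_induction with
  | mem U hU =>
    obtain ⟨s, A, hA, B, hB, rfl⟩ := hU
    obtain ⟨Ψ, h1, h2⟩ := hh.mat _ B hB
    have hA' : A ∈ D.Hm b (D.FV b) (D.FV b) s := ⟨hA.1, fun i x hx => hE.le _ (hA.2 i x hx)⟩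
    have hcol : ∀ q, (fun p => lift D b s A p q) ∈ D.JE b E := by
      intro q
      have hq := (D.mem_Hm_FV hE).1 hA q
      have h3 : (fun p => lift D b s A p q) = D.secv b (s + b q) (fun p => A p q) := rfl
      rw [h3, hc.memJ _ _ (D.secv_mem _ _), D.evv_secv (hE.le _ hq)]
      exact hq
    have hPF : ∀ z ∈ D.PF, lift D b s A *ᵥ z ∈ D.P • D.JE b E := by
      intro z hz
      rw [mulVec_eq_sum]
      exact Submodule.sum_mem _ fun q _ => Submodule.smul_mem_smul (D.mem_PF.1 hz q) (hcol q)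
    refine ⟨((lift D b s A).mulVecLin.restrictScalars k) ∘ₗ Ψ, fun i v hv hvi => ?_,
      fun q v hv => ?_, fun i v hv hvi => ?_⟩
    · obtain ⟨h3, h4⟩ := h1 i v hv hvi
      simp only [LinearMap.comp_apply, LinearMap.restrictScalars_apply, Matrix.mulVecLin_apply]
      refine ⟨?_, ?_⟩
      · have := lift_mem D b s A h3
        rwa [show i + (j - s) + s = i + j by ring] at this
      · rw [evv_lift D b s hA', h4, Matrix.mulVec_mulVec]
    · simp only [LinearMap.comp_apply, LinearMap.restrictScalars_apply, Matrix.mulVecLin_apply]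
      rw [← Matrix.mulVec_smul, ← Matrix.mulVec_sub]
      exact hPF _ (h2 q v hv)
    · simp only [LinearMap.comp_apply, LinearMap.restrictScalars_apply, Matrix.mulVecLin_apply]
      obtain ⟨h3, h4⟩ := h1 i v (hc.pf hv) hvi
      refine hPF _ ((D.mem_PF_iff h3).2 ?_)
      rw [h4, D.evv_PF hv, Matrix.mulVec_zero]
  | zero =>
    refine ⟨0, fun i v _ _ => ⟨Submodule.zero_mem _, by simp⟩, fun q v _ => by simp,
      fun i v _ _ => Submodule.zero_mem _⟩
  | add U U' _ _ h h' =>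
    obtain ⟨Ψ, h1, h2, h3⟩ := h
    obtain ⟨Ψ', h1', h2', h3'⟩ := h'
    refine ⟨Ψ + Ψ', fun i v hv hvi => ⟨Submodule.add_mem _ (h1 i v hv hvi).1 (h1' i v hv hvi).1, ?_⟩,
      fun q v hv => ?_, fun i v hv hvi => Submodule.add_mem _ (h3 i v hv hvi) (h3' i v hv hvi)⟩
    · rw [LinearMap.add_apply, map_add, (h1 i v hv hvi).2, (h1' i v hv hvi).2, Matrix.add_mulVec]
    · have := Submodule.add_mem _ (h2 q v hv) (h2' q v hv)
      convert this using 1
      simp only [LinearMap.add_apply, smul_add]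
      abel
  | smul c U _ h =>
    obtain ⟨Ψ, h1, h2, h3⟩ := h
    refine ⟨c • Ψ, fun i v hv hvi => ⟨Submodule.smul_mem _ c (h1 i v hv hvi).1, ?_⟩,
      fun q v hv => ?_, fun i v hv hvi => Submodule.smul_of_tower_mem _ c (h3 i v hv hvi)⟩
    · rw [LinearMap.smul_apply, map_smul, (h1 i v hv hvi).2, Matrix.smul_mulVec]
    · have := Submodule.smul_of_tower_mem _ c (h2 q v hv)
      convert this using 1
      simp only [LinearMap.smul_apply, smul_sub]
      rw [smul_comm q c]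

omit [FiniteDimensional k L] [Fintype ι] [DecidableEq ι] in
theorem exists_pair (D : Md k L) {f1 f2 : Q k} (hP : D.P = Ideal.span {f1, f2}) {z : ι → Q k}
    (hz : z ∈ D.PF) : ∃ a a' : ι → Q k, z = f1 • a + f2 • a' := by
  have h : ∀ p, ∃ a a' : Q k, a * f1 + a' * f2 = z p := fun p =>
    Ideal.mem_span_pair.mp (hP ▸ D.mem_PF.1 hz p)
  choose a a' h using h
  refine ⟨a, a', funext fun p => ?_⟩
  simp only [Pi.add_apply, Pi.smul_apply, smul_eq_mul]
  rw [← h p]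
  ring

omit [FiniteDimensional k L] [Fintype ι] [DecidableEq ι] in
theorem exists_psi (D : Md k L) (J : Submodule (Q k) (ι → Q k)) (hJ : D.PF ≤ J) {f1 f2 : Q k}
    (hs : ∀ p q : Q k, p * f1 = q * f2 → p ∈ D.P) :
    ∃ ψ : (ι → Q k) →ₗ[k] SQ J, ∀ a a' : ι → Q k, ψ (f1 • a + f2 • a') = J.mkQ a := by
  let σ : ((ι → Q k) × (ι → Q k)) →ₗ[k] (ι → Q k) :=
    ((f1 • LinearMap.fst (Q k) (ι → Q k) (ι → Q k) +
      f2 • LinearMap.snd (Q k) (ι → Q k) (ι → Q k)).restrictScalars k)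
  let τ : ((ι → Q k) × (ι → Q k)) →ₗ[k] SQ J :=
    (J.mkQ ∘ₗ LinearMap.fst (Q k) (ι → Q k) (ι → Q k)).restrictScalars k
  have hσ : ∀ x, σ x = f1 • x.1 + f2 • x.2 := fun x => rfl
  have hτ : ∀ x, τ x = J.mkQ x.1 := fun x => rfl
  have hker : LinearMap.ker σ ≤ LinearMap.ker τ := by
    intro x hx
    rw [LinearMap.mem_ker, hσ] at hx
    rw [LinearMap.mem_ker, hτ, Submodule.mkQ_apply, Submodule.Quotient.mk_eq_zero]
    refine hJ (D.mem_PF.2 fun p => hs _ (-x.2 p) ?_)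
    have := congrFun hx p
    simp only [Pi.add_apply, Pi.smul_apply, smul_eq_mul, Pi.zero_apply] at this
    linear_combination this
  obtain ⟨ψ, hψ⟩ := LinearMap.exists_extend
    (((LinearMap.ker σ).liftQ τ hker) ∘ₗ σ.quotKerEquivRange.symm.toLinearMap)
  refine ⟨ψ, fun a a' => ?_⟩
  have h1 := LinearMap.congr_fun hψ ⟨σ (a, a'), LinearMap.mem_range_self σ (a, a')⟩
  simp only [LinearMap.comp_apply, Submodule.subtype_apply, LinearEquiv.coe_coe,
    LinearMap.quotKerEquivRange_symm_apply_image, Submodule.mkQ_apply,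
    Submodule.liftQ_apply] at h1
  exact h1

omit [FiniteDimensional k L] in
theorem main (D : Md k L) (b : ι → ℤ) (E : ℤ → Submodule k (ι → L)) (hE : D.Lat b E)
    (hc : D.SCl b E) (hh : D.SHat b E) {f1 f2 : Q k} {d1 d2 : ℤ} (hf1 : f1 ∈ Qd D.w d1)
    (hf2 : f2 ∈ Qd D.w d2) (hP : D.P = Ideal.span {f1, f2})
    (hs : ∀ p q : Q k, p * f1 = q * f2 → p ∈ D.P) (j : ℤ) {U : Matrix ι ι L}
    (hU : U ∈ D.PE b E (j + d1)) (hU' : U ∈ D.Hm b (D.FV b) (D.FV b) (j + d1)) :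
    ∃ φ ∈ Td D.w b (D.JE b E) j,
      (∀ p, ∀ v : D.JE b E, v.1 = Pi.single p f1 → φ v = D.th b E (j + d1) U p) ∧
      ∀ p, ∀ v : D.JE b E, v.1 = Pi.single p f2 → φ v = 0 := by
  obtain ⟨Ψ, h1, h2, h3⟩ := pr_of_PE D b E hE hc hh _ hU
  obtain ⟨ψ, hψ⟩ := exists_psi D (D.JE b E) hc.pf hs
  have hlin : ∀ q : Q k, ∀ z ∈ D.PF, ψ (q • z) = q • ψ z := by
    intro q z hz
    obtain ⟨a, a', rfl⟩ := exists_pair D hP hz
    rw [smul_add, smul_comm q f1, smul_comm q f2, hψ, hψ, map_smul]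
  have hkill : ∀ z ∈ D.P • D.JE b E, ψ z = 0 := by
    intro z hz
    refine Submodule.smul_induction_on hz (fun r hr v hv => ?_) fun x y hx hy => by
      rw [map_add, hx, hy, add_zero]
    obtain ⟨a, a', rfl⟩ := Ideal.mem_span_pair.mp (hP ▸ hr)
    rw [add_smul, mul_comm a, mul_comm a', mul_smul, mul_smul, hψ, Submodule.mkQ_apply,
      Submodule.Quotient.mk_eq_zero]
    exact Submodule.smul_mem _ _ hv
  let W : (ι → Q k) →ₗ[k] (ι → Q k) := (lift D b (j + d1) U).mulVecLin.restrictScalars k - Ψ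
  have hW : ∀ v, W v = lift D b (j + d1) U *ᵥ v - Ψ v := fun v => rfl
  have hWd : ∀ i, ∀ v ∈ D.JE b E, v ∈ FQ D.w b i →
      W v ∈ FQ D.w b (i + (j + d1)) ∧ W v ∈ D.PF := by
    intro i v hv hvi
    obtain ⟨h4, h5⟩ := h1 i v hv hvi
    have h6 : W v ∈ FQ D.w b (i + (j + d1)) :=
      Submodule.sub_mem _ (lift_mem D b _ U hvi) h4
    refine ⟨h6, (D.mem_PF_iff h6).2 ?_⟩
    rw [hW, map_sub, evv_lift D b _ hU', h5, sub_self]
  have hWP : ∀ v ∈ D.JE b E, W v ∈ D.PF :=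
    hom_induction hc.homJ.hom (by simp) (fun u v hu hv => by
      rw [map_add]; exact Submodule.add_mem _ hu hv) fun i v hv hvi => (hWd i v hv hvi).2
  have hq : ∀ q : Q k, ∀ v ∈ D.JE b E, (ψ ∘ₗ W) (q • v) = q • (ψ ∘ₗ W) v := by
    intro q v hv
    have h4 : W (q • v) = q • W v - (Ψ (q • v) - q • Ψ v) := by
      rw [hW, hW, Matrix.mulVec_smul, smul_sub]
      abel
    rw [LinearMap.comp_apply, LinearMap.comp_apply, h4, map_sub, hkill _ (h2 q v hv), sub_zero,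
      hlin q _ (hWP v hv)]
  have hsing : ∀ (p : ι) (f : Q k), lift D b (j + d1) U *ᵥ (Pi.single p f : ι → Q k) =
      f • fun q => lift D b (j + d1) U q p := by
    intro p f
    funext q
    simp [mul_comm]
  have hsP : ∀ (p : ι) {f : Q k}, f ∈ D.P → (Pi.single p f : ι → Q k) ∈ D.PF := by
    intro p f hf
    refine D.mem_PF.2 fun q => ?_
    by_cases h : q = p
    · subst h
      simpa using hf
    · rw [Pi.single_eq_of_ne h]
      exact Submodule.zero_mem _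
  have hf1P : f1 ∈ D.P := hP ▸ Ideal.subset_span (by simp)
  have hf2P : f2 ∈ D.P := hP ▸ Ideal.subset_span (by simp)
  refine ⟨mkLin (D.JE b E) (ψ ∘ₗ W) hq, fun i v hvi => ?_, fun p v hv => ?_, fun p v hv => ?_⟩
  · change ψ (W v.1) ∈ _
    obtain ⟨h4, h5⟩ := hWd i v.1 v.2 hvi
    obtain ⟨a, a', h6⟩ := exists_pair D hP h5
    have h7 := cmp_same h4
    have h8 := cmp_smul (b := b) hf1 (i + j) a
    have h9 := cmp_smul (b := b) hf2 (i + (j + d1) - d2) a'
    rw [add_assoc] at h8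
    rw [sub_add_cancel] at h9
    rw [← h7, h6, map_add, h8, h9, hψ]
    exact ⟨_, cmp_mem _ _, rfl⟩
  · change ψ (W v.1) = _
    rw [hv, hW, map_sub, hkill _ (h3 _ _ (hsP p hf1P) (FQ_single hf1 p)), sub_zero, hsing]
    have := hψ (fun q => lift D b (j + d1) U q p) 0
    rw [smul_zero, add_zero] at this
    exact this
  · change ψ (W v.1) = _
    rw [hv, hW, map_sub, hkill _ (h3 _ _ (hsP p hf2P) (FQ_single hf2 p)), sub_zero, hsing]
    have := hψ 0 (fun q => lift D b (j + d1) U q p)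
    rw [smul_zero, zero_add, map_zero] at this
    exact this

end Low

theorem sLow (D : Md k L) (b : ι → ℤ) (E : ℤ → Submodule k (ι → L)) (hE : D.Lat b E)
    (hc : D.SCl b E) (hh : D.SHat b E) : D.SLow b E := by
  intro j
  refine ⟨fun U hU => ?_, fun U hU => ?_⟩
  · obtain ⟨φ, hφ, h1, h2⟩ := Low.main D b E hE hc hh D.hf D.hg rfl (fun p q h => by
      obtain ⟨r, rfl, -⟩ := D.hsyz p q h
      exact Ideal.mul_mem_left _ _ D.g_mem_P) j hU.1 hU.2
    exact ⟨φ, hφ, Prod.ext (funext fun p => h1 p _ rfl) (funext fun p => h2 p _ rfl)⟩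
  · obtain ⟨φ, hφ, h1, h2⟩ := Low.main D b E hE hc hh D.hg D.hf
      (by rw [Set.pair_comm]; rfl) (fun p q h => by
      obtain ⟨r, -, rfl⟩ := D.hsyz q p h.symm
      exact Ideal.mul_mem_left _ _ D.f_mem_P) j hU.1 hU.2
    exact ⟨φ, hφ, Prod.ext (funext fun p => h2 p _ rfl) (funext fun p => h1 p _ rfl)⟩

end Md

end Pool.Agent.Lib.MP_86e60f_al.HW
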