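import Mathlib
import Pool.Agent.Lib.MP_86e60f_al.HW.Stmt

set_option autoImplicit false

namespace Pool.Agent.Lib.MP_86e60f_al.HW

namespace Num1

/-- The summand of the weighted count has finite support. -/
theorem fin_mul (c : ℤ → ℤ) {n : ℤ → ℕ} (h : Fs n) :
    (Function.support fun j => c j * (n j : ℤ)).Finite := by
  refine Set.Finite.subset h fun j hj => ?_
  simp only [Function.mem_support, ne_eq] at hj ⊢
  intro h0
  exact hj (by rw [h0]; simp)

theorem fs_shift {n : ℤ → ℕ} (h : Fs n) (a : ℤ) : Fs fun j => n (j + a) := by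
  have : (Function.support fun j => n (j + a)) = (fun j => j + a) ⁻¹' Function.support n := rfl
  unfold Fs
  rw [this]
  exact Set.Finite.preimage (add_left_injective a).injOn h

theorem fs_add {m n : ℤ → ℕ} (hm : Fs m) (hn : Fs n) : Fs fun j => m j + n j := by
  refine Set.Finite.subset (Set.Finite.union hm hn) fun j hj => ?_
  simp only [Function.mem_support, ne_eq, Set.mem_union] at hj ⊢
  omega

theorem fs_le {m n : ℤ → ℕ} (hn : Fs n) (h : ∀ j, m j ≤ n j) : Fs m := by
  refine Set.Finite.subset hn fun j hj => ?_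
  have := h j
  simp only [Function.mem_support, ne_eq] at hj ⊢
  omega

theorem psi_add (σ : ℤ) {m n : ℤ → ℕ} (hm : Fs m) (hn : Fs n) :
    psi σ (fun j => m j + n j) = psi σ m + psi σ n := by
  unfold psi
  rw [← finsum_add_distrib (fin_mul _ hm) (fin_mul _ hn)]
  refine finsum_congr fun j => ?_
  push_cast
  ring

/-- A function symmetric under the reflection has weighted count zero. -/
theorem psi_symm (σ : ℤ) {r : ℤ → ℕ} (h : ∀ j, r j = r (-σ - j)) : psi σ r = 0 := by
  have h1 : psi σ r = ∑ᶠ j, (2 * (Equiv.subLeft (-σ) j) + σ) * (r (Equiv.subLeft (-σ) j) : ℤ) :=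
    (finsum_comp_equiv (Equiv.subLeft (-σ)) (f := fun j => (2 * j + σ) * (r j : ℤ))).symm
  have h2 : ∑ᶠ j, (2 * (Equiv.subLeft (-σ) j) + σ) * (r (Equiv.subLeft (-σ) j) : ℤ) =
      ∑ᶠ j, -((2 * j + σ) * (r j : ℤ)) := by
    refine finsum_congr fun j => ?_
    rw [Equiv.subLeft_apply, ← h j]
    ring
  rw [h2, finsum_neg_distrib] at h1
  have h3 : psi σ r = -psi σ r := h1
  omega

theorem psi_shift (σ a : ℤ) (n : ℤ → ℕ) : psi σ (fun j => n (j + a)) = psi (σ - 2 * a) n := by
  unfold psi
  rw [← finsum_comp_equiv (Equiv.addRight a) (f := fun j => (2 * j + (σ - 2 * a)) * (n j : ℤ))]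
  refine finsum_congr fun j => ?_
  rw [Equiv.coe_addRight]
  ring

/-- For a symmetric function the weighted count is linear in the weight. -/
theorem psi_lin (σ : ℤ) {n : ℤ → ℕ} (hn : Fs n) (h : ∀ i, n i = n (-i)) :
    psi σ n = σ * ∑ᶠ j, (n j : ℤ) := by
  have h0 : psi 0 n = 0 := psi_symm 0 fun j => by simpa using h j
  have h1 : psi σ n = psi 0 n + ∑ᶠ j, σ * (n j : ℤ) := by
    unfold psi
    rw [← finsum_add_distrib (fin_mul _ hn) (fin_mul (fun _ => σ) hn)]
    refine finsum_congr fun j => ?_
    ring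
  rw [h1, h0, zero_add, mul_finsum]

end Num1

open Num1 in
theorem sNum1 : SNum1 := by
  refine ⟨fun w ww z hw hs hle heq => ?_, fun σ z g ww t hz hg hw h hp => ?_⟩
  · have hK : Fs fun j => ww (j + w 0) + ww (j + w 1) + ww (j + w 2) :=
      fs_add (fs_add (fs_shift hw _) (fs_shift hw _)) (fs_shift hw _)
    simp only [Fin.sum_univ_three] at hle heq
    have hz : Fs z := fs_le hK hle
    refine ⟨hz, ?_⟩
    let r : ℤ → ℕ := fun j => ww (j + w 0) + ww (j + w 1) + ww (j + w 2) - z j
    have hr : Fs r := fs_le hK fun j => Nat.sub_le _ _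
    have hr0 : psi (sg w) r = 0 := psi_symm _ fun j => by
      have a1 := hle j
      have a2 := hle (-sg w - j)
      have a3 := heq j
      simp only [r]
      omega
    have h1 : psi (sg w) (fun j => ww (j + w 0) + ww (j + w 1) + ww (j + w 2)) =
        psi (sg w) z + psi (sg w) r := by
      rw [← psi_add _ hz hr]
      congr 1
      funext j
      have a1 := hle j
      simp only [r]
      omega
    rw [psi_add _ (fs_add (fs_shift hw _) (fs_shift hw _)) (fs_shift hw _),
      psi_add _ (fs_shift hw _) (fs_shift hw _), psi_shift, psi_shift, psi_shift,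
      psi_lin _ hw hs, psi_lin _ hw hs, psi_lin _ hw hs, hr0, add_zero] at h1
    rw [← h1, psi_lin _ hw hs]
    unfold sg
    ring
  · have ht : Fs t := fs_le (fs_add hz hg) fun j => by
      have := h j
      omega
    have h1 : psi σ (fun j => z j + g j) = psi σ (fun j => ww j + t j) := by
      congr 1
      funext j
      exact h j
    rw [psi_add _ hz hg, psi_add _ hw ht] at h1
    omega

end Pool.Agent.Lib.MP_86e60f_al.HW
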