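import Mathlib
import Pool.Agent.Lib.MP_86e60f_al.HW.Stmt

set_option autoImplicit false

namespace Pool.Agent.Lib.MP_86e60f_al.HW

namespace Num2

theorem fs_mul (c : ℤ → ℤ) (n : ℤ → ℕ) (h : Fs n) :
    (Function.support fun j => c j * (n j : ℤ)).Finite := by
  refine h.subset fun j hj => ?_
  intro h0
  apply hj
  simp [h0]

theorem fs_le {m n : ℤ → ℕ} (h : Fs n) (hle : ∀ i, m i ≤ n i) : Fs m := by
  refine Set.Finite.subset h fun j hj => ?_
  intro h0
  apply hj
  have := hle j
  omega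

theorem fs_comp {n : ℤ → ℕ} (h : Fs n) (φ : ℤ ≃ ℤ) : Fs fun j => n (φ j) := by
  have : (Function.support fun j => n (φ j)) = φ ⁻¹' Function.support n := rfl
  unfold Fs
  rw [this]
  exact h.preimage φ.injective.injOn

theorem fs_add {m n : ℤ → ℕ} (hm : Fs m) (hn : Fs n) : Fs fun j => m j + n j := by
  refine (Set.Finite.union hm hn).subset fun j hj => ?_
  by_contra hc
  simp only [Set.mem_union, Function.mem_support, not_or, not_not] at hc
  apply hj
  simp [hc.1, hc.2]

theorem term_pos (s d e Y u v : ℤ) (hd : 0 < d) (he : 0 < e) (hY : 0 < Y) (hu : 0 ≤ u)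
    (huY : u ≤ Y) (hv : 0 ≤ v) (hvY : v ≤ Y) (h0 : 0 < s) (h1 : s < 2 * (d + e)) :
    0 < s * Y - (s - 2 * d) * u - (s - 2 * e) * v := by
  rcases le_or_gt s (2 * d) with h2 | h2 <;> rcases le_or_gt s (2 * e) with h3 | h3
  · nlinarith [mul_pos h0 hY, mul_nonneg (sub_nonneg.2 h2) hu, mul_nonneg (sub_nonneg.2 h3) hv]
  · nlinarith [mul_pos he hY, mul_nonneg (sub_nonneg.2 h2) hu,
      mul_nonneg (sub_pos.2 h3).le (sub_nonneg.2 hvY)]
  · nlinarith [mul_pos hd hY, mul_nonneg (sub_nonneg.2 h3) hv,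
      mul_nonneg (sub_pos.2 h2).le (sub_nonneg.2 huY)]
  · nlinarith [mul_pos (sub_pos.2 h1) hY, mul_nonneg (sub_pos.2 h3).le (sub_nonneg.2 hvY),
      mul_nonneg (sub_pos.2 h2).le (sub_nonneg.2 huY)]

end Num2

open Num2 in
theorem sNum2 : SNum2 := by
  intro σ d e t g EE CC al be hd he hg hE heq hal hbe hs hpsi
  have fE : Fs EE := fs_le hg hE
  have fa : Fs al := fs_le fE fun i => (hal i).2
  have fb : Fs be := fs_le fE fun i => (hbe i).2
  have fC : Fs CC := fs_le fa fun i => (hal i).1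
  have fC' : Fs fun j => CC (d + e - σ - j) := fs_comp fC (Equiv.subLeft (d + e - σ))
  have fa' : Fs fun j => al (j + d) := fs_comp fa (Equiv.addRight d)
  have fb' : Fs fun j => be (j + e) := fs_comp fb (Equiv.addRight e)
  have ft : Fs t := by
    refine fs_le (fs_add (fs_add (fs_add hg fC') fa') fb') fun j => ?_
    have := heq j
    omega
  have h1 : psi σ t + psi σ EE = psi σ g + psi σ (fun j => CC (d + e - σ - j)) +
      psi σ (fun j => al (j + d)) + psi σ (fun j => be (j + e)) := by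
    unfold psi
    rw [← finsum_add_distrib (fs_mul _ _ ft) (fs_mul _ _ fE),
      ← finsum_add_distrib (fs_mul _ _ hg) (fs_mul _ _ fC'), ← finsum_add_distrib _ (fs_mul _ _ fa'),
      ← finsum_add_distrib _ (fs_mul _ _ fb')]
    · refine finsum_congr fun j => ?_
      have := congrArg (fun x : ℕ => (x : ℤ)) (heq j)
      push_cast at this
      linear_combination (2 * j + σ) * this
    · refine (fs_mul (fun j => 2 * j + σ) _ (fs_add (fs_add hg fC') fa')).subset fun j hj => ?_
      intro h0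
      apply hj
      push_cast at h0
      linear_combination h0
    · refine (fs_mul (fun j => 2 * j + σ) _ (fs_add hg fC')).subset fun j hj => ?_
      intro h0
      apply hj
      push_cast at h0
      linear_combination h0
  have hC : psi σ (fun j => CC (d + e - σ - j)) =
      ∑ᶠ i, (2 * (d + e) - (2 * i + σ)) * (CC i : ℤ) := by
    unfold psi
    rw [← finsum_comp_equiv (Equiv.subLeft (d + e - σ))]
    refine finsum_congr fun j => ?_
    simp only [Equiv.subLeft_apply, sub_sub_cancel]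
    ring
  have ha : psi σ (fun j => al (j + d)) = ∑ᶠ i, ((2 * i + σ) - 2 * d) * (al i : ℤ) := by
    unfold psi
    rw [← finsum_comp_equiv (Equiv.subRight d)]
    refine finsum_congr fun j => ?_
    simp only [Equiv.subRight_apply, sub_add_cancel]
    ring
  have hb : psi σ (fun j => be (j + e)) = ∑ᶠ i, ((2 * i + σ) - 2 * e) * (be i : ℤ) := by
    unfold psi
    rw [← finsum_comp_equiv (Equiv.subRight e)]
    refine finsum_congr fun j => ?_
    simp only [Equiv.subRight_apply, sub_add_cancel]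
    ring
  rw [hpsi, hC, ha, hb] at h1
  obtain ⟨T, hT⟩ : ∃ T : Finset ℤ, ∀ i, i ∈ T ↔ EE i ≠ 0 :=
    ⟨Set.Finite.toFinset fE, fun i => (Set.Finite.mem_toFinset _).trans Iff.rfl⟩
  have hz : ∀ (c : ℤ → ℤ) (n : ℤ → ℕ), (∀ i, n i ≤ EE i) →
      ∑ᶠ i, c i * (n i : ℤ) = ∑ i ∈ T, c i * (n i : ℤ) := by
    intro c n hn
    refine finsum_eq_sum_of_support_subset _ fun j hj => ?_
    rw [Finset.mem_coe, hT]
    intro h0
    apply hj
    have h2 : n j = 0 := by
      have := hn j
      omega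
    simp [h2]
  have hEE : psi σ EE = ∑ i ∈ T, (2 * i + σ) * (EE i : ℤ) := hz _ EE fun _ => le_rfl
  rw [hEE, hz _ CC fun i => (hal i).1.trans (hal i).2, hz _ al fun i => (hal i).2,
    hz _ be fun i => (hbe i).2] at h1
  have hsum : ∑ i ∈ T, ((2 * i + σ) * ((EE i : ℤ) - CC i) -
      ((2 * i + σ) - 2 * d) * ((al i : ℤ) - CC i) - ((2 * i + σ) - 2 * e) * ((be i : ℤ) - CC i)) = 0 := by
    have : ∑ i ∈ T, ((2 * i + σ) * ((EE i : ℤ) - CC i) -
        ((2 * i + σ) - 2 * d) * ((al i : ℤ) - CC i) -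
        ((2 * i + σ) - 2 * e) * ((be i : ℤ) - CC i)) =
        ∑ i ∈ T, (2 * i + σ) * (EE i : ℤ) - ∑ i ∈ T, (2 * (d + e) - (2 * i + σ)) * (CC i : ℤ) -
        ∑ i ∈ T, ((2 * i + σ) - 2 * d) * (al i : ℤ) -
        ∑ i ∈ T, ((2 * i + σ) - 2 * e) * (be i : ℤ) := by
      rw [← Finset.sum_sub_distrib, ← Finset.sum_sub_distrib, ← Finset.sum_sub_distrib]
      refine Finset.sum_congr rfl fun i _ => ?_
      ring
    rw [this]
    linarith
  have hpos : ∀ i, CC i < EE i → 0 < (2 * i + σ) * ((EE i : ℤ) - CC i) -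
      ((2 * i + σ) - 2 * d) * ((al i : ℤ) - CC i) - ((2 * i + σ) - 2 * e) * ((be i : ℤ) - CC i) := by
    intro i hi
    have h2 := hal i
    have h3 := hbe i
    exact term_pos _ d e _ _ _ hd he (by omega) (by omega) (by omega) (by omega) (by omega)
      (hs i hi).1 (hs i hi).2
  have hnn : ∀ i ∈ T, 0 ≤ (2 * i + σ) * ((EE i : ℤ) - CC i) -
      ((2 * i + σ) - 2 * d) * ((al i : ℤ) - CC i) - ((2 * i + σ) - 2 * e) * ((be i : ℤ) - CC i) := by
    intro i _
    rcases lt_or_ge (CC i) (EE i) with hi | hi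
    · exact (hpos i hi).le
    · have h2 := hal i
      have h3 := hbe i
      have e1 : (EE i : ℤ) - CC i = 0 := by omega
      have e2 : (al i : ℤ) - CC i = 0 := by omega
      have e3 : (be i : ℤ) - CC i = 0 := by omega
      rw [e1, e2, e3]
      simp
  intro i
  by_contra hne
  have h2 := hal i
  have hi : CC i < EE i := by omega
  have hiT : i ∈ T := by
    rw [hT]
    omega
  have := (Finset.sum_eq_zero_iff_of_nonneg hnn).1 hsum i hiT
  exact (hpos i hi).ne' this

end Pool.Agent.Lib.MP_86e60f_al.HW
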