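import Mathlib
import Pool.Agent.Lib.MP_86e60f_al.HW.Stmt

set_option autoImplicit false

open MvPolynomial Module Matrix

namespace Pool.Agent.Lib.MP_86e60f_al.HW

namespace Md

variable {k L ι : Type*} [Field k] [CommRing L] [Algebra k L]

namespace Perp

variable {D : Md k L} {b : ι → ℤ} {E : ℤ → Submodule k (ι → L)} {lam : L →ₗ[k] k}

theorem lam_V (hl : D.IsLam lam) {u : L} (hu : u ∈ D.V D.a) : lam u = 0 := by
  have h1 : (1 : L) ∈ D.V (D.a - D.a) := by
    rw [sub_self]
    exact D.one_mem_V_zero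
  have := (hl D.a u (D.V_le_H _ hu)).1 hu 1 h1
  rwa [mul_one] at this

variable [Fintype ι] [DecidableEq ι]

omit [DecidableEq ι] in
theorem mem_perp {j : ℤ} {Y : Submodule k (Matrix ι ι L)} {U : Matrix ι ι L} :
    U ∈ D.perp b lam j Y ↔ U ∈ D.Mat b j ∧ ∀ U' ∈ Y, lam (U * U').trace = 0 := Iff.rfl

theorem lam_trace (hl : D.IsLam lam) {j : ℤ} (hj : j = D.a) {W : Matrix ι ι L}
    (hW : W ∈ D.Hm b (D.FV b) (D.FV b) j) : lam W.trace = 0 := by
  subst hj
  refine lam_V hl ?_
  refine Submodule.sum_mem _ fun p _ => ?_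
  have := D.mem_Hm_FV_FV.1 hW p p
  rwa [add_sub_cancel_right] at this

omit [DecidableEq ι] in
theorem trace_test (U : Matrix ι ι L) (x u : ι → L) :
    (U * vecMulVec x u).trace = u ⬝ᵥ (U *ᵥ x) := by
  rw [mul_vecMulVec, trace_vecMulVec, dotProduct_comm]

/-- The matrix with one nonzero column. -/
theorem col_mem (hE : D.Lat b E) {s : ℤ} (p : ι) {x : ι → L} (hx : x ∈ E (s + b p)) :
    vecMulVec x (Pi.single p 1) ∈ D.Hm b (D.FV b) E s := by
  refine (D.mem_Hm_FV hE).2 fun q => ?_
  by_cases h : q = p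
  · subst h
    have : (fun r => vecMulVec x (Pi.single q (1 : L)) r q) = x := by
      funext r
      simp [vecMulVec_apply]
    rw [this]
    exact hx
  · have : (fun r => vecMulVec x (Pi.single p (1 : L)) r q) = 0 := by
      funext r
      simp [vecMulVec_apply, Pi.single_eq_of_ne h]
    rw [this]
    exact Submodule.zero_mem _

/-- The matrix with one nonzero row. -/
theorem row_mem {s : ℤ} (q : ι) {u : ι → L} (hu : u ∈ D.Ed b E (s - b q)) :
    vecMulVec (Pi.single q 1) u ∈ D.Hm b E (D.FV b) s := by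
  refine D.mem_Hm.2 ⟨fun p r => ?_, fun i x hx => D.mem_FV.2 fun p => ?_⟩
  · rw [vecMulVec_apply]
    by_cases h : p = q
    · subst h
      have := (D.mem_Ed.1 hu).1 r
      rw [show s - b p + b r = s + b r - b p by ring] at this
      simpa using this
    · rw [Pi.single_eq_of_ne h, zero_mul]
      exact Submodule.zero_mem _
  · have h0 : (vecMulVec (Pi.single q (1 : L)) u *ᵥ x) p =
        (Pi.single q (1 : L) : ι → L) p * (u ⬝ᵥ x) := by
      simp [Matrix.mulVec, dotProduct, vecMulVec_apply, Finset.mul_sum, mul_assoc]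
    rw [h0]
    by_cases h : p = q
    · subst h
      have := (D.mem_Ed.1 hu).2 i x hx
      rw [show i + (s - b p) = i + s - b p by ring] at this
      simpa using this
    · rw [Pi.single_eq_of_ne h, zero_mul]
      exact Submodule.zero_mem _

theorem p2 (hl : D.IsLam lam) (hE : D.Lat b E) (j : ℤ) :
    D.perp b lam j (D.Hm b (D.FV b) E (D.a - j)) = D.Hm b E (D.FV b) j := by
  ext U
  rw [mem_perp]
  constructor
  · rintro ⟨hU, h⟩
    refine D.mem_Hm.2 ⟨hU, fun i x hx => D.mem_FV.2 fun p => ?_⟩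
    have hH := D.mem_FH.1 (D.Mat_mulVec hU (D.FV_le_FH i (hE.le i hx))) p
    refine (hl _ _ hH).2 fun v hv => ?_
    have h1 := hE.smul _ _ _ hv _ hx
    rw [show i + (D.a - (i + j - b p)) = D.a - j + b p by ring] at h1
    have h2 := h _ (col_mem hE p h1)
    rw [trace_test, single_dotProduct, one_mul, Matrix.mulVec_smul] at h2
    rw [mul_comm]
    exact h2
  · intro hU
    exact ⟨hU.1, fun U' hU' => lam_trace hl (by ring) (D.Hm_mul hU hU')⟩

theorem p3 (hl : D.IsLam lam) (hE : D.Lat b E) (hv : D.SVd b E lam) (j : ℤ) :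
    D.perp b lam j (D.Hm b E (D.FV b) (D.a - j)) = D.Hm b (D.FV b) E j := by
  ext U
  rw [mem_perp]
  constructor
  · rintro ⟨hU, h⟩
    refine (D.mem_Hm_FV hE).2 fun q => hv _ _ (D.mem_FH.2 fun p => hU p q) fun u hu => ?_
    rw [show D.a - (j + b q) = D.a - j - b q by ring] at hu
    have h2 := h _ (row_mem q hu)
    rw [trace_test] at h2
    have h3 : U *ᵥ (Pi.single q (1 : L)) = fun p => U p q := by
      funext p
      simp
    rwa [h3] at h2
  · intro hU
    refine ⟨hU.1, fun U' hU' => ?_⟩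
    rw [trace_mul_comm]
    exact lam_trace hl (by ring) (D.Hm_mul hU' hU)

theorem p4 (hl : D.IsLam lam) (hE : D.Lat b E) (hv : D.SVd b E lam) (j : ℤ) :
    D.perp b lam j (D.PE b E (D.a - j)) = D.Hm b E E j := by
  ext U
  rw [mem_perp]
  constructor
  · rintro ⟨hU, h⟩
    refine D.mem_Hm.2 ⟨hU, fun i x hx =>
      hv _ _ (D.Mat_mulVec hU (D.FV_le_FH i (hE.le i hx))) fun u hu => ?_⟩
    rcases isEmpty_or_nonempty ι with hι | ⟨⟨p⟩⟩
    · simp [dotProduct]
    · have hA : vecMulVec x (Pi.single p 1) ∈ D.Hm b (D.FV b) E (i - b p) :=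
        col_mem hE p (by rwa [sub_add_cancel])
      have hB : vecMulVec (Pi.single p 1) u ∈ D.Hm b E (D.FV b) (D.a - j - (i - b p)) :=
        row_mem p (by rwa [show D.a - j - (i - b p) - b p = D.a - (i + j) by ring])
      have h2 := h _ (Submodule.subset_span ⟨i - b p, _, hA, _, hB, rfl⟩)
      rwa [vecMulVec_mul_vecMulVec, single_dotProduct, Pi.single_eq_same, one_mul, one_smul,
        trace_test] at h2
  · intro hU
    refine ⟨hU.1, fun U' hU' => ?_⟩
    induction hU' using Submodule.span_induction with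
    | mem W hW =>
      obtain ⟨s, A, hA, B, hB, rfl⟩ := hW
      rw [← Matrix.mul_assoc, trace_mul_comm]
      exact lam_trace hl (by ring) (D.Hm_mul hB (D.Hm_mul hU hA))
    | zero => simp
    | add W W' _ _ h h' => rw [mul_add, trace_add, map_add, h, h', add_zero]
    | smul c W _ h => rw [mul_smul_comm, trace_smul, map_smul, h, smul_zero]

end Perp

variable [FiniteDimensional k L] [Fintype ι] [DecidableEq ι]

omit [FiniteDimensional k L] in
theorem sPerp (D : Md k L) (b : ι → ℤ) (E : ℤ → Submodule k (ι → L)) (lam : L →ₗ[k] k)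
    (hl : D.IsLam lam) (hE : D.Lat b E) (hv : D.SVd b E lam) : D.SPerp b E lam :=
  ⟨Perp.p2 hl D.lat_FV, Perp.p2 hl hE, Perp.p3 hl hE hv, Perp.p4 hl hE hv⟩

end Md

end Pool.Agent.Lib.MP_86e60f_al.HW
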