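import Mathlib
import Pool.Agent.Lib.MP_86e60f_al.HW.Stmt

set_option autoImplicit false

open MvPolynomial Module Matrix

namespace Pool.Agent.Lib.MP_86e60f_al.HW

namespace Soc

variable {k : Type*} [Field k] {w : Fin 3 → ℤ}

theorem dot_eq (F : Fin 3 → Q k) : XV k ⬝ᵥ F = X 0 * F 0 + X 1 * F 1 + X 2 * F 2 := by
  simp [dotProduct, XV, Fin.sum_univ_three]

theorem cast_mem {i j : ℤ} {q : Q k} (h : q ∈ Qd w i) (e : i = j) : q ∈ Qd w j := e ▸ h

theorem cross_mem {d e : ℤ} {F G : Fin 3 → Q k} (hF : ∀ l, F l ∈ Qd w (d - w l))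
    (hG : ∀ l, G l ∈ Qd w (e - w l)) (l : Fin 3) :
    crossProduct F G l ∈ Qd w (d + e - sg w + w l) := by
  rw [cross_apply]
  fin_cases l
  · exact Submodule.sub_mem _ (cast_mem (Qd_mul (hF 1) (hG 2)) (by simp [sg]; ring))
      (cast_mem (Qd_mul (hF 2) (hG 1)) (by simp [sg]; ring))
  · exact Submodule.sub_mem _ (cast_mem (Qd_mul (hF 2) (hG 0)) (by simp [sg]; ring))
      (cast_mem (Qd_mul (hF 0) (hG 2)) (by simp [sg]; ring))
  · exact Submodule.sub_mem _ (cast_mem (Qd_mul (hF 0) (hG 1)) (by simp [sg]; ring))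
      (cast_mem (Qd_mul (hF 1) (hG 0)) (by simp [sg]; ring))

/-- A vector whose cross product with the variables lies in the ideal. -/
theorem decomp (h : SKos k w) {f g : Q k} {F G P al be : Fin 3 → Q k}
    (hsyz : ∀ p q : Q k, p * f = q * g → ∃ r, p = r * g ∧ q = r * f)
    (hf : f = XV k ⬝ᵥ F) (hg : g = XV k ⬝ᵥ G)
    (hP : crossProduct (XV k) P = f • al + g • be) :
    ∃ (t r : Q k) (ga de : Fin 3 → Q k),
      P = t • XV k - r • crossProduct F G + (f • ga + g • de) := by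
  have h0 : (XV k ⬝ᵥ al) * f = (-(XV k ⬝ᵥ be)) * g := by
    have := congrArg (fun v => XV k ⬝ᵥ v) hP
    simp only [dot_self_cross, dotProduct_add, dotProduct_smul, smul_eq_mul] at this
    linear_combination -this
  obtain ⟨r, h1, h2⟩ := hsyz _ _ h0
  obtain ⟨ga, hga⟩ := h.k1 (al - r • G) (by
    rw [dotProduct_sub, dotProduct_smul, h1, ← hg, smul_eq_mul, sub_self])
  obtain ⟨de, hde⟩ := h.k1 (be + r • F) (by
    rw [dotProduct_add, dotProduct_smul, ← hf, smul_eq_mul, ← h2, add_neg_cancel])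
  have h3 : crossProduct (XV k) (crossProduct F G) = g • F - f • G := by
    rw [cross_cross_eq_smul_sub_smul', ← hg, dotProduct_comm F, ← hf]
  obtain ⟨t, ht⟩ := h.k2 (P + r • crossProduct F G - (f • ga + g • de)) (by
    rw [map_sub, map_add, map_add, map_smul, map_smul, map_smul, hP, h3, ← hga, ← hde]
    module)
  exact ⟨t, r, ga, de, by rw [← ht]; abel⟩

end Soc

namespace Md

variable {k L : Type*} [Field k] [CommRing L] [Algebra k L]

theorem sSoc (D : Md k L) (h : SKos k D.w) : D.SSoc := by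
  obtain ⟨F, hF, eF⟩ := h.k3 _ D.hd _ D.hf
  obtain ⟨G, hG, eG⟩ := h.k3 _ D.he _ D.hg
  obtain ⟨Y, -, eY⟩ := h.k3 _ D.hn _ D.hy
  have hK : ∀ l, crossProduct F G l ∈ Qd D.w (D.a + D.w l) := Soc.cross_mem hF hG
  have y1 : D.c 0 * D.ev (Y 0) + D.c 1 * D.ev (Y 1) + D.c 2 * D.ev (Y 2) = 1 := by
    rw [← D.ev_y', eY, Soc.dot_eq]
    simp only [map_add, map_mul, D.ev_X]
  have f0 : D.c 0 * D.ev (F 0) + D.c 1 * D.ev (F 1) + D.c 2 * D.ev (F 2) = 0 := by
    rw [← D.ev_P D.f_mem_P, eF, Soc.dot_eq]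
    simp only [map_add, map_mul, D.ev_X]
  have g0 : D.c 0 * D.ev (G 0) + D.c 1 * D.ev (G 1) + D.c 2 * D.ev (G 2) = 0 := by
    rw [← D.ev_P D.g_mem_P, eG, Soc.dot_eq]
    simp only [map_add, map_mul, D.ev_X]
  obtain ⟨s, hs⟩ : ∃ s : L, ∀ l, D.ev (crossProduct F G l) = D.c l * s := by
    refine ⟨D.ev (Y ⬝ᵥ crossProduct F G), fun l => ?_⟩
    rw [cross_apply]
    fin_cases l <;>
      simp only [dotProduct, Fin.sum_univ_three, map_add, map_mul, map_sub, Fin.zero_eta,
        Fin.mk_one, Fin.reduceFinMk, Matrix.cons_val_zero, Matrix.cons_val_one, Matrix.cons_val]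
    · linear_combination (-(D.ev (F 1) * D.ev (G 2) - D.ev (F 2) * D.ev (G 1))) * y1 +
        (D.ev (Y 1) * D.ev (G 2) - D.ev (Y 2) * D.ev (G 1)) * f0 +
        (D.ev (Y 2) * D.ev (F 1) - D.ev (Y 1) * D.ev (F 2)) * g0
    · linear_combination (-(D.ev (F 2) * D.ev (G 0) - D.ev (F 0) * D.ev (G 2))) * y1 +
        (D.ev (Y 2) * D.ev (G 0) - D.ev (Y 0) * D.ev (G 2)) * f0 +
        (D.ev (Y 0) * D.ev (F 2) - D.ev (Y 2) * D.ev (F 0)) * g0
    · linear_combination (-(D.ev (F 0) * D.ev (G 1) - D.ev (F 1) * D.ev (G 0))) * y1 +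
        (D.ev (Y 0) * D.ev (G 1) - D.ev (Y 1) * D.ev (G 0)) * f0 +
        (D.ev (Y 1) * D.ev (F 0) - D.ev (Y 0) * D.ev (F 1)) * g0
  refine ⟨s, fun j u _ hu => ?_⟩
  choose P hP eP using fun l => D.mem_V.1 (hu l)
  have hx : ∀ l m : Fin 3, X l * P m - X m * P l ∈ D.P := fun l m => by
    refine (D.mem_P_iff (j := j + D.w l + D.w m) (Submodule.sub_mem _
      (Soc.cast_mem (Qd_mul (Qd_X l) (hP m)) (by ring))
      (Soc.cast_mem (Qd_mul (Qd_X m) (hP l)) (by ring)))).2 ?_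
    rw [map_sub, map_mul, map_mul, eP, eP, D.ev_X, D.ev_X]
    ring
  have hc : ∀ l, ∃ a b : Q k, a * D.f + b * D.g = crossProduct (XV k) P l := fun l => by
    refine Ideal.mem_span_pair.1 ?_
    rw [cross_apply]
    fin_cases l
    · exact hx 1 2
    · exact hx 2 0
    · exact hx 0 1
  choose al be hab using hc
  obtain ⟨t, r, ga, de, e⟩ := Soc.decomp h (P := P) (al := al) (be := be) D.hsyz eF eG
    (funext fun l => by rw [← hab l]; simp [mul_comm])
  have ht := hc_mem (w := D.w) j t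
  have hr := hc_mem (w := D.w) (j - D.a) r
  have e1 : ∀ l, D.c l * u = D.c l * (D.ev (weightedHomogeneousComponent D.w j t) -
      s * D.ev (weightedHomogeneousComponent D.w (j - D.a) r)) := fun l => by
    have e2 : P l = X l * t - crossProduct F G l * r + (ga l * D.f + de l * D.g) := by
      rw [e]; simp [XV, mul_comm]
    have e3 := hc_mul (hK l) (j - D.a) r
    rw [show j - D.a + (D.a + D.w l) = j + D.w l by ring] at e3
    have e4 := D.ev_P (D.hc_P (Ideal.mem_span_pair.2 ⟨ga l, de l, rfl⟩) (j + D.w l))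
    rw [← eP, ← hc_same (hP l), e2, map_add, map_sub, hc_mul (Qd_X l), e3, map_add, e4, map_sub,
      map_mul, map_mul, hs, D.ev_X]
    ring
  generalize weightedHomogeneousComponent D.w j t = t' at ht e1
  generalize weightedHomogeneousComponent D.w (j - D.a) r = r' at hr e1
  have e5 : u = D.ev t' - s * D.ev r' := by
    linear_combination (-(u - (D.ev t' - s * D.ev r'))) * y1 + D.ev (Y 0) * e1 0 +
      D.ev (Y 1) * e1 1 + D.ev (Y 2) * e1 2
  rcases lt_trichotomy j D.a with hj | hj | hj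
  · left
    rw [e5, Qd_neg D.hw (by omega) hr, map_zero, mul_zero, sub_zero]
    exact D.ev_mem_V ht
  · right
    rw [hj, sub_self] at hr
    obtain ⟨c, rfl⟩ := Qd_zero D.hw hr
    refine ⟨hj, -c, ?_⟩
    have e6 : D.ev (C c) = algebraMap k L c := aeval_C _ _
    rw [e5, e6, ← hj, Algebra.smul_def, map_neg]
    convert D.ev_mem_V ht using 1
    ring
  · left
    obtain ⟨R, hR, eR⟩ := h.k3 _ (by omega) _ hr
    have e6 : s * D.ev r' = D.ev (R 0 * crossProduct F G 0 + R 1 * crossProduct F G 1 +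
        R 2 * crossProduct F G 2) := by
      rw [eR, Soc.dot_eq]
      simp only [map_add, map_mul, D.ev_X, hs]
      ring
    have e7 : ∀ l, R l * crossProduct F G l ∈ Qd D.w j := fun l =>
      Soc.cast_mem (Qd_mul (hR l) (hK l)) (by ring)
    rw [e5, e6]
    exact Submodule.sub_mem _ (D.ev_mem_V ht)
      (D.ev_mem_V (Submodule.add_mem _ (Submodule.add_mem _ (e7 0) (e7 1)) (e7 2)))

end Md

end Pool.Agent.Lib.MP_86e60f_al.HW
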