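import Mathlib
import Pool.Agent.Lib.MP_86e60f_al.HW.Stmt

set_option autoImplicit false

open Module

namespace Pool.Agent.Lib.MP_86e60f_al.HW

namespace Tr

variable {k S : Type*} [Field k] [AddCommGroup S] [Module k S] [FiniteDimensional k S]

theorem exists_proj (G : ℤ → Submodule k S) (hG : DirectSum.IsInternal G) :
    ∃ (π : ℤ → Module.End k S) (s : Finset ℤ), (∀ i x, π i x ∈ G i) ∧
      (∀ i j, j ≠ i → ∀ x ∈ G j, π i x = 0) ∧ (∀ i, ∀ x ∈ G i, π i x = x) ∧
      (∑ i ∈ s, π i = 1) ∧ ∀ i, i ∉ s → G i = ⊥ := by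
  classical
  let _ := hG.chooseDecomposition
  have hfin : {i | G i ≠ ⊥}.Finite :=
    Submodule.finite_ne_bot_of_iSupIndep hG.submodule_iSupIndep
  let π : ℤ → Module.End k S := fun i => (G i).subtype ∘ₗ
    DirectSum.component k ℤ (fun i => G i) i ∘ₗ (DirectSum.decomposeLinearEquiv G).toLinearMap
  have hπ : ∀ i x, π i x = (DirectSum.decompose G x i : S) := fun i x => rfl
  have h1 : ∀ i x, π i x ∈ G i := fun i x => by rw [hπ]; exact (DirectSum.decompose G x i).2
  have h2 : ∀ i j, j ≠ i → ∀ x ∈ G j, π i x = 0 := fun i j hij x hx => by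
    rw [hπ]; exact DirectSum.decompose_of_mem_ne G hx hij
  have h3 : ∀ i, ∀ x ∈ G i, π i x = x := fun i x hx => by
    rw [hπ]; exact DirectSum.decompose_of_mem_same G hx
  have h5 : ∀ i, i ∉ hfin.toFinset → G i = ⊥ := fun i hi => by
    by_contra h
    exact hi (hfin.mem_toFinset.2 h)
  refine ⟨π, hfin.toFinset, h1, h2, h3, ?_, h5⟩
  ext x
  have hx : x ∈ ⨆ i, G i := by rw [hG.submodule_iSup_eq_top]; trivial
  induction hx using Submodule.iSup_induction' with
  | mem i x hx =>
    simp only [LinearMap.coe_sum, Finset.sum_apply, Module.End.one_apply]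
    by_cases hi : i ∈ hfin.toFinset
    · rw [Finset.sum_eq_single i (fun j _ hj => h2 j i (Ne.symm hj) x hx) (fun h => absurd hi h)]
      exact h3 i x hx
    · have : x = 0 := by
        rw [h5 i hi] at hx
        exact (Submodule.mem_bot k).1 hx
      subst this
      simp
  | zero => simp
  | add x y _ _ hx hy => rw [map_add, map_add, hx, hy]

theorem eq_zero_of_trace (A : Module.End k S)
    (h : ∀ B : Module.End k S, LinearMap.trace k S (A * B) = 0) : A = 0 := by
  ext x
  refine (Module.forall_dual_apply_eq_zero_iff k (A x)).1 fun f => ?_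
  have h1 := h (f.smulRight x)
  have h2 : A * f.smulRight x = f.smulRight (A x) := by
    ext y
    simp
  rwa [h2, LinearMap.trace_smulRight] at h1

theorem nd (G : ℤ → Submodule k S) (hG : DirectSum.IsInternal G) (i : ℤ)
    (A : Module.End k S) (hA : A ∈ Wd G i)
    (h : ∀ B ∈ Wd G (-i), LinearMap.trace k S (A * B) = 0) : A = 0 := by
  obtain ⟨π, s, h1, h2, h3, h4, -⟩ := exists_proj G hG
  refine eq_zero_of_trace A fun B => ?_
  have hB : A * B = ∑ p ∈ s, ∑ q ∈ s, A * (π p * B * π q) := by
    simp only [← Finset.mul_sum, ← Finset.sum_mul, h4, mul_one, one_mul]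
  rw [hB, map_sum]
  refine Finset.sum_eq_zero fun p _ => ?_
  rw [map_sum]
  refine Finset.sum_eq_zero fun q _ => ?_
  by_cases hpq : p + i = q
  · refine h _ fun m x hx => ?_
    by_cases hm : m = q
    · have : m + -i = p := by omega
      rw [this]
      exact h1 p _
    · simp only [Module.End.mul_apply, h2 q m hm x hx, map_zero]
      exact Submodule.zero_mem _
  · have h0 : π q * (A * π p) = 0 := by
      ext x
      exact h2 q (p + i) hpq _ (hA p _ (h1 p x))
    rw [show A * (π p * B * π q) = (A * π p * B) * π q by simp only [mul_assoc],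
      LinearMap.trace_mul_comm, ← mul_assoc, h0, zero_mul, map_zero]

theorem le (G : ℤ → Submodule k S) (hG : DirectSum.IsInternal G) (i : ℤ) :
    finrank k (Wd G i) ≤ finrank k (Wd G (-i)) := by
  let β : Wd G i →ₗ[k] Module.Dual k (Wd G (-i)) :=
    ((LinearMap.mul k (Module.End k S)).compr₂ (LinearMap.trace k S)).compl₁₂
      (Wd G i).subtype (Wd G (-i)).subtype
  have hβ : Function.Injective β := by
    rw [← LinearMap.ker_eq_bot, LinearMap.ker_eq_bot']
    intro A hA
    refine Subtype.ext (nd G hG i A.1 A.2 fun B hB => ?_)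
    exact LinearMap.congr_fun hA ⟨B, hB⟩
  have := LinearMap.finrank_le_finrank_of_injective hβ
  rwa [Subspace.dual_finrank_eq] at this

end Tr

theorem sTr {k S : Type*} [Field k] [AddCommGroup S] [Module k S] [FiniteDimensional k S]
    (G : ℤ → Submodule k S) (hG : DirectSum.IsInternal G) : STr G := by
  refine ⟨Tr.nd G hG, ?_, fun i => le_antisymm (Tr.le G hG i) ?_⟩
  · obtain ⟨π, s, h1, -, -, h4, h5⟩ := Tr.exists_proj G hG
    refine Set.Finite.subset ((s ×ˢ s).image fun p : ℤ × ℤ => p.1 - p.2).finite_toSet ?_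
    intro i hi
    by_contra hn
    refine hi ?_
    have : Wd G i = ⊥ := by
      rw [Submodule.eq_bot_iff]
      intro A hA
      rw [← mul_one A, ← h4, Finset.mul_sum]
      refine Finset.sum_eq_zero fun q hq => ?_
      ext x
      have hx := hA q _ (h1 q x)
      have hq' : q + i ∉ s := fun hs => hn (Finset.mem_coe.2 (Finset.mem_image.2
        ⟨(q + i, q), Finset.mem_product.2 ⟨hs, hq⟩, by simp⟩))
      rw [h5 _ hq'] at hx
      exact (Submodule.mem_bot k).1 hx
    simp [this]
  · have := Tr.le G hG (-i)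
    rwa [neg_neg] at this

end Pool.Agent.Lib.MP_86e60f_al.HW
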