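import Mathlib
import Pool.Agent.Lib.MP_86e60f_al.HW.Tr
import Pool.Agent.Lib.MP_86e60f_al.HW.Hes
import Pool.Agent.Lib.MP_86e60f_al.HW.Num1
import Pool.Agent.Lib.MP_86e60f_al.HW.Num2
import Pool.Agent.Lib.MP_86e60f_al.HW.Gr
import Pool.Agent.Lib.MP_86e60f_al.HW.DZ
import Pool.Agent.Lib.MP_86e60f_al.HW.DT
import Pool.Agent.Lib.MP_86e60f_al.HW.Kos
import Pool.Agent.Lib.MP_86e60f_al.HW.Soc
import Pool.Agent.Lib.MP_86e60f_al.HW.Lam
import Pool.Agent.Lib.MP_86e60f_al.HW.Pair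
import Pool.Agent.Lib.MP_86e60f_al.HW.Perp
import Pool.Agent.Lib.MP_86e60f_al.HW.Dual
import Pool.Agent.Lib.MP_86e60f_al.HW.Cl
import Pool.Agent.Lib.MP_86e60f_al.HW.Hat
import Pool.Agent.Lib.MP_86e60f_al.HW.Ker
import Pool.Agent.Lib.MP_86e60f_al.HW.Low

set_option autoImplicit false

open MvPolynomial Module Matrix

namespace Pool.Agent.Lib.MP_86e60f_al.HW

theorem sPsi {k ι : Type*} [Field k] [Fintype ι] (w : Fin 3 → ℤ) (b : ι → ℤ)
    (J : Submodule (Q k) (ι → Q k)) (hw : ∀ l, 0 < w l) (hJ : HomJ w b J) : SPsi w b J := by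
  have hG := sGr w b J hw hJ
  have := hG.fin
  have hT := sTr (Sd w b J) hG.int
  have hH := sHes (Sd w b J) (Xs J) w hT hG.deg
  have hZ := sDZ w b J hJ hG
  have hD := sDT w b J hJ hG
  obtain ⟨h1, h2⟩ := sNum1.hes w _ _ hT.fs hT.sym hH.le hH.eq
  refine ⟨fun j => (hD j (hZ j).1).1, hG.fs, sNum1.add _ _ _ _ _ h1 hG.fs hT.fs (fun j => ?_) h2⟩
  rw [← (hZ j).2, (hD j (hZ j).1).2]

theorem core_rank {k U N : Type*} [Field k] [AddCommGroup U] [Module k U] [AddCommGroup N]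
    [Module k N] (φ : U →ₗ[k] N) (Y : Submodule k U) [FiniteDimensional k Y] :
    finrank k (Y.map φ) + finrank k ↥(Y ⊓ LinearMap.ker φ) = finrank k Y := by
  have h := LinearMap.finrank_range_add_finrank_ker (φ.domRestrict Y)
  rw [LinearMap.range_domRestrict, LinearMap.ker_domRestrict] at h
  rw [← h, ← (Submodule.comapSubtypeEquivOfLe (inf_le_left : Y ⊓ LinearMap.ker φ ≤ Y)).finrank_eq,
    Submodule.comap_inf, Submodule.comap_subtype_self, top_inf_eq]

theorem core_prod {k N : Type*} [Field k] [AddCommGroup N] [Module k N] [FiniteDimensional k N]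
    (W : Submodule k (N × N)) (C1 C2 E1 E2 : Submodule k N)
    (h1 : ∀ x ∈ W, x.1 ∈ E1 ∧ x.2 ∈ E2) (h2 : ∀ x ∈ C1, (x, 0) ∈ W) (h3 : ∀ x ∈ C2, (0, x) ∈ W) :
    ∃ α β : ℕ, finrank k W = α + β ∧ (finrank k C1 ≤ α ∧ α ≤ finrank k E1) ∧
      (finrank k C2 ≤ β ∧ β ≤ finrank k E2) := by
  have h := core_rank (LinearMap.fst k N N) W
  have h' := core_rank (LinearMap.snd k N N) (W ⊓ LinearMap.ker (LinearMap.fst k N N))
  have h0 : (W ⊓ LinearMap.ker (LinearMap.fst k N N)) ⊓ LinearMap.ker (LinearMap.snd k N N) = ⊥ := by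
    rw [eq_bot_iff]
    rintro x ⟨⟨-, hx1⟩, hx2⟩
    exact Prod.ext hx1 hx2
  rw [h0, finrank_bot, add_zero] at h'
  refine ⟨_, _, by rw [← h, ← h'], ⟨Submodule.finrank_mono ?_, Submodule.finrank_mono ?_⟩,
    Submodule.finrank_mono ?_, Submodule.finrank_mono ?_⟩
  · exact fun x hx => ⟨(x, 0), h2 x hx, rfl⟩
  · rintro _ ⟨x, hx, rfl⟩
    exact (h1 x hx).1
  · exact fun x hx => ⟨(0, x), ⟨h3 x hx, rfl⟩, rfl⟩
  · rintro _ ⟨x, hx, rfl⟩
    exact (h1 x hx.1).2

namespace Md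

variable {k L ι : Type*} [Field k] [CommRing L] [Algebra k L] [FiniteDimensional k L]
  [Fintype ι] [DecidableEq ι] (D : Md k L) (b : ι → ℤ) (E : ℤ → Submodule k (ι → L))

theorem exists_lam : ∃ lam : L →ₗ[k] k, D.IsLam lam := D.sLam (D.sSoc (sKos k D.w))

theorem sCore (hE : D.Lat b E) : D.SCore b E := by
  intro hR hEnd
  obtain ⟨lam, hl⟩ := D.exists_lam
  have hp := D.sPair b lam hl
  have hd := D.sDual b E lam hE hp (D.sPerp b E lam hl hE (D.sVd b E lam hl hp hE))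
  have hc := D.sCl b E hE
  have hh := D.sHat b E hc
  have hK := D.sKer b E hE hc hh hR
  have hU := D.sUp b E hE hc
  have hL := D.sLow b E hE hc hh
  have hP := sPsi D.w b (D.JE b E) D.hw hc.homJ
  have := (sGr D.w b (D.JE b E) D.hw hc.homJ).fin
  have hth : ∀ j (Y : Submodule k (Matrix ι ι L)), D.Hm b (D.FV b) E j ≤ Y →
      Y ≤ D.Hm b (D.FV b) (D.FV b) j →
      finrank k (Y.map (D.th b E j)) + finrank k (D.Hm b (D.FV b) E j) = finrank k Y := by
    intro j Y h1 h2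
    have h3 : Y ⊓ LinearMap.ker (D.th b E j) = D.Hm b (D.FV b) E j :=
      le_antisymm (fun U hU => (hc.th_zero j U (h2 hU.1)).1 hU.2)
        (fun U hU => ⟨h1 hU, (hc.th_zero j U (hd.le3 j hU)).2 hU⟩)
    rw [← core_rank (D.th b E j) Y, h3]
  let EE : ℤ → Submodule k (ι → SQ (D.JE b E)) := fun j =>
    (D.Hm b E E j ⊓ D.Hm b (D.FV b) (D.FV b) j).map (D.th b E j)
  let CC : ℤ → Submodule k (ι → SQ (D.JE b E)) := fun j =>
    (D.PE b E j ⊓ D.Hm b (D.FV b) (D.FV b) j).map (D.th b E j)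
  have hEE := fun j => hth j (D.Hm b E E j ⊓ D.Hm b (D.FV b) (D.FV b) j)
    (le_inf ((hd.le1 j).trans (hd.le2 j)) (hd.le3 j)) inf_le_right
  have hCC := fun j => hth j (D.PE b E j ⊓ D.Hm b (D.FV b) (D.FV b) j)
    (le_inf (hd.le1 j) (hd.le3 j)) inf_le_right
  have hGG := fun j => hth j _ (hd.le3 j) le_rfl
  have hW := fun j => core_prod ((Td D.w b (D.JE b E) j).map (D.rr b E)) (CC (j + D.d))
    (CC (j + D.e)) (EE (j + D.d)) (EE (j + D.e))
    (by rintro _ ⟨φ, hφ, rfl⟩; exact hU j φ hφ)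
    (by rintro _ ⟨U, hU', rfl⟩; exact (hL j).1 U hU')
    (by rintro _ ⟨U, hU', rfl⟩; exact (hL j).2 U hU')
  choose α β hW h1 h2 using hW
  have key := sNum2 (sg D.w) D.d D.e (fun j => finrank k (Td D.w b (D.JE b E) j))
    (fun j => finrank k (Gd D.w b (D.JE b E) j)) (fun j => finrank k (EE j))
    (fun j => finrank k (CC j)) (fun i => α (i - D.d)) (fun i => β (i - D.e)) D.hd D.he hP.fs
    (fun i => ?_) (fun j => ?_) (fun i => ?_) (fun i => ?_) (fun i hi => ?_) hP.eq 0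
  · have h3 : D.PE b E 0 ⊓ D.Hm b (D.FV b) (D.FV b) 0 =
        D.Hm b E E 0 ⊓ D.Hm b (D.FV b) (D.FV b) 0 := by
      refine Submodule.eq_of_le_of_finrank_eq (inf_le_inf_right _ (hd.le2 0)) ?_
      rw [← hEE 0, ← hCC 0]
      exact congrArg (· + _) key.symm
    have h4 : (1 : Matrix ι ι L) ∈ D.Hm b E E 0 ⊓ D.Hm b (D.FV b) (D.FV b) 0 :=
      ⟨D.one_mem_Hm fun _ => le_rfl, D.one_mem_Hm fun _ => le_rfl⟩
    rw [← h3] at h4
    exact h4.1
  · refine Submodule.finrank_mono ?_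
    rw [← hc.th_map]
    exact Submodule.map_mono inf_le_right
  · have := hP.fin j
    have a1 := core_rank (D.rr b E) (Td D.w b (D.JE b E) j)
    have a2 := hK j
    have a3 := hd.dim j
    have a4 := hEE j
    have a5 := hCC (D.a - j)
    have a6 := hGG j
    rw [hc.th_map] at a6
    have a7 := hW j
    have a8 : D.d + D.e - sg D.w - j = D.a - j := rfl
    rw [a8]
    simp only [add_sub_cancel_right, EE, CC]
    omega
  · have := h1 (i - D.d)
    rwa [sub_add_cancel] at this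
  · have := h2 (i - D.e)
    rwa [sub_add_cancel] at this
  · have hne : ¬ D.Hm b E E i ≤ D.PE b E i := fun h =>
      absurd hi (not_lt.2 (Submodule.finrank_mono (Submodule.map_mono (inf_le_inf_right _ h))))
    constructor
    · by_contra h
      exact hne (by rw [hEnd i (by omega)]; exact bot_le)
    · by_contra h
      refine hne (hd.van i (hEnd _ ?_))
      have a8 : D.a = D.d + D.e - sg D.w := rfl
      omega

end Md

end Pool.Agent.Lib.MP_86e60f_al.HW
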