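import Mathlib
import Pool.Agent.Lib.MP_86e60f_al.HW.Stmt2

set_option autoImplicit false

open MvPolynomial Module Matrix

namespace Pool.Agent.Lib.MP_86e60f_al.HW

namespace Md

variable {k L ι : Type*} [Field k] [CommRing L] [Algebra k L] [FiniteDimensional k L] [Fintype ι]
  [DecidableEq ι] (D : Md k L) (b : ι → ℤ) (E : ℤ → Submodule k (ι → L))
  (M : Submodule (Q k ⧸ D.P) (ι → Q k ⧸ D.P))

omit [FiniteDimensional k L] in
/-- A matrix killing every graded piece of a lattice is zero. -/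
theorem End_zero_of_kill (hE : D.Lat b E) {U : Matrix ι ι L}
    (h : ∀ i, ∀ x ∈ E i, U *ᵥ x = 0) : U = 0 := by
  obtain ⟨N, hN⟩ := hE.big
  ext p q
  have hn := D.hn
  have h1 : N ≤ ((N - b q).toNat : ℤ) * D.n + b q := by
    have h2 : N - b q ≤ ((N - b q).toNat : ℤ) := Int.self_le_toNat _
    have h3 : (0 : ℤ) ≤ ((N - b q).toNat : ℤ) := Int.natCast_nonneg _
    nlinarith
  have h2 := D.FV_single (b := b) (D.one_mem_V (N - b q).toNat) q
  rw [← hN _ h1] at h2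
  have h3 := congrFun (h _ _ h2) p
  simpa using h3

omit [FiniteDimensional k L] in
/-- Vanishing of graded endomorphisms of the module gives vanishing of the matrices. -/
theorem sEnd (hE : D.Lat b E) (hc : D.SCl b E) (hh : D.SHat b E) : D.SEnd b E M := by
  intro hM j hφ
  rw [eq_bot_iff]
  intro U hU
  rw [Submodule.mem_bot]
  obtain ⟨Ψ, h1, h2⟩ := hh.mat j U ⟨hU.1, fun i x hx => hE.le _ (hU.2 i x hx)⟩
  have hJ : ∀ v ∈ D.JE b E, Ψ v ∈ D.JE b E := by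
    refine hom_induction hc.homJ.hom (by simp)
      (fun u v hu hv => by rw [map_add]; exact Submodule.add_mem _ hu hv) fun i v hv hvi => ?_
    obtain ⟨h3, h4⟩ := h1 i v hv hvi
    refine (hc.memJ _ _ h3).2 ?_
    rw [h4]
    exact hU.2 _ _ ((hc.memJ _ _ hvi).1 hv)
  have hP : ∀ v ∈ (D.PF : Submodule (Q k) (ι → Q k)), Ψ v ∈ D.PF := by
    refine hom_induction (w := D.w) (b := b)
      (fun v hv i => D.mem_PF.2 fun p => D.hc_P (D.mem_PF.1 hv p) _) (by simp)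
      (fun u v hu hv => by rw [map_add]; exact Submodule.add_mem _ hu hv) fun i v hv hvi => ?_
    obtain ⟨h3, h4⟩ := h1 i v (hc.pf hv) hvi
    refine (D.mem_PF_iff h3).2 ?_
    rw [h4, D.evv_PF hv, Matrix.mulVec_zero]
  have hlin : ∀ q : Q k, ∀ v ∈ D.JE b E,
      ((mkA D.P).restrictScalars k ∘ₗ Ψ) (q • v) = q • ((mkA D.P).restrictScalars k ∘ₗ Ψ) v := by
    intro q v hv
    have h3 := D.mkA_eq_zero.2 (h2 q v hv)
    rw [map_sub, (mkA D.P).map_smul, sub_eq_zero] at h3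
    exact h3
  obtain ⟨φ, hφ'⟩ := D.descend hM (mkLin (D.JE b E) _ hlin)
    (fun v hv => D.mkA_eq_zero.2 (hP v.1 hv))
  have hval : ∀ (x : M) (v : ι → Q k), mkA D.P v = x.1 → v ∈ D.JE b E ∧ φ x = mkA D.P (Ψ v) := by
    intro x v hv
    have hvJ : v ∈ D.JE b E := (hM v).2 (hv ▸ x.2)
    refine ⟨hvJ, ?_⟩
    have h3 := hφ' ⟨v, hvJ⟩
    have h4 : x = ⟨mkA D.P v, (hM v).1 hvJ⟩ := Subtype.ext hv.symm
    rw [h4]
    exact h3
  have hmem : ∀ x : M, φ x ∈ M := by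
    intro x
    obtain ⟨v, hv⟩ := D.mkA_surjective x.1
    obtain ⟨h3, h4⟩ := hval x v hv
    rw [h4]
    exact (hM _).1 (hJ v h3)
  have h0 := hφ (φ.codRestrict M hmem) (by
    intro i x hx
    obtain ⟨v, hv, hvx⟩ := D.mem_pc.1 hx
    obtain ⟨h3, h4⟩ := hval x v hvx
    exact D.mem_pc.2 ⟨Ψ v, (h1 i v h3 hv).1, h4.symm⟩)
  refine D.End_zero_of_kill b E hE fun i x hx => ?_
  have hv := D.secv_mem (b := b) i x
  have hx' := D.evv_secv (hE.le _ hx)
  have hvJ : D.secv b i x ∈ D.JE b E := (hc.memJ _ _ hv).2 (by rwa [hx'])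
  have h3 := (hval ⟨mkA D.P (D.secv b i x), (hM _).1 hvJ⟩ _ rfl).2
  have h4 : φ ⟨mkA D.P (D.secv b i x), (hM _).1 hvJ⟩ = 0 :=
    congrArg Subtype.val (LinearMap.congr_fun h0 ⟨mkA D.P (D.secv b i x), (hM _).1 hvJ⟩)
  rw [h4] at h3
  have h5 := D.evv_PF (D.mkA_eq_zero.1 h3.symm)
  rwa [(h1 i _ hvJ hv).2, hx'] at h5

end Md

end Pool.Agent.Lib.MP_86e60f_al.HW
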