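import Mathlib
import Pool.Agent.Lib.MP_86e60f_al.HW.Stmt2

set_option autoImplicit false

open MvPolynomial Module Matrix

namespace Pool.Agent.Lib.MP_86e60f_al.HW

namespace Md

variable {k L : Type*} [Field k] [CommRing L] [Algebra k L] [FiniteDimensional k L] (D : Md k L)

omit [FiniteDimensional k L] in
theorem Fin_pow_H {j : ℤ} {u : L} (hu : u ∈ D.H j) (m : ℕ) : u ^ m ∈ D.H (m * j) := by
  induction m with
  | zero => simpa using D.V_le_H 0 D.one_mem_V_zero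
  | succ m ih =>
    have := D.H_mul ih hu
    rwa [← pow_succ, show (m : ℤ) * j + j = ((m + 1 : ℕ) : ℤ) * j by push_cast; ring] at this

omit [FiniteDimensional k L] in
theorem Fin_pow_HT {F : HahnSeries ℤ L} (hF : F ∈ D.HT 1) (m : ℕ) : F ^ m ∈ D.HT m := by
  induction m with
  | zero => simpa using D.RR_le_HT D.one_mem_RR
  | succ m ih =>
    have := D.HT_mul ih hF
    rwa [← pow_succ, show (m : ℤ) + 1 = ((m + 1 : ℕ) : ℤ) by push_cast; ring] at this

/-- No zero divisors among homogeneous elements gives invertibility. -/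
theorem Fin_dom (h1 : Nontrivial L)
    (h : ∀ i j, ∀ u ∈ D.H i, ∀ v ∈ D.H j, u * v = 0 → u = 0 ∨ v = 0) : D.Dom := by
  refine ⟨h1, fun j u hu h0 => ?_⟩
  obtain ⟨m, hm⟩ : ∃ m : ℕ, D.n = (m + 1 : ℕ) := ⟨(D.n - 1).toNat, by have := D.hn; omega⟩
  have hne : ∀ r : ℕ, u ^ r ≠ 0 := by
    intro r
    induction r with
    | zero => simp
    | succ r ih =>
      intro e
      rw [pow_succ] at e
      exact (h _ _ _ (D.Fin_pow_H hu r) _ hu e).elim ih h0
  have hw : u ^ (m + 1) ∈ D.H 0 := by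
    have := D.Fin_pow_H hu (m + 1)
    rwa [← hm, show D.n * j = 0 + j * D.n by ring, D.H_add_int] at this
  let φ : D.H 0 →ₗ[k] D.H 0 := (LinearMap.mulLeft k (u ^ (m + 1))).restrict
    fun x hx => by simpa using D.H_mul hw hx
  have hinj : Function.Injective φ := by
    refine (injective_iff_map_eq_zero φ).2 fun x hx => Subtype.ext ?_
    have hx' : u ^ (m + 1) * x.1 = 0 := congrArg Subtype.val hx
    exact (h _ _ _ hw _ x.2 hx').resolve_left (hne _)
  obtain ⟨x, hx⟩ := LinearMap.injective_iff_surjective.1 hinj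
    ⟨1, D.V_le_H 0 D.one_mem_V_zero⟩
  have hx' : u ^ (m + 1) * x.1 = 1 := congrArg Subtype.val hx
  refine ⟨u ^ m * x.1, ?_, by rw [← hx']; ring⟩
  have := D.H_mul (D.Fin_pow_H hu m) x.2
  rwa [show (m : ℤ) * j + 0 = -j + j * D.n by rw [hm]; push_cast; ring, D.H_add_int] at this

omit [FiniteDimensional k L] in
theorem Fin_inv (hD : D.Dom) {F : HahnSeries ℤ L} (hF : F ∈ D.RR) (h0 : F ≠ 0) :
    ∃ j : ℤ, ∃ G ∈ D.HT j, F * G = 1 :=
  ⟨-F.order, D.exists_inv hD ⟨(D.RR_le_HT hF).1,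
    fun _ h => HahnSeries.coeff_eq_zero_of_lt_order h⟩
    (fun h => h0 (HahnSeries.coeff_order_eq_zero.1 h))⟩

theorem sFin (R : Type*) [CommRing R] : D.SFin R := by
  intro ρ hR hinj hr hu
  have hL : Nontrivial L := by
    by_contra hn
    rw [not_nontrivial_iff_subsingleton] at hn
    refine one_ne_zero (hinj (a₁ := 1) (a₂ := 0) ?_)
    ext l
    exact Subsingleton.elim _ _
  have hρ : ∀ x, ρ x ∈ D.RR := fun x => (hr _).2 ⟨x, rfl⟩
  have hz : ∀ x, x ≠ 0 → ρ x ≠ 0 := fun x hx e => hx (hinj (by rw [e, map_zero]))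
  have hD : D.Dom := by
    refine D.Fin_dom hL fun i j u hu v hv e => ?_
    obtain ⟨r, hr1⟩ := D.mem_H.1 hu
    obtain ⟨s, hs1⟩ := D.mem_H.1 hv
    obtain ⟨x, hx⟩ := (hr _).1 (D.single_RR hr1)
    obtain ⟨y, hy⟩ := (hr _).1 (D.single_RR hs1)
    have hxy : x * y = 0 := hinj (by
      rw [map_mul, hx, hy, HahnSeries.single_mul_single, e, map_zero, map_zero])
    rcases mul_eq_zero.1 hxy with h | h
    · left
      have := congrArg (fun F => HahnSeries.coeff F (i + r * D.n)) hx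
      simpa [h] using this.symm
    · right
      have := congrArg (fun F => HahnSeries.coeff F (j + s * D.n)) hy
      simpa [h] using this.symm
  obtain ⟨N, hN⟩ := D.HT_le_RR
  have hdiv : ∀ r : R, r ≠ 0 → ∃ M : ℤ, ∀ F ∈ D.HT M, ∃ z, ρ (r * z) = F := by
    intro r h0
    obtain ⟨j, G, hG, hG1⟩ := D.Fin_inv hD (hρ r) (hz r h0)
    refine ⟨N - j, fun F hF => ?_⟩
    have h2 := D.HT_mul hG hF
    rw [add_sub_cancel] at h2
    obtain ⟨z, hz1⟩ := (hr _).1 (hN h2)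
    exact ⟨z, by rw [map_mul, hz1, ← mul_assoc, hG1, one_mul]⟩
  refine ⟨hD, fun hF => ?_, fun r h0 x hx => ?_, fun I hI => ?_⟩
  · have h1 : (1 : L) ∈ D.V D.n := by simpa using D.one_mem_V 1
    obtain ⟨x, hx⟩ := (hr _).1 (D.single_RR h1)
    have hx0 : x ≠ 0 := by
      intro h
      have := congrArg (fun F => HahnSeries.coeff F D.n) hx
      simp [h] at this
    obtain ⟨y, hy⟩ := hF.mul_inv_cancel hx0
    have h2 := D.HT_mul (D.single_HT (D.V_le_H _ h1)) (D.RR_le_HT (hρ y))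
    rw [← hx, ← map_mul, hy, map_one] at h2
    have h3 := h2.2 0 (by have := D.hn; omega)
    simp at h3
  · obtain ⟨M, hM⟩ := hdiv r h0
    have h1 : ρ x ∈ D.HT 1 := by
      refine ⟨(D.RR_le_HT (hρ x)).1, fun j hj => ?_⟩
      by_cases h : j = 0
      · rw [h]
        exact hu x hx
      · exact (D.RR_le_HT (hρ x)).2 j (by omega)
    obtain ⟨z, hz1⟩ := hM _ (D.HT_anti (Int.self_le_toNat M) (D.Fin_pow_HT h1 M.toNat))
    exact ⟨M.toNat, z, hinj (by rw [hz1, map_pow])⟩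
  · have hmul : ∀ a ∈ D.RR, ∀ F, (∃ g ∈ I, ρ g = F) → ∃ g ∈ I, ρ g = a * F := by
      rintro a ha _ ⟨g, hg, rfl⟩
      obtain ⟨x, rfl⟩ := (hr _).1 ha
      exact ⟨x * g, I.mul_mem_left x hg, map_mul ρ x g⟩
    let J : Submodule k (HahnSeries ℤ L) :=
      { carrier := {F | ∃ g ∈ I, ρ g = F}
        add_mem' := by
          rintro _ _ ⟨g, hg, rfl⟩ ⟨g', hg', rfl⟩
          exact ⟨g + g', I.add_mem hg hg', map_add ρ g g'⟩
        zero_mem' := ⟨0, I.zero_mem, map_zero ρ⟩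
        smul_mem' := fun c F hF => by
          rw [smul_eq_single_mul]
          exact hmul _ (D.single_RR (D.algebraMap_mem_V c)) F hF }
    have hJ : J ≤ D.RR := by
      rintro _ ⟨g, -, rfl⟩
      exact hρ g
    refine ⟨J, fun _ => Iff.rfl, hJ, ⟨0, hJ.trans D.RR_le_HT⟩, hmul, ?_⟩
    obtain ⟨r, hrI, h0⟩ := Submodule.exists_mem_ne_zero_of_ne_bot hI
    obtain ⟨M, hM⟩ := hdiv r h0
    refine ⟨M, fun F hF => ?_⟩
    obtain ⟨z, hz1⟩ := hM F hF
    exact ⟨r * z, I.mul_mem_right z hrI, hz1⟩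

end Md

end Pool.Agent.Lib.MP_86e60f_al.HW
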