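import Mathlib
import Pool.Agent.Lib.MP_86e60f_al.HW.Stmt3
import Pool.Agent.Lib.MP_86e60f_al.HW.Fin

set_option autoImplicit false

open MvPolynomial Module Matrix

namespace Pool.Agent.Lib.MP_86e60f_al.HW

namespace Md

variable {k L : Type*} [Field k] [CommRing L] [Algebra k L] [FiniteDimensional k L] (D : Md k L)

omit [FiniteDimensional k L] in
/-- Multiplication by a power of the variable is injective. -/
theorem Fin2_shift (s : ℤ) {G : HahnSeries ℤ L} (h : HahnSeries.single s (1 : L) * G = 0) :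
    G = 0 := by
  ext l
  have := congrArg (fun F => HahnSeries.coeff F (l + s)) h
  simpa [coeff_single_mul'] using this

theorem sFin2 (R : Type*) [CommRing R] (h : D.Red → D.SInv) : D.SFin2 R := by
  intro ρ hR hN1 hinj hr hu
  have hL : Nontrivial L := by
    by_contra hn
    rw [not_nontrivial_iff_subsingleton] at hn
    refine one_ne_zero (hinj (a₁ := 1) (a₂ := 0) ?_)
    ext l
    exact Subsingleton.elim _ _
  have hρ : ∀ x, ρ x ∈ D.RR := fun x => (hr _).2 ⟨x, rfl⟩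
  have hD : D.Red := by
    rintro i u hu ⟨m, hm⟩
    obtain ⟨r, hr1⟩ := D.mem_H.1 hu
    obtain ⟨x, hx⟩ := (hr _).1 (D.single_RR hr1)
    have hx0 : x = 0 := IsReduced.eq_zero x ⟨m, hinj (by
      rw [map_pow, hx, HahnSeries.single_pow, hm, map_zero, map_zero])⟩
    have := congrArg (fun F => HahnSeries.coeff F (i + r * D.n)) hx
    simpa [hx0] using this.symm
  obtain ⟨N, hN⟩ := D.HT_le_RR
  have hdiv : ∀ r : R, IsRegular r → ∃ M : ℤ, ∀ F ∈ D.HT M, ∃ z, ρ (r * z) = F := by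
    intro r h0
    obtain ⟨G, hG, hG1⟩ := h hD (ρ r) (D.RR_le_HT (hρ r)).1 fun G hG e => by
      obtain ⟨b, hb⟩ := D.exists_HT hG
      have hn := D.hn
      have h2 := D.HT_mul (D.single_HT (D.one_mem_H ((N - b).toNat : ℤ))) hb
      have h3 : N ≤ ((N - b).toNat : ℤ) * D.n + b := by
        have := Int.self_le_toNat (N - b)
        nlinarith [Int.natCast_nonneg (N - b).toNat]
      obtain ⟨z, hz⟩ := (hr _).1 (hN (D.HT_anti h3 h2))
      have hz0 : z = 0 := h0.left (a₁ := z) (a₂ := 0) (hinj (by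
        simp only [map_mul, map_zero, mul_zero]
        rw [hz, mul_left_comm, e, mul_zero]))
      rw [hz0, map_zero] at hz
      exact Fin2_shift _ hz.symm
    obtain ⟨j, hj⟩ := D.exists_HT hG
    refine ⟨N - j, fun F hF => ?_⟩
    have h2 := D.HT_mul hj hF
    rw [add_sub_cancel] at h2
    obtain ⟨z, hz1⟩ := (hr _).1 (hN h2)
    exact ⟨z, by rw [map_mul, hz1, ← mul_assoc, hG1, one_mul]⟩
  refine ⟨hD, ?_, fun r h0 x hx => ?_, fun I hI => ?_⟩
  · have h1 : (1 : L) ∈ D.V D.n := by simpa using D.one_mem_V 1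
    obtain ⟨x, hx⟩ := (hr _).1 (D.single_RR h1)
    refine ⟨x, ?_, fun hx1 => ?_⟩
    · rw [← isLeftRegular_iff_isRegular, isLeftRegular_iff_right_eq_zero_of_mul]
      intro z hz
      refine hinj ?_
      rw [map_zero]
      refine Fin2_shift D.n ?_
      rw [← hx, ← map_mul, hz, map_zero]
    · obtain ⟨y, hy⟩ := hx1.exists_right_inv
      have h2 := D.HT_mul (D.single_HT (D.V_le_H _ h1)) (D.RR_le_HT (hρ y))
      rw [← hx, ← map_mul, hy, map_one] at h2
      have h3 := h2.2 0 (by have := D.hn; omega)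
      simp at h3
  · obtain ⟨M, hM⟩ := hdiv r h0
    have h1 : ρ x ∈ D.HT 1 := by
      refine ⟨(D.RR_le_HT (hρ x)).1, fun j hj => ?_⟩
      by_cases h : j = 0
      · rw [h]
        exact hu x hx
      · exact (D.RR_le_HT (hρ x)).2 j (by omega)
    obtain ⟨z, hz1⟩ := hM _ (D.HT_anti (Int.self_le_toNat M) (D.Fin_pow_HT h1 M.toNat))
    exact ⟨M.toNat, z, hinj (by rw [hz1, map_pow])⟩
  · have hmul : ∀ a ∈ D.RR, ∀ F, (∃ g ∈ I, ρ g = F) → ∃ g ∈ I, ρ g = a * F := by
      rintro a ha _ ⟨g, hg, rfl⟩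
      obtain ⟨x, rfl⟩ := (hr _).1 ha
      exact ⟨x * g, I.mul_mem_left x hg, map_mul ρ x g⟩
    let J : Submodule k (HahnSeries ℤ L) :=
      { carrier := {F | ∃ g ∈ I, ρ g = F}
        add_mem' := by
          rintro _ _ ⟨g, hg, rfl⟩ ⟨g', hg', rfl⟩
          exact ⟨g + g', I.add_mem hg hg', map_add ρ g g'⟩
        zero_mem' := ⟨0, I.zero_mem, map_zero ρ⟩
        smul_mem' := fun c F hF => by
          rw [smul_eq_single_mul]
          exact hmul _ (D.single_RR (D.algebraMap_mem_V c)) F hF }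
    have hJ : J ≤ D.RR := by
      rintro _ ⟨g, -, rfl⟩
      exact hρ g
    refine ⟨J, fun _ => Iff.rfl, hJ, ⟨0, hJ.trans D.RR_le_HT⟩, hmul, ?_⟩
    obtain ⟨r, hrI, h0⟩ := hI
    obtain ⟨M, hM⟩ := hdiv r h0
    refine ⟨M, fun F hF => ?_⟩
    obtain ⟨z, hz1⟩ := hM F hF
    exact ⟨r * z, I.mul_mem_right z hrI, hz1⟩

end Md

end Pool.Agent.Lib.MP_86e60f_al.HW
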