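import Mathlib
import Pool.Agent.Lib.MP_86e60f_al.HW.Stmt

set_option autoImplicit false

open MvPolynomial Module Matrix

namespace Pool.Agent.Lib.MP_86e60f_al.HW

namespace Md

variable {k L ι : Type*} [Field k] [CommRing L] [Algebra k L] [FiniteDimensional k L] [Fintype ι]
  [DecidableEq ι]

omit [FiniteDimensional k L] in
/-- A functional on matrices computing the residue of the lifted values. -/
theorem G2a_mu (D : Md k L) (b : ι → ℤ) (E : ℤ → Submodule k (ι → L)) (lam : L →ₗ[k] k)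
    (hl : D.IsLam lam) (h : D.gTF b E) (j : ℤ) (φ : D.JE b E →ₗ[Q k] SQ (D.JE b E))
    (hφ : φ ∈ Td D.w b (D.JE b E) j) (h0 : D.rr b E φ = 0) :
    ∃ μ : Matrix ι ι L →ₗ[k] k, ∀ (i : ℤ) (v : D.JE b E) (u : ι → L) (z : ι → Q k),
      v.1 ∈ FQ D.w b i → u ∈ D.Ed b E (D.a - j - i) → z ∈ FQ D.w b (i + j) →
      φ v = (D.JE b E).mkQ z → μ (vecMulVec (D.evv v.1) u) = lam (u ⬝ᵥ D.evv z) := by
  let S : Set (Matrix ι ι L × k) := {m | ∃ (i : ℤ) (v : D.JE b E) (u : ι → L) (z : ι → Q k),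
    v.1 ∈ FQ D.w b i ∧ u ∈ D.Ed b E (D.a - j - i) ∧ z ∈ FQ D.w b (i + j) ∧
      φ v = (D.JE b E).mkQ z ∧ m = (vecMulVec (D.evv v.1) u, lam (u ⬝ᵥ D.evv z))}
  have hn : ((0, 1) : Matrix ι ι L × k) ∉ Submodule.span k S := by
    intro hm
    obtain ⟨r, c, g, hg⟩ := Submodule.mem_span_set'.1 hm
    have hg' := fun s => (g s).2
    choose i v u z hv hu hz hφz hm' using hg'
    have e1 : ∑ s, vecMulVec (D.evv (v s).1) (c s • u s) = 0 := by
      have := congrArg Prod.fst hg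
      rw [Prod.fst_sum] at this
      rw [← show (((0, 1) : Matrix ι ι L × k)).1 = 0 from rfl, ← this]
      refine Finset.sum_congr rfl fun s _ => ?_
      rw [hm' s]
      ext p q
      simp [vecMulVec_apply]
    have e2 : lam (∑ s, (c s • u s) ⬝ᵥ D.evv (z s)) = 1 := by
      have := congrArg Prod.snd hg
      rw [Prod.snd_sum] at this
      rw [← show (((0, 1) : Matrix ι ι L × k)).2 = 1 from rfl, ← this, map_sum]
      refine Finset.sum_congr rfl fun s _ => ?_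
      rw [hm' s, smul_dotProduct, map_smul]
      rfl
    have e3 := h j φ hφ h0 (D.a - j) r i v (fun s => c s • u s) z hv
      (fun s => Submodule.smul_mem _ _ (hu s)) hz hφz e1
    rw [sub_add_cancel] at e3
    have e4 := (hl D.a _ (D.V_le_H _ e3)).1 e3 1 (by rw [sub_self]; exact D.one_mem_V_zero)
    rw [mul_one, e2] at e4
    exact one_ne_zero e4
  obtain ⟨ν, hν, hν'⟩ := Submodule.exists_dual_map_eq_bot_of_notMem hn inferInstance
  refine ⟨(-(ν (0, 1))⁻¹) • (ν ∘ₗ LinearMap.inl k (Matrix ι ι L) k),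
    fun i v u z hv hu hz hφz => ?_⟩
  have e1 : ν (vecMulVec (D.evv v.1) u, lam (u ⬝ᵥ D.evv z)) = 0 := by
    have : ν (vecMulVec (D.evv v.1) u, lam (u ⬝ᵥ D.evv z)) ∈ (Submodule.span k S).map ν :=
      Submodule.mem_map_of_mem (Submodule.subset_span ⟨i, v, u, z, hv, hu, hz, hφz, rfl⟩)
    rwa [hν', Submodule.mem_bot] at this
  have e2 : ((vecMulVec (D.evv v.1) u, lam (u ⬝ᵥ D.evv z)) : Matrix ι ι L × k) =
      (vecMulVec (D.evv v.1) u, 0) + lam (u ⬝ᵥ D.evv z) • ((0, 1) : Matrix ι ι L × k) := by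
    simp
  rw [e2, map_add, map_smul, smul_eq_mul] at e1
  simp only [LinearMap.smul_apply, LinearMap.comp_apply, LinearMap.inl_apply, smul_eq_mul]
  rw [eq_neg_of_add_eq_zero_left e1]
  field_simp

omit [FiniteDimensional k L] in
theorem gRig_of_gTF (D : Md k L) (b : ι → ℤ) (E : ℤ → Submodule k (ι → L)) (lam : L →ₗ[k] k)
    (hl : D.IsLam lam) (hE : D.Lat b E) (hc : D.SCl b E) (hp : D.SPair b lam)
    (hv : D.SVd b E lam) (h : D.gTF b E) : D.gRig b E := by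
  intro j φ hφ h0
  obtain ⟨μ, hμ⟩ := G2a_mu D b E lam hl h j φ hφ h0
  obtain ⟨U, hU, hU'⟩ := hp.repM j μ
  have key : ∀ i, ∀ v : D.JE b E, v.1 ∈ FQ D.w b i → ∃ z ∈ FQ D.w b (i + j),
      φ v = (D.JE b E).mkQ z ∧ U *ᵥ D.evv v.1 - D.evv z ∈ E (i + j) := by
    intro i v hvi
    obtain ⟨z, hz, hz'⟩ := hφ i v hvi
    refine ⟨z, hz, hz'.symm, hv (i + j) _ (Submodule.sub_mem _
      (D.Mat_mulVec hU (D.FV_le_FH i (D.evv_mem_FV hvi)))
      (D.FV_le_FH _ (D.evv_mem_FV hz))) fun u hu => ?_⟩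
    rw [show D.a - (i + j) = D.a - j - i by ring] at hu
    have e1 := hμ i v u z hvi hu hz hz'.symm
    have e2 : vecMulVec (D.evv v.1) u ∈ D.Mat b (D.a - j) := fun p q => by
      have := D.H_mul (D.V_le_H _ (D.mem_FV.1 (D.evv_mem_FV hvi) p)) (hu.1 q)
      rwa [show i - b p + (D.a - j - i + b q) = D.a - j + b q - b p by ring] at this
    rw [hU' _ e2, Matrix.mul_vecMulVec, trace_vecMulVec, dotProduct_comm] at e1
    rw [dotProduct_sub, map_sub, e1, sub_self]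
  refine ⟨U, ⟨hU, fun i x hx => ?_⟩, fun i v hvi => ?_⟩
  · have e1 : D.evv (D.secv b i x) = x := D.evv_secv (hE.le i hx)
    obtain ⟨z, hz, -, hz'⟩ := key i ⟨D.secv b i x, (hc.memJ i _ (D.secv_mem i x)).2 (by
      rw [e1]; exact hx)⟩ (D.secv_mem i x)
    simp only [e1] at hz'
    have := Submodule.add_mem _ (hE.le _ hz') (D.evv_mem_FV hz)
    rwa [sub_add_cancel] at this
  · obtain ⟨z, hz, hz1, hz2⟩ := key i v hvi
    have e1 := (hc.cl_zero (i + j) _ (hE.le _ hz2)).2 hz2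
    rw [map_sub, hc.cl_evv _ z hz, sub_eq_zero] at e1
    rw [hz1, e1]

end Md

end Pool.Agent.Lib.MP_86e60f_al.HW
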