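import Mathlib
import Pool.Agent.Lib.MP_86e60f_al.HW.Stmt2

set_option autoImplicit false

open MvPolynomial Module Matrix

namespace Pool.Agent.Lib.MP_86e60f_al.HW

namespace Rho2

variable {k : Type*} [Field k] {w : Fin 3 → ℤ}

/-- The part of weight `j` of a power series is a polynomial. -/
theorem exists_part (hw : ∀ l, 0 < w l) (x : MvPowerSeries (Fin 3) k) (j : ℤ) :
    ∃ q ∈ Qd (k := k) w j, ∀ α, Finsupp.weight w α = j →
      MvPolynomial.coeff α q = MvPowerSeries.coeff α x := by
  classical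
  have hfin : {α : Fin 3 →₀ ℕ | Finsupp.weight w α = j}.Finite := by
    refine Set.Finite.subset (Set.finite_Iic (Finsupp.equivFunOnFinite.symm fun _ => j.toNat)) ?_
    intro α hα l
    have := le_weight' hw α l
    simp only [Set.mem_ofPred_eq] at hα
    simp only [Finsupp.equivFunOnFinite_symm_apply_apply]
    omega
  refine ⟨∑ β ∈ hfin.toFinset, monomial β (MvPowerSeries.coeff β x),
    Submodule.sum_mem _ fun β hβ => ?_, fun α hα => ?_⟩
  · have h1 : Finsupp.weight w β = j := hfin.mem_toFinset.1 hβ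
    rw [← h1]
    exact Qd_monomial β _
  · rw [coeff_sum, Finset.sum_eq_single α]
    · rw [coeff_monomial, if_pos rfl]
    · intro β _ hβ
      rw [coeff_monomial, if_neg hβ]
    · intro h
      exact absurd (hfin.mem_toFinset.2 hα) h

/-- The power series glued from polynomials, one for each weight. -/
noncomputable def gl (w : Fin 3 → ℤ) (q : ℤ → Q k) : MvPowerSeries (Fin 3) k :=
  fun α => MvPolynomial.coeff α (q (Finsupp.weight w α))

theorem coeff_gl (q : ℤ → Q k) (α : Fin 3 →₀ ℕ) :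
    MvPowerSeries.coeff α (gl w q) = MvPolynomial.coeff α (q (Finsupp.weight w α)) := rfl

theorem coeff_gl_mul (q : ℤ → Q k) {d : ℤ} {f : Q k} (hf : f ∈ Qd w d) (α : Fin 3 →₀ ℕ) :
    MvPowerSeries.coeff α (gl w q * (f : MvPowerSeries (Fin 3) k)) =
      MvPolynomial.coeff α (q (Finsupp.weight w α - d) * f) := by
  classical
  rw [MvPowerSeries.coeff_mul, MvPolynomial.coeff_mul]
  refine Finset.sum_congr rfl fun p hp => ?_
  rw [MvPolynomial.coeff_coe, coeff_gl]
  by_cases h : MvPolynomial.coeff p.2 f = 0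
  · rw [h, mul_zero, mul_zero]
  · have h1 : Finsupp.weight w p.2 = d := hf h
    have h2 : p.1 + p.2 = α := Finset.HasAntidiagonal.mem_antidiagonal.1 hp
    rw [← h2, map_add, h1, add_sub_cancel_right]

end Rho2

namespace Md

variable {k L : Type*} [Field k] [CommRing L] [Algebra k L]

theorem Rho2_coe (D : Md k L) (ρ : MvPowerSeries (Fin 3) k →+* HahnSeries ℤ L) (h : D.SRho1 ρ)
    {q : Q k} (hq : q ∈ D.P) : ρ (q : MvPowerSeries (Fin 3) k) = 0 := by
  classical
  ext j
  rw [h _ j _ (hc_mem j q) fun α hα => ?_, D.ev_P (D.hc_P hq j), HahnSeries.coeff_zero]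
  rw [coeff_weightedHomogeneousComponent, if_pos hα, MvPolynomial.coeff_coe]

/-- Kernel, range and constant term of the parametrisation. -/
theorem sRho (D : Md k L) (ρ : MvPowerSeries (Fin 3) k →+* HahnSeries ℤ L) (h : D.SRho1 ρ) :
    D.SRho ρ := by
  classical
  refine ⟨le_antisymm (fun x hx => ?_) ?_, fun F => ⟨fun hF => ?_, ?_⟩, fun x => ?_⟩
  · choose q hq hq' using Rho2.exists_part D.hw x
    have hP : ∀ j, q j ∈ D.P := fun j => by
      rw [D.mem_P_iff (hq j), ← h x j (q j) (hq j) (hq' j), RingHom.mem_ker.1 hx,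
        HahnSeries.coeff_zero]
    choose a b hab using fun j => Ideal.mem_span_pair.1 (hP j)
    refine Ideal.mem_span_pair.2
      ⟨Rho2.gl D.w fun i => a (i + D.d), Rho2.gl D.w fun i => b (i + D.e), ?_⟩
    ext α
    rw [map_add, Rho2.coeff_gl_mul _ D.hf, Rho2.coeff_gl_mul _ D.hg, sub_add_cancel,
      sub_add_cancel, ← MvPolynomial.coeff_add, hab, hq' _ α rfl]
  · refine Ideal.span_le.2 ?_
    rintro x (rfl | rfl)
    · exact D.Rho2_coe ρ h D.f_mem_P
    · exact D.Rho2_coe ρ h D.g_mem_P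
  · refine ⟨Rho2.gl D.w fun j => D.sec j (F.coeff j), ?_⟩
    ext j
    rw [h _ j _ (D.sec_mem j (F.coeff j)) fun α hα => ?_, D.ev_sec j (hF j)]
    rw [Rho2.coeff_gl, hα]
  · rintro ⟨x, rfl⟩ j
    obtain ⟨q, hq, hq'⟩ := Rho2.exists_part D.hw x j
    rw [h x j q hq hq']
    exact D.ev_mem_V hq
  · rw [h x 0 _ (Qd_C (MvPowerSeries.constantCoeff x)) fun α hα => ?_]
    · exact aeval_C _ _
    · have h0 : α = 0 := by
        ext l
        have := le_weight' D.hw α l
        simp only [Finsupp.coe_zero, Pi.zero_apply]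
        omega
      rw [h0, coeff_zero_C, MvPowerSeries.coeff_zero_eq_constantCoeff_apply]

end Md

end Pool.Agent.Lib.MP_86e60f_al.HW
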