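import Mathlib
import Pool.Agent.Lib.MP_86e60f_al.HW.Rho2

set_option autoImplicit false

open MvPolynomial

namespace Pool.Agent.Lib.MP_86e60f_al.HW.Md

variable {k L : Type*} [Field k] [CommRing L] [Algebra k L] (D : Md k L)

theorem g_notMem : (D.g : MvPowerSeries (Fin 3) k) ∉
    Ideal.span {(D.f : MvPowerSeries (Fin 3) k)} := by
  intro h
  obtain ⟨x, hx⟩ := Ideal.mem_span_singleton'.1 h
  choose q hq hq' using Rho2.exists_part D.hw x
  have h1 : x = Rho2.gl D.w q := by
    ext α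
    rw [Rho2.coeff_gl, hq' _ α rfl]
  have h2 : q (D.e - D.d) * D.f = 1 * D.g := by
    ext α
    rw [one_mul]
    by_cases hα : Finsupp.weight D.w α = D.e
    · rw [← hα, ← Rho2.coeff_gl_mul q D.hf, ← h1, hx, MvPolynomial.coeff_coe]
    · have h3 := Qd_mul (hq (D.e - D.d)) D.hf
      rw [sub_add_cancel] at h3
      rw [IsWeightedHomogeneous.coeff_eq_zero h3 α hα,
        IsWeightedHomogeneous.coeff_eq_zero D.hg α hα]
  obtain ⟨r, -, hr⟩ := D.hsyz _ _ h2
  have h4 := congrArg constantCoeff hr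
  have h5 : constantCoeff D.f = 0 :=
    IsWeightedHomogeneous.coeff_eq_zero D.hf 0 (by rw [map_zero]; exact D.hd.ne)
  rw [map_one, map_mul, h5, mul_zero] at h4
  exact one_ne_zero h4

end Pool.Agent.Lib.MP_86e60f_al.HW.Md
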