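import Mathlib
import Pool.Agent.Lib.MP_86e60f_al.HW.Stmt2

set_option autoImplicit false

open MvPolynomial Module Matrix

namespace Pool.Agent.Lib.MP_86e60f_al.HW

namespace Md

variable {k L : Type*} [Field k] [CommRing L] [Algebra k L] (D : Md k L)
  {I : Submodule k (HahnSeries ℤ L)} {v v' : HahnSeries ℤ L}

theorem Grad_mem {F : HahnSeries ℤ L} :
    F ∈ I.map (LinearMap.mulLeft k v) ↔ ∃ g ∈ I, v * g = F := Submodule.mem_map

theorem Grad_mem' (h : v * v' = 1) {F : HahnSeries ℤ L} :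
    F ∈ I.map (LinearMap.mulLeft k v) ↔ v' * F ∈ I := by
  rw [Grad_mem]
  constructor
  · rintro ⟨g, hg, rfl⟩
    rwa [← mul_assoc, mul_comm v', h, one_mul]
  · intro hF
    exact ⟨_, hF, by rw [← mul_assoc, h, one_mul]⟩

theorem Grad_HT {b : ℤ} {F : HahnSeries ℤ L} (hv : v ∈ D.HT 0) (hF : F ∈ D.HT b) :
    v * F ∈ D.HT b := by
  simpa using D.HT_mul hv hF

theorem Grad_low {b : ℤ} (hv : v ∈ D.HT 0) (hb : I ≤ D.HT b) :
    I.map (LinearMap.mulLeft k v) ≤ D.HT b := by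
  intro F hF
  obtain ⟨g, hg, rfl⟩ := Grad_mem.1 hF
  exact D.Grad_HT hv (hb hg)

theorem Grad_big {N : ℤ} (hv' : v' ∈ D.HT 0) (h : v * v' = 1) (hN : D.HT N ≤ I) :
    D.HT N ≤ I.map (LinearMap.mulLeft k v) := fun _ hF =>
  (Grad_mem' h).2 (hN (D.Grad_HT hv' hF))

theorem Grad_lat (hv : v ∈ D.HT 0) (hv' : v' ∈ D.HT 0) (h : v * v' = 1) (hI : D.SLat I) :
    D.SLat (I.map (LinearMap.mulLeft k v)) := by
  refine ⟨hI.low.imp fun _ hb => D.Grad_low hv hb, fun a ha F hF => ?_,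
    hI.big.imp fun _ hN => D.Grad_big hv' h hN⟩
  rw [Grad_mem' h] at hF ⊢
  rw [mul_left_comm]
  exact hI.mul a ha _ hF

theorem Grad_rig (hv' : v' ∈ D.HT 0) (h : v * v' = 1) (hR : D.Rig I) :
    D.Rig (I.map (LinearMap.mulLeft k v)) := by
  intro Φ hΦ
  suffices hA : D.Adm I (LinearMap.mulLeft k v' ∘ₗ Φ ∘ₗ LinearMap.mulLeft k v) by
    obtain ⟨U, hU, h1⟩ := hR _ hA
    refine ⟨U, hU, fun F hF => ?_⟩
    obtain ⟨g, hg, rfl⟩ := Grad_mem.1 hF
    have h2 : v' * Φ (v * g) - U * g ∈ I := h1 g hg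
    rw [Grad_mem' h]
    convert h2 using 1
    linear_combination (-(U * g)) * h
  refine ⟨?_, ?_⟩
  · obtain ⟨b, hb⟩ := hΦ.low
    exact ⟨b, fun g hg => D.Grad_HT hv' (hb _ (Grad_mem.2 ⟨g, hg, rfl⟩))⟩
  · intro a ha g hg
    have h2 := (Grad_mem' h).1 (hΦ.lin a ha _ (Grad_mem.2 ⟨g, hg, rfl⟩))
    change v' * Φ (v * (a * g)) - a * (v' * Φ (v * g)) ∈ I
    rw [mul_left_comm v a g]
    convert h2 using 1
    ring

/-- The step statement with integer degrees. -/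
def GradStep (I : Submodule k (HahnSeries ℤ L)) (m : ℕ) : Prop :=
  ∃ w ∈ D.H m, ∀ j : ℤ, ∀ F ∈ I, (∀ i : ℤ, i < j + m → i ≠ j → F.coeff i = 0) →
    F.coeff (j + m) - w * F.coeff j ∈ D.Ld I (j + m)

theorem Grad_step (hD : D.Dom) {m : ℕ} (hm : 0 < m) (hP : D.Pm I m) (hS : D.GradStep I m) :
    ∃ v ∈ D.HT 0, ∃ v' ∈ D.HT 0, v * v' = 1 ∧ D.Pm (I.map (LinearMap.mulLeft k v)) (m + 1) := by
  have := hD.1
  obtain ⟨w, hw, hS⟩ := hS
  obtain ⟨v, hv⟩ : ∃ v : HahnSeries ℤ L, v = 1 - HahnSeries.single (m : ℤ) w := ⟨_, rfl⟩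
  have hc : ∀ (X : HahnSeries ℤ L) (i : ℤ),
      (v * X).coeff i = X.coeff i - w * X.coeff (i - m) := by
    intro X i
    rw [hv, sub_mul, one_mul, HahnSeries.coeff_sub, coeff_single_mul']
  have h0 : v ∈ D.HT 0 := hv ▸ Submodule.sub_mem _ (D.RR_le_HT D.one_mem_RR)
    (D.HT_anti (Int.natCast_nonneg m) (D.single_HT hw))
  have h1 : v.coeff 0 = 1 := by
    rw [hv, HahnSeries.coeff_sub, HahnSeries.coeff_single_of_ne (by omega), HahnSeries.coeff_one,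
      if_pos rfl, sub_zero]
  obtain ⟨v', h2, h3⟩ := D.exists_inv hD h0 (by rw [h1]; exact one_ne_zero)
  rw [neg_zero] at h2
  refine ⟨v, h0, v', h2, h3, fun j c hc' => ?_⟩
  obtain ⟨G, hG, hGj, rfl⟩ := D.mem_Ld.1 hc'
  have k1 := D.Grad_HT h2 hGj
  have k2 : (v' * G).coeff j = G.coeff j := by
    have := hc (v' * G) j
    rw [← mul_assoc, h3, one_mul, k1.2 (j - m) (by omega), mul_zero, sub_zero] at this
    exact this.symm
  obtain ⟨F0, hF0, e0, g0⟩ := hP j _ (D.mem_Ld.2 ⟨_, (Grad_mem' h3).1 hG, k1, k2⟩)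
  obtain ⟨F1, hF1, t1, e1⟩ := D.mem_Ld.1 (hS j F0 hF0 g0)
  have z : ∀ i, i < j + m → i ≠ j → (F0 - F1).coeff i = 0 := fun i hi hij => by
    rw [HahnSeries.coeff_sub, g0 i hi hij, t1.2 i hi, sub_zero]
  have zj : (F0 - F1).coeff j = F0.coeff j := by
    rw [HahnSeries.coeff_sub, t1.2 j (by omega), sub_zero]
  refine ⟨v * (F0 - F1), Grad_mem.2 ⟨_, I.sub_mem hF0 hF1, rfl⟩, ?_, fun i hi hij => ?_⟩
  · rw [hc, zj, z (j - m) (by omega) (by omega), mul_zero, sub_zero, e0]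
  · rw [hc]
    by_cases h : i = j + m
    · rw [h, add_sub_cancel_right, zj, HahnSeries.coeff_sub, e1]
      ring
    · push_cast at hi
      rw [z i (by omega) hij, z (i - m) (by omega) (by omega), mul_zero, sub_zero]

theorem Grad_iter (hD : D.Dom)
    (hS : ∀ I', D.SLat I' → D.Rig I' → ∀ m : ℕ, 0 < m → D.Pm I' m → D.GradStep I' m)
    (hI : D.SLat I) (hR : D.Rig I) (m : ℕ) :
    ∃ v ∈ D.HT 0, ∃ v' ∈ D.HT 0, v * v' = 1 ∧ D.Pm (I.map (LinearMap.mulLeft k v)) (m + 1) := by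
  induction m with
  | zero =>
    refine ⟨1, D.RR_le_HT D.one_mem_RR, 1, D.RR_le_HT D.one_mem_RR, mul_one _, fun j c hc => ?_⟩
    obtain ⟨F, h1, h2, h3⟩ := D.mem_Ld.1 hc
    exact ⟨F, h1, h3, fun i hi hij => h2.2 i (by push_cast at hi; omega)⟩
  | succ m ih =>
    obtain ⟨v, hv, v', hv', h, hP⟩ := ih
    obtain ⟨u, hu, u', hu', h', hQ⟩ := D.Grad_step hD m.succ_pos hP
      (hS _ (D.Grad_lat hv hv' h hI) (D.Grad_rig hv' h hR) _ m.succ_pos hP)
    refine ⟨u * v, D.Grad_HT hu hv, v' * u', D.Grad_HT hv' hu', ?_, ?_⟩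
    · linear_combination (u * u') * h + h'
    · rwa [LinearMap.mulLeft_mul, Submodule.map_comp]

theorem Grad_grd {b N : ℤ} {m : ℕ} (hb : I ≤ D.HT b) (hN : D.HT N ≤ I) (hm : N ≤ b + m)
    (hP : D.Pm I m) : Grd I := by
  have h1 : ∀ j, ∀ c ∈ D.Ld I j, HahnSeries.single j c ∈ I := by
    intro j c hc
    obtain ⟨F, hF, rfl, hg⟩ := hP j c hc
    by_cases hj : j < b
    · rw [(hb hF).2 j hj, map_zero]
      exact I.zero_mem
    have k1 : F - HahnSeries.single j (F.coeff j) ∈ D.HT N := by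
      refine ⟨Submodule.sub_mem _ (hb hF).1 (D.single_HT ((hb hF).1 j)).1, fun i hi => ?_⟩
      rw [HahnSeries.coeff_sub]
      by_cases h : i = j
      · rw [h, HahnSeries.coeff_single_same, sub_self]
      · rw [HahnSeries.coeff_single_of_ne h, hg i (by omega) h, sub_zero]
    simpa using I.sub_mem hF (hN k1)
  have h2 : ∀ r : ℕ, ∀ F ∈ I, F ∈ D.HT (N - r) → ∀ j, HahnSeries.single j (F.coeff j) ∈ I := by
    intro r
    induction r with
    | zero =>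
      intro F _ hF j
      by_cases hj : j < N
      · rw [hF.2 j (by simpa using hj), map_zero]
        exact I.zero_mem
      · exact hN (D.HT_anti (not_lt.1 hj) (D.single_HT (hF.1 j)))
    | succ r ih =>
      intro F hF hT j
      obtain ⟨l, hl⟩ : ∃ l : ℤ, l = N - (r + 1 : ℕ) := ⟨_, rfl⟩
      rw [← hl] at hT
      have k1 := h1 l _ (D.mem_Ld.2 ⟨F, hF, hT, rfl⟩)
      by_cases hj : j = l
      · rwa [hj]
      have k2 : F - HahnSeries.single l (F.coeff l) ∈ D.HT (N - r) := by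
        refine ⟨Submodule.sub_mem _ hT.1 (D.single_HT (hT.1 l)).1, fun i hi => ?_⟩
        rw [HahnSeries.coeff_sub]
        by_cases h : i = l
        · rw [h, HahnSeries.coeff_single_same, sub_self]
        · rw [HahnSeries.coeff_single_of_ne h, hT.2 i (by push_cast at hl; omega), sub_zero]
      have k3 := ih _ (I.sub_mem hF k1) k2 j
      rwa [HahnSeries.coeff_sub, HahnSeries.coeff_single_of_ne hj, sub_zero] at k3
  exact fun F hF => h2 (N - b).toNat F hF (D.HT_anti (by omega) (hb hF))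

theorem sGrad (I : Submodule k (HahnSeries ℤ L)) (hD : D.Dom)
    (hS : ∀ I', D.SLat I' → D.Rig I' → ∀ m : ℕ, 0 < m → D.Pm I' m → D.GradStep I' m)
    (hI : D.SLat I) (hR : D.Rig I) : D.SGrad I := by
  obtain ⟨b, hb⟩ := hI.low
  obtain ⟨N, hN⟩ := hI.big
  obtain ⟨v, hv, v', hv', h, hP⟩ := D.Grad_iter hD hS hI hR (N - b).toNat
  exact ⟨v, hv, v', hv', h, D.Grad_grd (D.Grad_low hv hb) (D.Grad_big hv' h hN)
    (by push_cast; omega) hP, D.Grad_lat hv hv' h hI, D.Grad_rig hv' h hR⟩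

end Md

end Pool.Agent.Lib.MP_86e60f_al.HW
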