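import Mathlib
import Pool.Agent.Lib.MP_86e60f_al.HW.Stmt3
import Pool.Agent.Lib.MP_86e60f_al.HW.Grad

set_option autoImplicit false

open MvPolynomial Module Matrix

namespace Pool.Agent.Lib.MP_86e60f_al.HW

namespace Md

variable {k L : Type*} [Field k] [CommRing L] [Algebra k L] (D : Md k L)
  {I : Submodule k (HahnSeries ℤ L)} {v v' : HahnSeries ℤ L} {a : ℕ → L}

theorem Grad2_Dh (hv' : v' ∈ D.HT 0) (c : ℕ) : Dh k 0 c v' ∈ D.HT 0 :=
  ⟨fun j => by rw [coeff_Dh]; exact zsmul_mem (hv'.1 j) _,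
    fun j hj => by rw [coeff_Dh, hv'.2 j hj, smul_zero]⟩

theorem Grad2_su (hT : D.STrans) (hv : v ∈ D.HT 0) (hv' : v' ∈ D.HT 0) (h : v * v' = 1)
    (h1 : v.coeff 0 = 1) (h2 : v'.coeff 0 = 1) (hU : D.SU2 I a) :
    D.SU2 (I.map (LinearMap.mulLeft k v)) a := by
  have k1 := (hT I v hv.1 v' hv'.1 h).2.2 a (fun c => D.Grad_HT hv (D.Grad2_Dh hv' c)) hU
  have k2 : ∀ c : ℕ, (v * Dh k 0 c v').coeff 0 = (Ring.choose (0 : ℤ) c : ℤ) • (1 : L) := by
    intro c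
    have := coeff_mul_lead hv.2 (D.Grad2_Dh hv' c).2
    rwa [add_zero, h1, one_mul, coeff_Dh, sub_zero, h2] at this
  convert k1 using 2 with r
  rw [Finset.sum_eq_single (r, 0)]
  · rw [k2, Ring.choose_zero_right, one_smul, mul_one]
  · intro p hp hne
    have k3 : 0 < p.2 := by
      have := Finset.HasAntidiagonal.mem_antidiagonal.1 hp
      by_contra h0
      exact hne (Prod.ext (by dsimp only; omega) (by dsimp only; omega))
    rw [k2, Ring.choose_zero_pos _ k3, zero_smul, mul_zero]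
  · intro hn
    exact absurd (Finset.HasAntidiagonal.mem_antidiagonal.2 (Nat.add_zero r)) hn

theorem Grad2_step {m : ℕ} (hm : 0 < m) (hP : D.Pm I m) (hS : D.SStepZ I m) :
    ∃ v ∈ D.HT 0, ∃ v' ∈ D.HT 0, v * v' = 1 ∧ v.coeff 0 = 1 ∧ v'.coeff 0 = 1 ∧
      D.Pm (I.map (LinearMap.mulLeft k v)) (m + 1) := by
  obtain ⟨w, hw, hS⟩ := hS
  obtain ⟨v, hv⟩ : ∃ v : HahnSeries ℤ L, v = 1 - HahnSeries.single (m : ℤ) w := ⟨_, rfl⟩
  have hc : ∀ (X : HahnSeries ℤ L) (i : ℤ),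
      (v * X).coeff i = X.coeff i - w * X.coeff (i - m) := by
    intro X i
    rw [hv, sub_mul, one_mul, HahnSeries.coeff_sub, coeff_single_mul']
  have h0 : v ∈ D.HT 0 := hv ▸ Submodule.sub_mem _ (D.RR_le_HT D.one_mem_RR)
    (D.HT_anti (Int.natCast_nonneg m) (D.single_HT hw))
  have h1 : v.coeff 0 = 1 := by
    rw [hv, HahnSeries.coeff_sub, HahnSeries.coeff_single_of_ne (by omega), HahnSeries.coeff_one,
      if_pos rfl, sub_zero]
  obtain ⟨v', h2, h3, h4⟩ := D.exists_inv_one h0 h1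
  refine ⟨v, h0, v', h2, h3, h1, h4, fun j c hc' => ?_⟩
  obtain ⟨G, hG, hGj, rfl⟩ := D.mem_Ld.1 hc'
  have k1 := D.Grad_HT h2 hGj
  have k2 : (v' * G).coeff j = G.coeff j := by
    have := hc (v' * G) j
    rw [← mul_assoc, h3, one_mul, k1.2 (j - m) (by omega), mul_zero, sub_zero] at this
    exact this.symm
  obtain ⟨F0, hF0, e0, g0⟩ := hP j _ (D.mem_Ld.2 ⟨_, (Grad_mem' h3).1 hG, k1, k2⟩)
  obtain ⟨F1, hF1, t1, e1⟩ := D.mem_Ld.1 (hS j F0 hF0 g0)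
  have z : ∀ i, i < j + m → i ≠ j → (F0 - F1).coeff i = 0 := fun i hi hij => by
    rw [HahnSeries.coeff_sub, g0 i hi hij, t1.2 i hi, sub_zero]
  have zj : (F0 - F1).coeff j = F0.coeff j := by
    rw [HahnSeries.coeff_sub, t1.2 j (by omega), sub_zero]
  refine ⟨v * (F0 - F1), Grad_mem.2 ⟨_, I.sub_mem hF0 hF1, rfl⟩, ?_, fun i hi hij => ?_⟩
  · rw [hc, zj, z (j - m) (by omega) (by omega), mul_zero, sub_zero, e0]
  · rw [hc]
    by_cases h : i = j + m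
    · rw [h, add_sub_cancel_right, zj, HahnSeries.coeff_sub, e1]
      ring
    · push_cast at hi
      rw [z i (by omega) hij, z (i - m) (by omega) (by omega), mul_zero, sub_zero]

theorem Grad2_iter (hT : D.STrans)
    (hS : ∀ I', D.SLat I' → D.SU2 I' a → ∀ m : ℕ, 0 < m → D.Pm I' m → D.SStepZ I' m)
    (hI : D.SLat I) (hU : D.SU2 I a) (m : ℕ) :
    ∃ v ∈ D.HT 0, ∃ v' ∈ D.HT 0, v * v' = 1 ∧ D.SU2 (I.map (LinearMap.mulLeft k v)) a ∧
      D.Pm (I.map (LinearMap.mulLeft k v)) (m + 1) := by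
  induction m with
  | zero =>
    have h1 := D.RR_le_HT D.one_mem_RR
    refine ⟨1, h1, 1, h1, mul_one _, D.Grad2_su hT h1 h1 (mul_one _) (by simp) (by simp) hU,
      fun j c hc => ?_⟩
    obtain ⟨F, h1, h2, h3⟩ := D.mem_Ld.1 hc
    exact ⟨F, h1, h3, fun i hi hij => h2.2 i (by push_cast at hi; omega)⟩
  | succ m ih =>
    obtain ⟨v, hv, v', hv', h, hU', hP⟩ := ih
    obtain ⟨u, hu, u', hu', h', e1, e2, hQ⟩ := D.Grad2_step m.succ_pos hP
      (hS _ (D.Grad_lat hv hv' h hI) hU' _ m.succ_pos hP)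
    refine ⟨u * v, D.Grad_HT hu hv, v' * u', D.Grad_HT hv' hu', ?_, ?_⟩
    · linear_combination (u * u') * h + h'
    · rw [LinearMap.mulLeft_mul, Submodule.map_comp]
      exact ⟨D.Grad2_su hT hu hu' h' e1 e2 hU', hQ⟩

theorem sGrad2 (I : Submodule k (HahnSeries ℤ L)) (a : ℕ → L) (hT : D.STrans)
    (hS : ∀ I', D.SLat I' → D.SU2 I' a → ∀ m : ℕ, 0 < m → D.Pm I' m → D.SStepZ I' m)
    (hI : D.SLat I) (hR : D.Rig I) (hU : D.SU2 I a) : D.SGrad I := by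
  obtain ⟨b, hb⟩ := hI.low
  obtain ⟨N, hN⟩ := hI.big
  obtain ⟨v, hv, v', hv', h, -, hP⟩ := D.Grad2_iter hT hS hI hU (N - b).toNat
  exact ⟨v, hv, v', hv', h, D.Grad_grd (D.Grad_low hv hb) (D.Grad_big hv' h hN)
    (by push_cast; omega) hP, D.Grad_lat hv hv' h hI, D.Grad_rig hv' h hR⟩

end Md

end Pool.Agent.Lib.MP_86e60f_al.HW
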