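import Mathlib
import Pool.Agent.Lib.MP_86e60f_al.HW.Stmt2

set_option autoImplicit false

open MvPolynomial Module Matrix

namespace Pool.Agent.Lib.MP_86e60f_al.HW

namespace Md

variable {k L : Type*} [Field k] [CommRing L] [Algebra k L] (D : Md k L)
  (I : Submodule k (HahnSeries ℤ L))

theorem gv_single (hG : Grd I) {j : ℤ} {c : L} (hc : c ∈ D.Ld I j) :
    HahnSeries.single j c ∈ I := by
  obtain ⟨F, hF, -, rfl⟩ := D.mem_Ld.1 hc
  exact hG F hF j

theorem gv_H {j : ℤ} {c : L} (hc : c ∈ D.Ld I j) : c ∈ D.H j := by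
  obtain ⟨F, -, hF, rfl⟩ := D.mem_Ld.1 hc
  exact hF.1 j

theorem gv_ld (hI : D.SLat I) {j : ℤ} {c : L} (hc : HahnSeries.single j c ∈ I) :
    c ∈ D.Ld I j := by
  obtain ⟨b, hb⟩ := hI.low
  have h1 := (hb hc).1 j
  rw [HahnSeries.coeff_single_same] at h1
  exact D.mem_Ld.2 ⟨_, hc, D.single_HT h1, HahnSeries.coeff_single_same _ _⟩

theorem gv_coeff (hG : Grd I) (hI : D.SLat I) {F : HahnSeries ℤ L} (hF : F ∈ I) (j : ℤ) :
    F.coeff j ∈ D.Ld I j :=
  D.gv_ld I hI (hG F hF j)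

theorem gv_big (hI : D.SLat I) {N : ℤ} (hN : D.HT N ≤ I) {j : ℤ} (hj : N ≤ j) {c : L}
    (hc : c ∈ D.H j) : c ∈ D.Ld I j :=
  D.gv_ld I hI (hN (D.HT_anti hj (D.single_HT hc)))

theorem gv_sum_coeff (s : Finset ℤ) (j : ℤ) (f : ℤ → L) (l : ℤ) :
    (∑ i ∈ s, HahnSeries.single (i + j) (f i) : HahnSeries ℤ L).coeff l =
      if l - j ∈ s then f (l - j) else 0 := by
  rw [HahnSeries.coeff_sum]
  split_ifs with h
  · rw [Finset.sum_eq_single (l - j)]
    · rw [sub_add_cancel, HahnSeries.coeff_single_same]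
    · intro i _ hi
      exact HahnSeries.coeff_single_of_ne (by omega)
    · intro h'
      exact absurd h h'
  · refine Finset.sum_eq_zero fun i hi => HahnSeries.coeff_single_of_ne ?_
    rintro rfl
    exact h (by simpa using hi)

/-- Membership in a graded lattice is tested on finitely many coefficients. -/
theorem gv_mem (hG : Grd I) {N : ℤ} (hN : D.HT N ≤ I) {F : HahnSeries ℤ L} (hF : F ∈ D.HH)
    (h : ∀ l, l < N → F.coeff l ∈ D.Ld I l) : F ∈ I := by
  obtain ⟨b, hb⟩ := exists_low F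
  let G : HahnSeries ℤ L := ∑ i ∈ Finset.Ico b N, HahnSeries.single (i + 0) (F.coeff i)
  have hGI : G ∈ I := Submodule.sum_mem _ fun i hi => by
    rw [add_zero]
    exact D.gv_single I hG (h i (Finset.mem_Ico.1 hi).2)
  have hc : ∀ l, G.coeff l = if l ∈ Finset.Ico b N then F.coeff l else 0 := fun l => by
    have := gv_sum_coeff (Finset.Ico b N) 0 F.coeff l
    rwa [sub_zero] at this
  have ht : F - G ∈ D.HT N := by
    refine ⟨fun l => ?_, fun l hl => ?_⟩
    · rw [HahnSeries.coeff_sub, hc]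
      split_ifs
      · rw [sub_self]
        exact Submodule.zero_mem _
      · rw [sub_zero]
        exact hF l
    · rw [HahnSeries.coeff_sub, hc]
      split_ifs with h1
      · exact sub_self _
      · rw [sub_zero]
        refine hb l ?_
        rw [Finset.mem_Ico] at h1
        omega
  have := I.add_mem (hN ht) hGI
  rwa [sub_add_cancel] at this

theorem gv_rig (hG : Grd I) (hI : D.SLat I) (hR : D.Rig I) (j : ℤ) (ψ : ℤ → L →ₗ[k] L)
    (h1 : ∀ i, ∀ c ∈ D.Ld I i, ψ i c ∈ D.H (i + j))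
    (h2 : ∀ s i, ∀ v ∈ D.V s, ∀ c ∈ D.Ld I i,
      ψ (i + s) (v * c) - v * ψ i c ∈ D.Ld I (i + s + j)) :
    ∃ u ∈ D.H j, ∀ i, ∀ c ∈ D.Ld I i, ψ i c - u * c ∈ D.Ld I (i + j) := by
  obtain ⟨b, hb⟩ := hI.low
  obtain ⟨N, hN⟩ := hI.big
  let Φ : HahnSeries ℤ L →ₗ[k] HahnSeries ℤ L := ∑ i ∈ Finset.Ico b (N - j),
    HahnSeries.single.linearMap (i + j) ∘ₗ ψ i ∘ₗ HahnSeries.coeff.linearMap i
  have hc : ∀ F l, (Φ F).coeff l =
      if l - j ∈ Finset.Ico b (N - j) then ψ (l - j) (F.coeff (l - j)) else 0 := fun F l => by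
    rw [← gv_sum_coeff (Finset.Ico b (N - j)) j (fun i => ψ i (F.coeff i)) l]
    simp only [Φ, LinearMap.sum_apply]
    rfl
  have hlow : ∀ g ∈ I, Φ g ∈ D.HT (b + j) := fun g hg => by
    refine ⟨fun l => ?_, fun l hl => ?_⟩
    · rw [hc]
      split_ifs
      · have := h1 _ _ (D.gv_coeff I hG hI hg (l - j))
        rwa [sub_add_cancel] at this
      · exact Submodule.zero_mem _
    · rw [hc, if_neg]
      rw [Finset.mem_Ico]
      omega
  have hc' : ∀ g ∈ I, ∀ l, l < N → (Φ g).coeff l = ψ (l - j) (g.coeff (l - j)) :=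
    fun g hg l hl => by
      rw [hc]
      split_ifs with h
      · rfl
      · rw [Finset.mem_Ico] at h
        rw [(hb hg).2 (l - j) (by omega), map_zero]
  have hA : D.Adm I Φ := by
    refine ⟨⟨b + j, hlow⟩, fun a ha g hg => ?_⟩
    have hag := hI.mul a ha g hg
    have ha0 := D.RR_le_HT ha
    refine D.gv_mem I hG hN (Submodule.sub_mem _ (hlow _ hag).1 (D.HH_mul ha0.1 (hlow g hg).1))
      fun l hl => ?_
    rw [HahnSeries.coeff_sub, hc' _ hag l hl, coeff_mul_Icc ha0.2 (hb hg).2,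
      coeff_mul_Icc ha0.2 (hlow g hg).2, map_sum, show l - (b + j) = l - j - b by ring,
      ← Finset.sum_sub_distrib]
    refine Submodule.sum_mem _ fun s hs => ?_
    have hs0 := (Finset.mem_Icc.1 hs).1
    have := h2 s (l - j - s) _ (ha s) _ (D.gv_coeff I hG hI hg (l - j - s))
    rw [hc' g hg (l - s) (by omega), show l - s - j = l - j - s by ring]
    rwa [sub_add_cancel, sub_add_cancel] at this
  obtain ⟨U, hU, hUI⟩ := hR Φ hA
  refine ⟨U.coeff j, hU j, fun i c hc0 => ?_⟩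
  by_cases hl : i + j < N
  · have hg := D.gv_single I hG hc0
    have := D.gv_coeff I hG hI (hUI _ hg) (i + j)
    rwa [HahnSeries.coeff_sub, hc' _ hg _ hl, add_sub_cancel_right, HahnSeries.coeff_single_same,
      mul_comm U, coeff_single_mul', add_sub_cancel_left, mul_comm c] at this
  · refine D.gv_big I hI hN (by omega) (Submodule.sub_mem _ (h1 i c hc0) ?_)
    rw [add_comm]
    exact D.H_mul (hU j) (D.gv_H I hc0)

theorem lat_vRig [FiniteDimensional k L] (hG : Grd I) (hI : D.SLat I) (hR : D.Rig I) :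
    ∃ b : Unit → ℤ, D.Lat b (D.EU I) ∧ D.vRig b (D.EU I) := by
  obtain ⟨b0, hb⟩ := hI.low
  obtain ⟨N, hN⟩ := hI.big
  obtain ⟨NV, hV⟩ := D.V_eq_H
  obtain ⟨r, hr0, hr⟩ : ∃ r : ℤ, 0 ≤ r ∧ NV - b0 ≤ r := ⟨max 0 (NV - b0), le_max_left _ _,
    le_max_right _ _⟩
  have hn := D.hn
  have hrn : r ≤ r * D.n := le_mul_of_one_le_right hr0 (by omega)
  have hH : ∀ i, D.H (i - -(r * D.n)) = D.H i := fun i => by
    rw [sub_neg_eq_add, D.H_add_int]
  have hFV : ∀ i (x : Unit → L), x ∈ D.FV (fun _ => -(r * D.n)) i → x () ∈ D.H i :=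
    fun i x hx => by
      rw [← hH]
      exact D.V_le_H _ (D.mem_FV.1 hx ())
  refine ⟨fun _ => -(r * D.n), ⟨fun i x hx => ?_, fun s i v hv x hx => ?_, N, fun i hi => ?_⟩,
    fun j ψ h1 h2 => ?_⟩
  · have hx' := D.mem_EU.1 hx
    refine D.mem_FV.2 fun p => ?_
    change x () ∈ D.V (i - -(r * D.n))
    by_cases h : i < b0
    · obtain ⟨F, hF, -, hF'⟩ := D.mem_Ld.1 hx'
      rw [← hF', (hb hF).2 i h]
      exact Submodule.zero_mem _
    · rw [hV _ (by omega), hH]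
      exact D.gv_H I hx'
  · refine D.mem_EU.2 (D.gv_ld I hI ?_)
    have := hI.mul _ (D.single_RR hv) _ (D.gv_single I hG (D.mem_EU.1 hx))
    rwa [HahnSeries.single_mul_single, add_comm s i] at this
  · refine le_antisymm (fun x hx => ?_) fun x hx => ?_
    · have hx' := D.mem_EU.1 hx
      refine D.mem_FV.2 fun p => ?_
      change x () ∈ D.V (i - -(r * D.n))
      by_cases h : i < b0
      · obtain ⟨F, hF, -, hF'⟩ := D.mem_Ld.1 hx'
        rw [← hF', (hb hF).2 i h]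
        exact Submodule.zero_mem _
      · rw [hV _ (by omega), hH]
        exact D.gv_H I hx'
    · exact D.mem_EU.2 (D.gv_big I hI hN hi (hFV i x hx))
  · let ψ' : ℤ → L →ₗ[k] L := fun i =>
      LinearMap.proj () ∘ₗ ψ i ∘ₗ LinearMap.pi fun _ : Unit => LinearMap.id
    have hψ : ∀ i (c : L), ψ' i c = ψ i (fun _ => c) () := fun _ _ => rfl
    obtain ⟨u, hu, hu'⟩ := D.gv_rig I hG hI hR j ψ'
      (fun i c hc => hFV _ _ (h1 i (fun _ => c) (D.mem_EU.2 hc)))
      (fun s i v hv c hc => D.mem_EU.1 (h2 s i v hv (fun _ => c) (D.mem_EU.2 hc)))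
    refine ⟨Matrix.of fun _ _ => u, fun p q => ?_, fun i x hx => D.mem_EU.2 ?_⟩
    · simpa using hu
    · have := hu' i _ (D.mem_EU.1 hx)
      rw [hψ] at this
      simpa [Matrix.mulVec, dotProduct] using this

theorem gen_of_grd (hG : Grd I) (s : ℤ) (x0 : Unit → L) (hx0 : x0 ∈ D.EU I s) (hI : D.SLat I)
    (h : ∀ i, ∀ x ∈ D.EU I i, ∃ v ∈ D.V (i - s), x = v • x0) :
    ∃ g0 ∈ I, ∀ g ∈ I, ∃ a ∈ D.RR, g = a * g0 := by
  refine ⟨HahnSeries.single s (x0 ()), D.gv_single I hG (D.mem_EU.1 hx0), fun g hg => ?_⟩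
  have h1 : ∀ m, ∃ v ∈ D.V m, g.coeff (m + s) = v * x0 () := fun m => by
    obtain ⟨v, hv, hv'⟩ := h (m + s) (fun _ => g.coeff (m + s))
      (D.mem_EU.2 (D.gv_coeff I hG hI hg _))
    rw [add_sub_cancel_right] at hv
    exact ⟨v, hv, congrFun hv' ()⟩
  choose v hv hv' using h1
  have hbdd : BddBelow (Function.support v) := ⟨0, fun m hm => by
    by_contra h0
    exact hm (D.V_neg (not_le.1 h0) (hv m))⟩
  refine ⟨HahnSeries.ofSuppBddBelow v hbdd, fun m => hv m, ?_⟩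
  ext l
  rw [mul_comm, coeff_single_mul', mul_comm]
  have := hv' (l - s)
  rwa [sub_add_cancel] at this

end Md

end Pool.Agent.Lib.MP_86e60f_al.HW
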