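import Mathlib
import Pool.Agent.Lib.MP_86e60f_al.HW.Stmt2

set_option autoImplicit false

open MvPolynomial Module Matrix
open scoped TensorProduct

namespace Pool.Agent.Lib.MP_86e60f_al.HW

namespace Md

variable {k L : Type*} [Field k] [CommRing L] [Algebra k L]

/-- Over a reduced coordinate ring homogeneous nilpotent elements of the localisation vanish. -/
theorem Idl_red (D : Md k L) (hred : IsReduced (Q k ⧸ D.P)) (i : ℤ) (u : L) (hu : u ∈ D.H i)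
    (hn : IsNilpotent u) : u = 0 := by
  obtain ⟨r, q, hq, rfl⟩ := D.mem_H.1 hu
  obtain ⟨m, hm⟩ := hn
  have h1 : q ^ m ∈ D.P := (D.mem_P_iff (Qd_pow hq m)).2 (by rw [map_pow]; exact hm)
  have h2 : IsNilpotent (Ideal.Quotient.mk D.P q) :=
    ⟨m, by rw [← map_pow]; exact Ideal.Quotient.eq_zero_iff_mem.2 h1⟩
  exact D.ev_P (Ideal.Quotient.eq_zero_iff_mem.1 h2.eq_zero)

/-- The rank one statement for submodules gives the statement for homogeneous ideals. -/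
theorem sIdl (D : Md k L) (h : D.SUnit) : D.SIdl := by
  intro hred I hI hfin htf
  let e : (Q k ⧸ D.P) ≃ₗ[Q k ⧸ D.P] (Unit → Q k ⧸ D.P) :=
    (LinearEquiv.funUnique Unit (Q k ⧸ D.P) (Q k ⧸ D.P)).symm
  have he : ∀ (x : Q k ⧸ D.P) (p : Unit), e x p = x := fun _ _ => rfl
  let M : Submodule (Q k ⧸ D.P) (Unit → Q k ⧸ D.P) := Submodule.map e.toLinearMap I
  have hM : ∀ x : Unit → Q k ⧸ D.P, x ∈ M ↔ x () ∈ I := fun x =>
    ⟨fun ⟨y, hy, hx⟩ => by rw [← hx]; exact hy, fun hx => ⟨x (), hx, rfl⟩⟩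
  have h1 : M ≤ Submodule.span (Q k ⧸ D.P)
      {x | x ∈ M ∧ ∃ i, x ∈ pc D.w (fun _ : Unit => (0 : ℤ)) D.P i} := by
    refine (Submodule.map_mono hI).trans ?_
    rw [Ideal.span, Submodule.map_span]
    refine Submodule.span_mono ?_
    rintro _ ⟨x, ⟨hx, i, q, hq, rfl⟩, rfl⟩
    exact ⟨(hM _).2 hx, i, fun _ => q, fun _ => by simpa using hq, fun _ => rfl⟩
  have h2 : FiniteDimensional k ((Unit → Q k ⧸ D.P) ⧸ M) :=
    ((Submodule.Quotient.equiv I M e rfl).restrictScalars k).finiteDimensional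
  let φ : I ≃ₗ[Q k ⧸ D.P] M := e.submoduleMap I
  have h3 : Module.IsTorsionFree (Q k ⧸ D.P) (M ⊗[Q k ⧸ D.P] Module.Dual (Q k ⧸ D.P) M) := by
    let ψ := TensorProduct.congr φ.symm φ.dualMap
    exact ψ.injective.moduleIsTorsionFree _ (map_smul ψ)
  obtain ⟨E, hD, hc, s, x0, hx0, hx0', hgen⟩ := h M h1 h2 h3 (D.Idl_red hred)
  have hv0 := D.secv_mem (b := fun _ : Unit => (0 : ℤ)) s x0
  have hev0 := D.evv_secv hx0'
  set v0 := D.secv (fun _ : Unit => (0 : ℤ)) s x0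
  have hg0 : Ideal.Quotient.mk D.P (v0 ()) ∈ I :=
    (hM _).1 ((hD v0).1 ((hc.memJ s v0 hv0).2 (by rw [hev0]; exact hx0)))
  refine ⟨Ideal.Quotient.mk D.P (v0 ()), le_antisymm (hI.trans (Ideal.span_le.2 ?_))
    ((Submodule.span_singleton_le_iff_mem _ _).2 hg0)⟩
  rintro _ ⟨hx, i, q, hq, rfl⟩
  have hv : (fun _ : Unit => q) ∈ FQ D.w (fun _ : Unit => (0 : ℤ)) i :=
    mem_FQ.2 fun _ => by simpa using mem_Qd.2 hq
  obtain ⟨_, ⟨p, hp, rfl⟩, hu⟩ := hgen i _ ((hc.memJ i _ hv).1 ((hD _).2 ((hM _).2 hx)))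
  have h4 : p * v0 () ∈ Qd D.w i := by
    simpa using Qd_mul hp (mem_FQ.1 hv0 ())
  have h5 : q - p * v0 () ∈ D.P := by
    refine (D.mem_P_iff (Submodule.sub_mem _ (mem_Qd.2 hq) h4)).2 ?_
    have h6 : D.ev q = D.ev p * x0 () := congrFun hu ()
    have h7 : D.ev (v0 ()) = x0 () := congrFun hev0 ()
    rw [map_sub, map_mul, h6, h7, sub_self]
  refine Submodule.mem_span_singleton.2 ⟨Ideal.Quotient.mk D.P p, ?_⟩
  rw [smul_eq_mul, ← map_mul]
  exact (Ideal.Quotient.eq.2 h5).symm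

end Md

end Pool.Agent.Lib.MP_86e60f_al.HW
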