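import Mathlib
import Pool.Agent.Lib.MP_86e60f_al.HW.Stmt3
import Pool.Agent.Lib.MP_86e60f_al.HW.Fin

set_option autoImplicit false

open MvPolynomial Module Matrix

namespace Pool.Agent.Lib.MP_86e60f_al.HW

namespace Md

variable {k L : Type*} [Field k] [CommRing L] [Algebra k L] [FiniteDimensional k L] (D : Md k L)

omit [FiniteDimensional k L] in
theorem Inv_one : (1 : L) ∈ D.H 0 := D.V_le_H 0 D.one_mem_V_zero

omit [FiniteDimensional k L] in
theorem Inv_mul0 {j : ℤ} {u v : L} (hu : u ∈ D.H 0) (hv : v ∈ D.H j) : u * v ∈ D.H j := by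
  simpa using D.H_mul hu hv

/-- Homogeneous elements have quasi-inverses. -/
theorem Inv_reg (hD : D.Red) {j : ℤ} {c : L} (hc : c ∈ D.H j) :
    ∃ c' ∈ D.H (-j), c * c' * c = c := by
  obtain ⟨m, hm⟩ : ∃ m : ℕ, D.n = (m + 1 : ℕ) := ⟨(D.n - 1).toNat, by have := D.hn; omega⟩
  have hz : c ^ (m + 1) ∈ D.H 0 := by
    have := D.Fin_pow_H hc (m + 1)
    rwa [← hm, show D.n * j = 0 + j * D.n by ring, D.H_add_int] at this
  let B : Subalgebra k L := (D.H 0).toSubalgebra D.Inv_one fun _ _ hx hy => D.Inv_mul0 hx hy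
  have : IsArtinianRing B := IsArtinianRing.of_finite k B
  obtain ⟨r, y, hy⟩ := IsArtinian.exists_pow_succ_smul_dvd (⟨c ^ (m + 1), hz⟩ : B) (1 : B)
  have hy' : (c ^ (m + 1)) ^ (r + 1) * y.1 = (c ^ (m + 1)) ^ r := by
    have := congrArg Subtype.val hy
    simpa using this
  have hy0 : y.1 ∈ D.H 0 := y.2
  have hc' : c ^ m * y.1 ∈ D.H (-j) := by
    have := D.H_mul (D.Fin_pow_H hc m) hy0
    rwa [show (m : ℤ) * j + 0 = -j + j * D.n by rw [hm]; push_cast; ring, D.H_add_int] at this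
  refine ⟨c ^ m * y.1, hc', ?_⟩
  have hu : (1 - c ^ (m + 1) * y.1) * c ∈ D.H j :=
    D.Inv_mul0 (Submodule.sub_mem _ D.Inv_one (D.Inv_mul0 hz hy0)) hc
  have h0 : (c ^ (m + 1)) ^ r * (1 - c ^ (m + 1) * y.1) = 0 := by
    rw [mul_sub, mul_one, ← mul_assoc, ← pow_succ, hy', sub_self]
  have hnil : IsNilpotent ((1 - c ^ (m + 1) * y.1) * c) := by
    refine ⟨(m + 1) * r + 1, ?_⟩
    rw [mul_pow, pow_succ' (1 - c ^ (m + 1) * y.1), pow_succ c ((m + 1) * r), pow_mul c]
    linear_combination (1 - c ^ (m + 1) * y.1) ^ ((m + 1) * r) * c * h0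
  have := hD j _ hu hnil
  linear_combination (-1 : L) * this

/-- One step: a nonzero part of an idempotent is a multiple of `F`. -/
theorem Inv_step (hD : D.Red) {F : HahnSeries ℤ L} (hF : F ∈ D.HH) {e : L} (he : e ∈ D.H 0)
    (hee : e * e = e) (h0 : HahnSeries.single 0 e * F ≠ 0) :
    ∃ ep ∈ D.H 0, ep * ep = ep ∧ e * ep = ep ∧ ep ≠ 0 ∧
      ∃ G ∈ D.HH, F * G = HahnSeries.single 0 ep := by
  set A := HahnSeries.single (0 : ℤ) e * F with hA
  have hE : HahnSeries.single (0 : ℤ) e ∈ D.HH := (D.single_HT he).1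
  have hAH : A ∈ D.HT A.order :=
    ⟨D.HH_mul hE hF, fun _ h => HahnSeries.coeff_eq_zero_of_lt_order h⟩
  set j := A.order with hj
  set c := A.coeff j with hc
  have hc0 : c ≠ 0 := fun h => h0 (HahnSeries.coeff_order_eq_zero.1 h)
  have hce : e * c = c := by
    rw [hc, hA, coeff_single_mul', ← mul_assoc, hee]
  obtain ⟨c', hc', hcc⟩ := D.Inv_reg hD (hAH.1 j)
  rw [← hc] at hcc
  have hep : c * c' ∈ D.H 0 := by simpa using D.H_mul (hAH.1 j) hc'
  have hpp : c * c' * (c * c') = c * c' := by rw [← mul_assoc, hcc]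
  have h1 : A * HahnSeries.single (-j) c' ∈ D.HT 0 := by
    simpa using D.HT_mul hAH (D.single_HT hc')
  have h2 : (A * HahnSeries.single (-j) c').coeff 0 = c * c' := by
    have := coeff_mul_lead hAH.2 (D.single_HT hc').2
    rwa [add_neg_cancel, HahnSeries.coeff_single_same] at this
  obtain ⟨G', hG', hG1, -⟩ := D.exists_inv_one
    (F := A * HahnSeries.single (-j) c' + HahnSeries.single 0 (1 - c * c'))
    (Submodule.add_mem _ h1 (D.single_HT (Submodule.sub_mem _ D.Inv_one hep)))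
    (by rw [HahnSeries.coeff_add, h2, HahnSeries.coeff_single_same]; ring)
  have h3 : HahnSeries.single (0 : ℤ) (c * c') * HahnSeries.single (0 : ℤ) (1 - c * c') = 0 := by
    rw [HahnSeries.single_mul_single, mul_sub, mul_one, hpp, sub_self, map_zero]
  refine ⟨c * c', hep, hpp, by rw [← mul_assoc, hce], fun h => hc0 (by rw [← hcc, h, zero_mul]),
    HahnSeries.single 0 e * HahnSeries.single (-j) c' * HahnSeries.single 0 (c * c') * G',
    D.HH_mul (D.HH_mul (D.HH_mul hE (D.single_HT hc').1) (D.single_HT hep).1) hG'.1, ?_⟩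
  rw [hA] at hG1
  linear_combination HahnSeries.single (0 : ℤ) (c * c') * hG1 - G' * h3

theorem Inv_idem (hD : D.Red) {F : HahnSeries ℤ L} (hF : F ∈ D.HH)
    (hreg : ∀ G ∈ D.HH, F * G = 0 → G = 0) (N : ℕ) : ∀ e ∈ D.H 0, e * e = e →
    finrank k ((D.H 0).map (LinearMap.mulLeft k e)) < N →
    ∃ G ∈ D.HH, F * G = HahnSeries.single 0 e := by
  induction N with
  | zero => intro e _ _ h; omega
  | succ N ih =>
    intro e he hee hN
    by_cases h0 : HahnSeries.single 0 e * F = 0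
    · refine ⟨0, Submodule.zero_mem _, ?_⟩
      rw [mul_zero, hreg _ (D.single_HT he).1 (by rw [mul_comm, h0])]
    obtain ⟨ep, hep, hpp, hepe, hne, G1, hG1, hFG1⟩ := D.Inv_step hD hF he hee h0
    have hlt : (D.H 0).map (LinearMap.mulLeft k (e - ep)) < (D.H 0).map (LinearMap.mulLeft k e) := by
      refine lt_of_le_of_ne ?_ fun h => hne ?_
      · rintro _ ⟨x, hx, rfl⟩
        refine ⟨(e - ep) * x, D.Inv_mul0 (Submodule.sub_mem _ he hep) hx, ?_⟩
        simp only [LinearMap.mulLeft_apply]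
        linear_combination x * hee - x * hepe
      · have hm : ep ∈ (D.H 0).map (LinearMap.mulLeft k e) := ⟨ep, hep, hepe⟩
        rw [← h] at hm
        obtain ⟨x, -, hx⟩ := hm
        simp only [LinearMap.mulLeft_apply] at hx
        linear_combination (-1 : L) * hpp - ep * hx + x * hepe - x * hpp
    obtain ⟨G2, hG2, hFG2⟩ := ih (e - ep) (Submodule.sub_mem _ he hep)
      (by linear_combination hee - 2 * hepe + hpp)
      (by have := Submodule.finrank_lt_finrank_of_lt hlt; omega)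
    refine ⟨G1 + G2, Submodule.add_mem _ hG1 hG2, ?_⟩
    rw [mul_add, hFG1, hFG2, ← HahnSeries.single_add, add_sub_cancel]

theorem sInv (hD : D.Red) : D.SInv := fun _ hF hreg =>
  D.Inv_idem hD hF hreg _ 1 D.Inv_one (one_mul 1) (Nat.lt_succ_self _)

end Md

end Pool.Agent.Lib.MP_86e60f_al.HW
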