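import Mathlib
import Pool.Agent.Lib.MP_86e60f_al.HW.Stmt

set_option autoImplicit false

open MvPolynomial Module Matrix

namespace Pool.Agent.Lib.MP_86e60f_al.HW

namespace Md

variable {k L ι : Type*} [Field k] [CommRing L] [Algebra k L] [Fintype ι]
  (D : Md k L) (b : ι → ℤ) (M : Submodule (Q k ⧸ D.P) (ι → Q k ⧸ D.P))

omit [Fintype ι] in
theorem LatM_zero {v : ι → Q k} : mkA D.P v = 0 ↔ v ∈ D.PF := by
  rw [D.mem_PF, funext_iff]
  exact forall_congr' fun p => Ideal.Quotient.eq_zero_iff_mem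

omit [Fintype ι] in
/-- The preimage of `M` in the polynomial free module. -/
noncomputable def LatM_J : Submodule (Q k) (ι → Q k) :=
  (M.restrictScalars (Q k)).comap (mkA D.P)

omit [Fintype ι] in
theorem LatM_mem {v : ι → Q k} : v ∈ D.LatM_J M ↔ mkA D.P v ∈ M := Iff.rfl

omit [Fintype ι] in
theorem LatM_PF {v : ι → Q k} (hv : v ∈ D.PF) : v ∈ D.LatM_J M := by
  rw [LatM_mem, D.LatM_zero.2 hv]
  exact M.zero_mem

omit [Fintype ι] in
theorem LatM_hom
    (hM : M ≤ Submodule.span (Q k ⧸ D.P) {x | x ∈ M ∧ ∃ i, x ∈ pc D.w b D.P i}) :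
    ∀ v ∈ D.LatM_J M, ∀ i, cmp D.w b i v ∈ D.LatM_J M := by
  have key : ∀ x ∈ Submodule.span (Q k ⧸ D.P) {x | x ∈ M ∧ ∃ i, x ∈ pc D.w b D.P i},
      ∃ v, mkA D.P v = x ∧ ∀ i, cmp D.w b i v ∈ D.LatM_J M := by
    intro x hx
    induction hx using Submodule.span_induction with
    | mem x hx =>
      obtain ⟨hxM, i, v, hv, hxv⟩ := hx
      have hvi : v ∈ FQ D.w b i := mem_FQ.2 hv
      have e : mkA D.P v = x := funext fun p => (hxv p).symm
      refine ⟨v, e, fun j => ?_⟩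
      by_cases h : j = i
      · subst h
        rw [cmp_same hvi, LatM_mem, e]
        exact hxM
      · rw [cmp_ne hvi h]
        exact Submodule.zero_mem _
    | zero => exact ⟨0, map_zero _, fun i => by rw [map_zero]; exact Submodule.zero_mem _⟩
    | add x y _ _ hx hy =>
      obtain ⟨u, rfl, hu⟩ := hx
      obtain ⟨v, rfl, hv⟩ := hy
      exact ⟨u + v, map_add _ _ _, fun i => by
        rw [map_add]; exact Submodule.add_mem _ (hu i) (hv i)⟩
    | smul a x _ hx =>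
      obtain ⟨v, rfl, hv⟩ := hx
      obtain ⟨q, rfl⟩ := Ideal.Quotient.mk_surjective a
      refine ⟨q • v, by rw [map_smul]; rfl, fun i => ?_⟩
      induction q using Q_induction D.w with
      | h0 => rw [zero_smul, map_zero]; exact Submodule.zero_mem _
      | hadd p q hp hq => rw [add_smul, map_add]; exact Submodule.add_mem _ hp hq
      | hh s q hq =>
        have := cmp_smul (b := b) hq (i - s) v
        rw [sub_add_cancel] at this
        rw [this]
        exact Submodule.smul_mem _ _ (hv _)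
  intro v hv i
  obtain ⟨u, hu, hu'⟩ := key _ (hM hv)
  have h1 : v - u ∈ D.PF := D.LatM_zero.1 (by rw [map_sub, hu, sub_self])
  have h2 : cmp D.w b i (v - u) ∈ D.PF := D.mem_PF.2 fun p => D.hc_P (D.mem_PF.1 h1 p) _
  have h3 := Submodule.add_mem _ (D.LatM_PF M h2) (hu' i)
  rwa [map_sub, sub_add_cancel] at h3

omit [Fintype ι] in
theorem LatM_big (hJ : ∀ v ∈ D.LatM_J M, ∀ i, cmp D.w b i v ∈ D.LatM_J M)
    (hf : FiniteDimensional k ((ι → Q k ⧸ D.P) ⧸ M)) :
    ∃ N : ℤ, ∀ i, N ≤ i → ∀ v ∈ FQ D.w b i, v ∈ D.LatM_J M := by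
  classical
  let T : Set ℤ := {i | ∃ v ∈ FQ D.w b i, v ∉ D.LatM_J M}
  have hT : ∀ i : T, ∃ v ∈ FQ D.w b i.1, v ∉ D.LatM_J M := fun i => i.2
  choose v hv hv' using hT
  let π : (ι → Q k) →ₗ[k] ((ι → Q k ⧸ D.P) ⧸ M) :=
    M.mkQ.restrictScalars k ∘ₗ (mkA D.P).restrictScalars k
  have hπ : ∀ u, π u = 0 ↔ u ∈ D.LatM_J M := fun u => Submodule.Quotient.mk_eq_zero M
  have hli : LinearIndependent k fun i : T => π (v i) := by
    rw [linearIndependent_iff']
    intro s g hs j hj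
    have h1 : ∑ i ∈ s, g i • v i ∈ D.LatM_J M := by
      rw [← hπ, map_sum]
      simpa only [map_smul] using hs
    have h2 := hJ _ h1 j.1
    rw [map_sum, Finset.sum_eq_single j, map_smul, cmp_same (hv j)] at h2
    · by_contra h0
      apply hv' j
      rw [← hπ, map_smul, smul_eq_zero] at h2
      exact (hπ _).1 (h2.resolve_left h0)
    · intro i _ hi
      rw [map_smul, cmp_ne (hv i) (fun e => hi (Subtype.ext e.symm)), smul_zero]
    · exact fun h => absurd hj h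
  have hfin : T.Finite := Set.finite_coe_iff.1 hli.finite
  obtain ⟨N, hN⟩ := hfin.bddAbove
  refine ⟨N + 1, fun i hi u hu => ?_⟩
  by_contra h
  have := hN (show i ∈ T from ⟨u, hu, h⟩)
  omega

theorem sLatM : D.SLatM b M := by
  intro hM hf
  have hJ := D.LatM_hom b M hM
  obtain ⟨N, hN⟩ := D.LatM_big b M hJ hf
  let E : ℤ → Submodule k (ι → L) := fun i =>
    (FQ D.w b i ⊓ (D.LatM_J M).restrictScalars k).map D.evv
  refine ⟨E, ⟨?_, ?_, N, fun i hi => le_antisymm ?_ ?_⟩, fun v => ⟨fun hv => ?_, fun hv => ?_⟩⟩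
  · rintro i _ ⟨u, hu, rfl⟩
    exact D.evv_mem_FV hu.1
  · rintro s i _ ⟨q, hq, rfl⟩ _ ⟨u, hu, rfl⟩
    exact ⟨q • u, ⟨FQ_smul hq hu.1, (D.LatM_J M).smul_mem q hu.2⟩, D.evv_smul q u⟩
  · rintro _ ⟨u, hu, rfl⟩
    exact D.evv_mem_FV hu.1
  · intro x hx
    exact ⟨D.secv b i x, ⟨D.secv_mem i x, hN i hi _ (D.secv_mem i x)⟩, D.evv_secv hx⟩
  · refine (Submodule.span_le (p := D.LatM_J M)).2 ?_ hv
    rintro z ⟨i, hz, u, hu, e⟩
    have h1 : z - u ∈ D.PF :=
      (D.mem_PF_iff (Submodule.sub_mem _ hz hu.1)).2 (by rw [map_sub, e, sub_self])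
    have h2 := Submodule.add_mem _ (D.LatM_PF M h1) hu.2
    rwa [sub_add_cancel] at h2
  · refine hom_induction hJ (C := fun v => v ∈ D.JE b E) (Submodule.zero_mem _)
      (fun _ _ h h' => Submodule.add_mem _ h h') (fun i u hu hui => ?_) v hv
    exact Submodule.subset_span ⟨i, hui, u, ⟨hui, hu⟩, rfl⟩

end Md

end Pool.Agent.Lib.MP_86e60f_al.HW
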