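import Mathlib
import Pool.Agent.Lib.MP_86e60f_al.HW.Stmt2

set_option autoImplicit false

open MvPolynomial Module Matrix

namespace Pool.Agent.Lib.MP_86e60f_al.HW

/-- Leibniz rule and change of offset for the Hasse type operators. -/
theorem sLeib (k L : Type*) [Field k] [CommRing L] [Algebra k L] : SLeib k L where
  zero j0 F := by
    ext l
    rw [coeff_Dh, Ring.choose_zero_right, one_smul]
  mul j0 j1 c F G := by
    ext l
    obtain ⟨i, hi⟩ := exists_low F
    obtain ⟨j, hj⟩ := exists_low G
    have h1 : ∀ p : ℕ × ℕ, (Dh k j0 p.1 F * Dh k j1 p.2 G).coeff l =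
        ∑ s ∈ Finset.Icc i (l - j), (Ring.choose (s - j0) p.1 * Ring.choose (l - s - j1) p.2 : ℤ) •
          (F.coeff s * G.coeff (l - s)) := fun p => by
      rw [coeff_mul_Icc (i := i) (j := j) (fun s hs => by rw [coeff_Dh, hi s hs, smul_zero])
        (fun s hs => by rw [coeff_Dh, hj s hs, smul_zero])]
      refine Finset.sum_congr rfl fun s _ => ?_
      rw [coeff_Dh, coeff_Dh, smul_mul_smul_comm]
    rw [HahnSeries.coeff_sum, coeff_Dh, coeff_mul_Icc hi hj, Finset.smul_sum,
      Finset.sum_congr rfl fun p _ => h1 p, Finset.sum_comm]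
    refine Finset.sum_congr rfl fun s _ => ?_
    rw [← Finset.sum_smul, ← Ring.add_choose_eq c (Commute.all _ _),
      show s - j0 + (l - s - j1) = l - (j0 + j1) by ring]
  off j0 c F := by
    ext l
    rw [HahnSeries.coeff_sum, coeff_Dh, show l - j0 = -j0 + (l - 0) by ring,
      Ring.add_choose_eq c (Commute.all _ _), Finset.sum_smul]
    refine Finset.sum_congr rfl fun p _ => ?_
    rw [HahnSeries.coeff_smul, coeff_Dh, mul_smul]

end Pool.Agent.Lib.MP_86e60f_al.HW
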