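import Mathlib
import Pool.Agent.Lib.MP_86e60f_al.HW.Stmt

set_option autoImplicit false

open MvPolynomial Module Matrix

namespace Pool.Agent.Lib.MP_86e60f_al.HW

namespace Mod

variable {k : Type*} [Field k] {w : Fin 3 → ℤ} {f g y : Q k} {d e n : ℤ}

theorem mem3 {q z : Q k} :
    q ∈ Ideal.span {f, g, z} ↔ ∃ c, q + c * z ∈ Ideal.span {f, g} := by
  rw [← Ideal.mem_span_insert', Set.insert_comm z, Set.pair_comm z]

theorem hc_y (hy : y ∈ Qd w n) (i : ℤ) (c : Q k) :
    weightedHomogeneousComponent w i (c * y) = y * weightedHomogeneousComponent w (i - n) c := by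
  rw [← hc_mul hy, sub_add_cancel, mul_comm]

/-- What the regular sequence gives. -/
theorem reg (h : RingTheory.Sequence.IsRegular (Q k) [f, g, y]) :
    (∀ p q : Q k, p * f = q * g → ∃ r, p = r * g ∧ q = r * f) ∧
      ∀ p, y * p ∈ Ideal.span {f, g} → p ∈ Ideal.span {f, g} := by
  have h0 := (isSMulRegular_quotient_iff_mem_of_smul_mem _ _).1
    (h.1.regular_mod_prev 0 (by simp))
  have h1 := (isSMulRegular_quotient_iff_mem_of_smul_mem _ _).1
    (h.1.regular_mod_prev 1 (by simp))
  have h2 := (isSMulRegular_quotient_iff_mem_of_smul_mem _ _).1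
    (h.1.regular_mod_prev 2 (by simp))
  have e2 : Ideal.ofList [f, g] = Ideal.span {f, g} := by
    rw [Ideal.ofList_cons, Ideal.ofList_singleton, Ideal.span_insert]
  simp only [List.take_succ_cons, List.take_zero, List.getElem_cons_zero, List.getElem_cons_succ,
    smul_eq_mul, Ideal.mul_top, Ideal.ofList_nil, Ideal.ofList_singleton, Ideal.mem_bot,
    e2] at h0 h1 h2
  refine ⟨fun p q hpq => ?_, h2⟩
  obtain ⟨r, rfl⟩ := Ideal.mem_span_singleton'.1
    (h1 q (Ideal.mem_span_singleton'.2 ⟨p, by rw [hpq, mul_comm]⟩))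
  exact ⟨r, sub_eq_zero.1 (h0 _ (by linear_combination hpq)), rfl⟩

/-- A homogeneous element of `(f, g, y - 1)` lies in `(f, g)`. -/
theorem ker (hw : ∀ l, 0 < w l) (hf : f ∈ Qd w d) (hg : g ∈ Qd w e) (hy : y ∈ Qd w n)
    (hn : 0 < n) (hr : ∀ p, y * p ∈ Ideal.span {f, g} → p ∈ Ideal.span {f, g}) {j : ℤ} {q : Q k}
    (hq : q ∈ Qd w j) (h : q ∈ Ideal.span {f, g, y - 1}) : q ∈ Ideal.span {f, g} := by
  obtain ⟨c, hc⟩ := mem3.1 h
  have key : ∀ i, weightedHomogeneousComponent w i q +
      (y * weightedHomogeneousComponent w (i - n) c - weightedHomogeneousComponent w i c) ∈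
        Ideal.span {f, g} := fun i => by
    have := hc_span hf hg hc i
    rwa [mul_sub, mul_one, map_add, map_sub, hc_y hy] at this
  have lo : ∀ (m : ℕ) (i : ℤ), i < m → i < j →
      weightedHomogeneousComponent w i c ∈ Ideal.span {f, g} := by
    intro m
    induction m with
    | zero => intro i h1 _; rw [Qd_neg hw h1 (hc_mem i c)]; exact zero_mem _
    | succ m ih =>
      intro i h1 h2
      have := key i
      rw [hc_ne hq h2.ne, zero_add] at this
      exact (Submodule.sub_mem_iff_right _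
        (Ideal.mul_mem_left _ y (ih (i - n) (by omega) (by omega)))).1 this
  obtain ⟨N, hN⟩ := (weightedHomogeneousComponent_finsupp (w := w) c).bddAbove
  have hi : ∀ (m : ℕ) (i : ℤ), N - m < i → j ≤ i →
      weightedHomogeneousComponent w i c ∈ Ideal.span {f, g} := by
    intro m
    induction m with
    | zero =>
      intro i h1 _
      have : weightedHomogeneousComponent w i c = 0 := by
        by_contra h0
        have := hN (show i ∈ Function.support _ from h0)
        omega
      rw [this]; exact zero_mem _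
    | succ m ih =>
      intro i h1 h2
      have := key (i + n)
      rw [hc_ne hq (by omega), zero_add, add_sub_cancel_right] at this
      exact hr _ ((Submodule.sub_mem_iff_left _ (ih (i + n) (by omega) (by omega))).1 this)
  have := key j
  rw [hc_same hq] at this
  exact (Submodule.add_mem_iff_left _ (sub_mem
    (Ideal.mul_mem_left _ y (lo (j - n + 1).toNat (j - n) (by omega) (by omega)))
    (hi (N - j + 1).toNat j (by omega) le_rfl))).1 this

theorem mk_y : Ideal.Quotient.mkₐ k (Ideal.span {f, g, y - 1}) y = 1 := by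
  rw [← sub_eq_zero, ← map_one (Ideal.Quotient.mkₐ k (Ideal.span {f, g, y - 1})), ← map_sub]
  exact Ideal.Quotient.eq_zero_iff_mem.2 (Ideal.subset_span (by simp))

theorem mk_P {q : Q k} (h : q ∈ Ideal.span {f, g}) :
    Ideal.Quotient.mkₐ k (Ideal.span {f, g, y - 1}) q = 0 :=
  Ideal.Quotient.eq_zero_iff_mem.2 (mem3.2 ⟨0, by simpa using h⟩)

/-- The affine slice is finite. -/
theorem fin (hw : ∀ l, 0 < w l) (hf : f ∈ Qd w d) (hg : g ∈ Qd w e) (hy : y ∈ Qd w n)
    (hn : 0 < n) [h : FiniteDimensional k (Q k ⧸ Ideal.span {f, g, y})] :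
    FiniteDimensional k (Q k ⧸ Ideal.span {f, g, y - 1}) := by
  classical
  obtain ⟨S, hS⟩ := h.fg_top
  choose pre hpre using Ideal.Quotient.mkₐ_surjective k (Ideal.span {f, g, y})
  obtain ⟨s, hs⟩ : ∃ s : Finset (Fin 3 →₀ ℕ), ∀ z ∈ S, (pre z).support ⊆ s :=
    ⟨_, fun z hz => Finset.subset_biUnion_of_mem (fun z => (pre z).support) hz⟩
  have hW : FiniteDimensional k (restrictSupport k (s : Set (Fin 3 →₀ ℕ))) :=
    Module.Finite.of_basis (basisRestrictSupport k _)
  have h1 : ⊤ ≤ (restrictSupport k (s : Set (Fin 3 →₀ ℕ))).map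
      (Ideal.Quotient.mkₐ k (Ideal.span {f, g, y})).toLinearMap := by
    rw [← hS, Submodule.span_le]
    exact fun z hz => ⟨pre z, (mem_restrictSupport_iff k).2 (by exact_mod_cast hs z hz), hpre z⟩
  obtain ⟨U, hU⟩ : ∃ U, U = (restrictSupport k (s : Set (Fin 3 →₀ ℕ))).map
    (Ideal.Quotient.mkₐ k (Ideal.span {f, g, y - 1})).toLinearMap := ⟨_, rfl⟩
  have h2 : ∀ (m : ℕ) (i : ℤ), i < m → ∀ q ∈ Qd (k := k) w i,
      Ideal.Quotient.mkₐ k (Ideal.span {f, g, y - 1}) q ∈ U := by
    intro m
    induction m with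
    | zero => intro i h1 q hq; rw [Qd_neg hw h1 hq, map_zero]; exact zero_mem _
    | succ m ih =>
      intro i hi q hq
      obtain ⟨p, hp, hpq⟩ := h1 (Submodule.mem_top
        (x := Ideal.Quotient.mkₐ k (Ideal.span {f, g, y}) q))
      obtain ⟨c, hc⟩ := mem3.1 (Ideal.Quotient.eq.1 hpq)
      have h3 := mk_P (y := y) (hc_span hf hg hc i)
      rw [map_add, map_sub, hc_y hy, hc_same hq, map_add, map_sub, map_mul, mk_y, one_mul,
        sub_add_eq_add_sub, sub_eq_zero] at h3
      rw [← h3]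
      refine add_mem (hU ▸ ⟨_, (mem_restrictSupport_iff k).2 ?_, rfl⟩)
        (ih (i - n) (by omega) _ (hc_mem _ c))
      rw [support_weightedHomogeneousComponent, Finset.coe_filter]
      exact fun α hα => (mem_restrictSupport_iff k).1 hp hα.1
  have h4 : U = ⊤ := by
    refine top_unique fun z _ => ?_
    obtain ⟨q, rfl⟩ := Ideal.Quotient.mkₐ_surjective k _ z
    induction q using Q_induction w with
    | h0 => rw [map_zero]; exact zero_mem _
    | hadd p q hp hq => rw [map_add]; exact add_mem (hp trivial) (hq trivial)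
    | hh i q hq => exact h2 (i + 1).toNat i (by omega) q hq
  have h5 : FiniteDimensional k U := hU ▸ inferInstance
  exact Module.Finite.of_fg_top (h4 ▸ (Submodule.fg_iff_finiteDimensional U).2 h5)

end Mod

universe u

theorem sMod (k : Type u) [Field k] : SMod k := by
  intro w f g y d e n hw hf hg hy hd he hn hr hfin
  obtain ⟨h1, h2⟩ := Mod.reg hr
  have ev : aeval (fun l => Ideal.Quotient.mkₐ k (Ideal.span {f, g, y - 1}) (X l)) =
      Ideal.Quotient.mkₐ k (Ideal.span {f, g, y - 1}) := (aeval_unique _).symm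
  exact ⟨Q k ⧸ Ideal.span {f, g, y - 1}, inferInstance, inferInstance, Mod.fin hw hf hg hy hn,
    ⟨w, fun l => Ideal.Quotient.mkₐ k _ (X l), f, g, y, d, e, n, hw, hf, hg, hy, hd, he, hn,
      by rw [ev, Mod.mk_y], fun j q hq => by
        rw [ev]
        exact ⟨fun h => Mod.ker hw hf hg hy hn h2 hq (Ideal.Quotient.eq_zero_iff_mem.1 h),
          Mod.mk_P⟩, h1⟩, rfl, rfl, rfl⟩

end Pool.Agent.Lib.MP_86e60f_al.HW
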