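import Mathlib
import Pool.Agent.Lib.MP_86e60f_al.HW.Stmt

set_option autoImplicit false

open MvPolynomial Module Matrix

namespace Pool.Agent.Lib.MP_86e60f_al.HW

namespace Md

variable {k L : Type*} [Field k] [CommRing L] [Algebra k L]

theorem Prin_mulVec (U : Matrix Unit Unit L) (x : Unit → L) :
    U *ᵥ x = fun _ => U () () * x () := by
  funext p
  simp [Matrix.mulVec, dotProduct]

theorem Prin_mul (A B : Matrix Unit Unit L) : (A * B) () () = A () () * B () () := by
  simp [Matrix.mul_apply]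

/-- In rank one, if the identity factors through the free module then the module is cyclic. -/
theorem sPrin (D : Md k L) (b : Unit → ℤ) (E : ℤ → Submodule k (Unit → L)) (hE : D.Lat b E) :
    D.SPrin b E := by
  intro h1
  by_cases hall : ∀ s, ∀ A ∈ D.Hm b (D.FV b) E s, ∀ B ∈ D.Hm b E (D.FV b) (0 - s), A * B = 0
  · have hbot : D.PE b E 0 ≤ ⊥ := by
      refine Submodule.span_le.2 ?_
      rintro U ⟨s, A, hA, B, hB, rfl⟩
      exact (Submodule.mem_bot k).2 (hall s A hA B hB)
    have h10 : (1 : Matrix Unit Unit L) = 0 := (Submodule.mem_bot k).1 (hbot h1)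
    have h10' : (1 : L) = 0 := by simpa using congrFun (congrFun h10 ()) ()
    refine ⟨0, 0, Submodule.zero_mem _, fun i x _ => ⟨0, Submodule.zero_mem _, ?_⟩⟩
    funext p
    rw [← one_mul (x p), h10', zero_mul]
    simp
  · push Not at hall
    obtain ⟨s, A, hA, B, hB, hAB⟩ := hall
    have hne : A () () * B () () ≠ 0 := by
      intro h
      apply hAB
      ext p q
      rw [Matrix.zero_apply]
      exact (Prin_mul A B).trans h
    have hBA := D.mem_Hm_FV_FV.1 (D.Hm_mul hB hA) () ()
    rw [show 0 - s + s + b () - b () = 0 by ring, Prin_mul] at hBA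
    obtain ⟨c, hc⟩ := D.V_zero hBA
    have hc0 : c ≠ 0 := by
      rintro rfl
      apply hne
      rw [mul_comm, hc, map_zero]
    refine ⟨s + b (), fun p => A p (), (D.mem_Hm_FV hE).1 hA (), fun i x hx => ?_⟩
    have hv := D.mem_FV.1 (hB.2 i x hx) ()
    rw [Prin_mulVec, show i + (0 - s) - b () = i - (s + b ()) by ring] at hv
    refine ⟨c⁻¹ • (B () () * x ()), Submodule.smul_mem _ _ hv, ?_⟩
    funext p
    change x () = (c⁻¹ • (B () () * x ())) * A () ()
    rw [smul_mul_assoc, mul_right_comm, hc, ← Algebra.smul_def, smul_smul, inv_mul_cancel₀ hc0,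
      one_smul]

/-- In rank one over a reduced ring there are no endomorphisms of negative degree. -/
theorem Hm_neg (D : Md k L) (b : Unit → ℤ) (E : ℤ → Submodule k (Unit → L)) (hE : D.Lat b E)
    (hred : ∀ i, ∀ u ∈ D.H i, IsNilpotent u → u = 0) (j : ℤ) (hj : j < 0) :
    D.Hm b E E j = ⊥ := by
  refine (Submodule.eq_bot_iff _).2 fun U hU => ?_
  obtain ⟨N, hN⟩ := hE.big
  have hn := D.hn
  obtain ⟨m, hm⟩ : ∃ m : ℕ, N ≤ m * D.n + b () := by
    refine ⟨(N - b ()).toNat, ?_⟩
    have h1 : N - b () ≤ ((N - b ()).toNat : ℤ) := Int.self_le_toNat _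
    have h2 : (0 : ℤ) ≤ ((N - b ()).toNat : ℤ) := Int.natCast_nonneg _
    nlinarith
  have key : ∀ r : ℕ, (fun _ : Unit => U () () ^ r) ∈ E (m * D.n + b () + r * j) := by
    intro r
    induction r with
    | zero =>
      rw [Nat.cast_zero, zero_mul, add_zero, hN _ hm]
      refine D.mem_FV.2 fun p => ?_
      rw [pow_zero, show (m : ℤ) * D.n + b () - b p = m * D.n by ring]
      exact D.one_mem_V m
    | succ r ih =>
      have := hU.2 _ _ ih
      rw [Prin_mulVec, ← pow_succ'] at this
      rwa [show (m : ℤ) * D.n + b () + ((r + 1 : ℕ) : ℤ) * j = m * D.n + b () + r * j + j by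
        push_cast; ring]
  have hnil : IsNilpotent (U () ()) := by
    refine ⟨(m * D.n).toNat + 1, ?_⟩
    have h := D.mem_FV.1 (hE.le _ (key ((m * D.n).toNat + 1))) ()
    refine D.V_neg ?_ h
    have h1 : (m : ℤ) * D.n ≤ (((m : ℤ) * D.n).toNat : ℤ) := Int.self_le_toNat _
    have h2 : (0 : ℤ) ≤ (((m : ℤ) * D.n).toNat : ℤ) := Int.natCast_nonneg _
    push_cast
    nlinarith
  ext p q
  exact hred _ _ (hU.1 () ()) hnil

end Md

end Pool.Agent.Lib.MP_86e60f_al.HW
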