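import Mathlib
import Pool.Agent.Lib.MP_86e60f_al.HW.Stmt2

set_option autoImplicit false

open MvPolynomial Module Matrix

namespace Pool.Agent.Lib.MP_86e60f_al.HW

namespace Md

variable {k L ι : Type*} [Field k] [CommRing L] [Algebra k L] [FiniteDimensional k L] [Fintype ι]
  [DecidableEq ι]

omit [FiniteDimensional k L] in
/-- A product through the free module gives a factorisation of module maps. -/
theorem Proj_gen (D : Md k L) (b : ι → ℤ) (E : ℤ → Submodule k (ι → L))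
    (M : Submodule (Q k ⧸ D.P) (ι → Q k ⧸ D.P)) (hE : D.Lat b E) (hc : D.SCl b E)
    (hh : D.SHat b E) (hM : D.Desc b E M) {s : ℤ} {A B : Matrix ι ι L}
    (hA : A ∈ D.Hm b (D.FV b) E s) (hB : B ∈ D.Hm b E (D.FV b) (0 - s)) :
    ∃ (φ : M →ₗ[Q k ⧸ D.P] (ι → Q k ⧸ D.P)) (p : (ι → Q k ⧸ D.P) →ₗ[Q k ⧸ D.P] M),
      ∀ t, ∀ v : D.JE b E, v.1 ∈ FQ D.w b t → ∃ z ∈ FQ (k := k) D.w b t,
        D.evv z = (A * B) *ᵥ D.evv v.1 ∧
          (p (φ ⟨mkA D.P v.1, (hM v.1).1 v.2⟩)).1 = mkA D.P z := by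
  obtain ⟨Ψ, h1, h2⟩ := hh.mat _ B hB
  have h3 : ∀ v ∈ D.PF, Ψ v ∈ D.PF := by
    refine hom_induction (w := D.w) (b := b) (J := D.PF)
      (fun v hv i => D.mem_PF.2 fun p => D.hc_P (D.mem_PF.1 hv p) _) (by simp)
      (fun u v hu hv => by rw [map_add]; exact add_mem hu hv) fun i v hv hi => ?_
    obtain ⟨a1, a2⟩ := h1 i v (hc.pf hv) hi
    rw [D.mem_PF_iff a1, a2, D.evv_PF hv, Matrix.mulVec_zero]
  obtain ⟨φ, hφ⟩ := D.descend hM
    (mkLin (D.JE b E) ((mkA D.P).restrictScalars k ∘ₗ Ψ) fun q v hv => by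
      change mkA D.P (Ψ (q • v)) = q • mkA D.P (Ψ v)
      rw [← map_smul, ← sub_eq_zero, ← map_sub]
      exact D.mkA_eq_zero.2 (h2 q v hv))
    fun v hv => D.mkA_eq_zero.2 (h3 v.1 hv)
  have h4 := (D.mem_Hm_FV hE).1 hA
  have h5 : ∀ q, D.evv (D.secv b (s + b q) fun p => A p q) = fun p => A p q := fun q =>
    D.evv_secv (hE.le _ (h4 q))
  have h6 : ∀ q, mkA D.P (D.secv b (s + b q) fun p => A p q) ∈ M := fun q =>
    (hM _).1 ((hc.memJ _ _ (D.secv_mem _ _)).2 (by rw [h5]; exact h4 q))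
  refine ⟨φ, Fintype.linearCombination _ fun q => (⟨_, h6 q⟩ : M), fun t v hv => ?_⟩
  obtain ⟨a1, a2⟩ := h1 t v.1 v.2 hv
  refine ⟨∑ q, Ψ v.1 q • D.secv b (s + b q) fun p => A p q,
    Submodule.sum_mem _ fun q _ => ?_, ?_, ?_⟩
  · have := FQ_smul (mem_FQ.1 a1 q) (D.secv_mem (b := b) (s + b q) fun p => A p q)
    rwa [show s + b q + (t + (0 - s) - b q) = t by ring] at this
  · rw [← Matrix.mulVec_mulVec, ← a2, map_sum]
    simp only [D.evv_smul, h5]
    funext p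
    simp [Matrix.mulVec, dotProduct, mul_comm, D.evv_apply]
  · rw [hφ, Fintype.linearCombination_apply, AddSubmonoidClass.coe_finsetSum, map_sum]
    refine Finset.sum_congr rfl fun q _ => ?_
    rw [map_smul]
    exact algebraMap_smul (Q k ⧸ D.P) (Ψ v.1 q) _

omit [FiniteDimensional k L] in
theorem sProj (D : Md k L) (b : ι → ℤ) (E : ℤ → Submodule k (ι → L))
    (M : Submodule (Q k ⧸ D.P) (ι → Q k ⧸ D.P)) (hE : D.Lat b E) (hc : D.SCl b E)
    (hh : D.SHat b E) : D.SProj b E M := by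
  intro hM h1
  obtain ⟨r, c, g, hg⟩ := Submodule.mem_span_set'.1 h1
  choose s A hA B hB e using fun j => (g j).2
  choose φ p h using fun j =>
    Proj_gen D b E M hE hc hh hM (Submodule.smul_mem _ (c j) (hA j)) (hB j)
  refine Module.Projective.of_split (LinearMap.pi φ) (∑ j, p j ∘ₗ LinearMap.proj j) ?_
  have key : ∀ v : D.JE b E, ∑ j, (p j (φ j ⟨mkA D.P v.1, (hM v.1).1 v.2⟩)).1 = mkA D.P v.1 := by
    refine hom_induction' hc.homJ.hom ?_ (fun u v hu hv => ?_) fun t v hv => ?_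
    · have : (⟨mkA D.P (0 : D.JE b E).1, (hM _).1 (0 : D.JE b E).2⟩ : M) = 0 :=
        Subtype.ext (map_zero _)
      rw [this]
      simp
    · have : (⟨mkA D.P (u + v).1, (hM _).1 (u + v).2⟩ : M) =
          ⟨mkA D.P u.1, (hM _).1 u.2⟩ + ⟨mkA D.P v.1, (hM _).1 v.2⟩ :=
        Subtype.ext (map_add _ _ _)
      rw [this]
      simp only [map_add, Submodule.coe_add, Finset.sum_add_distrib, hu, hv]
    · choose z z1 z2 z3 using fun j => h j t v hv
      simp only [z3]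
      rw [← map_sum, ← sub_eq_zero, ← map_sub, D.mkA_eq_zero,
        D.mem_PF_iff (sub_mem (Submodule.sum_mem _ fun j _ => z1 j) hv), map_sub, map_sum]
      simp only [z2, smul_mul_assoc, ← e]
      rw [← Matrix.sum_mulVec, hg, Matrix.one_mulVec, sub_self]
  refine LinearMap.ext ?_
  rintro ⟨x, hx⟩
  obtain ⟨v, rfl⟩ := D.mkA_surjective x
  apply Subtype.ext
  simpa using key ⟨v, (hM v).2 hx⟩

end Md

end Pool.Agent.Lib.MP_86e60f_al.HW
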