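import Mathlib
import Pool.Agent.Lib.MP_86e60f_al.HW.Stmt2

set_option autoImplicit false

open MvPolynomial Module Matrix

namespace Pool.Agent.Lib.MP_86e60f_al.HW

namespace Md

variable {k L : Type*} [Field k] [CommRing L] [Algebra k L] [FiniteDimensional k L]
  (D : Md k L) (lam : L →ₗ[k] k)

omit [FiniteDimensional k L] in
theorem sRep (hp : D.SPair (fun _ : Unit => (0 : ℤ)) lam) : D.SRep lam := by
  rintro μ ⟨N, hN⟩
  choose u hu hu' using fun j : ℤ => hp.rep j (μ ∘ₗ HahnSeries.single.linearMap j)
  let U : HahnSeries ℤ L := HahnSeries.ofSuppBddBelow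
    (fun i => if D.a - i < N then u (D.a - i) else 0)
    ⟨D.a - N, fun i hi => by
      by_contra h
      exact hi (if_neg (by omega))⟩
  have hU : ∀ i, U.coeff i = if D.a - i < N then u (D.a - i) else 0 := fun _ => rfl
  refine ⟨U, fun i => ?_, fun F hF => ?_⟩
  · rw [hU]
    split_ifs
    · simpa using hu (D.a - i)
    · exact Submodule.zero_mem _
  · obtain ⟨b, hb⟩ := exists_low F
    have h1 : ∀ s, s < D.a - N + 1 → U.coeff s = 0 := fun s hs => by
      rw [hU, if_neg (by omega)]
    have h2 : F - ∑ s ∈ Finset.Icc b (N - 1), HahnSeries.single s (F.coeff s) ∈ D.HT N := by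
      refine ⟨Submodule.sub_mem _ hF
        (Submodule.sum_mem _ fun s _ => (D.single_HT (hF s)).1), fun j hj => ?_⟩
      rw [HahnSeries.coeff_sub, HahnSeries.coeff_sum, Finset.sum_eq_single j,
        HahnSeries.coeff_single_same, sub_self]
      · intro s _ hs
        exact HahnSeries.coeff_single_of_ne hs.symm
      · intro h
        rw [HahnSeries.coeff_single_same]
        exact hb j (by rw [Finset.mem_Icc] at h; omega)
    have h3 := hN _ h2
    rw [map_sub, sub_eq_zero, map_sum] at h3
    rw [h3, mul_comm, coeff_mul_Icc hb h1, map_sum,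
      show D.a - (D.a - N + 1) = N - 1 by ring]
    refine Finset.sum_congr rfl fun s hs => ?_
    rw [hU, sub_sub_cancel, if_pos (by rw [Finset.mem_Icc] at hs; omega), mul_comm]
    exact hu' s _ (hF s)

end Md

end Pool.Agent.Lib.MP_86e60f_al.HW
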