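import Mathlib
import Pool.Agent.Lib.MP_86e60f_al.HW.Stmt2

set_option autoImplicit false

open MvPolynomial Module Matrix
open scoped TensorProduct

namespace Pool.Agent.Lib.MP_86e60f_al.HW

namespace TF

/-- The abstract balancing argument. -/
theorem bal {A ι : Type*} [CommRing A] [Fintype ι] [DecidableEq ι] (M : Submodule A (ι → A))
    (Y : A) (hY : IsRegular Y) (hYM : ∀ x : ι → A, Y • x ∈ M)
    (hT : Module.IsTorsionFree A (M ⊗[A] Module.Dual A M)) (ψ : M →ₗ[A] (ι → A) ⧸ M) {r : ℕ}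
    (m : Fin r → M) (u : Fin r → Module.Dual A M) (z : Fin r → ι → A)
    (hz : ∀ s, ψ (m s) = M.mkQ (z s)) (h0 : ∀ p, ∑ s, (m s).1 p • u s = 0) :
    ∑ s, u s ⟨Y • z s, hYM _⟩ ∈ Ideal.span {Y} := by
  let μ : (ι → A) →ₗ[A] M := LinearMap.codRestrict M (Y • LinearMap.id) hYM
  have hμ : ∀ x : M, μ x.1 = Y • x := fun x => rfl
  let G : (ι → A) →ₗ[A] Module.Dual A M →ₗ[A] A ⧸ Ideal.span {Y} :=
    (Module.Dual.eval A M ∘ₗ μ).compr₂ (Ideal.span {Y}).mkQ
  have hG : ∀ x w, G x w = (Ideal.span {Y}).mkQ (w (μ x)) := fun _ _ => rfl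
  have hker : M ≤ LinearMap.ker G := fun x hx => by
    rw [LinearMap.mem_ker]
    ext w
    rw [hG, hμ ⟨x, hx⟩, map_smul, LinearMap.zero_apply, Submodule.mkQ_apply,
      Submodule.Quotient.mk_eq_zero]
    exact Ideal.mul_mem_right _ _ (Ideal.subset_span rfl)
  let β : M ⊗[A] Module.Dual A M →ₗ[A] A ⧸ Ideal.span {Y} :=
    TensorProduct.lift (M.liftQ G hker ∘ₗ ψ)
  have hβ : ∀ s, β (m s ⊗ₜ u s) = (Ideal.span {Y}).mkQ (u s ⟨Y • z s, hYM _⟩) := fun s => by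
    simp only [β, TensorProduct.lift.tmul, LinearMap.comp_apply, hz s, Submodule.mkQ_apply,
      Submodule.liftQ_apply]
    rfl
  have hτ : Y • (∑ s, m s ⊗ₜ[A] u s) = Y • (0 : M ⊗[A] Module.Dual A M) := by
    have h1 : ∀ s, Y • (m s ⊗ₜ[A] u s) =
        ∑ p, μ (Pi.single p 1) ⊗ₜ[A] ((m s).1 p • u s) := fun s => by
      have h2 : (m s).1 = ∑ p, (m s).1 p • (Pi.single p 1 : ι → A) := by
        funext q
        simp [Finset.sum_apply, Pi.single_apply]
      rw [TensorProduct.smul_tmul', ← hμ, h2, map_sum, TensorProduct.sum_tmul]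
      refine Finset.sum_congr rfl fun p _ => ?_
      rw [map_smul, TensorProduct.smul_tmul, ← h2]
    rw [Finset.smul_sum, smul_zero, Finset.sum_congr rfl fun s _ => h1 s, Finset.sum_comm]
    refine Finset.sum_eq_zero fun p _ => ?_
    rw [← TensorProduct.tmul_sum, h0 p, TensorProduct.tmul_zero]
  have hτ0 : ∑ s, m s ⊗ₜ[A] u s = 0 := hT.isSMulRegular hY hτ
  have h3 := congrArg β hτ0
  rw [map_sum, map_zero, Finset.sum_congr rfl fun s _ => hβ s, ← map_sum, Submodule.mkQ_apply,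
    Submodule.Quotient.mk_eq_zero] at h3
  exact h3

end TF

namespace Md

variable {k L ι : Type*} [Field k] [CommRing L] [Algebra k L] [FiniteDimensional k L]
  [Fintype ι] [DecidableEq ι]

omit [FiniteDimensional k L] [DecidableEq ι] in
theorem TF_pow (D : Md k L) (b : ι → ℤ) {J : Submodule (Q k) (ι → Q k)} (hJ : HomJ D.w b J) :
    ∃ N : ℕ, ∀ v : ι → Q k, D.y ^ N • v ∈ J := by
  obtain ⟨N0, hN0⟩ := hJ.big
  obtain ⟨lo, hlo⟩ := (Set.finite_range b).bddBelow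
  have hn := D.hn
  refine ⟨(N0 - lo).toNat, FQ_induction D.w b (by simp) (fun u v hu hv => by
    rw [smul_add]; exact J.add_mem hu hv) fun i v hv => ?_⟩
  by_cases h : i < lo
  · have : v = 0 := funext fun p => Qd_neg D.hw (by
      have := hlo ⟨p, rfl⟩
      omega) (mem_FQ.1 hv p)
    rw [this, smul_zero]
    exact J.zero_mem
  · refine hN0 _ ?_ _ (FQ_smul (Qd_pow D.hy _) hv)
    have h1 : (N0 - lo : ℤ) ≤ ((N0 - lo).toNat : ℤ) := Int.self_le_toNat _
    have h2 : (0 : ℤ) ≤ ((N0 - lo).toNat : ℤ) := Int.natCast_nonneg _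
    nlinarith

omit [FiniteDimensional k L] in
theorem TF_kill (D : Md k L) (b : ι → ℤ) (E : ℤ → Submodule k (ι → L))
    (φ : D.JE b E →ₗ[Q k] SQ (D.JE b E)) (h : D.rr b E φ = 0) (v : D.JE b E) (hv : v.1 ∈ D.PF) :
    φ v = 0 := by
  have h1 : ∀ p, φ (D.fe b E p) = 0 := fun p => congrFun (congrArg Prod.fst h) p
  have h2 : ∀ p, φ (D.ge b E p) = 0 := fun p => congrFun (congrArg Prod.snd h) p
  choose α β hαβ using fun p => Ideal.mem_span_pair.1 (D.mem_PF.1 hv p)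
  have h3 : v = ∑ p, (α p • D.fe b E p + β p • D.ge b E p) := by
    apply Subtype.ext
    rw [AddSubmonoidClass.coe_finsetSum]
    funext q
    simp [fe, ge, Finset.sum_apply, Pi.single_apply, Finset.sum_add_distrib, hαβ]
  rw [h3, map_sum]
  exact Finset.sum_eq_zero fun p _ => by rw [map_add, map_smul, map_smul, h1, h2]; simp

omit [FiniteDimensional k L] [DecidableEq ι] in
theorem TF_dual (D : Md k L) (b : ι → ℤ) (E : ℤ → Submodule k (ι → L))
    (M : Submodule (Q k ⧸ D.P) (ι → Q k ⧸ D.P)) (hc : D.SCl b E) (hh : D.SHat b E)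
    (hM : D.Desc b E M) (s : ℤ) (u : ι → L) (hu : u ∈ D.Ed b E s) :
    ∃ (Ψ : (ι → Q k) →ₗ[k] Q k) (w : Module.Dual (Q k ⧸ D.P) M),
      (∀ i, ∀ v ∈ D.JE b E, v ∈ FQ D.w b i →
        Ψ v ∈ Qd D.w (i + s) ∧ D.ev (Ψ v) = u ⬝ᵥ D.evv v) ∧
      ∀ v : D.JE b E, w ⟨mkA D.P v.1, (hM v.1).1 v.2⟩ = Ideal.Quotient.mk D.P (Ψ v.1) := by
  obtain ⟨Ψ, h1, h2⟩ := hh.row s u hu
  have h3 : ∀ v ∈ D.PF, Ψ v ∈ D.P := by
    refine hom_induction (w := D.w) (b := b) (fun v hv i => D.mem_PF.2 fun p =>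
      D.hc_P (D.mem_PF.1 hv p) _) (by simp) (fun u v hu hv => by
        rw [map_add]; exact D.P.add_mem hu hv) fun i v hv hvi => ?_
    obtain ⟨h4, h5⟩ := h1 i v (hc.pf hv) hvi
    rw [D.mem_P_iff h4, h5, D.evv_PF hv, dotProduct_zero]
  obtain ⟨w, hw⟩ := D.descend hM (N := Q k ⧸ D.P)
    (mkLin (D.JE b E) ((Ideal.Quotient.mkₐ k D.P).toLinearMap ∘ₗ Ψ) fun q v hv => by
      have := Ideal.Quotient.eq.2 (h2 q v hv)
      rw [map_mul] at this
      exact this)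
    (fun v hv => Ideal.Quotient.eq_zero_iff_mem.2 (h3 v.1 hv))
  exact ⟨Ψ, w, h1, hw⟩

theorem sTF (D : Md k L) (b : ι → ℤ) (E : ℤ → Submodule k (ι → L))
    (M : Submodule (Q k ⧸ D.P) (ι → Q k ⧸ D.P)) (hc : D.SCl b E) (hh : D.SHat b E) :
    D.STF b E M := by
  intro hM hT j φ _ hrr t r i v u z hv hu hz hφ h0
  obtain ⟨N, hN⟩ := D.TF_pow b hc.homJ
  have hY : IsRegular (Ideal.Quotient.mk D.P (D.y ^ N)) := by
    rw [isRegular_iff_eq_zero_of_mul]
    have h1 : ∀ x, Ideal.Quotient.mk D.P (D.y ^ N) * x = 0 → x = 0 := fun x hx => by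
      obtain ⟨q, rfl⟩ := Ideal.Quotient.mk_surjective x
      rw [← map_mul, Ideal.Quotient.eq_zero_iff_mem] at hx
      exact Ideal.Quotient.eq_zero_iff_mem.2 (D.mem_P_of_y_pow N hx)
    exact ⟨h1, fun x hx => h1 x (by rwa [mul_comm])⟩
  have hsm : ∀ x : ι → Q k, Ideal.Quotient.mk D.P (D.y ^ N) • mkA D.P x =
      mkA D.P (D.y ^ N • x) := fun x => funext fun p => (map_mul _ _ _).symm
  have hYM : ∀ x : ι → Q k ⧸ D.P, Ideal.Quotient.mk D.P (D.y ^ N) • x ∈ M := fun x => by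
    obtain ⟨x, rfl⟩ := D.mkA_surjective x
    rw [hsm]
    exact (hM _).1 (hN x)
  let κ : SQ (D.JE b E) →ₗ[Q k] (ι → Q k ⧸ D.P) ⧸ M :=
    (D.JE b E).liftQ (M.mkQ.restrictScalars (Q k) ∘ₗ mkA D.P) fun x hx =>
      (Submodule.Quotient.mk_eq_zero M).2 ((hM x).1 hx)
  obtain ⟨ψ, hψ⟩ := D.descend hM (κ ∘ₗ φ) fun x hx => by
    rw [LinearMap.comp_apply, D.TF_kill b E φ hrr x hx, map_zero]
  choose Ψ w hΨ hw using fun s => D.TF_dual b E M hc hh hM _ _ (hu s)
  have key := TF.bal M _ hY hYM hT ψ (fun s => ⟨mkA D.P (v s).1, (hM _).1 (v s).2⟩) w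
    (fun s => mkA D.P (z s)) (fun s => by
      rw [hψ, LinearMap.comp_apply, hφ]
      rfl) (fun p => by
      have h1 : ∀ x ∈ D.JE b E, ∑ s, (v s).1 p * Ψ s x ∈ D.P := by
        refine hom_induction hc.homJ.hom (by simp) (fun x x' hx hx' => by
          simp only [map_add, mul_add, Finset.sum_add_distrib]
          exact D.P.add_mem hx hx') fun l x hx hxl => ?_
        have h2 : ∑ s, (v s).1 p * Ψ s x ∈ Qd D.w (l + t - b p) :=
          Submodule.sum_mem _ fun s _ => by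
            have := Qd_mul (mem_FQ.1 (hv s) p) (hΨ s l x hx hxl).1
            rwa [show i s - b p + (l + (t - i s)) = l + t - b p by ring] at this
        rw [D.mem_P_iff h2, map_sum]
        have h3 := congrFun (congrArg (· *ᵥ D.evv x) h0) p
        simp only [Matrix.sum_mulVec, Matrix.zero_mulVec, Finset.sum_apply, Pi.zero_apply,
          Matrix.vecMulVec_mulVec] at h3
        rw [← h3]
        refine Finset.sum_congr rfl fun s _ => ?_
        rw [map_mul, (hΨ s l x hx hxl).2]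
        simp [evv_apply]
      ext x
      obtain ⟨x', hx'⟩ := D.mkA_surjective x.1
      have hx : x' ∈ D.JE b E := (hM x').2 (hx' ▸ x.2)
      have h4 : x = ⟨mkA D.P x', (hM x').1 hx⟩ := Subtype.ext hx'.symm
      rw [h4, LinearMap.zero_apply, ← Ideal.Quotient.eq_zero_iff_mem.2 (h1 x' hx), map_sum,
        LinearMap.sum_apply]
      refine Finset.sum_congr rfl fun s _ => ?_
      rw [LinearMap.smul_apply, hw s ⟨x', hx⟩, map_mul]
      rfl)
  have hdeg : ∀ s, D.y ^ N • z s ∈ FQ D.w b (i s + j + N * D.n) := fun s =>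
    FQ_smul (Qd_pow D.hy N) (hz s)
  have h5 : ∀ s, w s ⟨Ideal.Quotient.mk D.P (D.y ^ N) • mkA D.P (z s), hYM _⟩ =
      Ideal.Quotient.mk D.P (Ψ s (D.y ^ N • z s)) := fun s => by
    rw [← hw s ⟨D.y ^ N • z s, hN _⟩]
    exact congrArg _ (Subtype.ext (hsm _))
  rw [Finset.sum_congr rfl fun s _ => h5 s, ← map_sum, Ideal.mem_span_singleton] at key
  obtain ⟨c, hc'⟩ := key
  obtain ⟨c, rfl⟩ := Ideal.Quotient.mk_surjective c
  rw [← map_mul, Ideal.Quotient.eq] at hc'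
  have h6 : ∑ s, Ψ s (D.y ^ N • z s) ∈ Qd D.w (t + j + N * D.n) :=
    Submodule.sum_mem _ fun s _ => by
      have := (hΨ s _ _ (hN _) (hdeg s)).1
      rwa [show i s + j + N * D.n + (t - i s) = t + j + N * D.n by ring] at this
  have h7 := D.ev_P (D.hc_P hc' (t + j + N * D.n))
  rw [map_sub, hc_same h6, hc_mul (Qd_pow D.hy N), map_sub, map_mul, map_pow, D.ev_y', one_pow,
    one_mul, sub_eq_zero, map_sum] at h7
  have h8 : ∑ s, u s ⬝ᵥ D.evv (z s) = ∑ s, D.ev (Ψ s (D.y ^ N • z s)) :=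
    Finset.sum_congr rfl fun s _ => by
      rw [(hΨ s _ _ (hN _) (hdeg s)).2, D.evv_smul, map_pow, D.ev_y', one_pow, one_smul]
  rw [h8, h7]
  exact D.ev_mem_V (hc_mem _ _)

end Md

end Pool.Agent.Lib.MP_86e60f_al.HW
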