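import Mathlib
import Pool.Agent.Lib.MP_86e60f_al.HW.Stmt2

set_option autoImplicit false

open MvPolynomial Module Matrix
open scoped TensorProduct

namespace Pool.Agent.Lib.MP_86e60f_al.HW

namespace TFI

/-- The abstract form of the balanced property. -/
theorem core {R S : Type*} [CommRing R] [CommRing S] (ρ : R →+* S) (hρ : Function.Injective ρ)
    (I : Ideal R) (τ : R) (hτ : τ ∈ I) (hT : IsUnit (ρ τ)) (Φ : S →+ S)
    (h1 : ∀ g ∈ I, ∃ x ∈ I, ρ x = ρ τ * Φ (ρ g))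
    (h2 : ∀ a, ∀ g ∈ I, ∃ x ∈ I, ρ x = Φ (ρ a * ρ g) - ρ a * Φ (ρ g))
    (tf : Module.IsTorsionFree R (I ⊗[R] Module.Dual R I))
    {r : ℕ} (g : Fin r → R) (hg : ∀ s, g s ∈ I) (u : Fin r → S)
    (hu : ∀ s, ∀ h ∈ I, ∃ x, ρ x = u s * ρ h) (h0 : ∑ s, ρ (g s) * u s = 0) :
    ∃ x, ρ x = ∑ s, u s * Φ (ρ (g s)) := by
  have h1' : ∀ g : I, ∃ x : I, ρ x = ρ τ * Φ (ρ g) := fun g => by
    obtain ⟨x, hx, h⟩ := h1 g.1 g.2
    exact ⟨⟨x, hx⟩, h⟩
  choose χ hχ using h1'
  have hu' : ∀ s, ∀ h : I, ∃ x, ρ x = u s * ρ h := fun s h => hu s h.1 h.2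
  choose w hw using hu'
  have χadd : ∀ a b : I, χ (a + b) = χ a + χ b := fun a b => by
    refine Subtype.ext (hρ ?_)
    rw [Submodule.coe_add, map_add, hχ, hχ, hχ, Submodule.coe_add, map_add, map_add, mul_add]
  have χsmul : ∀ (a : R) (b : I), ∃ j : I, χ (a • b) = a • χ b + τ • j := fun a b => by
    obtain ⟨x, hx, h⟩ := h2 a b.1 b.2
    refine ⟨⟨x, hx⟩, Subtype.ext (hρ ?_)⟩
    rw [hχ, Submodule.coe_add, Submodule.coe_smul, Submodule.coe_smul, Submodule.coe_smul,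
      smul_eq_mul, smul_eq_mul, smul_eq_mul, map_add, map_mul ρ, map_mul ρ, map_mul ρ, hχ, h]
    ring
  let uh : Fin r → Module.Dual R I := fun s =>
    { toFun := w s
      map_add' := fun a b => hρ (by
        rw [map_add, hw, hw, hw, Submodule.coe_add, map_add, mul_add])
      map_smul' := fun a b => hρ (by
        rw [RingHom.id_apply, smul_eq_mul, map_mul, hw, hw, Submodule.coe_smul, smul_eq_mul,
          map_mul]
        ring) }
  have huh : ∀ s h, ρ (uh s h) = u s * ρ h := hw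
  let β : I →ₗ[R] Module.Dual R I →ₗ[R] (R ⧸ Ideal.span {τ}) :=
    LinearMap.mk₂ R (fun a φ => (Ideal.span {τ}).mkQ (φ (χ a)))
      (fun a b φ => by rw [χadd, map_add, map_add])
      (fun c a φ => by
        obtain ⟨j, hj⟩ := χsmul c a
        have : (Ideal.span {τ}).mkQ (τ • φ j) = 0 := by
          rw [Submodule.mkQ_apply, Submodule.Quotient.mk_eq_zero, smul_eq_mul]
          exact Ideal.mul_mem_right _ _ (Ideal.mem_span_singleton_self τ)
        rw [hj, map_add, map_add, map_smul, map_smul, map_smul φ, this, add_zero])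
      (fun a φ ψ => by rw [LinearMap.add_apply, map_add])
      (fun c a φ => by rw [LinearMap.smul_apply, map_smul])
  have hreg : IsRegular τ := by
    have hl : IsLeftRegular τ := fun a b h => hρ (hT.mul_left_cancel (by
      rw [← map_mul, ← map_mul]
      exact congrArg ρ h))
    exact ⟨hl, hl.right_of_commute fun b => Commute.all _ _⟩
  let z : I ⊗[R] Module.Dual R I := ∑ s, (⟨g s, hg s⟩ : I) ⊗ₜ uh s
  have hz : τ • z = 0 := by
    have e1 : ∀ s, τ • ((⟨g s, hg s⟩ : I) ⊗ₜ[R] uh s) = (⟨τ, hτ⟩ : I) ⊗ₜ[R] (g s • uh s) := by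
      intro s
      rw [TensorProduct.smul_tmul', ← TensorProduct.smul_tmul]
      congr 1
      exact Subtype.ext (mul_comm _ _)
    have e2 : ∑ s, g s • uh s = 0 := by
      ext h
      refine hρ ?_
      rw [LinearMap.sum_apply, map_sum, LinearMap.zero_apply, map_zero]
      have : ∀ s, ρ ((g s • uh s) h) = (ρ (g s) * u s) * ρ h := fun s => by
        rw [LinearMap.smul_apply, smul_eq_mul, map_mul, huh, mul_assoc]
      rw [Finset.sum_congr rfl fun s _ => this s, ← Finset.sum_mul, h0, zero_mul]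
    rw [Finset.smul_sum, Finset.sum_congr rfl fun s _ => e1 s, ← TensorProduct.tmul_sum, e2,
      TensorProduct.tmul_zero]
  have hz0 : z = 0 := tf.isSMulRegular hreg (by simpa using hz)
  have h3 : (Ideal.span {τ}).mkQ (∑ s, uh s (χ ⟨g s, hg s⟩)) = 0 := by
    have := congrArg (TensorProduct.lift β) hz0
    rw [map_zero, map_sum] at this
    rw [map_sum, ← this]
    rfl
  rw [Submodule.mkQ_apply, Submodule.Quotient.mk_eq_zero] at h3
  obtain ⟨x, hx⟩ := Ideal.mem_span_singleton'.1 h3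
  refine ⟨x, hT.mul_left_cancel ?_⟩
  rw [← map_mul, mul_comm τ, hx, map_sum, Finset.mul_sum]
  refine Finset.sum_congr rfl fun s _ => ?_
  rw [huh, hχ]
  ring

end TFI

namespace Md

variable {k L : Type*} [Field k] [CommRing L] [Algebra k L] [FiniteDimensional k L] (D : Md k L)

omit [FiniteDimensional k L] in
theorem sTFI (R : Type*) [CommRing R] : D.STFI R := by
  intro ρ hρ hR I J hJ hL tf Φ hΦ r g u hg _ hu h0
  obtain ⟨N, hN⟩ := hL.big
  obtain ⟨b, hb⟩ := hΦ.low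
  have hn := D.hn
  obtain ⟨m, hm1, hm2⟩ : ∃ m : ℕ, N ≤ m * D.n ∧ N ≤ m * D.n + b := by
    refine ⟨(|N| + |b|).toNat, ?_⟩
    have e : (((|N| + |b|).toNat : ℕ) : ℤ) = |N| + |b| := Int.toNat_of_nonneg (by positivity)
    rw [e]
    have h1 := le_abs_self N
    have h2 := neg_abs_le b
    have h3 := abs_nonneg N
    have h4 := abs_nonneg b
    constructor <;> nlinarith
  have hT : HahnSeries.single ((m : ℤ) * D.n) (1 : L) ∈ D.HT (m * D.n) :=
    D.single_HT (D.one_mem_H m)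
  obtain ⟨τ, hτ, hτT⟩ := (hJ _).1 (hN (D.HT_anti hm1 hT))
  choose g' hg' hgg using fun s => (hJ _).1 (hg s)
  have := TFI.core ρ hρ I τ hτ ?_ Φ.toAddMonoidHom ?_ ?_ tf g' hg' u ?_ ?_
  · rw [hR]
    simpa only [hgg, LinearMap.toAddMonoidHom_coe] using this
  · rw [hτT]
    refine IsUnit.of_mul_eq_one (HahnSeries.single (-((m : ℤ) * D.n)) (1 : L)) ?_
    rw [HahnSeries.single_mul_single, add_neg_cancel, mul_one]
    rfl
  · intro x hx
    rw [hτT]
    exact (hJ _).1 (hN (D.HT_anti hm2 (D.HT_mul hT (hb _ ((hJ _).2 ⟨x, hx, rfl⟩)))))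
  · intro a x hx
    exact (hJ _).1 (hΦ.lin _ ((hR _).2 ⟨a, rfl⟩) _ ((hJ _).2 ⟨x, hx, rfl⟩))
  · intro s x hx
    exact (hR _).1 (hu s _ ((hJ _).2 ⟨x, hx, rfl⟩))
  · simpa only [hgg] using h0

end Md

end Pool.Agent.Lib.MP_86e60f_al.HW
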