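import Mathlib
import Pool.Agent.Lib.MP_86e60f_al.HW.Stmt

set_option autoImplicit false

open MvPolynomial Module Matrix

namespace Pool.Agent.Lib.MP_86e60f_al.HW

namespace Md

variable {k L ι : Type*} [Field k] [CommRing L] [Algebra k L] [FiniteDimensional k L]
  [Fintype ι] [DecidableEq ι] (D : Md k L) (b : ι → ℤ) (E : ℤ → Submodule k (ι → L))

omit [FiniteDimensional k L] in
/-- A map killing the equations kills the ideal times the free module. -/
theorem trv_kill (φ : D.JE b E →ₗ[Q k] SQ (D.JE b E)) (h0 : D.rr b E φ = 0)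
    (v : D.JE b E) (hv : v.1 ∈ D.PF) : φ v = 0 := by
  have hf : ∀ p, φ (D.fe b E p) = 0 := fun p => congrFun (congrArg Prod.fst h0) p
  have hg : ∀ p, φ (D.ge b E p) = 0 := fun p => congrFun (congrArg Prod.snd h0) p
  have h1 : ∀ p, ∃ a c : Q k, a * D.f + c * D.g = v.1 p := fun p =>
    Ideal.mem_span_pair.mp (D.mem_PF.1 hv p)
  choose a c hac using h1
  have h2 : v = ∑ p, (a p • D.fe b E p + c p • D.ge b E p) := by
    apply Subtype.ext
    rw [AddSubmonoidClass.coe_finsetSum]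
    funext q
    rw [Finset.sum_apply, Finset.sum_eq_single q]
    · simp [fe, ge, hac q]
    · intro p _ hp
      simp [fe, ge, Pi.single_eq_of_ne hp.symm]
    · intro hq
      exact absurd (Finset.mem_univ q) hq
  rw [h2, map_sum]
  refine Finset.sum_eq_zero fun p _ => ?_
  rw [map_add, map_smul, map_smul, hf, hg, smul_zero, smul_zero, add_zero]

omit [FiniteDimensional k L] [Fintype ι] [DecidableEq ι] in
/-- A linear section of the quotient map in degree `m`. -/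
theorem trv_sec (J : Submodule (Q k) (ι → Q k)) (m : ℤ) :
    ∃ σ : SQ J →ₗ[k] (ι → Q k), (∀ s, σ s ∈ FQ D.w b m) ∧
      ∀ s ∈ Sd D.w b J m, J.mkQ (σ s) = s := by
  let φ : FQ (k := k) D.w b m →ₗ[k] Sd D.w b J m :=
    (J.mkQ.restrictScalars k).submoduleMap (FQ D.w b m)
  have hφ : Function.Surjective φ := LinearMap.submoduleMap_surjective _ _
  obtain ⟨s, hs⟩ := φ.exists_rightInverse_of_surjective (LinearMap.range_eq_top.mpr hφ)
  obtain ⟨π, hπ⟩ :=
    (Sd D.w b J m).subtype.exists_leftInverse_of_injective (Submodule.ker_subtype _)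
  refine ⟨(FQ D.w b m).subtype ∘ₗ s ∘ₗ π, fun u => (s (π u)).2, fun u hu => ?_⟩
  have h1 : π u = ⟨u, hu⟩ := LinearMap.congr_fun hπ ⟨u, hu⟩
  have h2 : φ (s ⟨u, hu⟩) = ⟨u, hu⟩ := LinearMap.congr_fun hs ⟨u, hu⟩
  simp only [LinearMap.comp_apply, Submodule.subtype_apply, h1]
  exact congrArg Subtype.val h2

omit [FiniteDimensional k L] in
theorem gRig_of_vRig (hE : D.Lat b E) (hc : D.SCl b E) (h : D.vRig b E) : D.gRig b E := by
  intro j φ hφ h0
  choose σ hσ1 hσ2 using fun m => D.trv_sec b (D.JE b E) m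
  let φ0 : (D.JE b E).restrictScalars k →ₗ[k] SQ (D.JE b E) :=
    { toFun := fun v => φ ⟨v.1, v.2⟩
      map_add' := fun u v => φ.map_add ⟨u.1, u.2⟩ ⟨v.1, v.2⟩
      map_smul' := fun c v => (φ.restrictScalars k).map_smul c ⟨v.1, v.2⟩ }
  obtain ⟨Φ, hΦ⟩ := φ0.exists_extend
  have hΦ' : ∀ v : D.JE b E, Φ v.1 = φ v := fun v => LinearMap.congr_fun hΦ ⟨v.1, v.2⟩
  let ψ : ℤ → (ι → L) →ₗ[k] (ι → L) := fun i => D.evv ∘ₗ σ (i + j) ∘ₗ Φ ∘ₗ D.secv b i
  have hψ : ∀ i x, ψ i x ∈ D.FV b (i + j) := fun i x => D.evv_mem_FV (hσ1 _ _)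
  have key : ∀ i, ∀ v : D.JE b E, v.1 ∈ FQ D.w b i →
      D.cl b E (i + j) (ψ i (D.evv v.1)) = φ v := by
    intro i v hv
    have hz : D.secv b i (D.evv v.1) - v.1 ∈ D.PF := by
      refine (D.mem_PF_iff (Submodule.sub_mem _ (D.secv_mem i _) hv)).2 ?_
      rw [map_sub, D.evv_secv (D.evv_mem_FV hv), sub_self]
    have h1 : Φ (D.secv b i (D.evv v.1)) = φ v := by
      have h2 : Φ (D.secv b i (D.evv v.1) - v.1) = 0 :=
        (hΦ' ⟨_, hc.pf hz⟩).trans (D.trv_kill b E φ h0 _ hz)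
      rw [map_sub, sub_eq_zero] at h2
      rw [h2, hΦ']
    change D.cl b E (i + j) (D.evv (σ (i + j) (Φ (D.secv b i (D.evv v.1))))) = φ v
    rw [hc.cl_evv _ _ (hσ1 _ _), h1, hσ2 _ _ (hφ i v hv)]
  obtain ⟨U, hU, hU'⟩ := h j ψ (fun i x _ => hψ i x) (by
    rintro s i v ⟨q, hq, rfl⟩ x hx
    have hz : D.secv b i x ∈ FQ D.w b i := D.secv_mem i x
    have he : D.evv (D.secv b i x) = x := D.evv_secv (hE.le i hx)
    have hJ : D.secv b i x ∈ D.JE b E := (hc.memJ i _ hz).2 (by rw [he]; exact hx)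
    have h1 := key i ⟨_, hJ⟩ hz
    have h2 := key (i + s) (q • ⟨_, hJ⟩) (FQ_smul hq hz)
    have h3 := hc.cl_smul s (i + j) q hq _ (hψ i x)
    have h4 : D.ev q • ψ i x ∈ D.FV b (i + s + j) := by
      have := D.FV_smul (D.ev_mem_V hq) (hψ i x)
      rwa [show i + j + s = i + s + j by ring] at this
    change D.cl b E (i + j) (ψ i (D.evv (D.secv b i x))) = _ at h1
    change D.cl b E (i + s + j) (ψ (i + s) (D.evv (q • D.secv b i x))) = _ at h2
    rw [D.evv_smul, he, φ.map_smul] at h2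
    rw [he] at h1
    rw [show i + j + s = i + s + j by ring, h1] at h3
    change ψ (i + s) (D.ev q • x) - D.ev q • ψ i x ∈ E (i + s + j)
    refine (hc.cl_zero _ _ (Submodule.sub_mem _ (hψ _ _) h4)).1 ?_
    rw [map_sub, h2, h3, sub_self])
  refine ⟨U, ⟨hU, fun i x hx => ?_⟩, fun i v hv => ?_⟩
  · have := Submodule.sub_mem _ (hψ i x) (hE.le _ (hU' i x hx))
    rwa [sub_sub_cancel] at this
  · have hx : D.evv v.1 ∈ E i := (hc.memJ i _ hv).1 v.2
    have h1 := (hc.cl_zero _ _ (hE.le _ (hU' i _ hx))).2 (hU' i _ hx)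
    rw [map_sub, sub_eq_zero, key i v hv] at h1
    exact h1

end Md

end Pool.Agent.Lib.MP_86e60f_al.HW
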