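import Mathlib
import Pool.Agent.Lib.MP_86e60f_al.HW.Stmt2

set_option autoImplicit false

open MvPolynomial Module Matrix

namespace Pool.Agent.Lib.MP_86e60f_al.HW

namespace Uex

/-- Construction of a sequence term by term. -/
theorem rec_exists {α : Type*} (x0 : α) (P : ℕ → (ℕ → α) → Prop)
    (hloc : ∀ r u v, (∀ i ≤ r, u i = v i) → P r u → P r v)
    (hstep : ∀ r u, (∀ s < r, P s u) → ∃ x, P r (Function.update u r x)) : ∃ u, ∀ r, P r u := by
  have : Nonempty α := ⟨x0⟩
  choose! nx hnx using hstep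
  let f : ℕ → ℕ → α := fun n =>
    Nat.rec (fun _ => x0) (fun r g => Function.update g r (nx r g)) n
  have hf : ∀ r, f (r + 1) = Function.update (f r) r (nx r (f r)) := fun _ => rfl
  have h1 : ∀ r i, i < r → f r i = f (i + 1) i := by
    intro r
    induction r with
    | zero => intro i hi; omega
    | succ r ih =>
      intro i hi
      by_cases h : i = r
      · rw [h]
      · rw [hf r, Function.update_of_ne h]
        exact ih i (by omega)
  refine ⟨fun i => f (i + 1) i, fun r => ?_⟩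
  induction r using Nat.strong_induction_on with
  | _ r ih =>
    refine hloc r (f (r + 1)) _ (fun i hi => h1 (r + 1) i (by omega)) ?_
    rw [hf r]
    exact hnx r _ fun s hs => hloc s _ _ (fun i hi => (h1 r i (by omega)).symm) (ih s hs)

variable {k L : Type*} [Field k] [CommRing L] [Algebra k L]

variable (k) in
/-- The combined operator of order `r`. -/
noncomputable def Sm (u : ℕ → HahnSeries ℤ L) (j0 : ℤ) (r : ℕ) :
    HahnSeries ℤ L →ₗ[k] HahnSeries ℤ L :=
  ∑ p ∈ Finset.HasAntidiagonal.antidiagonal r, LinearMap.mulLeft k (u p.1) ∘ₗ Dh k j0 p.2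

theorem Sm_apply (u : ℕ → HahnSeries ℤ L) (j0 : ℤ) (r : ℕ) (g : HahnSeries ℤ L) :
    Sm k u j0 r g = ∑ p ∈ Finset.HasAntidiagonal.antidiagonal r, u p.1 * Dh k j0 p.2 g := by
  simp [Sm, LinearMap.sum_apply]

theorem Sm_coeff (u : ℕ → HahnSeries ℤ L) (j0 : ℤ) (r : ℕ) (g : HahnSeries ℤ L) :
    Sm k u j0 r g =
      PowerSeries.coeff r (PowerSeries.mk u * PowerSeries.mk fun c => Dh k j0 c g) := by
  rw [Sm_apply, PowerSeries.coeff_mul]
  simp only [PowerSeries.coeff_mk]

theorem Sm_of (u z : ℕ → HahnSeries ℤ L) (j0 : ℤ) (g g' : HahnSeries ℤ L)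
    (h : ∀ c, Dh k j0 c g' =
      ∑ p ∈ Finset.HasAntidiagonal.antidiagonal c, z p.1 * Dh k 0 p.2 g) (r : ℕ) :
    Sm k u j0 r g' = ∑ p ∈ Finset.HasAntidiagonal.antidiagonal r, z p.1 * Sm k u 0 p.2 g := by
  have h1 : (PowerSeries.mk fun c => Dh k j0 c g') =
      PowerSeries.mk z * PowerSeries.mk fun c => Dh k 0 c g := by
    ext1 c
    rw [PowerSeries.coeff_mk, PowerSeries.coeff_mul, h]
    simp only [PowerSeries.coeff_mk]
  rw [Sm_coeff, h1, mul_left_comm, PowerSeries.coeff_mul]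
  simp only [PowerSeries.coeff_mk, Sm_coeff]

theorem Sm_congr {u v : ℕ → HahnSeries ℤ L} {r : ℕ} (h : ∀ i ≤ r, u i = v i) (j0 : ℤ)
    (g : HahnSeries ℤ L) : Sm k u j0 r g = Sm k v j0 r g := by
  rw [Sm_apply, Sm_apply]
  refine Finset.sum_congr rfl fun p hp => ?_
  rw [h p.1 (by have := Finset.HasAntidiagonal.mem_antidiagonal.1 hp; omega)]

theorem Sm_update (hL : SLeib k L) (u : ℕ → HahnSeries ℤ L) (r : ℕ) (x g : HahnSeries ℤ L) :
    Sm k (Function.update u r x) 0 r g = Sm k (Function.update u r 0) 0 r g + x * g := by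
  have hm : (r, 0) ∈ Finset.HasAntidiagonal.antidiagonal r :=
    Finset.HasAntidiagonal.mem_antidiagonal.2 (add_zero r)
  rw [Sm_apply, Sm_apply, ← Finset.add_sum_erase _ _ hm, ← Finset.add_sum_erase _ _ hm]
  simp only [Function.update_self, zero_mul, zero_add, hL.zero]
  rw [add_comm]
  congr 1
  refine Finset.sum_congr rfl fun p hp => ?_
  have h1 := Finset.mem_erase.1 hp
  have h2 := Finset.HasAntidiagonal.mem_antidiagonal.1 h1.2
  have h3 : p.1 ≠ r := fun h => h1.1 (Prod.ext h (by simp only; omega))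
  rw [Function.update_of_ne h3, Function.update_of_ne h3]

variable (D : Md k L)

theorem Dh_HT {b : ℤ} {F : HahnSeries ℤ L} (hF : F ∈ D.HT b) (j0 : ℤ) (c : ℕ) :
    Dh k j0 c F ∈ D.HT b :=
  ⟨fun j => by rw [coeff_Dh]; exact zsmul_mem (hF.1 j) _,
    fun j hj => by rw [coeff_Dh, hF.2 j hj, smul_zero]⟩

theorem Dh_RR {F : HahnSeries ℤ L} (hF : F ∈ D.RR) (j0 : ℤ) (c : ℕ) : Dh k j0 c F ∈ D.RR :=
  fun j => by rw [coeff_Dh]; exact zsmul_mem (hF j) _

theorem Sm_HT {u : ℕ → HahnSeries ℤ L} {r : ℕ} (hu : ∀ i ≤ r, u i ∈ D.HT 0) {b : ℤ}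
    {g : HahnSeries ℤ L} (hg : g ∈ D.HT b) : Sm k u 0 r g ∈ D.HT b := by
  rw [Sm_apply]
  refine Submodule.sum_mem _ fun p hp => ?_
  have := D.HT_mul (hu p.1 (by have := Finset.HasAntidiagonal.mem_antidiagonal.1 hp; omega))
    (Dh_HT D hg 0 p.2)
  rwa [zero_add] at this

/-- An admissible map that does not lower orders is a multiplication of order at least zero. -/
theorem exists_mul (I : Submodule k (HahnSeries ℤ L)) (hD : D.Dom) (hI : D.SLat I) (hR : D.Rig I)
    (Φ : HahnSeries ℤ L →ₗ[k] HahnSeries ℤ L) (h1 : ∀ b, ∀ g ∈ D.HT b, Φ g ∈ D.HT b)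
    (h2 : ∀ a ∈ D.RR, ∀ g ∈ I, Φ (a * g) - a * Φ g ∈ I) :
    ∃ U ∈ D.HT 0, ∀ g ∈ I, Φ g - U * g ∈ I := by
  obtain ⟨b, hb⟩ := hI.low
  by_cases h0 : ∃ z : ℤ, ∃ g ∈ I, g.coeff z ≠ 0
  · obtain ⟨U, hU, hU'⟩ := hR Φ ⟨⟨b, fun g hg => h1 b g (hb hg)⟩, h2⟩
    obtain ⟨lo, ⟨g0, hg0, hc⟩, hlo⟩ := Int.exists_least_of_bdd
      (P := fun z => ∃ g ∈ I, g.coeff z ≠ 0)
      ⟨b, fun z ⟨g, hg, hz⟩ => not_lt.1 fun h => hz ((hb hg).2 z h)⟩ h0
    have hle : I ≤ D.HT lo := fun g hg => ⟨(hb hg).1, fun j hj => by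
      by_contra h
      have := hlo j ⟨g, hg, h⟩
      omega⟩
    obtain ⟨G, hG, hG1⟩ := D.exists_inv hD (hle hg0) hc
    refine ⟨U, ?_, hU'⟩
    have h3 : U * g0 ∈ D.HT lo := by
      have := Submodule.sub_mem _ (h1 lo g0 (hle hg0)) (hle (hU' g0 hg0))
      rwa [sub_sub_cancel] at this
    have := D.HT_mul h3 hG
    rwa [mul_assoc, hG1, mul_one, add_neg_cancel] at this
  · refine ⟨0, Submodule.zero_mem _, fun g hg => ?_⟩
    have : g = 0 := by
      ext z
      by_contra h
      exact h0 ⟨z, g, hg, h⟩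
    rw [this, map_zero, mul_zero, sub_zero]
    exact Submodule.zero_mem _

end Uex

namespace Md

variable {k L : Type*} [Field k] [CommRing L] [Algebra k L] [FiniteDimensional k L]

set_option linter.unusedSectionVars false in
theorem sU (D : Md k L) (I : Submodule k (HahnSeries ℤ L)) (hD : D.Dom) (hL : SLeib k L)
    (hI : D.SLat I) (hR : D.Rig I) : D.SU I := by
  obtain ⟨u, hu⟩ := Uex.rec_exists (0 : HahnSeries ℤ L)
    (fun r u => (r = 0 → u 0 = 1) ∧ u r ∈ D.HT 0 ∧ ∀ g ∈ I, Uex.Sm k u 0 r g ∈ I)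
    (fun r u v h ⟨h1, h2, h3⟩ => ⟨fun hr => h 0 (Nat.zero_le r) ▸ h1 hr, h r le_rfl ▸ h2,
      fun g hg => Uex.Sm_congr (k := k) h 0 g ▸ h3 g hg⟩)
    (fun r u h => by
      by_cases hr : r = 0
      · subst hr
        refine ⟨1, fun _ => Function.update_self _ _ _, ?_, fun g hg => ?_⟩
        · rw [Function.update_self]
          exact D.RR_le_HT D.one_mem_RR
        · rw [Uex.Sm_apply]
          simpa [hL.zero] using hg
      have hv : ∀ i ≤ r, Function.update u r 0 i ∈ D.HT 0 := fun i hi => by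
        by_cases h' : i = r
        · rw [h', Function.update_self]
          exact Submodule.zero_mem _
        · rw [Function.update_of_ne h']
          exact (h i (by omega)).2.1
      obtain ⟨U, hU, hU'⟩ := Uex.exists_mul D I hD hI hR (Uex.Sm k (Function.update u r 0) 0 r)
        (fun b g hg => Uex.Sm_HT D hv hg) (fun a ha g hg => by
          have hm : (0, r) ∈ Finset.HasAntidiagonal.antidiagonal r :=
            Finset.HasAntidiagonal.mem_antidiagonal.2 (zero_add r)
          rw [Uex.Sm_of _ (fun c => Dh k 0 c a) 0 g (a * g)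
            (fun c => by simpa using hL.mul 0 0 c a g), ← Finset.add_sum_erase _ _ hm]
          simp only [hL.zero, add_sub_cancel_left]
          refine Submodule.sum_mem _ fun p hp => hI.mul _ (Uex.Dh_RR D ha 0 _) _ ?_
          have h1 := Finset.mem_erase.1 hp
          have h2 := Finset.HasAntidiagonal.mem_antidiagonal.1 h1.2
          have h3 : p.2 < r := by
            by_contra h'
            exact h1.1 (Prod.ext (by simp only; omega) (by simp only; omega))
          rw [Uex.Sm_congr (v := u) (fun i hi => Function.update_of_ne (by omega) _ _)]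
          exact (h _ h3).2.2 g hg)
      refine ⟨-U, fun h' => absurd h' hr, ?_, fun g hg => ?_⟩
      · rw [Function.update_self]
        exact Submodule.neg_mem _ hU
      · rw [Uex.Sm_update hL, neg_mul, ← sub_eq_add_neg]
        exact hU' g hg)
  refine ⟨u, (hu 0).1 rfl, fun i => (hu i).2.1, fun j0 r g hg => ?_⟩
  rw [← Uex.Sm_apply, Uex.Sm_of u (fun c => ((Ring.choose (-j0) c : ℤ) : HahnSeries ℤ L)) j0 g g
    (fun c => by simpa only [zsmul_eq_mul] using hL.off j0 c g)]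
  refine Submodule.sum_mem _ fun p _ => ?_
  rw [← zsmul_eq_mul]
  exact zsmul_mem ((hu p.2).2.2 g hg) _

end Md

end Pool.Agent.Lib.MP_86e60f_al.HW
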