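import Mathlib
import Pool.Agent.Lib.MP_86e60f_al.HW.Core
import Pool.Agent.Lib.MP_86e60f_al.HW.G2a
import Pool.Agent.Lib.MP_86e60f_al.HW.Trv
import Pool.Agent.Lib.MP_86e60f_al.HW.Prin
import Pool.Agent.Lib.MP_86e60f_al.HW.LatM
import Pool.Agent.Lib.MP_86e60f_al.HW.Mod
import Pool.Agent.Lib.MP_86e60f_al.HW.TF
import Pool.Agent.Lib.MP_86e60f_al.HW.End
import Pool.Agent.Lib.MP_86e60f_al.HW.Proj
import Pool.Agent.Lib.MP_86e60f_al.HW.Idl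
import Pool.Agent.Lib.MP_86e60f_al.HW.Leib
import Pool.Agent.Lib.MP_86e60f_al.HW.Abs
import Pool.Agent.Lib.MP_86e60f_al.HW.C2
import Pool.Agent.Lib.MP_86e60f_al.HW.Rep
import Pool.Agent.Lib.MP_86e60f_al.HW.BalRig
import Pool.Agent.Lib.MP_86e60f_al.HW.Uex
import Pool.Agent.Lib.MP_86e60f_al.HW.Step
import Pool.Agent.Lib.MP_86e60f_al.HW.Grad
import Pool.Agent.Lib.MP_86e60f_al.HW.Gv
import Pool.Agent.Lib.MP_86e60f_al.HW.TFI
import Pool.Agent.Lib.MP_86e60f_al.HW.Rho1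
import Pool.Agent.Lib.MP_86e60f_al.HW.Rho2
import Pool.Agent.Lib.MP_86e60f_al.HW.Fin

set_option autoImplicit false

open MvPolynomial Module Matrix
open scoped TensorProduct

namespace Pool.Agent.Lib.MP_86e60f_al.HW

namespace Md

variable {k L ι : Type*} [Field k] [CommRing L] [Algebra k L] [FiniteDimensional k L]
  [Fintype ι] [DecidableEq ι] (D : Md k L)

theorem gRig_of_tf (b : ι → ℤ) (E : ℤ → Submodule k (ι → L))
    (M : Submodule (Q k ⧸ D.P) (ι → Q k ⧸ D.P)) (hE : D.Lat b E) (hM : D.Desc b E M)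
    (hT : Module.IsTorsionFree (Q k ⧸ D.P) (M ⊗[Q k ⧸ D.P] Module.Dual (Q k ⧸ D.P) M)) :
    D.gRig b E := by
  obtain ⟨lam, hl⟩ := D.exists_lam
  have hp := D.sPair b lam hl
  have hc := D.sCl b E hE
  exact D.gRig_of_gTF b E lam hl hE hc hp (D.sVd b E lam hl hp hE)
    (D.sTF b E M hc (D.sHat b E hc) hM hT)

/-- The graded theorem in any rank. -/
theorem thmG (b : ι → ℤ) (M : Submodule (Q k ⧸ D.P) (ι → Q k ⧸ D.P))
    (hgr : M ≤ Submodule.span (Q k ⧸ D.P) {x | x ∈ M ∧ ∃ i, x ∈ pc D.w b D.P i})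
    (hfin : FiniteDimensional k ((ι → Q k ⧸ D.P) ⧸ M))
    (hT : Module.IsTorsionFree (Q k ⧸ D.P) (M ⊗[Q k ⧸ D.P] Module.Dual (Q k ⧸ D.P) M))
    (hEnd : ∀ j, 2 * j + sg D.w ≤ 0 → ∀ φ : M →ₗ[Q k ⧸ D.P] M,
      (∀ i, ∀ x : M, x.1 ∈ pc D.w b D.P i → (φ x).1 ∈ pc D.w b D.P (i + j)) → φ = 0) :
    Module.Projective (Q k ⧸ D.P) M := by
  obtain ⟨E, hE, hM⟩ := D.sLatM b M hgr hfin
  have hc := D.sCl b E hE
  have hh := D.sHat b E hc
  exact D.sProj b E M hE hc hh hM (D.sCore b E hE (D.gRig_of_tf b E M hE hM hT)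
    fun j hj => D.sEnd b E M hE hc hh hM j (hEnd j hj))

theorem neg_of_le {j : ℤ} (hj : 2 * j + sg D.w ≤ 0) : j < 0 := by
  have h0 := D.hw 0
  have h1 := D.hw 1
  have h2 := D.hw 2
  unfold sg at hj
  omega

theorem sUnit : D.SUnit := by
  intro M hgr hfin hT hred
  obtain ⟨E, hE, hM⟩ := D.sLatM _ M hgr hfin
  obtain ⟨s, x0, hx0, h⟩ := D.sPrin _ E hE (D.sCore _ E hE (D.gRig_of_tf _ E M hE hM hT)
    fun j hj => D.Hm_neg _ E hE hred j (D.neg_of_le hj))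
  exact ⟨E, hM, D.sCl _ E hE, s, x0, hx0, hE.le s hx0, h⟩

theorem red_of_dom (hD : D.Dom) : ∀ i, ∀ u ∈ D.H i, IsNilpotent u → u = 0 := by
  intro i u hu hn
  by_contra h
  obtain ⟨v, -, hv⟩ := hD.2 i u hu h
  have := hD.1
  exact (IsUnit.of_mul_eq_one v hv).not_isNilpotent hn

/-- A rigid fractional ideal of the completed ring is principal. -/
theorem principal_of_rig (hD : D.Dom) (I : Submodule k (HahnSeries ℤ L)) (hI : D.SLat I)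
    (hR : D.Rig I) : ∃ g0 ∈ I, ∀ g ∈ I, ∃ a ∈ D.RR, g = a * g0 := by
  obtain ⟨v, -, v', -, hv, hG, hI', hR'⟩ := D.sGrad I hD
    (fun I' h1 h2 m hm hP => D.sStepZ I' m hD (sAbs k L) h1 hm hP (D.sU I' hD (sLeib k L) h1 h2))
    hI hR
  obtain ⟨b, hE, hV⟩ := D.lat_vRig _ hG hI' hR'
  obtain ⟨s, x0, hx0, h⟩ := D.sPrin b _ hE (D.sCore b _ hE
    (D.gRig_of_vRig b _ hE (D.sCl b _ hE) hV)
    fun j hj => D.Hm_neg b _ hE (D.red_of_dom hD) j (D.neg_of_le hj))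
  obtain ⟨_, ⟨g0, hg0, rfl⟩, h'⟩ := D.gen_of_grd _ hG s x0 hx0 hI' h
  refine ⟨g0, hg0, fun g hg => ?_⟩
  obtain ⟨a, ha, e⟩ := h' _ ⟨g, hg, rfl⟩
  refine ⟨a, ha, ?_⟩
  simp only [LinearMap.mulLeft_apply] at e
  calc g = v' * (v * g) := by rw [← mul_assoc, mul_comm v', hv, one_mul]
    _ = a * (v * v' * g0) := by rw [e]; ring
    _ = a * g0 := by rw [hv, one_mul]

/-- The theorem for ideals of the completed ring. -/
theorem thmI (R : Type*) [CommRing R] [IsDomain R] (π : MvPowerSeries (Fin 3) k →+* R)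
    (hπ : Function.Surjective π) (hker : RingHom.ker π =
      Ideal.span {(D.f : MvPowerSeries (Fin 3) k), (D.g : MvPowerSeries (Fin 3) k)}) :
    ¬ IsField R ∧ (∀ r : R, r ≠ 0 → ∀ x, ¬ IsUnit x → ∃ s : ℕ, r ∣ x ^ s) ∧
      ∀ I : Ideal R, Module.IsTorsionFree R (I ⊗[R] Module.Dual R I) → I.IsPrincipal := by
  obtain ⟨ρ0, h0⟩ := D.exists_rho
  have h1 := D.sRho ρ0 h0
  let ρ : R →+* HahnSeries ℤ L := π.liftOfSurjective hπ ⟨ρ0, by rw [hker, h1.ker]⟩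
  have hρ : ∀ x, ρ (π x) = ρ0 x := fun x => π.liftOfSurjective_comp_apply hπ _ x
  have hinj : Function.Injective ρ := by
    rw [injective_iff_map_eq_zero]
    intro r hr
    obtain ⟨x, rfl⟩ := hπ r
    rw [hρ, ← RingHom.mem_ker, h1.ker, ← hker] at hr
    exact hr
  have hrange : ∀ F, F ∈ D.RR ↔ ∃ x, ρ x = F := fun F => by
    rw [h1.range]
    constructor
    · rintro ⟨x, rfl⟩
      exact ⟨π x, hρ x⟩
    · rintro ⟨r, rfl⟩
      obtain ⟨x, rfl⟩ := hπ r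
      exact ⟨x, (hρ x).symm⟩
  have hunit : ∀ x, ¬ IsUnit x → (ρ x).coeff 0 = 0 := fun r hr => by
    obtain ⟨x, rfl⟩ := hπ r
    rw [hρ, h1.const]
    by_contra h
    refine hr (IsUnit.map π (MvPowerSeries.isUnit_iff_constantCoeff.2 (Ne.isUnit fun h' => h ?_)))
    rw [h', map_zero]
  obtain ⟨hD, hF, hN, hJ⟩ := D.sFin R ρ inferInstance hinj hrange hunit
  refine ⟨hF, hN, fun I hT => ?_⟩
  by_cases hI : I = ⊥
  · rw [hI]
    exact bot_isPrincipal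
  obtain ⟨J, hJ1, hJ2, hJ3⟩ := hJ I hI
  obtain ⟨lam, hl⟩ := D.exists_lam
  obtain ⟨_, hg0, h⟩ := D.principal_of_rig hD J hJ3 (D.rig_of_bal lam J hl
    (D.sRep lam (D.sPair _ lam hl)) hJ3 hJ2 (D.sTFI R ρ hinj hrange I J hJ1 hJ3 hT))
  obtain ⟨g0, hg0', rfl⟩ := (hJ1 _).1 hg0
  refine ⟨g0, le_antisymm (fun g hg => ?_) ((Submodule.span_singleton_le_iff_mem _ _).2 hg0')⟩
  obtain ⟨_, ha, e⟩ := h _ ((hJ1 _).2 ⟨g, hg, rfl⟩)
  obtain ⟨a, rfl⟩ := (hrange _).1 ha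
  exact Submodule.mem_span_singleton.2 ⟨a, hinj (by rw [smul_eq_mul, map_mul, e])⟩

end Md

end Pool.Agent.Lib.MP_86e60f_al.HW
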