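import Mathlib
import Pool.Agent.Lib.MP_86e60f_al.HW.Stmt3

set_option autoImplicit false

open PowerSeries

namespace Pool.Agent.Lib.MP_86e60f_al.HW

namespace Nrm

variable {k B W : Type*} [Field k] [CommRing B] [Algebra k B] [Field W] [Algebra k W]

theorem bin_one {d : ℤ} (h : binomialSeries W d = 1) : d = 0 := by
  have key : ∀ n : ℕ, binomialSeries W (n : ℤ) = 1 → n = 0 := fun n hn => by
    by_contra h0
    have := congrArg (coeff n) hn
    rw [binomialSeries_coeff, Ring.choose_natCast, Nat.choose_self, coeff_one, if_neg h0] at this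
    simp at this
  obtain ⟨n, rfl | rfl⟩ := d.eq_nat_or_neg
  · rw [key n h]; rfl
  · have := binomialSeries_add (A := W) (n : ℤ) (-n)
    rw [add_neg_cancel, binomialSeries_zero, h, mul_one] at this
    rw [key n this.symm]; rfl

theorem bin_inj {d d' : ℤ} (h : binomialSeries W d = binomialSeries W d') : d = d' := by
  have := binomialSeries_add (A := W) d (-d')
  rw [h, ← binomialSeries_add, add_neg_cancel, binomialSeries_zero] at this
  exact sub_eq_zero.1 (by rw [sub_eq_add_neg]; exact bin_one this)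

theorem bin_map (g : W →ₐ[k] W) (d : ℤ) :
    PowerSeries.map (g : W →+* W) (binomialSeries W d) = binomialSeries W d := by
  ext n
  simp

variable [Algebra.IsAlgebraic k W]

theorem ex_inv (s : B →ₐ[k] W) {x : B} (h : s x ≠ 0) : ∃ y, s (x * y) = 1 := by
  obtain ⟨y, hy⟩ := s.range.inv_mem_of_algebraic (x := ⟨s x, x, rfl⟩)
    (Algebra.IsAlgebraic.isAlgebraic _)
  refine ⟨y, ?_⟩
  have hy' : s y = (s x)⁻¹ := hy
  rw [map_mul, hy', mul_inv_cancel₀ h]

theorem ex_gal [IsAlgClosed W] (s s' : B →ₐ[k] W) (h : ∀ x, s' x = 0 → s x = 0) :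
    ∃ g : W →ₐ[k] W, ∀ x, g (s' x) = s x := by
  let F : IntermediateField k W := s'.range.toIntermediateField fun x hx =>
    s'.range.inv_mem_of_algebraic (x := ⟨x, hx⟩) (Algebra.IsAlgebraic.isAlgebraic _)
  let f : B →ₐ[k] F := s'.codRestrict F.toSubalgebra fun x => ⟨x, rfl⟩
  have hf : Function.Surjective f := fun ⟨_, x, e⟩ => ⟨x, Subtype.ext e⟩
  have hk : RingHom.ker f.toRingHom ≤ RingHom.ker s.toRingHom := fun x hx =>
    h x (congrArg Subtype.val hx)
  have : Algebra.IsAlgebraic F W := Algebra.IsAlgebraic.tower_top (K := k) F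
  obtain ⟨g, hg⟩ := IsAlgClosed.surjective_domRestrict_of_isAlgebraic
    (K := k) (L := F) (M := W) (E := W) (AlgHom.liftOfSurjective f hf s hk)
  exact ⟨g, fun x => (DFunLike.congr_fun hg (f x)).trans
    (AlgHom.liftOfSurjective_apply f hf s hk x)⟩

/-- Two points are separated or conjugate. -/
theorem sep [IsAlgClosed W] (s s' : B →ₐ[k] W) : (∃ y, s y = 1 ∧ s' y = 0) ∨
    ((∃ g : W →ₐ[k] W, ∀ x, g (s' x) = s x) ∧ ∃ g : W →ₐ[k] W, ∀ x, g (s x) = s' x) := by
  by_cases h : ∀ x, s' x = 0 → s x = 0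
  · refine Or.inr ⟨ex_gal s s' h, ex_gal s' s fun x hx => ?_⟩
    by_contra h0
    obtain ⟨y, hy⟩ := ex_inv s' h0
    have := h (1 - x * y) (by rw [map_sub, map_one, hy, sub_self])
    rw [map_sub, map_one, map_mul, hx, zero_mul, sub_zero] at this
    exact one_ne_zero this
  · push Not at h
    obtain ⟨x, h1, h2⟩ := h
    obtain ⟨y, hy⟩ := ex_inv s h2
    exact Or.inl ⟨x * y, hy, by rw [map_mul, h1, zero_mul]⟩

end Nrm

open Nrm in
theorem sNorm (k L : Type*) [Field k] [CommRing L] [Algebra k L] [FiniteDimensional k L] :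
    SNorm k L := by
  classical
  intro B hB a ha h0
  let W := AlgebraicClosure k
  let : Fintype (L →ₐ[k] W) := Fintype.ofFinite _
  let U : (L →ₐ[k] W) → PowerSeries W := fun s => PowerSeries.mk fun r => s (a r)
  have U0 : ∀ s, U s ≠ 0 := fun s h => by
    have := congrArg (coeff 0) h
    rw [coeff_mk, h0, map_one, map_zero] at this
    exact one_ne_zero this
  let T : (L →ₐ[k] W) → Set ℤ := fun s => {m | ∃ s', U s = binomialSeries W m * U s'}
  have hT : ∀ s, ∃ μ ∈ T s, ∀ m ∈ T s, m ≤ μ := fun s => by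
    have fin : (T s).Finite := by
      have : T s = ⋃ s', {m : ℤ | U s = binomialSeries W m * U s'} := by
        ext m; simp [T]
      rw [this]
      exact Set.finite_iUnion fun s' => Set.Subsingleton.finite fun m hm m' hm' =>
        bin_inj (mul_right_cancel₀ (U0 s') (hm.symm.trans hm'))
    exact Set.exists_max_image _ id fin ⟨0, s, by rw [binomialSeries_zero, one_mul]⟩
  choose μ μ1 μ2 using hT
  have hd : ∀ s s' d, U s = binomialSeries W d * U s' → d + μ s' ≤ μ s := fun s s' d h => by
    obtain ⟨s'', e⟩ := μ1 s'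
    exact μ2 s _ ⟨s'', by rw [h, e, binomialSeries_add, mul_assoc]⟩
  have hd' : ∀ s s' d, U s = binomialSeries W d * U s' → d + μ s' = μ s := fun s s' d h => by
    have h1 := hd s s' d h
    have h2 := hd s' s (-d) (by
      rw [h, ← mul_assoc, ← binomialSeries_add, neg_add_cancel, binomialSeries_zero, one_mul])
    omega
  have hg : ∀ (s s' : L →ₐ[k] W) (g : W →ₐ[k] W), (∀ x : B, g (s' x) = s x) → μ s' ≤ μ s :=
    fun s s' g h => by
      obtain ⟨s'', e⟩ := μ1 s'
      refine μ2 s _ ⟨g.comp s'', ?_⟩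
      have := congrArg (PowerSeries.map (g : W →+* W)) e
      rw [map_mul, bin_map] at this
      convert this using 1
      · ext r
        simp only [U, coeff_mk, coeff_map]
        exact (h ⟨a r, ha r⟩).symm
      · congr 1
  have hs : ∀ s s' : L →ₐ[k] W, ∃ y : B, μ s ≠ μ s' → s y = 1 ∧ s' y = 0 := fun s s' => by
    rcases sep (s.comp B.val) (s'.comp B.val) with ⟨y, hy⟩ | ⟨⟨g, h⟩, g', h'⟩
    · exact ⟨y, fun _ => hy⟩
    · exact ⟨0, fun n => absurd (le_antisymm (hg s' s g' h') (hg s s' g h)) n⟩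
  choose y hy using hs
  have he : ∀ t : ℤ, ∃ e : B, ∀ s : L →ₐ[k] W, s e = if μ s = t then 1 else 0 := fun t => by
    refine ⟨1 - ∏ s ∈ Finset.univ.filter (μ · = t),
      (1 - ∏ s' ∈ Finset.univ.filter (μ · ≠ t), y s s'), fun σ => ?_⟩
    have cv : ∀ x : B, σ x = (σ.comp B.val) x := fun _ => rfl
    rw [cv]
    simp only [map_sub, map_one, map_prod]
    split_ifs with c
    · rw [Finset.prod_eq_zero (i := σ) (by simpa using c), sub_zero]
      rw [Finset.prod_eq_one, sub_self]
      intro s' hs'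
      exact (hy σ s' (by rw [c]; exact fun e => (Finset.mem_filter.1 hs').2 e.symm)).1
    · rw [Finset.prod_eq_one, sub_self]
      intro s hs
      rw [Finset.prod_eq_zero (i := σ) (by simpa using c), sub_zero]
      exact (hy s σ (by rw [(Finset.mem_filter.1 hs).2]; exact fun e => c e.symm)).2
  choose e he using he
  have inj : ∀ x x' : B, (∀ s : L →ₐ[k] W, s x = s x') → (x : L) = x' := fun x x' h => by
    refine sub_eq_zero.1 (hB _ (B.sub_mem x.2 x'.2) (nilpotent_iff_mem_prime.2 fun J hJ => ?_))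
    have : IsDomain (L ⧸ J) := Ideal.Quotient.isDomain J
    have : FiniteDimensional k (L ⧸ J) :=
      Module.Finite.of_surjective (Ideal.Quotient.mkₐ k J).toLinearMap
        (Ideal.Quotient.mkₐ_surjective k J)
    let : Field (L ⧸ J) := fieldOfFiniteDimensional k (L ⧸ J)
    let φ : (L ⧸ J) →ₐ[k] W := IsAlgClosed.lift
    have h1 : φ (Ideal.Quotient.mk J (x - x')) = 0 := by
      have := h (φ.comp (Ideal.Quotient.mkₐ k J))
      rw [map_sub, map_sub]
      exact sub_eq_zero.2 this
    exact Ideal.Quotient.eq_zero_iff_mem.1 (φ.toRingHom.injective (h1.trans (map_zero φ).symm))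
  have sum : ∀ (σ : L →ₐ[k] W) (c : ℤ → ℤ),
      σ (∑ s ∈ Finset.univ.image μ, c s • (e s : L)) = c (μ σ) • 1 := fun σ c => by
    rw [map_sum, Finset.sum_eq_single (μ σ)]
    · rw [map_zsmul, he, if_pos rfl]
    · intro t _ ht
      rw [map_zsmul, he, if_neg ht.symm, smul_zero]
    · intro h
      exact absurd (Finset.mem_image_of_mem μ (Finset.mem_univ σ)) h
  refine ⟨Finset.univ.image μ, fun t => e t, fun t => (e t).2, fun t => ?_, fun t t' h => ?_, ?_,
    fun σ1 σ2 m hm h => ?_⟩
  · refine inj (e t * e t) (e t) fun s => ?_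
    rw [MulMemClass.coe_mul, map_mul, he]
    split_ifs <;> simp
  · refine inj (e t * e t') 0 fun s => ?_
    rw [MulMemClass.coe_mul, map_mul, he, he]
    split_ifs with c c' <;> simp
    exact h (c.symm.trans c')
  · have := inj (∑ s ∈ Finset.univ.image μ, e s) 1 fun s => by
      have := sum s fun _ => 1
      simpa using this
    simpa using this
  · have cf : ∀ (σ : L →ₐ[k] W) (r : ℕ), σ (∑ p ∈ Finset.HasAntidiagonal.antidiagonal r,
        a p.1 * ∑ s ∈ Finset.univ.image μ, (Ring.choose (-s) p.2 : ℤ) • (e s : L)) =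
        coeff r (U σ * binomialSeries W (-μ σ)) := fun σ r => by
      rw [map_sum, coeff_mul]
      refine Finset.sum_congr rfl fun p _ => ?_
      rw [map_mul, sum σ fun s => Ring.choose (-s) p.2, coeff_mk, binomialSeries_coeff]
    have h1 : U σ1 * binomialSeries W (-μ σ1) =
        U σ2 * binomialSeries W (-μ σ2) * binomialSeries W (m : ℤ) := by
      ext r
      rw [← cf, h r, coeff_mul]
      refine Finset.sum_congr rfl fun p _ => ?_
      rw [cf, binomialSeries_coeff, Ring.choose_natCast, mul_comm]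
      simp
    have h2 := hd' σ1 σ2 (-μ σ2 + m + μ σ1) (by
      have := congrArg (· * binomialSeries W (μ σ1)) h1
      simp only [mul_assoc, ← binomialSeries_add, neg_add_cancel, binomialSeries_zero,
        mul_one] at this
      rw [this, mul_comm, add_assoc])
    omega

end Pool.Agent.Lib.MP_86e60f_al.HW
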