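import Mathlib
import Pool.Agent.Lib.MP_86e60f_al.HW.Stmt3

set_option autoImplicit false

open MvPolynomial Module Matrix

namespace Pool.Agent.Lib.MP_86e60f_al.HW

namespace Md

variable {k L : Type*} [Field k] [CommRing L] [Algebra k L]

theorem Shift_one (D : Md k L) : (1 : L) ∈ D.H 0 := by
  simpa using D.V_le_H 0 (D.algebraMap_mem_V 1)

theorem Shift_pow (D : Md k L) {τ : L} {j : ℤ} (h : τ ∈ D.H j) (n : ℕ) : τ ^ n ∈ D.H (n * j) := by
  induction n with
  | zero => simpa using D.Shift_one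
  | succ n ih =>
    have := D.H_mul ih h
    rwa [← pow_succ, show (n : ℤ) * j + j = ((n + 1 : ℕ) : ℤ) * j by push_cast; ring] at this

theorem Shift_tau (D : Md k L) (hU : D.Uni) :
    ∃ τ : ℤ → L, (∀ s, τ s ∈ D.H s) ∧ ∀ s, τ s * τ (-s) = 1 := by
  obtain ⟨τ, h1, τ', h2, h⟩ := hU
  refine ⟨fun s => τ ^ s.toNat * τ' ^ (-s).toNat, fun s => ?_, fun s => ?_⟩
  · have := D.H_mul (D.Shift_pow h1 s.toNat) (D.Shift_pow h2 (-s).toNat)
    rwa [show (s.toNat : ℤ) * 1 + ((-s).toNat : ℤ) * -1 = s by omega] at this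
  · simp only [neg_neg]
    calc τ ^ s.toNat * τ' ^ (-s).toNat * (τ ^ (-s).toNat * τ' ^ s.toNat)
        = (τ * τ') ^ s.toNat * (τ * τ') ^ (-s).toNat := by rw [mul_pow, mul_pow]; ring
      _ = 1 := by rw [h, one_pow, one_pow, one_mul]

theorem Shift_single (D : Md k L) {j : ℤ} {c : L} (h : c ∈ D.H j) :
    HahnSeries.single j c ∈ D.HH := fun i => by
  by_cases e : i = j
  · rw [e, HahnSeries.coeff_single_same]; exact h
  · rw [HahnSeries.coeff_single_of_ne e]; exact Submodule.zero_mem _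

theorem Shift_Dh (j : ℤ) (c : ℕ) (x : L) :
    Dh k 0 c (HahnSeries.single j x) = HahnSeries.single j ((Ring.choose j c : ℤ) • x) := by
  ext i
  rw [coeff_Dh]
  by_cases h : i = j
  · rw [h, HahnSeries.coeff_single_same, HahnSeries.coeff_single_same, sub_zero]
  · rw [HahnSeries.coeff_single_of_ne h, HahnSeries.coeff_single_of_ne h, smul_zero]

/-- After a shift of the branches there is no twisted relation. -/
theorem sShift (D : Md k L) (hD : D.Red) (hU : D.Uni) (hN : SNorm k L) (hT : D.STrans) :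
    D.SShift := by
  classical
  intro I a hI
  obtain ⟨τ, hτ, hτ'⟩ := D.Shift_tau hU
  let B : Subalgebra k L :=
    { carrier := D.H 0
      mul_mem' := fun {x y} hx hy => by simpa using D.H_mul hx hy
      add_mem' := fun {x y} hx hy => Submodule.add_mem _ hx hy
      algebraMap_mem' := fun r => D.V_le_H 0 (D.algebraMap_mem_V r) }
  have ha : (∀ r, a r ∈ B) ∧ a 0 = 1 := by
    obtain ⟨u, u0, uT, ua, -⟩ := hI
    exact ⟨fun r => ua r ▸ (uT r).1 0, by rw [← ua 0, u0]; simp⟩
  obtain ⟨S, e, eB, ee, eo, e1, hNR⟩ := hN B (fun x hx => hD 0 x hx) a ha.1 ha.2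
  have eH : ∀ s t, e s * τ t ∈ D.H t := fun s t => by
    simpa using D.H_mul (show e s ∈ D.H 0 from eB s) (hτ t)
  have key : ∀ c : ℕ, (∑ s ∈ S, HahnSeries.single s (e s * τ s)) *
      Dh k 0 c (∑ s ∈ S, HahnSeries.single (-s) (e s * τ (-s))) =
      HahnSeries.single (0 : ℤ) (∑ s ∈ S, (Ring.choose (-s) c : ℤ) • e s) := by
    intro c
    rw [map_sum, Finset.sum_mul_sum, ← HahnSeries.C_apply, map_sum]
    simp only [HahnSeries.C_apply]
    refine Finset.sum_congr rfl fun s hs => ?_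
    rw [Finset.sum_eq_single s]
    · rw [Shift_Dh, HahnSeries.single_mul_single, add_neg_cancel, mul_smul_comm,
        mul_mul_mul_comm, ee, hτ', mul_one]
    · intro t _ ht
      rw [Shift_Dh, HahnSeries.single_mul_single, mul_smul_comm, mul_mul_mul_comm,
        eo s t ht.symm, zero_mul, smul_zero, map_zero]
    · exact fun h => absurd hs h
  have h1 : (∑ s ∈ S, HahnSeries.single s (e s * τ s)) ∈ D.HH :=
    Submodule.sum_mem _ fun s _ => D.Shift_single (eH s s)
  have h2 : (∑ s ∈ S, HahnSeries.single (-s) (e s * τ (-s))) ∈ D.HH :=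
    Submodule.sum_mem _ fun s _ => D.Shift_single (eH s (-s))
  have h3 : (∑ s ∈ S, HahnSeries.single s (e s * τ s)) *
      (∑ s ∈ S, HahnSeries.single (-s) (e s * τ (-s))) = 1 := by
    have h0 : ∀ F : HahnSeries ℤ L, Dh k 0 0 F = F := fun F => by
      ext i; rw [coeff_Dh]; simp
    have := key 0
    rw [h0] at this
    rw [this]
    simp [e1]
  refine ⟨_, h1, _, h2, h3, _, hNR, ?_⟩
  have h4 := (hT I _ h1 _ h2 h3).2.2 a (fun c => by
    rw [key]
    refine ⟨D.Shift_single (Submodule.sum_mem _ fun s _ => zsmul_mem (eB s) _), fun j hj => ?_⟩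
    exact HahnSeries.coeff_single_of_ne hj.ne) hI
  simpa only [key, HahnSeries.coeff_single_same] using h4

end Md

end Pool.Agent.Lib.MP_86e60f_al.HW
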