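import Mathlib
import Pool.Agent.Lib.MP_86e60f_al.HW.Stmt3

set_option autoImplicit false

open MvPolynomial Module Matrix

namespace Pool.Agent.Lib.MP_86e60f_al.HW

namespace Md

variable {k L : Type*} [Field k] [CommRing L] [Algebra k L]

/-- The next coefficient after a gap is given by a multiplication. -/
theorem sStep2 (D : Md k L) (I : Submodule k (HahnSeries ℤ L)) (m : ℕ) (a : ℕ → L)
    (hA : SAbs2 k L) (hI : D.SLat I) (hm : 0 < m) (hP : D.Pm I m) (hU : D.SU2 I a)
    (hN : NR k a) : D.SStepZ I m := by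
  choose θ hθ using D.Step_theta hI hm hP
  obtain ⟨u, -, huT, hua, hu⟩ := hU
  obtain rfl : (fun r => (u r).coeff 0) = a := funext hua
  let K : Subalgebra k L :=
    { carrier := {x | x ∈ D.H 0 ∧ ∀ j, ∀ c ∈ D.Ld I j, x * c ∈ D.Ld I j}
      mul_mem' := fun {x y} hx hy => ⟨by simpa using D.H_mul hx.1 hy.1, fun j c hc => by
        rw [mul_assoc]; exact hx.2 j _ (hy.2 j c hc)⟩
      add_mem' := fun {x y} hx hy => ⟨Submodule.add_mem _ hx.1 hy.1, fun j c hc => by
        rw [add_mul]; exact Submodule.add_mem _ (hx.2 j c hc) (hy.2 j c hc)⟩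
      algebraMap_mem' := fun r => ⟨D.V_le_H 0 (D.algebraMap_mem_V r), fun j c hc => by
        rw [← Algebra.smul_def]; exact Submodule.smul_mem _ r hc⟩ }
  let N : Submodule k (ℤ → Module.End k L) :=
    { carrier := {η | ∃ w ∈ D.H m, ∀ j, ∀ c ∈ D.Ld I j, η j c - w * c ∈ D.Ld I (j + m)}
      add_mem' := by
        rintro η η' ⟨w, hw, h⟩ ⟨w', hw', h'⟩
        refine ⟨w + w', Submodule.add_mem _ hw hw', fun j c hc => ?_⟩
        have := Submodule.add_mem _ (h j c hc) (h' j c hc)
        convert this using 1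
        simp only [Pi.add_apply, LinearMap.add_apply]
        ring
      zero_mem' := ⟨0, Submodule.zero_mem _, fun j c _ => by simp⟩
      smul_mem' := by
        rintro r η ⟨w, hw, h⟩
        refine ⟨r • w, Submodule.smul_mem _ r hw, fun j c hc => ?_⟩
        have := Submodule.smul_mem _ r (h j c hc)
        convert this using 1
        simp only [Pi.smul_apply, LinearMap.smul_apply, smul_sub, smul_mul_assoc] }
  have hG : ∀ (j : ℤ) (r : ℕ) (F : HahnSeries ℤ L), (∀ i, i < j → F.coeff i = 0) →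
      (∀ i, i < j → (∑ p ∈ Finset.HasAntidiagonal.antidiagonal r,
        u p.1 * Dh k j p.2 F).coeff i = 0) ∧
      (∑ p ∈ Finset.HasAntidiagonal.antidiagonal r, u p.1 * Dh k j p.2 F).coeff j =
        (u r).coeff 0 * F.coeff j := by
    intro j r F hF
    refine ⟨fun i hi => ?_, ?_⟩
    · rw [HahnSeries.coeff_sum]
      exact Finset.sum_eq_zero fun p _ => (Step_low (huT p.1).2 hF j p.2).1 i hi
    · rw [HahnSeries.coeff_sum, ← Step_sum (fun i => (u i).coeff 0) (F.coeff j) r]
      refine Finset.sum_congr rfl fun p _ => ?_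
      rw [(Step_low (huT p.1).2 hF j p.2).2, sub_self]
  have haK : ∀ r, (u r).coeff 0 ∈ K := by
    intro r
    refine ⟨(huT r).1 0, ?_⟩
    rintro j c ⟨F, hF, rfl⟩
    obtain ⟨h1, h2⟩ := hG j r F hF.2.2
    exact ⟨_, D.Step_ld hI (hu j r F hF.1) h1, h2⟩
  have key : θ ∈ N := by
    refine hA K N ?_ ?_ (fun r => (u r).coeff 0) m θ haK hN hm ?_
    · rintro x hx η ⟨w, hw, h⟩
      refine ⟨x * w, by simpa using D.H_mul hx.1 hw, fun j c hc => ?_⟩
      have := hx.2 _ _ (h j c hc)
      convert this using 1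
      simp only [Module.End.mul_apply, LinearMap.mulLeft_apply]
      ring
    · rintro x hx η ⟨w, hw, h⟩
      refine ⟨w * x, by simpa using D.H_mul hw hx.1, fun j c hc => ?_⟩
      have := h j _ (hx.2 j c hc)
      convert this using 1
      simp only [Module.End.mul_apply, LinearMap.mulLeft_apply]
      ring
    · intro r
      refine ⟨(u r).coeff m, (huT r).1 m, fun j c hc => ?_⟩
      obtain ⟨F, hF, hFc, hF0⟩ := hP j c hc
      have hF1 : ∀ i, i < j → F.coeff i = 0 := fun i hi => hF0 i (by omega) hi.ne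
      obtain ⟨h1, h2⟩ := hG j r F hF1
      have h3 := hθ j _ (hu j r F hF) h1
      have h4 := hθ j F hF hF1
      rw [h2, HahnSeries.coeff_sum,
        Finset.sum_congr rfl fun p _ => Step_top (k := k) hm (huT p.1).2 hF0 p.2,
        Finset.sum_add_distrib, Step_sum (fun i => (u i).coeff m), hFc] at h3
      rw [hFc] at h4
      have h5 : ∑ p ∈ Finset.HasAntidiagonal.antidiagonal r,
          (m.choose p.2 : k) • ((u p.1).coeff 0 * (F.coeff (j + m) - θ j c)) ∈ D.Ld I (j + m) :=
        Submodule.sum_mem _ fun p _ => Submodule.smul_mem _ _ ((haK p.1).2 _ _ h4)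
      have h6 := Submodule.sub_mem _ h5 h3
      convert h6 using 1
      simp only [LinearMap.sub_apply, Module.End.mul_apply, LinearMap.mulLeft_apply,
        LinearMap.sum_apply, LinearMap.smul_apply, mul_sub, smul_sub, Finset.sum_sub_distrib]
      ring
  obtain ⟨w, hw, h⟩ := key
  refine ⟨w, hw, fun j F hF hF0 => ?_⟩
  have hF1 : ∀ i, i < j → F.coeff i = 0 := fun i hi => hF0 i (by omega) hi.ne
  have h1 := Submodule.add_mem _ (hθ j F hF hF1)
    (h j (F.coeff j) ⟨F, D.Step_ld hI hF hF1, rfl⟩)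
  convert h1 using 1
  ring

end Md

end Pool.Agent.Lib.MP_86e60f_al.HW
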