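import Mathlib
import Pool.Agent.Lib.MP_86e60f_al.HW.Stmt3
import Pool.Agent.Lib.MP_86e60f_al.HW.Grad

set_option autoImplicit false

open MvPolynomial Module Matrix

namespace Pool.Agent.Lib.MP_86e60f_al.HW

/-- Associativity of the convolution of sequences. -/
theorem Trans_assoc {R : Type*} [CommRing R] (x y z : ℕ → R) (r : ℕ) :
    ∑ p ∈ Finset.HasAntidiagonal.antidiagonal r,
      (∑ q ∈ Finset.HasAntidiagonal.antidiagonal p.1, x q.1 * y q.2) * z p.2 =
    ∑ p ∈ Finset.HasAntidiagonal.antidiagonal r,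
      x p.1 * ∑ q ∈ Finset.HasAntidiagonal.antidiagonal p.2, y q.1 * z q.2 := by
  have h := congrArg (PowerSeries.coeff r)
    (mul_assoc (PowerSeries.mk x) (PowerSeries.mk y) (PowerSeries.mk z))
  simpa only [PowerSeries.coeff_mul, PowerSeries.coeff_mk] using h

namespace Md

variable {k L : Type*} [Field k] [CommRing L] [Algebra k L] (D : Md k L)
  {I : Submodule k (HahnSeries ℤ L)} {v v' : HahnSeries ℤ L}

theorem Trans_lat (hv : v ∈ D.HH) (hv' : v' ∈ D.HH) (h : v * v' = 1) (hI : D.SLat I) :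
    D.SLat (I.map (LinearMap.mulLeft k v)) := by
  obtain ⟨s, hs⟩ := D.exists_HT hv
  obtain ⟨s', hs'⟩ := D.exists_HT hv'
  obtain ⟨b, hb⟩ := hI.low
  obtain ⟨N, hN⟩ := hI.big
  refine ⟨⟨s + b, fun F hF => ?_⟩, fun a ha F hF => ?_, N - s', fun F hF => ?_⟩
  · obtain ⟨g, hg, rfl⟩ := Grad_mem.1 hF
    exact D.HT_mul hs (hb hg)
  · rw [Grad_mem' h] at hF ⊢
    rw [mul_left_comm]
    exact hI.mul a ha _ hF
  · rw [Grad_mem' h]
    have := D.HT_mul hs' hF
    rw [add_sub_cancel] at this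
    exact hN this

theorem Trans_rig (hv' : v' ∈ D.HH) (h : v * v' = 1) (hR : D.Rig I) :
    D.Rig (I.map (LinearMap.mulLeft k v)) := by
  obtain ⟨s', hs'⟩ := D.exists_HT hv'
  intro Φ hΦ
  suffices hA : D.Adm I (LinearMap.mulLeft k v' ∘ₗ Φ ∘ₗ LinearMap.mulLeft k v) by
    obtain ⟨U, hU, h1⟩ := hR _ hA
    refine ⟨U, hU, fun F hF => ?_⟩
    obtain ⟨g, hg, rfl⟩ := Grad_mem.1 hF
    have h2 : v' * Φ (v * g) - U * g ∈ I := h1 g hg
    rw [Grad_mem' h]
    convert h2 using 1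
    linear_combination (-(U * g)) * h
  refine ⟨?_, ?_⟩
  · obtain ⟨b, hb⟩ := hΦ.low
    exact ⟨s' + b, fun g hg => D.HT_mul hs' (hb _ (Grad_mem.2 ⟨g, hg, rfl⟩))⟩
  · intro a ha g hg
    have h2 := (Grad_mem' h).1 (hΦ.lin a ha _ (Grad_mem.2 ⟨g, hg, rfl⟩))
    change v' * Φ (v * (a * g)) - a * (v' * Φ (v * g)) ∈ I
    rw [mul_left_comm v a g]
    convert h2 using 1
    ring

theorem Trans_su (hL : SLeib k L) (h : v * v' = 1) {a : ℕ → L}
    (hc : ∀ c : ℕ, v * Dh k 0 c v' ∈ D.HT 0) (hU : D.SU2 I a) :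
    D.SU2 (I.map (LinearMap.mulLeft k v)) fun r : ℕ =>
      ∑ p ∈ Finset.HasAntidiagonal.antidiagonal r, a p.1 * (v * Dh k 0 p.2 v').coeff 0 := by
  obtain ⟨u, h0, h1, h2, h3⟩ := hU
  refine ⟨fun r => ∑ p ∈ Finset.HasAntidiagonal.antidiagonal r, u p.1 * (v * Dh k 0 p.2 v'),
    ?_, fun r => ?_, fun r => ?_, fun j0 r G hG => ?_⟩
  · simp only [Finset.HasAntidiagonal.antidiagonal_zero, Finset.sum_singleton]
    rw [h0, hL.zero, h, mul_one]
  · exact Submodule.sum_mem _ fun p _ => D.Grad_HT (h1 _) (hc _)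
  · rw [HahnSeries.coeff_sum]
    refine Finset.sum_congr rfl fun p _ => ?_
    have := coeff_mul_lead (h1 p.1).2 (hc p.2).2
    rw [add_zero] at this
    rw [this, h2]
  · rw [Grad_mem' h] at hG ⊢
    have h4 := h3 j0 r _ hG
    convert h4 using 1
    rw [Trans_assoc u (fun c => v * Dh k 0 c v') (fun c => Dh k j0 c G) r, Finset.mul_sum]
    refine Finset.sum_congr rfl fun p _ => ?_
    have h5 := hL.mul 0 j0 p.2 v' G
    rw [zero_add] at h5
    rw [h5, mul_left_comm, Finset.mul_sum]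
    congr 1
    refine Finset.sum_congr rfl fun q _ => ?_
    linear_combination (Dh k 0 q.1 v' * Dh k j0 q.2 G) * h

/-- Transport along multiplication by a unit. -/
theorem sTrans (hL : SLeib k L) : D.STrans := fun _ _ hv _ hv' h =>
  ⟨D.Trans_lat hv hv' h, D.Trans_rig hv' h, fun _ hc hU => D.Trans_su hL h hc hU⟩

end Md

end Pool.Agent.Lib.MP_86e60f_al.HW
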