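import Mathlib
import Pool.Agent.Lib.MP_86e60f_al.HW.Stmt3
import Pool.Agent.Lib.MP_86e60f_al.HW.Uex

set_option autoImplicit false

open MvPolynomial Module Matrix

namespace Pool.Agent.Lib.MP_86e60f_al.HW

namespace Uex2

variable {k L : Type*} [Field k] [CommRing L] [Algebra k L] (D : Md k L)

/-- An admissible map that does not lower orders is a multiplication of order at least zero. -/
theorem exists_mul (I : Submodule k (HahnSeries ℤ L)) (hD : D.Red) (hI : D.SLat I) (hR : D.Rig I)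
    (Φ : HahnSeries ℤ L →ₗ[k] HahnSeries ℤ L) (h1 : ∀ b, ∀ g ∈ D.HT b, Φ g ∈ D.HT b)
    (h2 : ∀ a ∈ D.RR, ∀ g ∈ I, Φ (a * g) - a * Φ g ∈ I) :
    ∃ U ∈ D.HT 0, ∀ g ∈ I, Φ g - U * g ∈ I := by
  obtain ⟨b, hb⟩ := hI.low
  obtain ⟨N, hN⟩ := hI.big
  obtain ⟨U, hU, hU'⟩ := hR Φ ⟨⟨b, fun g hg => h1 b g (hb hg)⟩, h2⟩
  refine ⟨U, ⟨hU, ?_⟩, hU'⟩
  by_contra hne
  obtain ⟨b0, hb0⟩ := exists_low U
  obtain ⟨lo, hc, hlo⟩ := Int.exists_least_of_bdd (P := fun z => U.coeff z ≠ 0)
    ⟨b0, fun z hz => not_lt.1 fun h => hz (hb0 z h)⟩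
    (by
      by_contra h
      exact hne fun j _ => by
        by_contra h'
        exact h ⟨j, h'⟩)
  have hlow : ∀ z, z < lo → U.coeff z = 0 := fun z hz => by
    by_contra h
    have := hlo z h
    omega
  have hneg : lo < 0 := by
    by_contra h
    exact hne fun j hj => hlow j (by omega)
  have hUT : U ∈ D.HT lo := ⟨hU, hlow⟩
  have step : ∀ j, ∀ x ∈ D.Ld I j, U.coeff lo * x ∈ D.Ld I (lo + j) := by
    intro j x hx
    obtain ⟨F, hF, hFj, rfl⟩ := D.mem_Ld.1 hx
    have h3 := h1 j F hFj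
    refine D.mem_Ld.2 ⟨-(Φ F - U * F), Submodule.neg_mem _ (hU' F hF),
      Submodule.neg_mem _ (Submodule.sub_mem _ (D.HT_anti (by omega) h3) (D.HT_mul hUT hFj)), ?_⟩
    rw [neg_sub, HahnSeries.coeff_sub, coeff_mul_lead hlow hFj.2, h3.2 _ (by omega), sub_zero]
  have hn := D.hn
  have hr : N ≤ (N.toNat : ℤ) * D.n := by
    have h3 : N ≤ (N.toNat : ℤ) := Int.self_le_toNat N
    have h4 : (0 : ℤ) ≤ (N.toNat : ℤ) := Int.natCast_nonneg _
    nlinarith
  have hpow : ∀ m : ℕ, U.coeff lo ^ m ∈ D.Ld I (m * lo + (N.toNat : ℤ) * D.n) := by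
    intro m
    induction m with
    | zero =>
      have h3 := D.single_HT (D.one_mem_H (N.toNat : ℤ))
      refine D.mem_Ld.2 ⟨_, hN (D.HT_anti hr h3), by simpa using h3, ?_⟩
      simp
    | succ m ih =>
      have := step _ _ ih
      rw [← pow_succ'] at this
      convert this using 2
      push_cast
      ring
  refine hc (hD lo _ (hU lo) ⟨((N.toNat : ℤ) * D.n - b + 1).toNat, ?_⟩)
  obtain ⟨F, hF, -, h3⟩ := D.mem_Ld.1 (hpow ((N.toNat : ℤ) * D.n - b + 1).toNat)
  rw [← h3]
  refine (hb hF).2 _ ?_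
  have h4 := Int.self_le_toNat ((N.toNat : ℤ) * D.n - b + 1)
  have h5 := Int.natCast_nonneg ((N.toNat : ℤ) * D.n - b + 1).toNat
  nlinarith

end Uex2

namespace Md

variable {k L : Type*} [Field k] [CommRing L] [Algebra k L] [FiniteDimensional k L]

set_option linter.unusedSectionVars false in
theorem sU2 (D : Md k L) (I : Submodule k (HahnSeries ℤ L)) (hD : D.Red) (hL : SLeib k L)
    (hI : D.SLat I) (hR : D.Rig I) : ∃ a, D.SU2 I a := by
  obtain ⟨u, hu⟩ := Uex.rec_exists (0 : HahnSeries ℤ L)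
    (fun r u => (r = 0 → u 0 = 1) ∧ u r ∈ D.HT 0 ∧ ∀ g ∈ I, Uex.Sm k u 0 r g ∈ I)
    (fun r u v h ⟨h1, h2, h3⟩ => ⟨fun hr => h 0 (Nat.zero_le r) ▸ h1 hr, h r le_rfl ▸ h2,
      fun g hg => Uex.Sm_congr (k := k) h 0 g ▸ h3 g hg⟩)
    (fun r u h => by
      by_cases hr : r = 0
      · subst hr
        refine ⟨1, fun _ => Function.update_self _ _ _, ?_, fun g hg => ?_⟩
        · rw [Function.update_self]
          exact D.RR_le_HT D.one_mem_RR
        · rw [Uex.Sm_apply]
          simpa [hL.zero] using hg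
      have hv : ∀ i ≤ r, Function.update u r 0 i ∈ D.HT 0 := fun i hi => by
        by_cases h' : i = r
        · rw [h', Function.update_self]
          exact Submodule.zero_mem _
        · rw [Function.update_of_ne h']
          exact (h i (by omega)).2.1
      obtain ⟨U, hU, hU'⟩ := Uex2.exists_mul D I hD hI hR (Uex.Sm k (Function.update u r 0) 0 r)
        (fun b g hg => Uex.Sm_HT D hv hg) (fun a ha g hg => by
          have hm : (0, r) ∈ Finset.HasAntidiagonal.antidiagonal r :=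
            Finset.HasAntidiagonal.mem_antidiagonal.2 (zero_add r)
          rw [Uex.Sm_of _ (fun c => Dh k 0 c a) 0 g (a * g)
            (fun c => by simpa using hL.mul 0 0 c a g), ← Finset.add_sum_erase _ _ hm]
          simp only [hL.zero, add_sub_cancel_left]
          refine Submodule.sum_mem _ fun p hp => hI.mul _ (Uex.Dh_RR D ha 0 _) _ ?_
          have h1 := Finset.mem_erase.1 hp
          have h2 := Finset.HasAntidiagonal.mem_antidiagonal.1 h1.2
          have h3 : p.2 < r := by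
            by_contra h'
            exact h1.1 (Prod.ext (by simp only; omega) (by simp only; omega))
          rw [Uex.Sm_congr (v := u) (fun i hi => Function.update_of_ne (by omega) _ _)]
          exact (h _ h3).2.2 g hg)
      refine ⟨-U, fun h' => absurd h' hr, ?_, fun g hg => ?_⟩
      · rw [Function.update_self]
        exact Submodule.neg_mem _ hU
      · rw [Uex.Sm_update hL, neg_mul, ← sub_eq_add_neg]
        exact hU' g hg)
  refine ⟨fun i => (u i).coeff 0, u, (hu 0).1 rfl, fun i => (hu i).2.1, fun _ => rfl,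
    fun j0 r g hg => ?_⟩
  rw [← Uex.Sm_apply, Uex.Sm_of u (fun c => ((Ring.choose (-j0) c : ℤ) : HahnSeries ℤ L)) j0 g g
    (fun c => by simpa only [zsmul_eq_mul] using hL.off j0 c g)]
  refine Submodule.sum_mem _ fun p _ => ?_
  rw [← zsmul_eq_mul]
  exact zsmul_mem ((hu p.2).2.2 g hg) _

end Md

end Pool.Agent.Lib.MP_86e60f_al.HW
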