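import Mathlib
import Pool.Agent.Lib.MP_86e60f_al.HW.Stmt3

set_option autoImplicit false

open MvPolynomial Module Matrix

namespace Pool.Agent.Lib.MP_86e60f_al.HW

/-- The last member of a regular sequence is regular modulo the first two. -/
theorem reg_of_isRegular {k : Type*} [Field k] {f g y : Q k}
    (h : RingTheory.Sequence.IsRegular (Q k) [f, g, y]) (q : Q k)
    (hq : y * q ∈ Ideal.span {f, g}) : q ∈ Ideal.span {f, g} := by
  have h2 := (isSMulRegular_quotient_iff_mem_of_smul_mem _ _).1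
    (h.1.regular_mod_prev 2 (by simp))
  have e2 : Ideal.ofList [f, g] = Ideal.span {f, g} := by
    rw [Ideal.ofList_cons, Ideal.ofList_singleton, Ideal.span_insert]
  simp only [List.take_succ_cons, List.take_zero, List.getElem_cons_zero, List.getElem_cons_succ,
    smul_eq_mul, Ideal.mul_top, e2] at h2
  exact h2 q hq

namespace Md

variable {k L : Type*} [Field k] [CommRing L] [Algebra k L] [FiniteDimensional k L] (D : Md k L)

omit [FiniteDimensional k L] in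
theorem Uni_pow {j : ℤ} {u : L} (hu : u ∈ D.H j) (m : ℕ) : u ^ m ∈ D.H (m * j) := by
  induction m with
  | zero => simpa using D.V_le_H 0 D.one_mem_V_zero
  | succ m ih =>
    have := D.H_mul ih hu
    rwa [← pow_succ, show (m : ℤ) * j + j = ((m + 1 : ℕ) : ℤ) * j by push_cast; ring] at this

omit [FiniteDimensional k L] in
/-- A homogeneous polynomial regular modulo the ideal acts injectively on each piece. -/
theorem Uni_reg {y : Q k} {n : ℤ} (h : y ∈ Qd D.w n) (r : ∀ q, y * q ∈ D.P → q ∈ D.P)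
    {j : ℤ} {u : L} (hu : u ∈ D.H j) (h0 : D.ev y * u = 0) : u = 0 := by
  obtain ⟨s, q, hq, rfl⟩ := D.mem_H.1 hu
  refine D.ev_P (r q ((D.mem_P_iff (Qd_mul h hq)).2 ?_))
  rw [map_mul]
  exact h0

/-- Such a polynomial has a homogeneous inverse. -/
theorem Uni_inv {y : Q k} {n : ℤ} (h : y ∈ Qd D.w n) (r : ∀ q, y * q ∈ D.P → q ∈ D.P) :
    ∃ v ∈ D.H (-n), D.ev y * v = 1 := by
  have hu : D.ev y ∈ D.H n := D.V_le_H _ (D.ev_mem_V h)
  obtain ⟨m, hm⟩ : ∃ m : ℕ, D.n = (m + 1 : ℕ) := ⟨(D.n - 1).toNat, by have := D.hn; omega⟩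
  have hreg : ∀ (s : ℕ) (j : ℤ), ∀ x ∈ D.H j, D.ev y ^ s * x = 0 → x = 0 := by
    intro s
    induction s with
    | zero => intro j x _ hx; simpa using hx
    | succ s ih =>
      intro j x hx e
      refine D.Uni_reg h r hx (ih _ _ (D.H_mul hu hx) ?_)
      rw [← e, pow_succ, mul_assoc]
  have hw : D.ev y ^ (m + 1) ∈ D.H 0 := by
    have := D.Uni_pow hu (m + 1)
    rwa [← hm, show D.n * n = 0 + n * D.n by ring, D.H_add_int] at this
  let φ : D.H 0 →ₗ[k] D.H 0 := (LinearMap.mulLeft k (D.ev y ^ (m + 1))).restrict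
    fun x hx => by simpa using D.H_mul hw hx
  have hinj : Function.Injective φ := by
    refine (injective_iff_map_eq_zero φ).2 fun x hx => Subtype.ext ?_
    exact hreg (m + 1) 0 x.1 x.2 (congrArg Subtype.val hx)
  obtain ⟨x, hx⟩ := LinearMap.injective_iff_surjective.1 hinj
    ⟨1, D.V_le_H 0 D.one_mem_V_zero⟩
  have hx' : D.ev y ^ (m + 1) * x.1 = 1 := congrArg Subtype.val hx
  refine ⟨D.ev y ^ m * x.1, ?_, by rw [← hx']; ring⟩
  have := D.H_mul (D.Uni_pow hu m) x.2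
  rwa [show (m : ℤ) * n + 0 = -n + n * D.n by rw [hm]; push_cast; ring, D.H_add_int] at this

omit [FiniteDimensional k L] in
/-- Integer powers of a homogeneous unit. -/
theorem Uni_zpow {j : ℤ} {u v : L} (hu : u ∈ D.H j) (hv : v ∈ D.H (-j)) (huv : u * v = 1)
    (a : ℤ) : ∃ u' ∈ D.H (a * j), ∃ v' ∈ D.H (-(a * j)), u' * v' = 1 := by
  obtain ⟨m, rfl | rfl⟩ := Int.eq_nat_or_neg a
  · refine ⟨u ^ m, D.Uni_pow hu m, v ^ m, ?_, by rw [← mul_pow, huv, one_pow]⟩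
    simpa using D.Uni_pow hv m
  · refine ⟨v ^ m, ?_, u ^ m, ?_, by rw [← mul_pow, mul_comm, huv, one_pow]⟩
    · simpa using D.Uni_pow hv m
    · simpa using D.Uni_pow hu m

/-- Two regular homogeneous elements of coprime degrees give a unit of degree one. -/
theorem uni_of (y1 y2 : Q k) (n1 n2 : ℤ) (h1 : y1 ∈ Qd D.w n1) (h2 : y2 ∈ Qd D.w n2)
    (r1 : ∀ q, y1 * q ∈ D.P → q ∈ D.P) (r2 : ∀ q, y2 * q ∈ D.P → q ∈ D.P)
    (hc : IsCoprime n1 n2) : D.Uni := by
  obtain ⟨a, b, hab⟩ := hc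
  obtain ⟨v1, hv1, e1⟩ := D.Uni_inv h1 r1
  obtain ⟨v2, hv2, e2⟩ := D.Uni_inv h2 r2
  obtain ⟨p1, hp1, q1, hq1, f1⟩ := D.Uni_zpow (D.V_le_H _ (D.ev_mem_V h1)) hv1 e1 a
  obtain ⟨p2, hp2, q2, hq2, f2⟩ := D.Uni_zpow (D.V_le_H _ (D.ev_mem_V h2)) hv2 e2 b
  refine ⟨p1 * p2, hab ▸ D.H_mul hp1 hp2, q1 * q2, ?_, ?_⟩
  · have := D.H_mul hq1 hq2
    rwa [← neg_add, hab] at this
  · rw [mul_mul_mul_comm, f1, f2, one_mul]

end Md

end Pool.Agent.Lib.MP_86e60f_al.HW
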