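import Mathlib
import Pool.Agent.Lib.MP_86e60f_al.HW.Main
import Pool.Agent.Lib.MP_86e60f_al.HW.Abs2
import Pool.Agent.Lib.MP_86e60f_al.HW.Norm
import Pool.Agent.Lib.MP_86e60f_al.HW.Uex2
import Pool.Agent.Lib.MP_86e60f_al.HW.Trans
import Pool.Agent.Lib.MP_86e60f_al.HW.Step2
import Pool.Agent.Lib.MP_86e60f_al.HW.Grad2
import Pool.Agent.Lib.MP_86e60f_al.HW.Shift
import Pool.Agent.Lib.MP_86e60f_al.HW.Inv
import Pool.Agent.Lib.MP_86e60f_al.HW.Fin2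
import Pool.Agent.Lib.MP_86e60f_al.HW.C22
import Pool.Agent.Lib.MP_86e60f_al.HW.Uni

set_option autoImplicit false

open MvPolynomial Module Matrix
open scoped TensorProduct

namespace Pool.Agent.Lib.MP_86e60f_al.HW

namespace Md

variable {k L : Type*} [Field k] [CommRing L] [Algebra k L] [FiniteDimensional k L] (D : Md k L)

omit [FiniteDimensional k L] in
theorem gen_of_map {I : Submodule k (HahnSeries ℤ L)} {v v' : HahnSeries ℤ L} (hv : v * v' = 1)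
    (h : ∃ g0 ∈ I.map (LinearMap.mulLeft k v), ∀ g ∈ I.map (LinearMap.mulLeft k v),
      ∃ a ∈ D.RR, g = a * g0) : ∃ g0 ∈ I, ∀ g ∈ I, ∃ a ∈ D.RR, g = a * g0 := by
  obtain ⟨_, ⟨g0, hg0, rfl⟩, h'⟩ := h
  refine ⟨g0, hg0, fun g hg => ?_⟩
  obtain ⟨a, ha, e⟩ := h' _ ⟨g, hg, rfl⟩
  refine ⟨a, ha, ?_⟩
  simp only [LinearMap.mulLeft_apply] at e
  calc g = v' * (v * g) := by rw [← mul_assoc, mul_comm v', hv, one_mul]
    _ = a * (v * v' * g0) := by rw [e]; ring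
    _ = a * g0 := by rw [hv, one_mul]

/-- A rigid fractional ideal of the reduced completed ring is principal. -/
theorem principal_of_rig2 (hD : D.Red) (hU : D.Uni) (I : Submodule k (HahnSeries ℤ L))
    (hI : D.SLat I) (hR : D.Rig I) : ∃ g0 ∈ I, ∀ g ∈ I, ∃ a ∈ D.RR, g = a * g0 := by
  have hT := D.sTrans (sLeib k L)
  obtain ⟨a, ha⟩ := D.sU2 I hD (sLeib k L) hI hR
  obtain ⟨v, hv, v', hv', h1, a', hN, ha'⟩ := D.sShift hD hU (sNorm k L) hT I a ha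
  obtain ⟨t1, t2, -⟩ := hT I v hv v' hv' h1
  refine D.gen_of_map h1 ?_
  obtain ⟨u, -, u', -, h2, hG, hI', hR'⟩ := D.sGrad2 _ a' hT
    (fun I' l1 l2 m hm hP => D.sStep2 I' m a' (sAbs2 k L) l1 hm hP l2 hN) (t1 hI) (t2 hR) ha'
  refine D.gen_of_map h2 ?_
  obtain ⟨b, hE, hV⟩ := D.lat_vRig _ hG hI' hR'
  obtain ⟨s, x0, hx0, h⟩ := D.sPrin b _ hE (D.sCore b _ hE
    (D.gRig_of_vRig b _ hE (D.sCl b _ hE) hV)
    fun j hj => D.Hm_neg b _ hE hD j (D.neg_of_le hj))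
  exact D.gen_of_grd _ hG s x0 hx0 hI' h

/-- The theorem for regular ideals of the reduced completed ring. -/
theorem thmI2 (hU : D.Uni) (R : Type*) [CommRing R] [IsReduced R] [Nontrivial R]
    (π : MvPowerSeries (Fin 3) k →+* R) (hπ : Function.Surjective π) (hker : RingHom.ker π =
      Ideal.span {(D.f : MvPowerSeries (Fin 3) k), (D.g : MvPowerSeries (Fin 3) k)}) :
    (∃ y : R, IsRegular y ∧ ¬ IsUnit y) ∧
      (∀ r : R, IsRegular r → ∀ x, ¬ IsUnit x → ∃ s : ℕ, r ∣ x ^ s) ∧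
      ∀ I : Ideal R, (∃ r ∈ I, IsRegular r) →
        Module.IsTorsionFree R (I ⊗[R] Module.Dual R I) → I.IsPrincipal := by
  obtain ⟨ρ0, h0⟩ := D.exists_rho
  have h1 := D.sRho ρ0 h0
  let ρ : R →+* HahnSeries ℤ L := π.liftOfSurjective hπ ⟨ρ0, by rw [hker, h1.ker]⟩
  have hρ : ∀ x, ρ (π x) = ρ0 x := fun x => π.liftOfSurjective_comp_apply hπ _ x
  have hinj : Function.Injective ρ := by
    rw [injective_iff_map_eq_zero]
    intro r hr
    obtain ⟨x, rfl⟩ := hπ r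
    rw [hρ, ← RingHom.mem_ker, h1.ker, ← hker] at hr
    exact hr
  have hrange : ∀ F, F ∈ D.RR ↔ ∃ x, ρ x = F := fun F => by
    rw [h1.range]
    constructor
    · rintro ⟨x, rfl⟩
      exact ⟨π x, hρ x⟩
    · rintro ⟨r, rfl⟩
      obtain ⟨x, rfl⟩ := hπ r
      exact ⟨x, (hρ x).symm⟩
  have hunit : ∀ x, ¬ IsUnit x → (ρ x).coeff 0 = 0 := fun r hr => by
    obtain ⟨x, rfl⟩ := hπ r
    rw [hρ, h1.const]
    by_contra h
    refine hr (IsUnit.map π (MvPowerSeries.isUnit_iff_constantCoeff.2 (Ne.isUnit fun h' => h ?_)))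
    rw [h', map_zero]
  obtain ⟨hD, hF, hN, hJ⟩ := D.sFin2 R D.sInv ρ inferInstance inferInstance hinj hrange hunit
  refine ⟨hF, hN, fun I hI hT => ?_⟩
  obtain ⟨J, hJ1, hJ2, hJ3⟩ := hJ I hI
  obtain ⟨lam, hl⟩ := D.exists_lam
  obtain ⟨_, hg0, h⟩ := D.principal_of_rig2 hD hU J hJ3 (D.rig_of_bal lam J hl
    (D.sRep lam (D.sPair _ lam hl)) hJ3 hJ2 (D.sTFI R ρ hinj hrange I J hJ1 hJ3 hT))
  obtain ⟨g0, hg0', rfl⟩ := (hJ1 _).1 hg0
  refine ⟨g0, le_antisymm (fun g hg => ?_) ((Submodule.span_singleton_le_iff_mem _ _).2 hg0')⟩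
  obtain ⟨_, ha, e⟩ := h _ ((hJ1 _).2 ⟨g, hg, rfl⟩)
  obtain ⟨a, rfl⟩ := (hrange _).1 ha
  exact Submodule.mem_span_singleton.2 ⟨a, hinj (by rw [smul_eq_mul, map_mul, e])⟩

end Md

end Pool.Agent.Lib.MP_86e60f_al.HW
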