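import Mathlib
import Pool.Agent.Lib.MP_86e60f_al.HW.Stmt

set_option autoImplicit false

open MvPolynomial Module Matrix

namespace Pool.Agent.Lib.MP_86e60f_al.HW

namespace Md

variable {k L ι : Type*} [Field k] [CommRing L] [Algebra k L]

theorem Pair_nd (D : Md k L) (lam : L →ₗ[k] k) (hl : D.IsLam lam) (j : ℤ) (u : L)
    (hu : u ∈ D.H j) (h : ∀ v ∈ D.H (D.a - j), lam (u * v) = 0) : u = 0 := by
  have hn := D.hn
  have hneg : j + (-(|j| + 1)) * D.n < 0 := by
    have h1 : j ≤ |j| := le_abs_self j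
    have h2 : 0 ≤ |j| := abs_nonneg j
    nlinarith
  have hu' : u ∈ D.H (j + (-(|j| + 1)) * D.n) := by rwa [D.H_add_int]
  refine D.V_neg hneg ((hl _ u hu').2 fun v hv => h v ?_)
  have hv' := D.V_le_H _ hv
  rwa [show D.a - (j + (-(|j| + 1)) * D.n) = D.a - j + (|j| + 1) * D.n by ring,
    D.H_add_int] at hv'

theorem Pair_rep [FiniteDimensional k L] (D : Md k L) (lam : L →ₗ[k] k) (hl : D.IsLam lam)
    (j : ℤ) (μ : L →ₗ[k] k) : ∃ u ∈ D.H (D.a - j), ∀ c ∈ D.H j, μ c = lam (u * c) := by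
  let B : D.H (D.a - j) →ₗ[k] D.H j →ₗ[k] k :=
    ((LinearMap.mul k L).compr₂ lam).compl₁₂ (D.H (D.a - j)).subtype (D.H j).subtype
  have hB : ∀ (u : D.H (D.a - j)) (c : D.H j), B u c = lam (u.1 * c.1) := fun _ _ => rfl
  have hinj : Function.Injective B.flip := by
    rw [injective_iff_map_eq_zero]
    intro c hc
    refine Subtype.ext (D.Pair_nd lam hl j c.1 c.2 fun v hv => ?_)
    have h1 : B.flip c ⟨v, hv⟩ = 0 := by rw [hc]; rfl
    rw [mul_comm]
    exact h1
  obtain ⟨u, hu⟩ := LinearMap.flip_injective_iff₁.mp hinj (μ ∘ₗ (D.H j).subtype)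
  refine ⟨u.1, u.2, fun c hc => ?_⟩
  have h1 := LinearMap.congr_fun hu ⟨c, hc⟩
  rw [hB] at h1
  exact h1.symm

variable [Fintype ι]

theorem Pair_dot (D : Md k L) (b : ι → ℤ) {s i : ℤ} {u x : ι → L}
    (hu : ∀ q, u q ∈ D.H (s + b q)) (hx : x ∈ D.FH b i) : u ⬝ᵥ x ∈ D.H (i + s) := by
  refine Submodule.sum_mem _ fun q _ => ?_
  have := D.H_mul (hu q) (D.mem_FH.1 hx q)
  rwa [show s + b q + (i - b q) = i + s by ring] at this

variable [FiniteDimensional k L] [DecidableEq ι]

theorem sPair (D : Md k L) (b : ι → ℤ) (lam : L →ₗ[k] k) (hl : D.IsLam lam) :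
    D.SPair b lam where
  nd := D.Pair_nd lam hl
  rep := D.Pair_rep lam hl
  repV := by
    intro i μ
    choose u hu hu' using fun q : ι =>
      D.Pair_rep lam hl (i - b q) (μ ∘ₗ LinearMap.single k (fun _ : ι => L) q)
    refine ⟨u, fun q => ?_, fun x hx => ?_⟩
    · have := hu q
      rwa [show D.a - (i - b q) = D.a - i + b q by ring] at this
    · have h1 : μ x = ∑ q, μ (Pi.single q (x q)) := by
        rw [← map_sum, Finset.univ_sum_single]
      rw [h1, dotProduct, map_sum]
      exact Finset.sum_congr rfl fun q _ => hu' q (x q) (D.mem_FH.1 hx q)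
  repM := by
    intro j μ
    choose U hU hU' using fun p q : ι =>
      D.Pair_rep lam hl (D.a - j + b p - b q) (μ ∘ₗ Matrix.singleLinearMap k q p)
    refine ⟨Matrix.of U, fun p q => ?_, fun U' h' => ?_⟩
    · have := hU p q
      rwa [show D.a - (D.a - j + b p - b q) = j + b q - b p by ring] at this
    · have h1 : μ U' = ∑ q, ∑ p, μ (Matrix.single q p (U' q p)) := by
        conv_lhs => rw [Matrix.matrix_eq_sum_single U']
        simp only [map_sum]
      rw [h1, Finset.sum_comm, Matrix.trace, map_sum]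
      refine Finset.sum_congr rfl fun p _ => ?_
      rw [Matrix.diag_apply, Matrix.mul_apply, map_sum]
      exact Finset.sum_congr rfl fun q _ => hU' p q (U' q p) (h' q p)
  ndM := by
    intro j U hU h
    ext p q
    refine D.Pair_nd lam hl _ _ (hU p q) fun v hv => ?_
    have hm : Matrix.single q p v ∈ D.Mat b (D.a - j) := by
      intro q' p'
      by_cases hc : q = q' ∧ p = p'
      · obtain ⟨rfl, rfl⟩ := hc
        rw [Matrix.single_apply_same]
        rwa [show D.a - (j + b q - b p) = D.a - j + b p - b q by ring] at hv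
      · rw [Matrix.single_apply_of_ne _ _ _ _ _ hc]
        exact Submodule.zero_mem _
    have h1 := h _ hm
    rwa [Matrix.trace_mul_single, op_smul_eq_mul] at h1

omit [FiniteDimensional k L] [DecidableEq ι] in
theorem sVd (D : Md k L) (b : ι → ℤ) (E : ℤ → Submodule k (ι → L)) (lam : L →ₗ[k] k)
    (hl : D.IsLam lam) (hp : D.SPair b lam) (hE : D.Lat b E) : D.SVd b E lam := by
  intro i x hx h
  by_contra hxE
  obtain ⟨μ, hμ, hμE⟩ := Submodule.exists_dual_map_eq_bot_of_notMem hxE inferInstance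
  obtain ⟨u, hu, hu'⟩ := hp.repV i μ
  refine hμ ((hu' x hx).trans (h u ⟨hu, fun t y hy => ?_⟩))
  refine (hl _ _ (D.Pair_dot b hu (D.FV_le_FH t (hE.le t hy)))).2 fun v hv => ?_
  have h1 := hE.smul _ t v hv y hy
  rw [show t + (D.a - (t + (D.a - i))) = i by ring] at h1
  have h2 : μ (v • y) = 0 := by
    have h3 : μ (v • y) ∈ (E i).map μ := Submodule.mem_map_of_mem h1
    rwa [hμE, Submodule.mem_bot] at h3
  rw [hu' _ (D.FV_le_FH i (hE.le i h1)), dotProduct_smul, smul_eq_mul, mul_comm] at h2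
  exact h2

end Md

end Pool.Agent.Lib.MP_86e60f_al.HW
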