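import Mathlib

set_option autoImplicit false

open scoped TensorProduct

namespace Pool.Agent.Lib.MP_86e60f_al.HW

variable {k ι A : Type*} [Field k] [CommRing A]

/-- The degree `i` part of the graded free module `ι → A` over a quotient `A` of the polynomial
ring, the generator `e_p` having degree `b p`. -/
def freePiece (w : Fin 3 → ℤ) (b : ι → ℤ) (π : MvPolynomial (Fin 3) k →+* A) (i : ℤ) :
    Set (ι → A) :=
  {x | ∃ v : ι → MvPolynomial (Fin 3) k,
    (∀ p, (v p).IsWeightedHomogeneous w (i - b p)) ∧ ∀ p, x p = π (v p)}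

/-- The submodule is generated by homogeneous elements. -/
def IsGradedSub (w : Fin 3 → ℤ) (b : ι → ℤ) (π : MvPolynomial (Fin 3) k →+* A)
    (M : Submodule A (ι → A)) : Prop :=
  M ≤ Submodule.span A {x | x ∈ M ∧ ∃ i, x ∈ freePiece w b π i}

/-- The submodule has no nonzero endomorphism of degree `j`. -/
def NoEndOfDegree (w : Fin 3 → ℤ) (b : ι → ℤ) (π : MvPolynomial (Fin 3) k →+* A)
    (M : Submodule A (ι → A)) (j : ℤ) : Prop :=
  ∀ φ : M →ₗ[A] M,
    (∀ i : ℤ, ∀ x : M, x.1 ∈ freePiece w b π i → (φ x).1 ∈ freePiece w b π (i + j)) → φ = 0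

/-- The tensor product of the module with its dual is torsion free. -/
def TensorDualTF (A M : Type*) [CommRing A] [AddCommGroup M] [Module A M] : Prop :=
  Module.IsTorsionFree A (M ⊗[A] Module.Dual A M)

end Pool.Agent.Lib.MP_86e60f_al.HW
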