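import Mathlib
import Pool.Agent.Lib.MP_86e60f_al.Defs

set_option autoImplicit false

open scoped TensorProduct

namespace Pool.Agent.Lib.MP_86e60f_al.HW

/-- The module `M ⊗ Ext^1(M, R)` is Cohen-Macaulay of codimension one. -/
def TensorExtCM (R M : Type) [CommRing R] [IsLocalRing R] [AddCommGroup M] [Module R M] : Prop :=
  IsCMOfCodim R
    (M ⊗[R] CategoryTheory.Abelian.Ext.{0} (ModuleCat.of R M) (ModuleCat.of R R) 1) 1

end Pool.Agent.Lib.MP_86e60f_al.HW
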