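import Mathlib
import Pool.Agent.Lib.MP_86e60f_al.HW.Stmt2

set_option autoImplicit false

open MvPolynomial Module Matrix

namespace Pool.Agent.Lib.MP_86e60f_al.HW

namespace Rho1

variable {k : Type*} [Field k] {w : Fin 3 → ℤ}

theorem fin (hw : ∀ l, 0 < w l) (j : ℤ) : {α : Fin 3 →₀ ℕ | Finsupp.weight w α = j}.Finite := by
  refine Set.Finite.subset (Set.finite_Iic (Finsupp.equivFunOnFinite.symm fun _ => j.toNat)) ?_
  intro α hα l
  have h1 := le_weight' hw α l
  have h2 : Finsupp.weight w α = j := hα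
  simp only [Finsupp.equivFunOnFinite_symm_apply_apply]
  omega

/-- The homogeneous part of degree `j` of a power series. -/
noncomputable def hp (hw : ∀ l, 0 < w l) (j : ℤ) (x : MvPowerSeries (Fin 3) k) : Q k :=
  ∑ α ∈ (fin hw j).toFinset, monomial α (MvPowerSeries.coeff α x)

theorem coeff_hp (hw : ∀ l, 0 < w l) (j : ℤ) (x : MvPowerSeries (Fin 3) k) (α : Fin 3 →₀ ℕ) :
    coeff α (hp hw j x) = if Finsupp.weight w α = j then MvPowerSeries.coeff α x else 0 := by
  classical
  rw [hp, coeff_sum]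
  simp only [coeff_monomial]
  rw [Finset.sum_ite_eq']
  simp

theorem hp_mem (hw : ∀ l, 0 < w l) (j : ℤ) (x : MvPowerSeries (Fin 3) k) : hp hw j x ∈ Qd w j := by
  refine Submodule.sum_mem _ fun α hα => ?_
  have h : Finsupp.weight w α = j := by simpa using hα
  rw [← h]
  exact Qd_monomial α _

theorem hp_eq (hw : ∀ l, 0 < w l) {j : ℤ} {x : MvPowerSeries (Fin 3) k} {q : Q k}
    (hq : q ∈ Qd w j)
    (h : ∀ α, Finsupp.weight w α = j → coeff α q = MvPowerSeries.coeff α x) : hp hw j x = q := by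
  ext α
  rw [coeff_hp]
  split_ifs with h1
  · exact (h α h1).symm
  · exact (IsWeightedHomogeneous.coeff_eq_zero hq α h1).symm

theorem hp_neg (hw : ∀ l, 0 < w l) {j : ℤ} (hj : j < 0) (x : MvPowerSeries (Fin 3) k) :
    hp hw j x = 0 := Qd_neg hw hj (hp_mem hw j x)

theorem hp_zero (hw : ∀ l, 0 < w l) (j : ℤ) : hp hw j (0 : MvPowerSeries (Fin 3) k) = 0 :=
  hp_eq hw (Submodule.zero_mem _) fun _ _ => by simp

theorem hp_add (hw : ∀ l, 0 < w l) (j : ℤ) (x y : MvPowerSeries (Fin 3) k) :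
    hp hw j (x + y) = hp hw j x + hp hw j y :=
  hp_eq hw (Submodule.add_mem _ (hp_mem hw j x) (hp_mem hw j y)) fun α hα => by
    rw [coeff_add, coeff_hp, coeff_hp, if_pos hα, if_pos hα, map_add]

theorem hp_one (hw : ∀ l, 0 < w l) (j : ℤ) :
    hp hw j (1 : MvPowerSeries (Fin 3) k) = if j = 0 then 1 else 0 := by
  classical
  split_ifs with h
  · refine hp_eq hw (h ▸ Qd_one) fun α _ => ?_
    rw [coeff_one, MvPowerSeries.coeff_one]
    simp only [eq_comm]
  · refine hp_eq hw (Submodule.zero_mem _) fun α hα => ?_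
    rw [coeff_zero, MvPowerSeries.coeff_one, if_neg]
    rintro rfl
    exact h (by rw [← hα, map_zero])

theorem hp_mul (hw : ∀ l, 0 < w l) (j : ℤ) (x y : MvPowerSeries (Fin 3) k) :
    hp hw j (x * y) = ∑ s ∈ Finset.Icc 0 j, hp hw s x * hp hw (j - s) y := by
  classical
  refine hp_eq hw (Submodule.sum_mem _ fun s _ => ?_) fun α hα => ?_
  · have := Qd_mul (hp_mem hw s x) (hp_mem hw (j - s) y)
    rwa [add_sub_cancel] at this
  · rw [coeff_sum, MvPowerSeries.coeff_mul]
    simp only [coeff_mul]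
    rw [Finset.sum_comm]
    refine Finset.sum_congr rfl fun p hp' => ?_
    have h1 : Finsupp.weight w p.1 + Finsupp.weight w p.2 = j := by
      rw [← map_add, Finset.HasAntidiagonal.mem_antidiagonal.1 hp', hα]
    have h2 := weight_nonneg' hw p.1
    have h3 := weight_nonneg' hw p.2
    rw [Finset.sum_eq_single_of_mem (Finsupp.weight w p.1) (Finset.mem_Icc.2 ⟨h2, by omega⟩)]
    · rw [coeff_hp, coeff_hp, if_pos rfl, if_pos (by omega)]
    · intro s _ hs
      rw [coeff_hp, if_neg (Ne.symm hs), zero_mul]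

end Rho1

namespace Md

variable {k L : Type*} [Field k] [CommRing L] [Algebra k L] (D : Md k L)

/-- The Laurent series attached to a power series. -/
noncomputable def rho1Fun (x : MvPowerSeries (Fin 3) k) : HahnSeries ℤ L where
  coeff j := D.ev (Rho1.hp D.hw j x)
  isPWO_support' := by
    refine Set.IsWF.isPWO (BddBelow.isWF ⟨0, fun j hj => ?_⟩)
    by_contra h
    exact hj (by
      change D.ev (Rho1.hp D.hw j x) = 0
      rw [Rho1.hp_neg D.hw (not_le.1 h), map_zero])

theorem rho1Fun_coeff (x : MvPowerSeries (Fin 3) k) (j : ℤ) :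
    (D.rho1Fun x).coeff j = D.ev (Rho1.hp D.hw j x) := rfl

theorem rho1Fun_low (x : MvPowerSeries (Fin 3) k) (s : ℤ) (hs : s < 0) :
    (D.rho1Fun x).coeff s = 0 := by
  rw [rho1Fun_coeff, Rho1.hp_neg D.hw hs, map_zero]

theorem exists_rho : ∃ ρ, D.SRho1 ρ := by
  refine ⟨{ toFun := D.rho1Fun
            map_one' := ?_
            map_mul' := fun x y => ?_
            map_zero' := ?_
            map_add' := fun x y => ?_ }, fun x j q hq h => ?_⟩
  · ext j
    rw [rho1Fun_coeff, Rho1.hp_one, HahnSeries.coeff_one]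
    split_ifs <;> simp
  · ext j
    rw [coeff_mul_Icc (D.rho1Fun_low x) (D.rho1Fun_low y), rho1Fun_coeff, Rho1.hp_mul, map_sum,
      sub_zero]
    exact Finset.sum_congr rfl fun s _ => map_mul _ _ _
  · ext j
    rw [rho1Fun_coeff, Rho1.hp_zero, map_zero, HahnSeries.coeff_zero]
  · ext j
    rw [HahnSeries.coeff_add, rho1Fun_coeff, Rho1.hp_add, map_add, rho1Fun_coeff, rho1Fun_coeff]
  · change (D.rho1Fun x).coeff j = _
    rw [rho1Fun_coeff, Rho1.hp_eq D.hw hq h]

end Md

end Pool.Agent.Lib.MP_86e60f_al.HW
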